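import Pool.Agent.G4.BAM
import Pool.Agent.PQ.LNF

/-!
# G4 / BAS

Basic facts on `em`, `tri`, `qy`, `cub`, `cud` (Mathlib: `rename`, `IsHomogeneous`, `pderiv`; induction `MvPolynomial.induction_on` or
`MvPolynomial.ringHom_ext`/`algHom_ext` for the compositions).  `em_hom`: `IsHomogeneous.rename_isHomogeneous`.  `em_inj`: `rename_injective`.
`pderiv_em`: both sides are derivations; check on the variables, or `pderiv_rename`.  `pderiv_em2`: the variable 2 does not occur.
`eval_em`: `eval_rename`.  `map_em`: `map_rename`.  The rest by `simp only [tri, qy, cub, cud, map_add, map_mul, ...]`.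
-/

namespace Pool.Agent.G4

open MvPolynomial Matrix
open Pool.Agent.PQ (P3 lin sb SF NS Bit)

section

variable {R : Type*} [CommRing R]

private theorem bas_nat {σ : Type*} (n : ℕ) [n.AtLeastTwo] :
    (OfNat.ofNat n : MvPolynomial σ R).IsHomogeneous 0 := by
  rw [← map_ofNat (C : R →+* MvPolynomial σ R) n]
  exact isHomogeneous_C _ _

private theorem bas_smul {f : P2 R} {n : ℕ} (h : f.IsHomogeneous n) (c : R) (x : Fin 2 → R) :
    eval (c • x) f = c ^ n * eval x f := by
  rw [eval_eq, eval_eq, Finset.mul_sum]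
  refine Finset.sum_congr rfl fun m hm => ?_
  have hd : ∑ i, m i = n := by
    have := h (mem_support_iff.1 hm)
    rw [← this, Finsupp.weight_apply, Finsupp.sum_fintype _ _ (by simp)]
    simp
  simp only [Pi.smul_apply, smul_eq_mul, mul_pow, Finset.prod_mul_distrib, Finset.prod_pow_eq_pow_sum]
  have h3 : ∏ i ∈ m.support, c ^ m i = c ^ n := by
    rw [Finset.prod_pow_eq_pow_sum, ← hd]
    congr 1
    exact Finset.sum_subset (Finset.subset_univ _) fun i _ hi => by simpa using hi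
  rw [← h3]
  simp only [Finset.prod_pow_eq_pow_sum]
  ring

theorem em_C (c : R) : em (C c : P2 R) = C c := by
  simp only [em]
  exact rename_C _ _

theorem em_X0 : em (X 0 : P2 R) = X 0 := by
  simp only [em, rename_X]
  rfl

theorem em_X1 : em (X 1 : P2 R) = X 1 := by
  simp only [em, rename_X]
  rfl

theorem em_hom {f : P2 R} {n : ℕ} (h : f.IsHomogeneous n) : (em f).IsHomogeneous n := by
  exact h.rename_isHomogeneous

theorem em_inj : Function.Injective (em : P2 R → P3 R) := by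
  exact rename_injective _ (Fin.castSucc_injective 2)

theorem eval_em (f : P2 R) (x : Fin 3 → R) : eval x (em f) = eval ![x 0, x 1] f := by
  simp only [em]
  rw [eval_rename]
  congr 2
  funext i
  fin_cases i <;> rfl

theorem pderiv_em0 (f : P2 R) : pderiv 0 (em f) = em (pderiv 0 f) := by
  induction f using MvPolynomial.induction_on with
  | C a => rw [em_C, pderiv_C, pderiv_C, map_zero]
  | add p q hp hq => simp only [map_add, hp, hq]
  | mul_X p i hp =>
    rw [map_mul, pderiv_mul, pderiv_mul, map_add, map_mul, map_mul, hp]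
    congr 2
    fin_cases i
    · change pderiv 0 (em (X 0)) = em (pderiv 0 (X 0))
      rw [em_X0, pderiv_X_self, pderiv_X_self, map_one]
    · change pderiv 0 (em (X 1)) = em (pderiv 0 (X 1))
      rw [em_X1, pderiv_X_of_ne (by decide), pderiv_X_of_ne (by decide), map_zero]

theorem pderiv_em1 (f : P2 R) : pderiv 1 (em f) = em (pderiv 1 f) := by
  induction f using MvPolynomial.induction_on with
  | C a => rw [em_C, pderiv_C, pderiv_C, map_zero]
  | add p q hp hq => simp only [map_add, hp, hq]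
  | mul_X p i hp =>
    rw [map_mul, pderiv_mul, pderiv_mul, map_add, map_mul, map_mul, hp]
    congr 2
    fin_cases i
    · change pderiv 1 (em (X 0)) = em (pderiv 1 (X 0))
      rw [em_X0, pderiv_X_of_ne (by decide), pderiv_X_of_ne (by decide), map_zero]
    · change pderiv 1 (em (X 1)) = em (pderiv 1 (X 1))
      rw [em_X1, pderiv_X_self, pderiv_X_self, map_one]

theorem pderiv_em2 (f : P2 R) : pderiv 2 (em f) = 0 := by
  induction f using MvPolynomial.induction_on with
  | C a => rw [em_C, pderiv_C]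
  | add p q hp hq => rw [map_add, map_add, hp, hq, add_zero]
  | mul_X p i hp =>
    rw [map_mul, pderiv_mul, hp, zero_mul, zero_add]
    have : pderiv 2 (em (X i : P2 R)) = 0 := by
      fin_cases i
      · change pderiv 2 (em (X 0)) = 0
        rw [em_X0, pderiv_X_of_ne (by decide)]
      · change pderiv 2 (em (X 1)) = 0
        rw [em_X1, pderiv_X_of_ne (by decide)]
    rw [this, mul_zero]

theorem eval_tri (A : Fin 3 → P2 R) (x : Fin 3 → R) : eval x (tri A) =
    x 2 ^ 3 + eval ![x 0, x 1] (A 0) * x 2 ^ 2 + eval ![x 0, x 1] (A 1) * x 2 + eval ![x 0, x 1] (A 2) := by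
  simp only [tri, map_add, map_mul, map_pow, eval_X, eval_em]

theorem pderiv_tri0 (A : Fin 3 → P2 R) : pderiv 0 (tri A) =
    em (pderiv 0 (A 0)) * X 2 ^ 2 + em (pderiv 0 (A 1)) * X 2 + em (pderiv 0 (A 2)) := by
  simp only [tri, map_add, pderiv_mul, pderiv_pow, pderiv_em0]
  rw [pderiv_X_of_ne (by decide)]
  ring

theorem pderiv_tri1 (A : Fin 3 → P2 R) : pderiv 1 (tri A) =
    em (pderiv 1 (A 0)) * X 2 ^ 2 + em (pderiv 1 (A 1)) * X 2 + em (pderiv 1 (A 2)) := by
  simp only [tri, map_add, pderiv_mul, pderiv_pow, pderiv_em1]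
  rw [pderiv_X_of_ne (by decide)]
  ring

theorem pderiv_tri2 (A : Fin 3 → P2 R) : pderiv 2 (tri A) =
    3 * X 2 ^ 2 + 2 * em (A 0) * X 2 + em (A 1) := by
  simp only [tri, map_add, pderiv_mul, pderiv_pow, pderiv_em2]
  rw [pderiv_X_self]
  ring

theorem eval_qy (A : Fin 3 → P2 R) (p r : P2 R) (x : Fin 3 → R) : eval x (qy A p r) =
    x 2 ^ 4 - 2 * (3 * eval ![x 0, x 1] p + eval ![x 0, x 1] (A 0)) * x 2 ^ 2 - 8 * eval ![x 0, x 1] r * x 2 +
      (eval ![x 0, x 1] (A 0) ^ 2 - 2 * eval ![x 0, x 1] (A 0) * eval ![x 0, x 1] p -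
        3 * eval ![x 0, x 1] p ^ 2 - 4 * eval ![x 0, x 1] (A 1)) := by
  simp only [qy, map_add, map_mul, map_pow, map_sub, eval_X, eval_em, map_ofNat]

theorem qy_hom {A : Fin 3 → P2 R} (hA : TH A) {p r : P2 R} (hp : p.IsHomogeneous 2) (hr : r.IsHomogeneous 3) :
    (qy A p r).IsHomogeneous 4 := by
  have h0 : (A 0).IsHomogeneous 2 := hA 0
  have h1 : (A 1).IsHomogeneous 4 := hA 1
  have hX : (X 2 : P3 R).IsHomogeneous 1 := isHomogeneous_X _ _
  have h2 : (2 : P3 R).IsHomogeneous 0 := bas_nat 2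
  have h8 : (8 : P3 R).IsHomogeneous 0 := bas_nat 8
  have k2 : (2 : P2 R).IsHomogeneous 0 := bas_nat 2
  have k3 : (3 : P2 R).IsHomogeneous 0 := bas_nat 3
  have k4 : (4 : P2 R).IsHomogeneous 0 := bas_nat 4
  have e1 : (X 2 ^ 4 : P3 R).IsHomogeneous 4 := by simpa using hX.pow 4
  have e2 : (2 * em (3 * p + A 0) * X 2 ^ 2 : P3 R).IsHomogeneous 4 := by
    simpa using (h2.mul (em_hom ((by simpa using k3.mul hp : (3 * p : P2 R).IsHomogeneous 2).add h0))).mul (hX.pow 2)
  have e3 : (8 * em r * X 2 : P3 R).IsHomogeneous 4 := by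
    simpa using (h8.mul (em_hom hr)).mul hX
  have e4 : (A 0 ^ 2 - 2 * A 0 * p - 3 * p ^ 2 - 4 * A 1 : P2 R).IsHomogeneous 4 := by
    have f1 : (A 0 ^ 2 : P2 R).IsHomogeneous 4 := by simpa using h0.pow 2
    have f2 : (2 * A 0 * p : P2 R).IsHomogeneous 4 := by simpa using (k2.mul h0).mul hp
    have f3 : (3 * p ^ 2 : P2 R).IsHomogeneous 4 := by simpa using k3.mul (hp.pow 2)
    have f4 : (4 * A 1 : P2 R).IsHomogeneous 4 := by simpa using k4.mul h1
    exact ((f1.sub f2).sub f3).sub f4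
  exact ((e1.sub e2).sub e3).add (em_hom e4)

theorem qy_single (A : Fin 3 → P2 R) (hA : TH A) {p r : P2 R} (hp : p.IsHomogeneous 2) (hr : r.IsHomogeneous 3) :
    eval (Pi.single 2 1) (qy A p r) = 1 := by
  have h0 : (A 0).IsHomogeneous 2 := hA 0
  have h1 : (A 1).IsHomogeneous 4 := hA 1
  have hz : ∀ {f : P2 R} {n : ℕ}, f.IsHomogeneous (n + 1) → eval ![(0 : R), 0] f = 0 := by
    intro f n hf
    have h2 : (![(0 : R), 0] : Fin 2 → R) = 0 := by
      funext i
      fin_cases i <;> rfl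
    rw [h2]
    have := bas_smul hf 0 0
    rwa [zero_smul, zero_pow (Nat.succ_ne_zero n), zero_mul] at this
  rw [eval_qy]
  have e0 : (Pi.single 2 1 : Fin 3 → R) 0 = 0 := rfl
  have e1 : (Pi.single 2 1 : Fin 3 → R) 1 = 0 := rfl
  have e2 : (Pi.single 2 1 : Fin 3 → R) 2 = 1 := rfl
  rw [e0, e1, e2, hz hp, hz hr, hz h0, hz h1]
  ring

theorem cub_hom {A : Fin 3 → P2 R} (hA : TH A) {p : P2 R} (hp : p.IsHomogeneous 2) :
    (cub A p).IsHomogeneous 6 := by
  have h0 : (A 0).IsHomogeneous 2 := hA 0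
  have h1 : (A 1).IsHomogeneous 4 := hA 1
  have h2 : (A 2).IsHomogeneous 6 := hA 2
  have f1 : (p ^ 3 : P2 R).IsHomogeneous 6 := by simpa using hp.pow 3
  have f2 : (A 0 * p ^ 2 : P2 R).IsHomogeneous 6 := by simpa using h0.mul (hp.pow 2)
  have f3 : (A 1 * p : P2 R).IsHomogeneous 6 := by simpa using h1.mul hp
  exact ((f1.add f2).add f3).add h2

theorem cud_hom {A : Fin 3 → P2 R} (hA : TH A) {p : P2 R} (hp : p.IsHomogeneous 2) :
    (cud A p).IsHomogeneous 4 := by
  have h0 : (A 0).IsHomogeneous 2 := hA 0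
  have h1 : (A 1).IsHomogeneous 4 := hA 1
  have k2 : (2 : P2 R).IsHomogeneous 0 := bas_nat 2
  have k3 : (3 : P2 R).IsHomogeneous 0 := bas_nat 3
  have f1 : (3 * p ^ 2 : P2 R).IsHomogeneous 4 := by simpa using k3.mul (hp.pow 2)
  have f2 : (2 * A 0 * p : P2 R).IsHomogeneous 4 := by simpa using (k2.mul h0).mul hp
  exact (f1.add f2).add h1

theorem smul_hom2 {f : P2 R} {n : ℕ} (h : f.IsHomogeneous n) (c : R) (x : Fin 2 → R) :
    eval (c • x) f = c ^ n * eval x f := by
  exact bas_smul h c x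

end

end Pool.Agent.G4
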