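import Pool.Agent.G4.BFC
import Pool.Agent.G4.BAS
import Pool.Agent.PQ.DVE

/-!
# G4 / ALS

Sections of a curve over `k` algebraically closed have coefficients in `k`.  If a coefficient `c` of `p` or `r` is not in (the image of) `k`, it is transcendental over
`k`, and `PQ.dva` gives a derivation `D : M → M` over `k` with `D c = 1`.  Extend `D` coefficientwise to a derivation of `P2 M` which kills `X i` and the polynomials
`map (algebraMap k M) f` (e.g. `cf Q = ∑ m ∈ Q.support, monomial m (D (coeff m Q))`, additive, Leibniz rule by induction; compare `PQ.cfd`, `PQ.dve`; or work with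
the values at the points of `k²`: `D (eval (algebraMap ∘ x) Q)`).  Apply to `r² = cub A p`: `2 r · Dr = cud A p · Dp`, `Dp` of degree 2, `Dr` of degree 3.
`bfc` with `R = 2 Dr`: `Dp = 0`, `2 Dr = 0`, so `Dr = 0`, contradiction to `D c = 1`.
-/

namespace Pool.Agent.G4

open MvPolynomial Matrix
open Pool.Agent.PQ (P3 lin sb SF NS Bit)

/-- apply `D` to the coefficients -/
private noncomputable def alcf {k M : Type*} [Field k] [Field M] [Algebra k M] (D : Derivation k M M) (Q : P2 M) :
    P2 M := ∑ m ∈ Q.support, monomial m (D (coeff m Q))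

private theorem alcf_coeff {k M : Type*} [Field k] [Field M] [Algebra k M] (D : Derivation k M M) (Q : P2 M)
    (m : Fin 2 →₀ ℕ) : coeff m (alcf D Q) = D (coeff m Q) := by
  classical
  rw [alcf, coeff_sum]
  simp only [coeff_monomial]
  rw [Finset.sum_ite_eq']
  split_ifs with h
  · rfl
  · rw [notMem_support_iff.1 h, map_zero]

private theorem alcf_add {k M : Type*} [Field k] [Field M] [Algebra k M] (D : Derivation k M M) (P Q : P2 M) :
    alcf D (P + Q) = alcf D P + alcf D Q := by
  ext m
  rw [coeff_add, alcf_coeff, alcf_coeff, alcf_coeff, coeff_add, map_add]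

private theorem alcf_mul {k M : Type*} [Field k] [Field M] [Algebra k M] (D : Derivation k M M) (P Q : P2 M) :
    alcf D (P * Q) = alcf D P * Q + P * alcf D Q := by
  classical
  ext m
  rw [coeff_add, alcf_coeff, coeff_mul, coeff_mul, coeff_mul, map_sum, ← Finset.sum_add_distrib]
  refine Finset.sum_congr rfl fun x _ => ?_
  rw [alcf_coeff, alcf_coeff, D.leibniz, smul_eq_mul, smul_eq_mul]
  ring

private theorem alcf_map {k M : Type*} [Field k] [Field M] [Algebra k M] (D : Derivation k M M) (Q : P2 k) :
    alcf D (map (algebraMap k M) Q) = 0 := by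
  ext m
  rw [alcf_coeff, coeff_map, D.map_algebraMap, coeff_zero]

private theorem alcf_hom {k M : Type*} [Field k] [Field M] [Algebra k M] (D : Derivation k M M) {Q : P2 M} {n : ℕ}
    (h : Q.IsHomogeneous n) : (alcf D Q).IsHomogeneous n := by
  intro m hm
  rw [alcf_coeff] at hm
  apply h
  intro h0
  rw [h0, map_zero] at hm
  exact hm rfl

private theorem als_lift {k M : Type*} [Field k] [Field M] [Algebra k M] (Q : P2 M)
    (h : ∀ m, ∃ c : k, algebraMap k M c = coeff m Q) : ∃ Q0 : P2 k, Q = map (algebraMap k M) Q0 := by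
  choose c hc using h
  refine ⟨∑ m ∈ Q.support, monomial m (c m), ?_⟩
  rw [map_sum]
  conv_lhs => rw [← support_sum_monomial_coeff Q]
  refine Finset.sum_congr rfl fun m _ => ?_
  rw [map_monomial, hc]

private theorem alg_range {k M : Type*} [Field k] [IsAlgClosed k] [Field M] [Algebra k M] (x : M)
    (hx : IsAlgebraic k x) : ∃ c : k, algebraMap k M c = x := by
  have h2 : (minpoly k x).degree = 1 :=
    IsAlgClosed.degree_eq_one_of_irreducible k (minpoly.irreducible hx.isIntegral)
  rw [minpoly.degree_eq_one_iff] at h2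
  exact h2

theorem als {k M : Type*} [Field k] [CharZero k] [IsAlgClosed k] [Field M] [IsAlgClosed M] [Algebra k M]
    (A : Fin 3 → P2 k) (hA : TH A) (p r : P2 M) (hs : Sec (fun i => map (algebraMap k M) (A i)) p r)
    (hc : ∀ x : Fin 2 → M, x ≠ 0 → eval x r = 0 → eval x (cud (fun i => map (algebraMap k M) (A i)) p) ≠ 0) :
    ∃ p0 r0 : P2 k, p = map (algebraMap k M) p0 ∧ r = map (algebraMap k M) r0 := by
  have hcz : CharZero M := charZero_of_injective_algebraMap (algebraMap k M).injective
  have hD : ∀ D : Derivation k M M, alcf D p = 0 ∧ alcf D r = 0 := by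
    intro D
    have h1 := congrArg (alcf D) hs.eq
    have hM : TH fun i => map (algebraMap k M) (A i) := TH.map _ hA
    rw [pow_two, alcf_mul, cub, alcf_add, alcf_add, alcf_add, alcf_map, pow_succ, pow_two, alcf_mul, alcf_mul,
      alcf_mul, alcf_mul, alcf_mul, alcf_map, alcf_map] at h1
    have h2 : (2 * alcf D r) * r = alcf D p * cud (fun i => map (algebraMap k M) (A i)) p := by
      rw [cud]
      linear_combination h1
    have hr2 : (2 * alcf D r).IsHomogeneous 3 := by
      have h4 : (2 : P2 M).IsHomogeneous 0 := by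
        rw [← map_ofNat (C : M →+* P2 M) 2]
        exact isHomogeneous_C _ _
      simpa using h4.mul (alcf_hom D hs.hr)
    obtain ⟨h5, h6⟩ := bfc r (cud (fun i => map (algebraMap k M) (A i)) p) (2 * alcf D r) (alcf D p) hs.hr
      (cud_hom hM hs.hp) hc hr2 (alcf_hom D hs.hp) h2
    refine ⟨h5, ?_⟩
    rcases mul_eq_zero.1 h6 with h7 | h7
    · exact absurd h7 two_ne_zero
    · exact h7
  have hal : ∀ c : M, (∀ D : Derivation k M M, D c = 0) → ∃ x : k, algebraMap k M x = c := by
    intro c h
    by_contra hne
    have ht : Transcendental k c := by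
      intro halg
      apply hne
      exact alg_range c halg
    obtain ⟨D, hDc⟩ := Pool.Agent.PQ.dva c ht
    rw [h D] at hDc
    exact zero_ne_one hDc
  obtain ⟨p0, hp0⟩ := als_lift p fun m => hal _ fun D => by
    rw [← alcf_coeff, (hD D).1, coeff_zero]
  obtain ⟨r0, hr0⟩ := als_lift r fun m => hal _ fun D => by
    rw [← alcf_coeff, (hD D).2, coeff_zero]
  exact ⟨p0, r0, hp0, hr0⟩

end Pool.Agent.G4
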