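import Pool.Agent.G4.Defs

/-!
# G4 / BAM

Ring homomorphisms: `map_rename`, then `simp only [tri, qy, cub, cud, map_add, map_mul, map_pow, map_sub, map_X, map_ofNat, ...]`.  Homogeneity: `IsHomogeneous.map`.
-/

namespace Pool.Agent.G4

open MvPolynomial Matrix
open Pool.Agent.PQ (P3 lin sb SF NS Bit)

section

variable {R S : Type*} [CommRing R] [CommRing S] (φ : R →+* S)

theorem map_em (f : P2 R) : map φ (em f) = em (map φ f) := by
  simp only [em]
  rw [map_rename]

theorem map_tri (A : Fin 3 → P2 R) : map φ (tri A) = tri fun i => map φ (A i) := by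
  simp only [tri, map_add, map_mul, map_pow, map_X, map_em]

theorem map_cub (A : Fin 3 → P2 R) (p : P2 R) : map φ (cub A p) = cub (fun i => map φ (A i)) (map φ p) := by
  simp only [cub, map_add, map_mul, map_pow]

theorem map_cud (A : Fin 3 → P2 R) (p : P2 R) : map φ (cud A p) = cud (fun i => map φ (A i)) (map φ p) := by
  simp only [cud, map_add, map_mul, map_pow, map_ofNat]

theorem map_qy (A : Fin 3 → P2 R) (p r : P2 R) :
    map φ (qy A p r) = qy (fun i => map φ (A i)) (map φ p) (map φ r) := by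
  simp only [qy, map_add, map_mul, map_pow, map_sub, map_X, map_em, map_ofNat]

theorem TH.map {A : Fin 3 → P2 R} (h : TH A) : TH fun i => MvPolynomial.map φ (A i) := by
  intro i
  exact (h i).map φ

theorem Sec.map {A : Fin 3 → P2 R} {p r : P2 R} (h : Sec A p r) :
    Sec (fun i => MvPolynomial.map φ (A i)) (MvPolynomial.map φ p) (MvPolynomial.map φ r) := by
  refine ⟨h.hp.map φ, h.hr.map φ, ?_⟩
  rw [← map_cub, ← h.eq, map_pow]

theorem Sec.neg {A : Fin 3 → P2 R} {p r : P2 R} (h : Sec A p r) : Sec A p (-r) := by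
  refine ⟨h.hp, h.hr.neg, ?_⟩
  rw [neg_sq, h.eq]

end

end Pool.Agent.G4
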