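import Pool.Agent.G4.DD3

/-!
# G4 / BFC

Coprime binary forms.  `bfc`: `r` of degree 3, `h` of degree 4 without common zeros, `R r = P h` with `R` of degree 3, `P` of degree 2; then
`P = 0` and `R = 0`.  Proof: `r ≠ 0`: otherwise `h` has a zero `x ≠ 0` (`hom_zero`) and `r(x) = 0`.  `h ≠ 0` similarly (`r` has a zero).  Suppose
`P ≠ 0`.  Claim: a form `r` of degree `n` without common zeros with `h` which divides `P h` divides `P` (induction on `n`): `n = 0`: `r` is a non-zero
constant.  `n + 1`: `r` has a zero `x`, the linear form `l = bl ![x 1, -x 0]` divides `r` (`hom_dvd`), it is prime (`bl_prime`), it divides `P h`, not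
`h` (`h(x) ≠ 0`), so it divides `P`; cancel `l` in `r = l r'`, `P = l P'` (`hom_cof`).  So `r ∣ P`, degrees 3 > 2: `P = 0` (`hom_big`).
Then `R r = 0`.
-/

namespace Pool.Agent.G4

open MvPolynomial Matrix
open Pool.Agent.PQ (P3 lin sb SF NS Bit)

theorem bfd {k : Type*} [Field k] [IsAlgClosed k] (n : ℕ) (r h P : P2 k) (hr : r.IsHomogeneous n) (hr0 : r ≠ 0)
    (hc : ∀ x : Fin 2 → k, x ≠ 0 → eval x r = 0 → eval x h ≠ 0) (hd : r ∣ P * h) : r ∣ P := by
  induction n generalizing r P with
  | zero =>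
    have h1 : r = C (coeff 0 r) := by
      have h2 := totalDegree_eq_zero_iff_eq_C.1 (Nat.le_zero.1 hr.totalDegree_le)
      exact h2
    have h2 : coeff 0 r ≠ 0 := by
      intro h
      rw [h, C_0] at h1
      exact hr0 h1
    rw [h1]
    exact (IsUnit.map C (isUnit_iff_ne_zero.2 h2)).dvd
  | succ n ih =>
    obtain ⟨x, hx, hrx⟩ := hom_zero (Nat.succ_pos n) hr
    have hl := hom_dvd hr x hx hrx
    have hv : (![x 1, -x 0] : Fin 2 → k) ≠ 0 := by
      intro h
      apply hx
      have h0 := congrFun h 0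
      have h1 := congrFun h 1
      simp only [Matrix.cons_val_zero, Matrix.cons_val_one, Pi.zero_apply, neg_eq_zero] at h0 h1
      ext i
      fin_cases i
      · exact h1
      · exact h0
    have hp := bl_prime hv
    have hnh : ¬ bl ![x 1, -x 0] ∣ h := by
      rintro ⟨w, hw⟩
      apply hc x hx hrx
      rw [hw, map_mul]
      have : eval x (bl ![x 1, -x 0]) = 0 := by
        simp [bl]
        ring
      rw [this, zero_mul]
    have hlP : bl ![x 1, -x 0] ∣ P := (hp.dvd_or_dvd (hl.trans hd)).resolve_right hnh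
    have hlh : (bl ![x 1, -x 0] : P2 k).IsHomogeneous 1 := by
      refine IsHomogeneous.add ?_ ?_
      · simpa using (isHomogeneous_C (Fin 2) (x 1)).mul (isHomogeneous_X k 0)
      · simpa using (isHomogeneous_C (Fin 2) (-x 0)).mul (isHomogeneous_X k 1)
    obtain ⟨r', hr', hrr⟩ := hom_cof hlh hp.ne_zero hr (by omega) hl
    obtain ⟨P', hPP⟩ := hlP
    have h3 : r' ∣ P' := by
      refine ih r' P' (by simpa using hr') ?_ ?_ ?_
      · rintro rfl
        rw [mul_zero] at hrr
        exact hr0 hrr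
      · intro y hy hy0
        apply hc y hy
        rw [hrr, map_mul, hy0, mul_zero]
      · rw [hrr, hPP, mul_assoc] at hd
        exact (mul_dvd_mul_iff_left hp.ne_zero).1 hd
    rw [hrr, hPP]
    exact mul_dvd_mul_left _ h3

theorem bfc {k : Type*} [Field k] [IsAlgClosed k] (r h R P : P2 k) (hr : r.IsHomogeneous 3)
    (hh : h.IsHomogeneous 4) (hc : ∀ x : Fin 2 → k, x ≠ 0 → eval x r = 0 → eval x h ≠ 0)
    (hR : R.IsHomogeneous 3) (hP : P.IsHomogeneous 2) (hE : R * r = P * h) : P = 0 ∧ R = 0 := by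
  have hr0 : r ≠ 0 := by
    rintro rfl
    obtain ⟨x, hx, hhx⟩ := hom_zero (by norm_num) hh
    exact hc x hx (map_zero _) hhx
  have h1 : r ∣ P := bfd 3 r h P hr hr0 hc ⟨R, by rw [← hE, mul_comm]⟩
  have h2 : P = 0 := hom_big hr hr0 hP (by norm_num) h1
  refine ⟨h2, ?_⟩
  rw [h2, zero_mul] at hE
  exact (mul_eq_zero.1 hE).resolve_right hr0

end Pool.Agent.G4
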