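import Pool.Agent.G4.BAS
import Pool.Agent.ESH.DefsG
import Pool.Agent.Helper11.Place
import Pool.Agent.Helper11.Residue

/-!
# G4 / BRX

Branch points of the trigonal function; compare `PQ/BRL.lean` (same proof; `F` is now `tri A`, monic of degree 3 in the variable 2, and `z` is integral at the places where `x` is: `z³ = -(a z² + b z + c)` with `a, b, c`
polynomials in `x`, so `P.ord z ≥ 0`; the Taylor expansion `brl_taylor` for `![x, 1, z]`, `![c, 1, z0]`, `pderiv 2`).
-/

namespace Pool.Agent.G4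

open MvPolynomial Matrix
open Pool.Agent.PQ (P3 lin sb SF NS Bit)

section

variable {C Φ : Type*} [Field C] [Field Φ] [Algebra C Φ]

/-- `z` is integral at places where `x` is -/
private theorem brx_int (P : Helper11.Place C Φ) (A : Fin 3 → P2 C) (x z : Φ)
    (h0 : eval₂ (algebraMap C Φ) ![x, 1, z] (tri A) = 0) (hx : x ∈ P.ge 0) : z ∈ P.ge 0 := by
  have hem : ∀ f : P2 C, eval₂ (algebraMap C Φ) ![x, 1, z] (em f) ∈ P.ge 0 := by
    intro f
    induction f using MvPolynomial.induction_on with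
    | C a =>
      rw [em_C, eval₂_C]
      exact P.algebraMap_mem_ge a
    | add p q hp hq =>
      rw [map_add, eval₂_add]
      exact add_mem hp hq
    | mul_X p i hp =>
      rw [map_mul, eval₂_mul]
      have hX : eval₂ (algebraMap C Φ) ![x, 1, z] (em (X i : P2 C)) ∈ P.ge 0 := by
        fin_cases i
        · change eval₂ (algebraMap C Φ) ![x, 1, z] (em (X 0 : P2 C)) ∈ P.ge 0
          rw [em_X0, eval₂_X]
          exact hx
        · change eval₂ (algebraMap C Φ) ![x, 1, z] (em (X 1 : P2 C)) ∈ P.ge 0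
          rw [em_X1, eval₂_X]
          have h1 := P.algebraMap_mem_ge (1 : C)
          rw [map_one] at h1
          exact h1
      have h2 := P.mul_mem_ge hp hX
      simpa using h2
  by_contra hy
  rw [P.mem_ge] at hy
  push Not at hy
  obtain ⟨hy0, hy1⟩ := hy
  have h1 : z ^ 3 = -(eval₂ (algebraMap C Φ) ![x, 1, z] (em (A 0)) * z ^ 2 +
      eval₂ (algebraMap C Φ) ![x, 1, z] (em (A 1)) * z + eval₂ (algebraMap C Φ) ![x, 1, z] (em (A 2))) := by
    rw [tri] at h0
    simp only [eval₂_add, eval₂_mul, eval₂_pow, eval₂_X] at h0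
    have h3 : (![x, 1, z] : Fin 3 → Φ) 2 = z := rfl
    rw [h3] at h0
    linear_combination h0
  have h2 : z ^ 3 ∈ P.ge (2 * P.ord z) := by
    rw [h1]
    refine neg_mem (add_mem (add_mem ?_ ?_) ?_)
    · have h3 := P.mul_mem_ge (hem (A 0)) (P.pow_mem_ge (P.mem_ge_ord z) 2)
      refine P.ge_anti ?_ h3
      push_cast
      omega
    · have h3 := P.mul_mem_ge (hem (A 1)) (P.mem_ge_ord z)
      refine P.ge_anti ?_ h3
      omega
    · refine P.ge_anti ?_ (hem (A 2))
      omega
  have h3 := P.le_ord_of_mem h2 (pow_ne_zero _ hy0)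
  rw [P.ord_pow] at h3
  push_cast at h3
  omega

/-- expansion at `(c, y0)` modulo `x - c` and `(y - y0)²` -/
private theorem brx_taylor (x y : Φ) (c y0 : C) (F : P3 C) :
    ∃ a1 ∈ Algebra.adjoin C {x, y}, ∃ a2 ∈ Algebra.adjoin C {x, y},
      eval₂ (algebraMap C Φ) ![x, 1, y] F = algebraMap C Φ (eval ![c, 1, y0] F) +
        (x - algebraMap C Φ c) * a1 + (y - algebraMap C Φ y0) *
          (algebraMap C Φ (eval ![c, 1, y0] (pderiv 2 F)) + (y - algebraMap C Φ y0) * a2) := by
  have hx : x ∈ Algebra.adjoin C {x, y} := Algebra.subset_adjoin (by simp)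
  have hy : y ∈ Algebra.adjoin C {x, y} := Algebra.subset_adjoin (by simp)
  have hc : ∀ a : C, algebraMap C Φ a ∈ Algebra.adjoin C {x, y} := fun a => Subalgebra.algebraMap_mem _ a
  have hev : ∀ p : P3 C, eval₂ (algebraMap C Φ) ![x, 1, y] p ∈ Algebra.adjoin C {x, y} := by
    intro p
    induction p using MvPolynomial.induction_on with
    | C a => rw [eval₂_C]; exact hc a
    | add p q hp hq => rw [eval₂_add]; exact add_mem hp hq
    | mul_X p i hp =>
      rw [eval₂_mul, eval₂_X]
      refine mul_mem hp ?_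
      fin_cases i
      · exact hx
      · exact one_mem _
      · exact hy
  induction F using MvPolynomial.induction_on with
  | C a =>
    refine ⟨0, zero_mem _, 0, zero_mem _, ?_⟩
    simp
  | add p q hp hq =>
    obtain ⟨a1, ha1, a2, ha2, h1⟩ := hp
    obtain ⟨b1, hb1, b2, hb2, h2⟩ := hq
    refine ⟨a1 + b1, add_mem ha1 hb1, a2 + b2, add_mem ha2 hb2, ?_⟩
    rw [eval₂_add, h1, h2]
    simp only [map_add]
    ring
  | mul_X p i hp =>
    obtain ⟨a1, ha1, a2, ha2, h1⟩ := hp
    have hpp := hev p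
    rw [eval₂_mul, eval₂_X, map_mul, eval_X, Derivation.leibniz, smul_eq_mul, smul_eq_mul, pderiv_X]
    fin_cases i
    · refine ⟨algebraMap C Φ c * a1 + eval₂ (algebraMap C Φ) ![x, 1, y] p,
        add_mem (mul_mem (hc _) ha1) hpp, algebraMap C Φ c * a2, mul_mem (hc _) ha2, ?_⟩
      have h2 : (Pi.single 2 1 : Fin 3 → P3 C) 0 = 0 := Pi.single_eq_of_ne (by decide) _
      simp only [Fin.zero_eta, Matrix.cons_val_zero, h2, mul_zero, zero_add, map_mul, eval_X]
      linear_combination (algebraMap C Φ c) * h1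
    · refine ⟨a1, ha1, a2, ha2, ?_⟩
      have h2 : (Pi.single 2 1 : Fin 3 → P3 C) 1 = 0 := Pi.single_eq_of_ne (by decide) _
      simp only [Fin.mk_one, Matrix.cons_val_one, Matrix.cons_val_zero, h2, mul_zero, zero_add, map_mul, eval_X,
        mul_one, one_mul]
      exact h1
    · refine ⟨algebraMap C Φ y0 * a1 + (y - algebraMap C Φ y0) * a1,
        add_mem (mul_mem (hc _) ha1) (mul_mem (sub_mem hy (hc _)) ha1),
        algebraMap C Φ y0 * a2 + algebraMap C Φ (eval ![c, 1, y0] (pderiv 2 p)) +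
          (y - algebraMap C Φ y0) * a2,
        add_mem (add_mem (mul_mem (hc _) ha2) (hc _)) (mul_mem (sub_mem hy (hc _)) ha2), ?_⟩
      have h2 : (Pi.single 2 1 : Fin 3 → P3 C) 2 = 1 := Pi.single_eq_same _ _
      simp only [Fin.reduceFinMk, Matrix.cons_val, h2, mul_one, map_add, map_mul, eval_X]
      linear_combination y * h1

/-- elements of `C[x, y]` modulo the maximal ideal of `(c, y0)` -/
private theorem brx_dec (x y : Φ) (c y0 : C) (p : Φ) (hp : p ∈ Algebra.adjoin C {x, y}) :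
    ∃ k : C, ∃ a1 ∈ Algebra.adjoin C {x, y}, ∃ a2 ∈ Algebra.adjoin C {x, y},
      p = algebraMap C Φ k + (x - algebraMap C Φ c) * a1 + (y - algebraMap C Φ y0) * a2 := by
  have hx : x ∈ Algebra.adjoin C {x, y} := Algebra.subset_adjoin (by simp)
  have hy : y ∈ Algebra.adjoin C {x, y} := Algebra.subset_adjoin (by simp)
  have hc : ∀ a : C, algebraMap C Φ a ∈ Algebra.adjoin C {x, y} := fun a => Subalgebra.algebraMap_mem _ a
  induction hp using Algebra.adjoin_induction with
  | mem z hz =>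
    rcases hz with rfl | hz
    · exact ⟨c, 1, one_mem _, 0, zero_mem _, by ring⟩
    · rw [Set.mem_singleton_iff.1 hz]
      exact ⟨y0, 0, zero_mem _, 1, one_mem _, by ring⟩
  | algebraMap r => exact ⟨r, 0, zero_mem _, 0, zero_mem _, by ring⟩
  | add p q _ _ hp hq =>
    obtain ⟨k, a1, ha1, a2, ha2, h1⟩ := hp
    obtain ⟨l, b1, hb1, b2, hb2, h2⟩ := hq
    refine ⟨k + l, a1 + b1, add_mem ha1 hb1, a2 + b2, add_mem ha2 hb2, ?_⟩
    rw [h1, h2, map_add]
    ring
  | mul p q hp' hq' hp hq =>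
    obtain ⟨k, a1, ha1, a2, ha2, h1⟩ := hp
    obtain ⟨l, b1, hb1, b2, hb2, h2⟩ := hq
    refine ⟨k * l, algebraMap C Φ k * b1 + a1 * q, add_mem (mul_mem (hc _) hb1) (mul_mem ha1 hq'),
      algebraMap C Φ k * b2 + a2 * q, add_mem (mul_mem (hc _) hb2) (mul_mem ha2 hq'), ?_⟩
    rw [map_mul]
    linear_combination q * h1 + algebraMap C Φ k * h2

end

theorem brx {C Φ : Type*} [Field C] [Field Φ] [Algebra C Φ] [Helper11.FunField C Φ] [IsAlgClosed C]
    (A : Fin 3 → P2 C) (x z : Φ) (h0 : eval₂ (algebraMap C Φ) ![x, 1, z] (tri A) = 0)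
    (hgen : IntermediateField.adjoin C {x, z} = ⊤) (c : C) (hbr : ESH.BrF x c) :
    ∃ z0 : C, eval ![c, 1, z0] (tri A) = 0 ∧ eval ![c, 1, z0] (pderiv 2 (tri A)) = 0 := by
  obtain ⟨P, hP⟩ := hbr
  have hxc0 : x - algebraMap C Φ c ≠ 0 := P.ne_zero_of_ord_ne_zero (by omega)
  have hxc : x - algebraMap C Φ c ∈ P.ge 1 := P.mem_ge_of_le (by omega)
  have hx : x ∈ P.ge 0 := by
    have h := add_mem (P.ge_anti zero_le_one hxc) (P.algebraMap_mem_ge c)
    rwa [sub_add_cancel] at h
  have hy := brx_int P A x z h0 hx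
  obtain ⟨z0, hy0⟩ := P.exists_residue hy
  -- elements of the algebra are integral
  have hA : ∀ a ∈ Algebra.adjoin C {x, z}, a ∈ P.ge 0 := by
    intro a ha
    induction ha using Algebra.adjoin_induction with
    | mem zz hz =>
      rcases hz with rfl | hz
      · exact hx
      · rw [Set.mem_singleton_iff.1 hz]
        exact hy
    | algebraMap r => exact P.algebraMap_mem_ge r
    | add p q _ _ hp hq => exact add_mem hp hq
    | mul p q _ _ hp hq => simpa using P.mul_mem_ge hp hq
  have hm : ∀ a1 ∈ Algebra.adjoin C {x, z}, ∀ a2 ∈ Algebra.adjoin C {x, z},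
      (x - algebraMap C Φ c) * a1 + (z - algebraMap C Φ z0) * a2 ∈ P.ge 1 := by
    intro a1 ha1 a2 ha2
    refine add_mem ?_ ?_
    · simpa using P.mul_mem_ge hxc (hA a1 ha1)
    · simpa using P.mul_mem_ge hy0 (hA a2 ha2)
  have hconst : ∀ k : C, algebraMap C Φ k ∈ P.ge 1 → k = 0 := by
    intro k hk
    by_contra hk0
    have h := P.le_ord_of_mem hk (by simpa using hk0)
    rw [P.ord_algebraMap] at h
    omega
  have hcc : ∀ a : C, algebraMap C Φ a ∈ Algebra.adjoin C {x, z} := fun a => Subalgebra.algebraMap_mem _ a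
  have hyA : z ∈ Algebra.adjoin C {x, z} := Algebra.subset_adjoin (by simp)
  obtain ⟨a1, ha1, a2, ha2, hT⟩ := brx_taylor x z c z0 (tri A)
  rw [h0] at hT
  have hhA : algebraMap C Φ (eval ![c, 1, z0] (pderiv 2 (tri A))) + (z - algebraMap C Φ z0) * a2 ∈
      Algebra.adjoin C {x, z} := add_mem (hcc _) (mul_mem (sub_mem hyA (hcc _)) ha2)
  have hF0 : eval ![c, 1, z0] (tri A) = 0 := by
    apply hconst
    have h := hm a1 ha1 _ hhA
    have h2 : algebraMap C Φ (eval ![c, 1, z0] (tri A)) = -((x - algebraMap C Φ c) * a1 + (z - algebraMap C Φ z0) *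
        (algebraMap C Φ (eval ![c, 1, z0] (pderiv 2 (tri A))) + (z - algebraMap C Φ z0) * a2)) := by
      linear_combination -hT
    rw [h2]
    exact neg_mem h
  refine ⟨z0, hF0, ?_⟩
  by_contra hd
  rw [hF0, map_zero, zero_add] at hT
  set hh := algebraMap C Φ (eval ![c, 1, z0] (pderiv 2 (tri A))) + (z - algebraMap C Φ z0) * a2 with hhdef
  have hd' : algebraMap C Φ (eval ![c, 1, z0] (pderiv 2 (tri A))) ≠ 0 := by simpa using hd
  have key : ∀ k : C, k ≠ 0 → ∀ u ∈ P.ge 1, algebraMap C Φ k + u ≠ 0 ∧ P.ord (algebraMap C Φ k + u) = 0 := by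
    intro k hk u hu
    have hk' : algebraMap C Φ k ≠ 0 := by simpa using hk
    have h := P.ord_add_eq_left (x := algebraMap C Φ k) (y := u) hk' (by
      rcases hu with hu | hu
      · exact Or.inl hu
      · right
        rw [P.ord_algebraMap]
        omega)
    rwa [P.ord_algebraMap] at h
  obtain ⟨hh0, hh1⟩ := key _ hd ((z - algebraMap C Φ z0) * a2) (by
    simpa using P.mul_mem_ge hy0 (hA a2 ha2))
  rw [← hhdef] at hh0 hh1
  set e := P.ord (x - algebraMap C Φ c) with hedef
  have hdiv : ∀ n : ℕ, ∀ p ∈ Algebra.adjoin C {x, z}, p ≠ 0 → P.ord p ≤ n → e ∣ P.ord p := by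
    intro n
    induction n with
    | zero =>
      intro p hp hp0 hn
      have h0 := P.le_ord_of_mem (hA p hp) hp0
      have : P.ord p = 0 := by
        push_cast at hn
        omega
      rw [this]
      exact dvd_zero _
    | succ n ih =>
      intro p hp hp0 hn
      obtain ⟨k, p1, hp1, p2, hp2, hE⟩ := brx_dec x z c z0 p hp
      by_cases hk : k = 0
      · rw [hk, map_zero, zero_add] at hE
        have h3 : hh * p = (x - algebraMap C Φ c) * (hh * p1 - a1 * p2) := by
          rw [hE]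
          linear_combination -p2 * hT
        have h4 : hh * p1 - a1 * p2 ∈ Algebra.adjoin C {x, z} :=
          sub_mem (mul_mem hhA hp1) (mul_mem ha1 hp2)
        have h5 : hh * p1 - a1 * p2 ≠ 0 := by
          intro h
          rw [h, mul_zero] at h3
          exact mul_ne_zero hh0 hp0 h3
        have h6 := congrArg P.ord h3
        rw [P.ord_mul _ _ hh0 hp0, P.ord_mul _ _ hxc0 h5, hh1, zero_add, ← hedef] at h6
        have h7 := ih _ h4 h5 (by
          push_cast at hn
          omega)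
        rw [h6]
        exact dvd_add (dvd_refl e) h7
      · obtain ⟨_, h1⟩ := key k hk _ (hm p1 hp1 p2 hp2)
        rw [add_assoc] at hE
        rw [hE, h1]
        exact dvd_zero _
  have hdiv' : ∀ p ∈ Algebra.adjoin C {x, z}, p ≠ 0 → e ∣ P.ord p := fun p hp hp0 =>
    hdiv (P.ord p).toNat p hp hp0 (Int.self_le_toNat _)
  obtain ⟨zz, hz⟩ := P.exists_ord_eq_one
  have hz0 : zz ≠ 0 := P.ne_zero_of_ord_ne_zero (by omega)
  have hzt : zz ∈ IntermediateField.adjoin C {x, z} := by
    rw [hgen]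
    exact IntermediateField.mem_top
  obtain ⟨r, hr, s, hs, hrs⟩ := IntermediateField.mem_adjoin_iff_div.1 hzt
  have hr0 : r ≠ 0 := by
    rintro rfl
    rw [zero_div] at hrs
    exact hz0 hrs
  have hs0 : s ≠ 0 := by
    rintro rfl
    rw [div_zero] at hrs
    exact hz0 hrs
  rw [hrs, P.ord_div hr0 hs0] at hz
  have hfin := dvd_sub (hdiv' r hr hr0) (hdiv' s hs hs0)
  rw [hz] at hfin
  have := Int.le_of_dvd one_pos hfin
  omega

end Pool.Agent.G4
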