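import Pool.Agent.G4.BAS

/-!
# G4 / BSB

Basic facts on `bl`, `bsb`.  Compare `PQ/LNF.lean`.  `MvPolynomial.algHom_ext`/`ringHom_ext`.  `bl_hom1`: a binary form of degree
1 is `bl v` (see `PQ.hom_one`).
-/

namespace Pool.Agent.G4

open MvPolynomial Matrix
open Pool.Agent.PQ (P3 lin sb SF NS Bit)

section

variable {R : Type*} [CommRing R]

theorem bl_hom (v : Fin 2 → R) : (bl v).IsHomogeneous 1 := by
  refine IsHomogeneous.add ?_ ?_
  · simpa using (isHomogeneous_C (Fin 2) (v 0)).mul (isHomogeneous_X R 0)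
  · simpa using (isHomogeneous_C (Fin 2) (v 1)).mul (isHomogeneous_X R 1)

theorem eval_bl (v x : Fin 2 → R) : eval x (bl v) = v ⬝ᵥ x := by
  simp [bl, dotProduct, Fin.sum_univ_two]

theorem bl_hom1 {f : P2 R} (h : f.IsHomogeneous 1) : ∃ v : Fin 2 → R, f = bl v := by
  have h1 : f ∈ homogeneousSubmodule (Fin 2) R 1 := h
  rw [homogeneousSubmodule_one_eq_span_X, Submodule.mem_span_range_iff_exists_fun] at h1
  obtain ⟨c, hc⟩ := h1
  refine ⟨c, ?_⟩
  rw [← hc, bl, Fin.sum_univ_two, smul_eq_C_mul, smul_eq_C_mul]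

theorem bl_eq_zero {v : Fin 2 → R} (h : bl v = 0) : v = 0 := by
  ext i
  have h1 := congrArg (eval (Pi.single i (1 : R))) h
  fin_cases i <;> simpa [bl, Pi.single_apply] using h1

theorem bsb_C (g : Matrix (Fin 2) (Fin 2) R) (c : R) : bsb g (C c) = C c := by
  simp [G4.bsb]

theorem bsb_X (g : Matrix (Fin 2) (Fin 2) R) (i : Fin 2) : bsb g (X i) = bl (g i) := by
  simp [G4.bsb]

theorem bsb_bl (g : Matrix (Fin 2) (Fin 2) R) (v : Fin 2 → R) : bsb g (bl v) = bl (v ᵥ* g) := by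
  simp only [bl, map_add, map_mul, bsb_C, bsb_X, vecMul, dotProduct, Fin.sum_univ_two]
  ring

theorem bsb_bsb (g h : Matrix (Fin 2) (Fin 2) R) (f : P2 R) : bsb g (bsb h f) = bsb (h * g) f := by
  have : (G4.bsb g).comp (G4.bsb h) = G4.bsb (h * g) := by
    refine algHom_ext fun i => ?_
    rw [AlgHom.comp_apply, bsb_X, bsb_bl, bsb_X]
    rfl
  rw [← this, AlgHom.comp_apply]

theorem bsb_one (f : P2 R) : bsb (1 : Matrix (Fin 2) (Fin 2) R) f = f := by
  have : G4.bsb (1 : Matrix (Fin 2) (Fin 2) R) = AlgHom.id R (P2 R) := by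
    refine algHom_ext fun i => ?_
    rw [bsb_X, AlgHom.id_apply]
    fin_cases i <;> simp [bl, Matrix.one_apply]
  rw [this, AlgHom.id_apply]

theorem eval_bsb (g : Matrix (Fin 2) (Fin 2) R) (f : P2 R) (x : Fin 2 → R) :
    eval x (bsb g f) = eval (g *ᵥ x) f := by
  have : (eval x).comp (G4.bsb g : P2 R →+* P2 R) = eval (g *ᵥ x) := by
    refine ringHom_ext (fun r => ?_) fun i => ?_
    · simp
    · rw [RingHom.comp_apply]
      change eval x (G4.bsb g (X i)) = _
      rw [bsb_X, eval_bl, eval_X]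
      rfl
  rw [← this, RingHom.comp_apply]
  rfl

theorem bsb_hom (g : Matrix (Fin 2) (Fin 2) R) {f : P2 R} {n : ℕ} (h : f.IsHomogeneous n) :
    (bsb g f).IsHomogeneous n := by
  have h := h.aeval (fun i => bl (g i)) (n := 1) fun i => bl_hom (g i)
  rwa [one_mul] at h

theorem map_bsb {S : Type*} [CommRing S] (φ : R →+* S) (g : Matrix (Fin 2) (Fin 2) R) (f : P2 R) :
    map φ (bsb g f) = bsb (g.map φ) (map φ f) := by
  have hbl : ∀ v : Fin 2 → R, map φ (bl v) = bl fun i => φ (v i) := fun v => by simp [bl]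
  have : (map φ).comp (G4.bsb g : P2 R →+* P2 R) = (G4.bsb (g.map φ) : P2 S →+* P2 S).comp (map φ) := by
    refine ringHom_ext (fun r => ?_) fun i => ?_
    · simp only [RingHom.comp_apply, RingHom.coe_coe, bsb_C, map_C]
    · simp only [RingHom.comp_apply, RingHom.coe_coe, bsb_X, hbl, map_X]
      rfl
  exact congrArg (fun F => F f) this

theorem TH.bsb {A : Fin 3 → P2 R} (h : TH A) (g : Matrix (Fin 2) (Fin 2) R) : TH fun i => bsb g (A i) := by
  intro i
  exact bsb_hom g (h i)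

theorem Sec.bsb {A : Fin 3 → P2 R} {p r : P2 R} (h : Sec A p r) (g : Matrix (Fin 2) (Fin 2) R) :
    Sec (fun i => G4.bsb g (A i)) (G4.bsb g p) (G4.bsb g r) := by
  refine ⟨bsb_hom g h.hp, bsb_hom g h.hr, ?_⟩
  rw [← map_pow, h.eq]
  simp only [cub, map_add, map_mul, map_pow]

end

end Pool.Agent.G4
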