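import Pool.Agent.G4.BSB

/-!
# G4 / BSC

Basic facts on `blk`, `sl`.  `em_bsb`: on generators (`algHom_ext` for the compositions): `em (bsb g (X i)) = em (bl (g i)) = lin (blk g μ i)` for `i = 0, 1`.
`sb_tri`, `sb_qy`: `sb (blk g 1)` fixes `X 2`.  `ns_tri_bsb`: `PQ.ns_sb` with `sb_tri`, `det (blk g 1) = det g`.  `sl_em`: `sl l` is a left inverse of `em`.
-/

namespace Pool.Agent.G4

open MvPolynomial Matrix
open Pool.Agent.PQ (P3 lin sb SF NS Bit)

section

variable {R : Type*} [CommRing R]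

theorem em_bsb (g : Matrix (Fin 2) (Fin 2) R) (μ : R) (f : P2 R) : em (bsb g f) = sb (blk g μ) (em f) := by
  have h : (em : P2 R →ₐ[R] P3 R).comp (bsb g) = (sb (blk g μ)).comp em := by
    refine algHom_ext fun i => ?_
    rw [AlgHom.comp_apply, AlgHom.comp_apply, bsb_X]
    fin_cases i
    · change em (bl (g 0)) = sb (blk g μ) (em (X 0))
      rw [em_X0, PQ.sb_X]
      simp [bl, lin, blk, Fin.sum_univ_three, em_C, em_X0, em_X1]
    · change em (bl (g 1)) = sb (blk g μ) (em (X 1))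
      rw [em_X1, PQ.sb_X]
      simp [bl, lin, blk, Fin.sum_univ_three, em_C, em_X0, em_X1]
  have h1 := congrArg (fun φ => φ f) h
  simpa using h1

theorem det_blk (g : Matrix (Fin 2) (Fin 2) R) (μ : R) : (blk g μ).det = g.det * μ := by
  simp [blk, Matrix.det_fin_three, Matrix.det_fin_two]
  ring

theorem sb_tri (g : Matrix (Fin 2) (Fin 2) R) (A : Fin 3 → P2 R) :
    sb (blk g 1) (tri A) = tri fun i => bsb g (A i) := by
  have h2 : sb (blk g 1) (X 2) = X 2 := by
    rw [PQ.sb_X]
    simp [lin, blk, Fin.sum_univ_three]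
  simp only [tri, map_add, map_mul, map_pow, h2, em_bsb g 1]

theorem sb_qy (g : Matrix (Fin 2) (Fin 2) R) (A : Fin 3 → P2 R) (p r : P2 R) :
    sb (blk g 1) (qy A p r) = qy (fun i => bsb g (A i)) (bsb g p) (bsb g r) := by
  have h2 : sb (blk g 1) (X 2) = X 2 := by
    rw [PQ.sb_X]
    simp [lin, blk, Fin.sum_univ_three]
  simp only [qy, map_add, map_sub, map_mul, map_pow, map_ofNat, h2, em_bsb g 1]

theorem sl_em (l f : P2 R) : sl l (em f) = f := by
  have h : (sl l).comp (em : P2 R →ₐ[R] P3 R) = AlgHom.id R (P2 R) := by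
    refine algHom_ext fun i => ?_
    rw [AlgHom.comp_apply, AlgHom.id_apply]
    fin_cases i
    · change sl l (em (X 0)) = X 0
      rw [em_X0]
      simp [sl]
    · change sl l (em (X 1)) = X 1
      rw [em_X1]
      simp [sl]
  have h1 := congrArg (fun φ => φ f) h
  simpa using h1

theorem sl_X2 (l : P2 R) : sl l (X 2) = l := by
  simp [sl]

theorem sl_C (l : P2 R) (c : R) : sl l (C c) = C c := by
  simp [sl]

theorem eval_sl (l : P2 R) (F : P3 R) (x : Fin 2 → R) :
    eval x (sl l F) = eval ![x 0, x 1, eval x l] F := by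
  have h : (eval x).comp (sl l : P3 R →+* P2 R) = eval ![x 0, x 1, eval x l] := by
    refine ringHom_ext (fun r => ?_) fun i => ?_
    · simp [sl]
    · rw [RingHom.comp_apply]
      change eval x (sl l (X i)) = _
      fin_cases i <;> simp [sl]
  have h1 := congrArg (fun φ => φ F) h
  simpa using h1

theorem sl_qy (A : Fin 3 → P2 R) (p r l : P2 R) : sl l (qy A p r) =
    l ^ 4 - 2 * (3 * p + A 0) * l ^ 2 - 8 * r * l + (A 0 ^ 2 - 2 * A 0 * p - 3 * p ^ 2 - 4 * A 1) := by
  simp only [qy, map_add, map_sub, map_mul, map_pow, map_ofNat, sl_em, sl_X2]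

end

theorem ns_tri_bsb {k : Type*} [Field k] {A : Fin 3 → P2 k} (h : NS (tri A))
    {g : Matrix (Fin 2) (Fin 2) k} (hg : g.det ≠ 0) : NS (tri fun i => bsb g (A i)) := by
  rw [← sb_tri]
  refine PQ.ns_sb (g := blk g 1) ?_ h
  rw [det_blk, mul_one]
  exact hg

end Pool.Agent.G4
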