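import Pool.Agent.G4.BAS

/-!
# G4 / NSF

Nullstellensatz: over an algebraically closed field `NS` implies `SF`.  The common zeros of the ideal `I` generated by `F` and its derivatives are contained in `{0}`, so `X i` vanishes on
the zero locus, so `X i ∈ I.radical` (`MvPolynomial.vanishingIdeal_zeroLocus_eq_radical`), `X i ^ n i ∈ I`; take `N = max`.
-/

namespace Pool.Agent.G4

open MvPolynomial Matrix
open Pool.Agent.PQ (P3 lin sb SF NS Bit)

theorem nsf {k : Type*} [Field k] [IsAlgClosed k] (F : P3 k) (hNS : NS F) : SF F := by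
  classical
  obtain ⟨I, hI⟩ : ∃ I : Ideal (P3 k), I = Ideal.span ({F} ∪ Set.range fun j : Fin 3 => pderiv j F) :=
    ⟨_, rfl⟩
  have hz : ∀ x ∈ zeroLocus k I, x = 0 := by
    intro x hx
    rw [mem_zeroLocus_iff] at hx
    by_contra h0
    have h1 : eval x F = 0 := by
      have := hx F (by rw [hI]; exact Ideal.subset_span (Or.inl rfl))
      rwa [aeval_eq_eval] at this
    obtain ⟨i, hi⟩ := hNS x h0 h1
    apply hi
    have := hx (pderiv i F) (by rw [hI]; exact Ideal.subset_span (Or.inr ⟨i, rfl⟩))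
    rwa [aeval_eq_eval] at this
  have hr : ∀ i, (X i : P3 k) ∈ I.radical := by
    intro i
    rw [← vanishingIdeal_zeroLocus_eq_radical (K := k) I, mem_vanishingIdeal_iff]
    intro x hx
    rw [hz x hx]
    simp
  choose n hn using fun i => Ideal.mem_radical_iff.1 (hr i)
  refine ⟨n 0 + n 1 + n 2, fun i => ?_⟩
  rw [← hI]
  have h2 : n i ≤ n 0 + n 1 + n 2 := by
    fin_cases i <;> simp <;> omega
  exact I.pow_mem_of_pow_mem (hn i) h2

end Pool.Agent.G4
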