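import Pool.Agent.G4.COP

/-!
# G4 / NSY

The plane quartic `G = qy A p r` is smooth.  Suppose `x = (s, t, u) ≠ 0`, `G(x) = 0`, all `G_j(x) = 0`.  If `s = t = 0`: `G(x) = u⁴` (`eval_qy`; forms of positive degree vanish at 0), so
`u = 0`, contradiction.  Let `z := (u² - p - a)/2` (values at `(s, t)`), `P := (s, t, z) ≠ 0`.  Identities (all polynomials in `s, t, u, z`):
`q := z² + z (p + a - u²) + p² + a p + b + p u² + 2 r u`, `4 q = (2 z + p + a - u²)² - G`, and with `w := u (z - p) - r`, `F = z³ + a z² + b z + c`: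
`w² - F = -(z - p) q` (uses `r² = cub A p`).  At our point `q` and all its first derivatives vanish (`2 z + p + a - u² = 0`), hence also those of `w² - F`.
Since `q_u = -2 w` we get `w = 0`, so `F(P) = 0` and `F_j(P) = 2 w w_j = 0` for `j = s, t, z`: contradiction to `hNS`.
For the derivatives with respect to `s, t` differentiate the polynomial identities: e.g. `∂_s`: `4 q_s = 2 (2 z + p + a - u²) (p_s + a_s) - G_s` with
`G_s` from `pderiv 0 (qy A p r)` and the derivative of `r² = cub A p`.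
-/

namespace Pool.Agent.G4

open MvPolynomial Matrix
open Pool.Agent.PQ (P3 lin sb SF NS Bit)

/-- the algebra at one point -/
private theorem nsy_alg {k : Type*} [Field k] (h2 : (2 : k) ≠ 0) {a b c P R u z : k}
    (hz : 2 * z = u ^ 2 - P - a)
    (hG : u ^ 4 - 2 * (3 * P + a) * u ^ 2 - 8 * R * u + (a ^ 2 - 2 * a * P - 3 * P ^ 2 - 4 * b) = 0)
    (hGu : 4 * u ^ 3 - 4 * (3 * P + a) * u - 8 * R = 0)
    (hr : R ^ 2 = P ^ 3 + a * P ^ 2 + b * P + c) :
    u * (z - P) - R = 0 ∧ z ^ 3 + a * z ^ 2 + b * z + c = 0 ∧ 3 * z ^ 2 + 2 * a * z + b = 0 := by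
  have h4 : (4 : k) ≠ 0 := by
    have : (4 : k) = 2 * 2 := by norm_num
    rw [this]
    exact mul_ne_zero h2 h2
  have h8 : (8 : k) ≠ 0 := by
    have : (8 : k) = 2 * 4 := by norm_num
    rw [this]
    exact mul_ne_zero h2 h4
  have e1 : u * (z - P) - R = 0 := by
    apply (mul_eq_zero.1 (_ : (8 : k) * (u * (z - P) - R) = 0)).resolve_left h8
    linear_combination hGu + 4 * u * hz
  have e2 : 2 * z + P + a - u ^ 2 = 0 := by linear_combination hz
  refine ⟨e1, ?_, ?_⟩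
  · apply (mul_eq_zero.1 (_ : (4 : k) * (z ^ 3 + a * z ^ 2 + b * z + c) = 0)).resolve_left h4
    linear_combination 4 * (u * (z - P) - R) * e1 + (z - P) * (2 * z + P + a - u ^ 2) * e2 -
      (z - P) * hG - 4 * hr
  · apply (mul_eq_zero.1 (_ : (4 : k) * (3 * z ^ 2 + 2 * a * z + b) = 0)).resolve_left h4
    linear_combination 8 * u * e1 + (2 * z + P + a - u ^ 2) * e2 - hG + 4 * (z - P) * e2

/-- the algebra of a first derivative at one point -/
private theorem nsy_der {k : Type*} [Field k] (h2 : (2 : k) ≠ 0) {a b P R u z a' b' c' P' R' : k}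
    (e2 : 2 * z + P + a - u ^ 2 = 0) (e1 : u * (z - P) - R = 0)
    (hG : u ^ 4 - 2 * (3 * P + a) * u ^ 2 - 8 * R * u + (a ^ 2 - 2 * a * P - 3 * P ^ 2 - 4 * b) = 0)
    (hG' : -2 * (3 * P' + a') * u ^ 2 - 8 * R' * u +
      (2 * a * a' - 2 * a' * P - 2 * a * P' - 6 * P * P' - 4 * b') = 0)
    (hr' : 2 * R * R' = 3 * P ^ 2 * P' + a' * P ^ 2 + 2 * a * P * P' + b' * P + b * P' + c') :
    a' * z ^ 2 + b' * z + c' = 0 := by
  have h4 : (4 : k) ≠ 0 := by
    have : (4 : k) = 2 * 2 := by norm_num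
    rw [this]
    exact mul_ne_zero h2 h2
  apply (mul_eq_zero.1 (_ : (4 : k) * (a' * z ^ 2 + b' * z + c') = 0)).resolve_left h4
  linear_combination 8 * (-u * P' - R') * e1 - P' * (2 * z + P + a - u ^ 2) * e2 + P' * hG +
    (z - P) * (2 * (P' + a')) * e2 - (z - P) * hG' - 4 * hr'

private theorem nsy_pd0 {k : Type*} [Field k] (A : Fin 3 → P2 k) (p r : P2 k) (x : Fin 3 → k) :
    eval x (pderiv 0 (qy A p r)) =
      -2 * (3 * eval ![x 0, x 1] (pderiv 0 p) + eval ![x 0, x 1] (pderiv 0 (A 0))) * x 2 ^ 2 -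
        8 * eval ![x 0, x 1] (pderiv 0 r) * x 2 +
      (2 * eval ![x 0, x 1] (A 0) * eval ![x 0, x 1] (pderiv 0 (A 0)) -
        2 * eval ![x 0, x 1] (pderiv 0 (A 0)) * eval ![x 0, x 1] p -
        2 * eval ![x 0, x 1] (A 0) * eval ![x 0, x 1] (pderiv 0 p) -
        6 * eval ![x 0, x 1] p * eval ![x 0, x 1] (pderiv 0 p) - 4 * eval ![x 0, x 1] (pderiv 0 (A 1))) := by
  have hX : pderiv (0 : Fin 3) (X 2 : P3 k) = 0 := pderiv_X_of_ne (by decide)
  have hc : ∀ (n : ℕ), pderiv (0 : Fin 3) ((n : ℕ) : P3 k) = 0 := fun n => by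
    rw [← map_natCast (C : k →+* P3 k) n, pderiv_C]
  have hc2 : pderiv (0 : Fin 3) (2 : P3 k) = 0 := by exact_mod_cast hc 2
  have hc8 : pderiv (0 : Fin 3) (8 : P3 k) = 0 := by exact_mod_cast hc 8
  have hd3 : pderiv (0 : Fin 3) (3 : P3 k) = 0 := by exact_mod_cast hc 3
  have hd4 : pderiv (0 : Fin 3) (4 : P3 k) = 0 := by exact_mod_cast hc 4
  simp only [qy, map_sub, map_add, pderiv_mul, pderiv_pow, hX, hc2, hc8, pderiv_em0, hd3, hd4,
    map_mul, eval_em, map_pow, eval_X, map_ofNat, map_zero, map_natCast]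
  push_cast
  ring

private theorem nsy_pd1 {k : Type*} [Field k] (A : Fin 3 → P2 k) (p r : P2 k) (x : Fin 3 → k) :
    eval x (pderiv 1 (qy A p r)) =
      -2 * (3 * eval ![x 0, x 1] (pderiv 1 p) + eval ![x 0, x 1] (pderiv 1 (A 0))) * x 2 ^ 2 -
        8 * eval ![x 0, x 1] (pderiv 1 r) * x 2 +
      (2 * eval ![x 0, x 1] (A 0) * eval ![x 0, x 1] (pderiv 1 (A 0)) -
        2 * eval ![x 0, x 1] (pderiv 1 (A 0)) * eval ![x 0, x 1] p -
        2 * eval ![x 0, x 1] (A 0) * eval ![x 0, x 1] (pderiv 1 p) -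
        6 * eval ![x 0, x 1] p * eval ![x 0, x 1] (pderiv 1 p) - 4 * eval ![x 0, x 1] (pderiv 1 (A 1))) := by
  have hX : pderiv (1 : Fin 3) (X 2 : P3 k) = 0 := pderiv_X_of_ne (by decide)
  have hc : ∀ (n : ℕ), pderiv (1 : Fin 3) ((n : ℕ) : P3 k) = 0 := fun n => by
    rw [← map_natCast (C : k →+* P3 k) n, pderiv_C]
  have hc2 : pderiv (1 : Fin 3) (2 : P3 k) = 0 := by exact_mod_cast hc 2
  have hc8 : pderiv (1 : Fin 3) (8 : P3 k) = 0 := by exact_mod_cast hc 8
  have hd3 : pderiv (1 : Fin 3) (3 : P3 k) = 0 := by exact_mod_cast hc 3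
  have hd4 : pderiv (1 : Fin 3) (4 : P3 k) = 0 := by exact_mod_cast hc 4
  simp only [qy, map_sub, map_add, pderiv_mul, pderiv_pow, hX, hc2, hc8, pderiv_em1, hd3, hd4,
    map_mul, eval_em, map_pow, eval_X, map_ofNat, map_zero, map_natCast]
  push_cast
  ring

private theorem nsy_pd2 {k : Type*} [Field k] (A : Fin 3 → P2 k) (p r : P2 k) (x : Fin 3 → k) :
    eval x (pderiv 2 (qy A p r)) =
      4 * x 2 ^ 3 - 4 * (3 * eval ![x 0, x 1] p + eval ![x 0, x 1] (A 0)) * x 2 -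
        8 * eval ![x 0, x 1] r := by
  have hX : pderiv (2 : Fin 3) (X 2 : P3 k) = 1 := pderiv_X_self _
  have hc : ∀ (n : ℕ), pderiv (2 : Fin 3) ((n : ℕ) : P3 k) = 0 := fun n => by
    rw [← map_natCast (C : k →+* P3 k) n, pderiv_C]
  have hc2 : pderiv (2 : Fin 3) (2 : P3 k) = 0 := by exact_mod_cast hc 2
  have hc8 : pderiv (2 : Fin 3) (8 : P3 k) = 0 := by exact_mod_cast hc 8
  rw [qy]
  simp only [map_sub, map_add, pderiv_mul, pderiv_pow, hX, hc2, hc8]
  rw [← map_sub, ← map_sub, ← map_sub, ← map_add em (3 * p) (A 0)]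
  simp only [pderiv_em2]
  simp only [map_sub, map_add, map_mul, eval_em, map_pow, eval_X, map_ofNat, map_zero, map_natCast,
    map_one]
  push_cast
  ring

theorem nsy {k : Type*} [Field k] (h2 : (2 : k) ≠ 0) (A : Fin 3 → P2 k) (hA : TH A) (hNS : NS (tri A))
    (p r : P2 k) (hs : Sec A p r) : NS (qy A p r) := by
  intro x hx hG
  by_contra hcon
  push Not at hcon
  have h0 := hcon 0
  have h1 := hcon 1
  have h2' := hcon 2
  rw [nsy_pd0] at h0
  rw [nsy_pd1] at h1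
  rw [nsy_pd2] at h2'
  rw [eval_qy] at hG
  have hr := congrArg (eval ![x 0, x 1]) hs.eq
  have hr0 := congrArg (fun f => eval ![x 0, x 1] (pderiv 0 f)) hs.eq
  have hr1 := congrArg (fun f => eval ![x 0, x 1] (pderiv 1 f)) hs.eq
  simp only [cub, map_add, map_mul, map_pow, pderiv_mul, pderiv_pow, map_natCast] at hr hr0 hr1
  push_cast at hr0 hr1
  obtain ⟨z, hz⟩ : ∃ z, z = (x 2 ^ 2 - eval ![x 0, x 1] p - eval ![x 0, x 1] (A 0)) / 2 := ⟨_, rfl⟩
  have hz' : 2 * z = x 2 ^ 2 - eval ![x 0, x 1] p - eval ![x 0, x 1] (A 0) := by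
    rw [hz]
    field_simp
  obtain ⟨e1, hF, hFz⟩ := nsy_alg h2 (c := eval ![x 0, x 1] (A 2)) hz' hG h2' hr
  have e2 : 2 * z + eval ![x 0, x 1] p + eval ![x 0, x 1] (A 0) - x 2 ^ 2 = 0 := by
    linear_combination hz'
  have hF0 := nsy_der h2 (c' := eval ![x 0, x 1] (pderiv 0 (A 2))) e2 e1 hG h0
    (by linear_combination hr0)
  have hF1 := nsy_der h2 (c' := eval ![x 0, x 1] (pderiv 1 (A 2))) e2 e1 hG h1
    (by linear_combination hr1)
  have hv : (![x 0, x 1, z] : Fin 3 → k) ≠ 0 := by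
    intro hc
    have hx0 : x 0 = 0 := by simpa using congrFun hc 0
    have hx1 : x 1 = 0 := by simpa using congrFun hc 1
    have hzero : (![x 0, x 1] : Fin 2 → k) = 0 := by
      rw [hx0, hx1]
      ext i
      fin_cases i <;> rfl
    have hev : ∀ {f : P2 k} {n : ℕ}, f.IsHomogeneous n → n ≠ 0 → eval (0 : Fin 2 → k) f = 0 := by
      intro f n hf hn
      have := smul_hom2 hf (0 : k) (0 : Fin 2 → k)
      rwa [zero_smul, zero_pow hn, zero_mul] at this
    rw [hzero, hev hs.hp (by norm_num), hev hs.hr (by norm_num), hev (hA 0) (by norm_num),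
      hev (hA 1) (by norm_num)] at hG
    have hu : x 2 = 0 := by
      have : x 2 ^ 4 = 0 := by linear_combination hG
      exact pow_eq_zero_iff (by norm_num) |>.1 this
    apply hx
    ext i
    fin_cases i
    · exact hx0
    · exact hx1
    · exact hu
  have hFv : eval ![x 0, x 1, z] (tri A) = 0 := by
    rw [eval_tri]
    simpa using hF
  obtain ⟨i, hi⟩ := hNS _ hv hFv
  apply hi
  fin_cases i
  · change eval ![x 0, x 1, z] (pderiv 0 (tri A)) = 0
    rw [pderiv_tri0]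
    simp only [map_add, map_mul, map_pow, eval_em, eval_X]
    simpa using hF0
  · change eval ![x 0, x 1, z] (pderiv 1 (tri A)) = 0
    rw [pderiv_tri1]
    simp only [map_add, map_mul, map_pow, eval_em, eval_X]
    simpa using hF1
  · change eval ![x 0, x 1, z] (pderiv 2 (tri A)) = 0
    rw [pderiv_tri2]
    simp only [map_add, map_mul, map_pow, eval_em, eval_X, map_ofNat]
    simpa using hFz

end Pool.Agent.G4
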