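import Pool.Agent.G4.OBI
import Pool.Agent.G4.NSY
import Pool.Agent.G4.NSF
import Pool.Agent.PQ.EXI
import Pool.Agent.PQ.DGA

/-!
# G4 / BTS

The bitangents of `G = qy A p r` normalised by `v 2 = -1` form a set of at most 42 elements: `nsy`, `nsf`, `PQ.exi` (Riemann model), `PQ.dga`: `S0`, at most 42 lines up to scalars; `obi`: for a bitangent
`w = c • s`, `w 2 ≠ 0`; take the normalised vectors `(-(s 2)⁻¹) • s`.
-/

namespace Pool.Agent.G4

open MvPolynomial Matrix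
open Pool.Agent.PQ (P3 lin sb SF NS Bit)

theorem bts {k : Type*} [Field k] [CharZero k] [IsAlgClosed k] (A : Fin 3 → P2 k) (hA : TH A)
    (hNS : NS (tri A)) (p r : P2 k) (hs : Sec A p r) :
    ∃ S : Finset (Fin 3 → k), S.card ≤ 42 ∧ ∀ (v : Fin 3 → k) (Q : P3 k), v 2 = -1 → Bit (qy A p r) v Q → v ∈ S := by
  classical
  have h2 : (2 : k) ≠ 0 := two_ne_zero
  have hF : (qy A p r).IsHomogeneous 4 := qy_hom hA hs.hp hs.hr
  have hS : SF (qy A p r) := nsf _ (nsy h2 A hA hNS p r hs)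
  obtain ⟨h, c, b, hh, hc, hb, hE⟩ := Pool.Agent.PQ.exi (qy A p r) hF hS
  obtain ⟨S, hS1, hS2⟩ := Pool.Agent.PQ.dga (qy A p r) hF hS h hh c hc b hb hE
  refine ⟨S.image fun s => (-(s 2)⁻¹) • s, Finset.card_image_le.trans hS1, ?_⟩
  intro v Q hv hB
  have hv0 : v ≠ 0 := by
    rintro rfl
    simp at hv
  obtain ⟨s, hs, d, hd, rfl⟩ := hS2 v Q hv0 hB
  refine Finset.mem_image.2 ⟨s, hs, ?_⟩
  have h3 : d * s 2 = -1 := hv
  have h4 : s 2 ≠ 0 := by
    intro h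
    rw [h] at h3
    simp at h3
  have h5 : d = -(s 2)⁻¹ := by
    field_simp
    linear_combination h3
  rw [h5]

end Pool.Agent.G4
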