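import Pool.Agent.G4.DD2
import Pool.Agent.PQ.DVL

/-!
# G4 / SBT

`sbt`: a bitangent `v = ![l 0, l 1, -1]`: `lin v = em (bl l) - X 2`; apply `sl (bl l)` to `G = Q² + lin v * S`.  `sbu`: `lin v ∣ G - em (sl (bl l) G)` (`sl`, `em`: the composition is `sb` of the matrix with rows `e_0, e_1, (l 0, l 1, 0)`;
`PQ.dvl_unit` with `j = 2`, `u = -1`, or by induction on `G`), `PQ.dvl_hom` for the degree of the cofactor.
-/

namespace Pool.Agent.G4

open MvPolynomial Matrix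
open Pool.Agent.PQ (P3 lin sb SF NS Bit)

private theorem sbt_hom {k : Type*} [Field k] (l : Fin 2 → k) {Q : P3 k} {n : ℕ} (hQ : Q.IsHomogeneous n) :
    (sl (bl l) Q).IsHomogeneous n := by
  have hX : ∀ i : Fin 3, ((![X 0, X 1, bl l] : Fin 3 → P2 k) i).IsHomogeneous 1 := by
    intro i
    fin_cases i
    · exact isHomogeneous_X k 0
    · exact isHomogeneous_X k 1
    · exact bl_hom l
  have h := hQ.aeval (![X 0, X 1, bl l] : Fin 3 → P2 k) (n := 1) hX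
  rwa [one_mul] at h

private theorem sbt_emsl {k : Type*} [Field k] (l : Fin 2 → k) (P : P3 k) :
    sb (Pool.Agent.PQ.prj ![l 0, l 1, -1] 2 (-1)) P = em (sl (bl l) P) := by
  have : sb (Pool.Agent.PQ.prj ![l 0, l 1, -1] 2 (-1)) = (em : P2 k →ₐ[k] P3 k).comp (sl (bl l)) := by
    refine algHom_ext fun i => ?_
    rw [AlgHom.comp_apply, Pool.Agent.PQ.sb_X]
    fin_cases i
    · simp [lin, Fin.sum_univ_three, sl, Pool.Agent.PQ.prj, em_X0]
    · simp [lin, Fin.sum_univ_three, sl, Pool.Agent.PQ.prj, em_X1]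
    · simp [lin, Fin.sum_univ_three, sl, Pool.Agent.PQ.prj, em_X0, em_X1, bl]
  rw [this, AlgHom.comp_apply]

theorem sbt {k : Type*} [Field k] (G : P3 k) (v : Fin 3 → k) (hv : v 2 = -1) (Q : P3 k) (hb : Bit G v Q) :
    sl (bl ![v 0, v 1]) G = sl (bl ![v 0, v 1]) Q ^ 2 ∧ (sl (bl ![v 0, v 1]) Q).IsHomogeneous 2 := by
  obtain ⟨hQ, S, hS, hF⟩ := hb
  have h0 : sl (bl ![v 0, v 1]) (lin v) = 0 := by
    simp [lin, Fin.sum_univ_three, sl, bl, hv]
  refine ⟨?_, sbt_hom ![v 0, v 1] hQ⟩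
  rw [hF, map_add, map_mul, h0, zero_mul, add_zero, map_pow]

/-- and back: a square on the line `u = l(s, t)` is a bitangent -/
theorem sbu {k : Type*} [Field k] (G : P3 k) (hG : G.IsHomogeneous 4) (l : Fin 2 → k) (q : P2 k)
    (hq : q.IsHomogeneous 2) (hE : sl (bl l) G = q ^ 2) : Bit G ![l 0, l 1, -1] (em q) := by
  have h1 : lin ![l 0, l 1, -1] ∣ G - em q ^ 2 := by
    have h2 := Pool.Agent.PQ.dvl_unit (![l 0, l 1, -1] : Fin 3 → k) 2 (-1) (by simp) G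
    rw [sbt_emsl, hE, map_pow] at h2
    exact h2
  have h3 : (G - em q ^ 2).IsHomogeneous (3 + 1) := by
    have h4 : (em q ^ 2).IsHomogeneous (2 * 2) := (em_hom hq).pow 2
    exact hG.sub h4
  obtain ⟨S, hS, hE'⟩ := Pool.Agent.PQ.dvl_hom _ _ 3 h3 h1
  refine ⟨em_hom hq, S, hS, ?_⟩
  rw [← hE']
  ring

end Pool.Agent.G4
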