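import Pool.Agent.G4.SBI
import Pool.Agent.G4.SBT
import Pool.Agent.G4.BTS

/-!
# G4 / OPC

`opc`: a section `(p', r')` disjoint from `(p, r)`: `r' + r = l (p' - p)`, `l = bl v` (`bl_hom1`), `sbf`, `sbu`: `![v 0, v 1, -1]` is a bitangent, one of at most 42.  `2 p' + p + a - l² = ± q0` where `q0` is determined by the line
(choose one square root `q0` of `sl l G`), so `(p', r')` is one of two: at most 84 pairs.
-/

namespace Pool.Agent.G4

open MvPolynomial Matrix
open Pool.Agent.PQ (P3 lin sb SF NS Bit)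

theorem opc {k : Type*} [Field k] [CharZero k] [IsAlgClosed k] (A : Fin 3 → P2 k) (hA : TH A)
    (hNS : NS (tri A)) (p r : P2 k) (hs : Sec A p r) :
    ∃ S : Finset (P2 k × P2 k), S.card ≤ 84 ∧ ∀ p' r', Sec A p' r' → Opz p r p' r' → (p', r') ∈ S := by
  classical
  obtain ⟨S0, hS0, hS1⟩ := bts A hA hNS p r hs
  have h2 : (2 : k) ≠ 0 := two_ne_zero
  have hC2 : (C (2 : k)⁻¹ : P2 k) * 2 = 1 := by
    have : (2 : P2 k) = C (2 : k) := (map_ofNat C 2).symm
    rw [this, ← C_mul, inv_mul_cancel₀ h2, C_1]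
  let q0 : (Fin 3 → k) → P2 k := fun v =>
    if h : ∃ q : P2 k, sl (bl ![v 0, v 1]) (qy A p r) = q ^ 2 then h.choose else 0
  have hq0 : ∀ v : Fin 3 → k, (∃ q : P2 k, sl (bl ![v 0, v 1]) (qy A p r) = q ^ 2) →
      sl (bl ![v 0, v 1]) (qy A p r) = q0 v ^ 2 := by
    intro v h
    have : q0 v = h.choose := dif_pos h
    rw [this]
    exact h.choose_spec
  let pp : (Fin 3 → k) × P2 k → P2 k := fun x =>
    C (2 : k)⁻¹ * (bl ![x.1 0, x.1 1] ^ 2 - p - A 0 + x.2 * q0 x.1)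
  let F : (Fin 3 → k) × P2 k → P2 k × P2 k := fun x =>
    (pp x, bl ![x.1 0, x.1 1] * (pp x - p) - r)
  refine ⟨(S0 ×ˢ {1, -1}).image F, ?_, ?_⟩
  · refine Finset.card_image_le.trans ?_
    rw [Finset.card_product]
    have h3 : ({1, -1} : Finset (P2 k)).card ≤ 2 := Finset.card_le_two
    calc S0.card * ({1, -1} : Finset (P2 k)).card ≤ 42 * 2 := Nat.mul_le_mul hS0 h3
      _ = 84 := by norm_num
  · intro p' r' hs' hO
    obtain ⟨hne, l, hl, hE⟩ := hO
    obtain ⟨u, rfl⟩ := bl_hom1 hl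
    have e1 := sbf A p r p' r' hs hs' (bl u) hne hE
    set Q : P2 k := 2 * p' + p + A 0 - bl u ^ 2 with hQ
    have hQh : Q.IsHomogeneous 2 := by
      have a1 : (2 * p').IsHomogeneous 2 := by
        have := (isHomogeneous_C (Fin 2) (2 : k)).mul hs'.hp
        rw [show (C (2 : k) : P2 k) = 2 from map_ofNat C 2] at this
        simpa using this
      have a2 : (bl u ^ 2).IsHomogeneous 2 := by simpa using (bl_hom u).pow 2
      have a3 : (A 0).IsHomogeneous 2 := by simpa using hA 0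
      exact ((a1.add hs.hp).add a3).sub a2
    have hb := sbu (qy A p r) (qy_hom hA hs.hp hs.hr) u Q hQh e1
    have hv := hS1 ![u 0, u 1, -1] (em Q) rfl hb
    have hu : (![(![u 0, u 1, -1] : Fin 3 → k) 0, (![u 0, u 1, -1] : Fin 3 → k) 1] : Fin 2 → k) = u := by
      funext i
      fin_cases i <;> rfl
    have e2 : sl (bl u) (qy A p r) = q0 ![u 0, u 1, -1] ^ 2 := by
      have := hq0 ![u 0, u 1, -1] (by rw [hu]; exact ⟨Q, e1⟩)
      rwa [hu] at this
    have e3 : Q ^ 2 = q0 ![u 0, u 1, -1] ^ 2 := e1.symm.trans e2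
    rw [Finset.mem_image]
    have fin : ∀ ε : P2 k, ε ∈ ({1, -1} : Finset (P2 k)) → Q = ε * q0 ![u 0, u 1, -1] →
        ∃ a ∈ S0 ×ˢ ({1, -1} : Finset (P2 k)), F a = (p', r') := by
      intro ε hε hQe
      refine ⟨(![u 0, u 1, -1], ε), Finset.mk_mem_product hv hε, ?_⟩
      have hp : pp (![u 0, u 1, -1], ε) = p' := by
        show C (2 : k)⁻¹ * (bl ![(![u 0, u 1, -1] : Fin 3 → k) 0, (![u 0, u 1, -1] : Fin 3 → k) 1] ^ 2 - p - A 0 +
          ε * q0 ![u 0, u 1, -1]) = p'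
        rw [hu, ← hQe, hQ]
        linear_combination p' * hC2
      show (pp (![u 0, u 1, -1], ε), bl ![(![u 0, u 1, -1] : Fin 3 → k) 0, (![u 0, u 1, -1] : Fin 3 → k) 1] *
        (pp (![u 0, u 1, -1], ε) - p) - r) = (p', r')
      rw [hp, hu, ← hE]
      simp
    rcases sq_eq_sq_iff_eq_or_eq_neg.mp e3 with h | h
    · exact fin 1 (by simp) (by rw [h]; ring)
    · exact fin (-1) (by simp) (by rw [h]; ring)

end Pool.Agent.G4
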