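import Pool.Agent.G4.PTH
import Pool.Agent.G4.OPC

/-!
# G4 / CNS

There are at most `2 + 84 + 84 + 84² = 7226` sections.  If there is no section, `S = ∅`.  Otherwise fix `(p, r)`; `opc`: `S1` for `(p, r)`; for every `(p1, r1)` `S2 (p1, -r1)` (`Sec.neg`).  A section `(q, s)`: if `q = p` then
`s² = r²`, `s = ± r`; otherwise `pth`: `(q, s) ∈ S1`, or `(q, -s) ∈ S1`, or `(q, s) ∈ S2 (p1, -r1)` with `(p1, r1) ∈ S1`.  `Finset.card_union_le`, `Finset.card_image_le`, `Finset.card_biUnion_le`.
-/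

namespace Pool.Agent.G4

open MvPolynomial Matrix
open Pool.Agent.PQ (P3 lin sb SF NS Bit)

theorem cns {k : Type*} [Field k] [CharZero k] [IsAlgClosed k] (A : Fin 3 → P2 k) (hA : TH A)
    (hNS : NS (tri A)) : ∃ S : Finset (P2 k × P2 k), S.card ≤ 7226 ∧ ∀ p r, Sec A p r → (p, r) ∈ S := by
  classical
  by_cases hex : ∃ p r, Sec A p r
  · obtain ⟨p, r, hs⟩ := hex
    obtain ⟨S1, hS1, hS1'⟩ := opc A hA hNS p r hs
    have h2 : ∀ x : P2 k × P2 k, ∃ S : Finset (P2 k × P2 k), S.card ≤ 84 ∧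
        (Sec A x.1 x.2 → ∀ p' r', Sec A p' r' → Opz x.1 (-x.2) p' r' → (p', r') ∈ S) := by
      intro x
      by_cases hx : Sec A x.1 x.2
      · obtain ⟨S, h3, h4⟩ := opc A hA hNS x.1 (-x.2) hx.neg
        exact ⟨S, h3, fun _ => h4⟩
      · exact ⟨∅, by simp, fun h => absurd h hx⟩
    choose S2 hS2 hS2' using h2
    refine ⟨({(p, r), (p, -r)} ∪ S1) ∪ (S1.image (fun x => (x.1, -x.2)) ∪ S1.biUnion S2), ?_, ?_⟩
    · have h3 : ({(p, r), (p, -r)} : Finset (P2 k × P2 k)).card ≤ 2 := Finset.card_le_two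
      have h4 : (S1.image (fun x => (x.1, -x.2))).card ≤ 84 := Finset.card_image_le.trans hS1
      have h5 : (S1.biUnion S2).card ≤ 84 * 84 := by
        refine (Finset.card_biUnion_le_card_mul S1 S2 84 fun x _ => hS2 x).trans ?_
        exact Nat.mul_le_mul_right _ hS1
      have h6 := Finset.card_union_le ({(p, r), (p, -r)} ∪ S1)
        (S1.image (fun x => (x.1, -x.2)) ∪ S1.biUnion S2)
      have h7 := Finset.card_union_le ({(p, r), (p, -r)} : Finset (P2 k × P2 k)) S1
      have h8 := Finset.card_union_le (S1.image (fun x => (x.1, -x.2))) (S1.biUnion S2)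
      omega
    · intro q s hqs
      by_cases hqp : q = p
      · subst hqp
        have h3 : s ^ 2 = r ^ 2 := by rw [hs.eq, hqs.eq]
        rcases sq_eq_sq_iff_eq_or_eq_neg.1 h3 with h | h
        · subst h
          simp
        · subst h
          simp
      · rcases pth A hA hNS p r q s hs hqs hqp with h | h | ⟨p1, r1, h3, h4, h5⟩
        · have := hS1' q s hqs h
          simp [this]
        · have h6 := hS1' q (-s) hqs.neg h
          refine Finset.mem_union_right _ (Finset.mem_union_left _ ?_)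
          exact Finset.mem_image.2 ⟨(q, -s), h6, by simp⟩
        · have h6 := hS1' p1 r1 h3 h4
          refine Finset.mem_union_right _ (Finset.mem_union_right _ ?_)
          exact Finset.mem_biUnion.2 ⟨(p1, r1), h6, hS2' (p1, r1) h3 q s hqs h5⟩
  · refine ⟨∅, by simp, fun p r h => absurd ⟨p, r, h⟩ hex⟩

end Pool.Agent.G4
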