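import Pool.Agent.G4.BAS

/-!
# G4 / COP

On a smooth curve `r` and `F_z(p) = cud A p` have no common zero.  Suppose `x ≠ 0`, `r(x) = 0`, `cud A p (x) = 0`; put `P = ![x 0, x 1, p(x)] ≠ 0`.
`F(P) = cub A p (x) = r(x)² = 0` (`eval_tri`, evaluate `hs.eq`).  `F_2(P) = cud A p (x) = 0` (`pderiv_tri2`).  Apply `pderiv j` (`j = 0, 1`) to
`r ^ 2 = cub A p` and evaluate at `x`: `2 r(x) r_j(x) = F_j(P) + F_2(P) p_j(x)` (`pderiv_tri0`, `pderiv_tri1`), so `F_j(P) = 0`.
Contradiction to `hNS` at `P`.
-/

namespace Pool.Agent.G4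

open MvPolynomial Matrix
open Pool.Agent.PQ (P3 lin sb SF NS Bit)

theorem cop {k : Type*} [Field k] (A : Fin 3 → P2 k) (hNS : NS (tri A)) (p r : P2 k) (hs : Sec A p r)
    (x : Fin 2 → k) (hx : x ≠ 0) (hr : eval x r = 0) : eval x (cud A p) ≠ 0 := by
  intro hc
  have hx' : (![x 0, x 1] : Fin 2 → k) = x := by
    ext i
    fin_cases i <;> rfl
  obtain ⟨P, hP⟩ : ∃ P : Fin 3 → k, P = ![x 0, x 1, eval x p] := ⟨_, rfl⟩
  have hP0 : P 0 = x 0 := by rw [hP]; rfl
  have hP1 : P 1 = x 1 := by rw [hP]; rfl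
  have hP2 : P 2 = eval x p := by rw [hP]; rfl
  have he : ∀ f : P2 k, eval P (em f) = eval x f := by
    intro f
    rw [eval_em, hP0, hP1, hx']
  have hPne : P ≠ 0 := by
    intro h
    apply hx
    ext i
    fin_cases i
    · have := congrFun h 0
      rw [hP0] at this
      exact this
    · have := congrFun h 1
      rw [hP1] at this
      exact this
  have hE := hs.eq
  unfold cub at hE
  unfold cud at hc
  have hc' : 3 * eval x p ^ 2 + 2 * eval x (A 0) * eval x p + eval x (A 1) = 0 := by
    simpa using hc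
  have h0 : eval P (tri A) = 0 := by
    have h1 := congrArg (eval x) hE
    simp only [map_add, map_mul, map_pow, hr] at h1
    rw [eval_tri, hP0, hP1, hP2, hx']
    linear_combination -h1
  obtain ⟨i, hi⟩ := hNS P hPne h0
  apply hi
  have hd : ∀ j : Fin 2, eval x (pderiv j (A 0)) * eval x p ^ 2 + eval x (pderiv j (A 1)) * eval x p +
      eval x (pderiv j (A 2)) = 0 := by
    intro j
    have h1 := congrArg (fun f => eval x (pderiv j f)) hE
    simp only [map_add, Derivation.leibniz, Derivation.leibniz_pow, smul_eq_mul, nsmul_eq_mul, map_mul,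
      map_pow, hr, map_natCast] at h1
    push_cast at h1
    linear_combination -h1 - (eval x (pderiv j p)) * hc'
  fin_cases i
  · change eval P (pderiv 0 (tri A)) = 0
    rw [pderiv_tri0]
    simp only [map_add, map_mul, map_pow, he, eval_X, hP2]
    exact hd 0
  · change eval P (pderiv 1 (tri A)) = 0
    rw [pderiv_tri1]
    simp only [map_add, map_mul, map_pow, he, eval_X, hP2]
    exact hd 1
  · change eval P (pderiv 2 (tri A)) = 0
    rw [pderiv_tri2]
    simp only [map_add, map_mul, map_pow, he, eval_X, hP2, map_ofNat]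
    exact hc'

end Pool.Agent.G4
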