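import Pool.Agent.G4.FHG

/-!
# Effective Shafarevich conjecture for curves of genus 4 with a vanishing theta-null (MP_f89135_nt)

`K` is a number field, `T` a finite set of finite places of `K`, `A 0, A 1, A 2` binary forms over `K` of degrees 2, 4, 6 such
that the curve `X : z³ + A 0 (s, t) z² + A 1 (s, t) z + A 2 (s, t) = 0` in the weighted projective plane `P(1,1,2)` (a quadric
cone) is smooth: a canonical curve of genus 4 on a quadric cone.  Suppose that for every finite place `v` outside `T` which does
not lie over `2` the curve has good reduction of the same kind: after a substitution `(s, t) ↦ g (s, t)`, `z ↦ l z + q(s, t)`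
over `K` and division by `l³` the equation has coefficients in the local ring of `K` at `v` and defines a smooth curve over it.

`F = K(x, z)`, `x = s/t`, is the function field of `X`, `C` an algebraic closure of `K`, `Φ` the function field of `X_C` (the
compositum of `F` and `C`, `Cmps`), and the differentials `f₀ i dx₀` (`i < 4`) are a basis of the regular differentials of `X`.

Then the stable Faltings height `hFal` of `X` is at most the explicit number `tw 165 (szK K T)`, where
`szK K T = [K : ℚ] + |d_K| + ∏_{v ∈ T} N v + 16` and `tw` is the iterated exponential.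

`hFal` is the arithmetic degree, divided by `[K : ℚ]`, of the determinant of the lattice of integral differentials
(`IntDiff`: regular differentials which are integral at the generic points of the special fibres of the semistable
models, i.e. sections of the relative dualising sheaf) with its `L²` metrics (`gram`); `a v` extends the absolute value
of the finite place `v` to `C`, and `j σ : F → Ψ σ` is the function field over `ℂ` for the embedding `σ` of `K`.
-/

namespace Pool.Agent.Results.MP_f89135_nt.ConeGenusFour

open NumberField IsDedekindDomain MvPolynomial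
open Pool.Agent.G4 Pool.Agent.ESH Pool.Agent.Helper11 Pool.Agent.HFB
open scoped KaehlerDifferential

theorem result {K F C Φ : Type*} [Field K] [NumberField K] [Field F] [Algebra K F] [FunField K F]
    [Field C] [Algebra K C] [Algebra.IsAlgebraic K C] [IsAlgClosed C] [Field Φ] [Algebra C Φ]
    [Algebra F Φ] (hc : Cmps K F C Φ)
    (T : Finset (HeightOneSpectrum (𝓞 K))) (A : Fin 3 → MvPolynomial (Fin 2) K)
    (hA : ∀ i : Fin 3, (A i).IsHomogeneous (2 * (i : ℕ) + 2)) (hS : Pool.Agent.PQ.SF (tri A))
    (hT : ∀ v : HeightOneSpectrum (𝓞 K), v ∉ T → (2 : 𝓞 K) ∉ v.asIdeal → GoodW A v)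
    (x z : F) (h0 : eval₂ (algebraMap K F) ![x, 1, z] (tri A) = 0)
    (hgen : IntermediateField.adjoin K {x, z} = ⊤)
    (a : FinitePlace K → AbsoluteValue C ℝ)
    (ha : ∀ v, IsNonarchimedean (a v) ∧ ∀ y : K, a v (algebraMap K C y) = v y)
    {Ψ : (K →+* ℂ) → Type*} [∀ σ, Field (Ψ σ)] [∀ σ, Algebra ℂ (Ψ σ)] (j : ∀ σ, F →+* Ψ σ)
    (hj : ∀ σ, CmpE σ (j σ)) (x₀ : F) (f₀ : Fin 4 → F)
    (hr : ∀ i, ∀ R : Place C Φ, 0 ≤ R.ordDiff (algebraMap F Φ (f₀ i) • KaehlerDifferential.D C Φ (algebraMap F Φ x₀)))
    (hli : LinearIndependent C (fun i => algebraMap F Φ (f₀ i) • KaehlerDifferential.D C Φ (algebraMap F Φ x₀)))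
    (hsp : ∀ η : Ω[Φ⁄C], (∀ R : Place C Φ, 0 ≤ R.ordDiff η) → η ∈ Submodule.span C
      (Set.range (fun i => algebraMap F Φ (f₀ i) • KaehlerDifferential.D C Φ (algebraMap F Φ x₀)))) :
    hFal (C := C) (Φ := Φ) a j x₀ f₀ ≤ tw 165 (szK K T) :=
  fhg hc T A hA hS hT x z h0 hgen a ha j hj x₀ f₀ hr hli hsp

end Pool.Agent.Results.MP_f89135_nt.ConeGenusFour
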