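import Pool.Agent.G4.BAS

/-!
# G4 / DBR

A double root `z0` of the cubic at `(c, 1)` gives a double root `u0` of the quartic `qy A p r` at `(c, 1)`.  Values at `(c, 1)`: `p, r, a, b, d` (`d = A 2`).  Let `z1 := -a - 2 z0`, so `z³ + a z² + b z + d = (z - z0)² (z - z1)` (from `F(z0) = 0`, `F'(z0) = 0`).
`r² = (p - z0)² (p - z1)`.  If `p ≠ z0`: `m1 := r / (p - z0)`, `m1² = p - z1`, `m1 (p - z0) = r`.  If `p = z0`: `r = 0`; choose `m1` with `m1² = p - z1` (`k` algebraically closed).  In both cases `m1² = p - z1`,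
`m1 (p - z0) = r`.  Then `a = -2 z0 - z1`, `b = z0² + 2 z0 z1` and (with `z1 = p - m1²`, `r = m1 (p - z0)`) the quartic is
`u⁴ - 2 (3 p + a) u² - 8 r u + (a² - 2 a p - 3 p² - 4 b) = (u + m1)² ((u - m1)² - 4 (p - z0))` (`ring`), so `u0 = -m1` is a root of it and of its derivative
`4 u³ - 4 (3 p + a) u - 8 r` (`pderiv 2`).
-/

namespace Pool.Agent.G4

open MvPolynomial Matrix
open Pool.Agent.PQ (P3 lin sb SF NS Bit)

theorem dbr {k : Type*} [Field k] [IsAlgClosed k] (A : Fin 3 → P2 k) (p r : P2 k) (hs : Sec A p r) (c z0 : k)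
    (h0 : eval ![c, 1, z0] (tri A) = 0) (h1 : eval ![c, 1, z0] (pderiv 2 (tri A)) = 0) :
    ∃ u0 : k, eval ![c, 1, u0] (qy A p r) = 0 ∧ eval ![c, 1, u0] (pderiv 2 (qy A p r)) = 0 := by
  have he : ∀ (u : k) (f : P2 k), eval ![c, 1, u] (em f) = eval ![c, 1] f := by
    intro u f
    rw [eval_em]
    rfl
  obtain ⟨p0, hp0⟩ : ∃ p0, p0 = eval ![c, 1] p := ⟨_, rfl⟩
  obtain ⟨r0, hr0⟩ : ∃ r0, r0 = eval ![c, 1] r := ⟨_, rfl⟩
  obtain ⟨a, ha⟩ : ∃ a, a = eval ![c, 1] (A 0) := ⟨_, rfl⟩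
  obtain ⟨b, hb⟩ : ∃ b, b = eval ![c, 1] (A 1) := ⟨_, rfl⟩
  obtain ⟨d, hd⟩ : ∃ d, d = eval ![c, 1] (A 2) := ⟨_, rfl⟩
  have h0' : z0 ^ 3 + a * z0 ^ 2 + b * z0 + d = 0 := by
    have h2 := h0
    rw [eval_tri] at h2
    rw [ha, hb, hd]
    exact h2
  have h1' : 3 * z0 ^ 2 + 2 * a * z0 + b = 0 := by
    have h2 := h1
    rw [pderiv_tri2] at h2
    simp only [map_add, map_mul, map_pow, he, eval_X, map_ofNat] at h2
    rw [ha, hb]
    exact h2
  have hE : r0 ^ 2 = p0 ^ 3 + a * p0 ^ 2 + b * p0 + d := by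
    have h2 := congrArg (eval ![c, 1]) hs.eq
    unfold cub at h2
    simp only [map_add, map_mul, map_pow] at h2
    rw [hr0, hp0, ha, hb, hd]
    exact h2
  obtain ⟨m1, hm1, hm2⟩ : ∃ m1 : k, m1 ^ 2 = p0 + a + 2 * z0 ∧ m1 * (p0 - z0) = r0 := by
    by_cases hpz : p0 = z0
    · obtain ⟨m1, hm1⟩ := IsAlgClosed.exists_pow_nat_eq (p0 + a + 2 * z0) (n := 2) (by norm_num)
      refine ⟨m1, hm1, ?_⟩
      have h2 : r0 ^ 2 = 0 := by
        rw [hE, hpz]
        exact h0'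
      rw [pow_eq_zero_iff (by norm_num)] at h2
      rw [h2, hpz, sub_self, mul_zero]
    · have hne : p0 - z0 ≠ 0 := sub_ne_zero.2 hpz
      refine ⟨r0 / (p0 - z0), ?_, div_mul_cancel₀ _ hne⟩
      rw [div_pow, div_eq_iff (pow_ne_zero 2 hne), hE]
      linear_combination h0' + (p0 - z0) * h1'
  refine ⟨-m1, ?_, ?_⟩
  · rw [eval_qy]
    change (-m1) ^ 4 - 2 * (3 * eval ![c, 1] p + eval ![c, 1] (A 0)) * (-m1) ^ 2 - 8 * eval ![c, 1] r * (-m1) +
      (eval ![c, 1] (A 0) ^ 2 - 2 * eval ![c, 1] (A 0) * eval ![c, 1] p -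
        3 * eval ![c, 1] p ^ 2 - 4 * eval ![c, 1] (A 1)) = 0
    rw [← hp0, ← hr0, ← ha, ← hb]
    linear_combination (m1 ^ 2 + p0 + a + 2 * z0 - 6 * p0 - 2 * a + 8 * (p0 - z0)) * hm1
      - 8 * m1 * hm2 - 4 * h1'
  · have hq : pderiv 2 (qy A p r) = 4 * X 2 ^ 3 - 4 * em (3 * p + A 0) * X 2 - 8 * em r := by
      unfold qy
      simp only [map_add, map_sub, Derivation.leibniz, Derivation.leibniz_pow, pderiv_em2, pderiv_X_self,
        smul_eq_mul, nsmul_eq_mul, map_ofNat, map_mul, map_pow]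
      have h2 : pderiv (R := k) (2 : Fin 3) 2 = 0 := by
        have := (pderiv (R := k) (2 : Fin 3)).map_natCast 2
        simpa using this
      have h3 : pderiv (R := k) (2 : Fin 3) 3 = 0 := by
        have := (pderiv (R := k) (2 : Fin 3)).map_natCast 3
        simpa using this
      have h4 : pderiv (R := k) (2 : Fin 3) 4 = 0 := by
        have := (pderiv (R := k) (2 : Fin 3)).map_natCast 4
        simpa using this
      have h8 : pderiv (R := k) (2 : Fin 3) 8 = 0 := by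
        have := (pderiv (R := k) (2 : Fin 3)).map_natCast 8
        simpa using this
      rw [h2, h3, h4, h8]
      push_cast
      ring
    rw [hq]
    simp only [map_add, map_sub, map_mul, map_pow, he, eval_X, map_ofNat]
    change 4 * (-m1) ^ 3 - 4 * (3 * eval ![c, 1] p + eval ![c, 1] (A 0)) * (-m1) - 8 * eval ![c, 1] r = 0
    rw [← hp0, ← hr0, ← ha]
    linear_combination (-4 * m1) * hm1 + 8 * hm2

end Pool.Agent.G4
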