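import Pool.Agent.G4.BSC

/-!
# G4 / DD2

Dehomogenisation of binary forms.  `dd (C c * X 0 ^ i * X 1 ^ j) = C c * X ^ i`.  `dd_eval`, `dd_map`: `ringHom_ext`.  `dd_deg`, `dd_coeff`: a form
of degree `n` is the sum of its monomials `X 0 ^ i * X 1 ^ (n - i)`.  `gf` collects them: `gf_all`: `v i := coeff (i at 0, n - i at 1)`.
`dd_gf`: `dd (gf n v) = ∑ i, C (v i) * X ^ i`.  `dd_inj`: `gf_all` for both and compare coefficients.
-/

namespace Pool.Agent.G4

open MvPolynomial Matrix
open Pool.Agent.PQ (P3 lin sb SF NS Bit)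

section

variable {R : Type*} [CommRing R]

private theorem dd2_mon (c : R) (i j : ℕ) :
    (C c * (X 0 ^ i * X 1 ^ j) : P2 R) = monomial (Finsupp.single 0 i + Finsupp.single 1 j) c := by
  rw [X_pow_eq_monomial, X_pow_eq_monomial, monomial_mul, C_mul_monomial, mul_one, mul_one]

private theorem dd2_exp (m : Fin 2 →₀ ℕ) : Finsupp.single 0 (m 0) + Finsupp.single 1 (m 1) = m := by
  ext i
  fin_cases i <;> simp

theorem gf_hom (n : ℕ) (v : Fin (n + 1) → R) : (gf n v).IsHomogeneous n := by
  unfold gf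
  refine IsHomogeneous.sum _ _ _ fun i _ => ?_
  have h1 : (C (v i) : P2 R).IsHomogeneous 0 := isHomogeneous_C _ _
  have h2 : (X 0 ^ (i : ℕ) * X 1 ^ (n - i) : P2 R).IsHomogeneous ((i : ℕ) + (n - i)) :=
    (isHomogeneous_X_pow _ _).mul (isHomogeneous_X_pow _ _)
  have h3 := h1.mul h2
  have h4 : 0 + ((i : ℕ) + (n - i)) = n := by
    have := i.2
    omega
  rwa [h4] at h3

theorem gf_all {f : P2 R} {n : ℕ} (h : f.IsHomogeneous n) : ∃ v : Fin (n + 1) → R, f = gf n v := by
  classical
  refine ⟨fun i => coeff (Finsupp.single 0 (i : ℕ) + Finsupp.single 1 (n - i)) f, ?_⟩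
  ext m
  unfold gf
  rw [coeff_sum]
  simp only [dd2_mon, coeff_monomial]
  by_cases hm : m 0 + m 1 = n
  · have hlt : m 0 < n + 1 := by omega
    rw [Finset.sum_eq_single (⟨m 0, hlt⟩ : Fin (n + 1))]
    · have h1 : n - m 0 = m 1 := by omega
      simp only [h1, dd2_exp, if_true]
    · intro b _ hb
      rw [if_neg]
      intro h2
      apply hb
      ext
      have := congrArg (fun e : Fin 2 →₀ ℕ => e 0) h2
      simpa using this
    · intro h2
      exact absurd (Finset.mem_univ _) h2
  · rw [Finset.sum_eq_zero]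
    · by_contra h2
      apply hm
      have h3 := h h2
      have h4 : Finsupp.weight 1 m = m 0 + m 1 := by
        rw [Finsupp.weight_apply, Finsupp.sum_fintype _ _ (by simp), Fin.sum_univ_two]
        simp
      rw [← h4]
      exact h3
    · intro b _
      rw [if_neg]
      intro h2
      apply hm
      have h3 := congrArg (fun e : Fin 2 →₀ ℕ => e 0) h2
      have h4 := congrArg (fun e : Fin 2 →₀ ℕ => e 1) h2
      have h5 := b.2
      simp at h3 h4
      omega

theorem map_gf {S : Type*} [CommRing S] (φ : R →+* S) (n : ℕ) (v : Fin (n + 1) → R) :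
    map φ (gf n v) = gf n fun i => φ (v i) := by
  simp [gf, map_sum]

theorem dd_gf (n : ℕ) (v : Fin (n + 1) → R) :
    dd (gf n v) = ∑ i : Fin (n + 1), Polynomial.C (v i) * Polynomial.X ^ (i : ℕ) := by
  simp [dd, gf, map_sum, Polynomial.algebraMap_eq]

theorem gf_coeff (n : ℕ) (v : Fin (n + 1) → R) (i : Fin (n + 1)) : (dd (gf n v)).coeff i = v i := by
  rw [dd_gf, Polynomial.finsetSum_coeff, Finset.sum_eq_single i]
  · simp
  · intro b _ hb
    rw [Polynomial.coeff_C_mul_X_pow, if_neg]
    intro h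
    exact hb (Fin.ext h.symm)
  · intro h
    exact absurd (Finset.mem_univ _) h

theorem gf_inj (n : ℕ) {v w : Fin (n + 1) → R} (h : gf n v = gf n w) : v = w := by
  funext i
  rw [← gf_coeff n v i, ← gf_coeff n w i, h]

theorem dd_deg {f : P2 R} {n : ℕ} (h : f.IsHomogeneous n) : (dd f).natDegree ≤ n := by
  obtain ⟨v, rfl⟩ := gf_all h
  rw [dd_gf]
  refine Polynomial.natDegree_sum_le_of_forall_le _ _ fun i _ => ?_
  refine (Polynomial.natDegree_C_mul_X_pow_le _ _).trans ?_
  have := i.2
  omega

theorem dd_inj {f g : P2 R} {n : ℕ} (hf : f.IsHomogeneous n) (hg : g.IsHomogeneous n) (h : dd f = dd g) :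
    f = g := by
  obtain ⟨v, rfl⟩ := gf_all hf
  obtain ⟨w, rfl⟩ := gf_all hg
  have : v = w := by
    funext i
    rw [← gf_coeff n v i, ← gf_coeff n w i, h]
  rw [this]

private theorem dd2_C (c : R) : dd (C c) = Polynomial.C c := by
  simp [dd, Polynomial.algebraMap_eq]

private theorem dd2_X0 : dd (X 0 : P2 R) = Polynomial.X := by
  simp [dd]

private theorem dd2_X1 : dd (X 1 : P2 R) = 1 := by
  simp [dd]

theorem dd_eval (f : P2 R) (x : R) : (dd f).eval x = eval ![x, 1] f := by
  induction f using MvPolynomial.induction_on with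
  | C a => rw [dd2_C]; simp
  | add p q hp hq => rw [map_add, Polynomial.eval_add, hp, hq, map_add]
  | mul_X p i hp =>
    rw [map_mul, Polynomial.eval_mul, hp, map_mul]
    congr 1
    fin_cases i
    · show Polynomial.eval x (dd (X 0)) = _
      rw [dd2_X0]; simp
    · show Polynomial.eval x (dd (X 1)) = _
      rw [dd2_X1]; simp

theorem dd_map {S : Type*} [CommRing S] (φ : R →+* S) (f : P2 R) : dd (map φ f) = (dd f).map φ := by
  induction f using MvPolynomial.induction_on with
  | C a => rw [map_C, dd2_C, dd2_C]; simp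
  | add p q hp hq => rw [map_add, map_add, map_add, hp, hq, Polynomial.map_add]
  | mul_X p i hp =>
    rw [map_mul, map_mul, map_mul, hp, Polynomial.map_mul, map_X]
    congr 1
    fin_cases i
    · show dd (X 0) = Polynomial.map φ (dd (X 0))
      rw [dd2_X0, dd2_X0]; simp
    · show dd (X 1) = Polynomial.map φ (dd (X 1))
      rw [dd2_X1, dd2_X1]; simp

theorem dd_der (f : P2 R) : Polynomial.derivative (dd f) = dd (pderiv 0 f) := by
  induction f using MvPolynomial.induction_on with
  | C a => rw [dd2_C]; simp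
  | add p q hp hq => rw [map_add, map_add, map_add, map_add, hp, hq]
  | mul_X p i hp =>
    rw [map_mul, Polynomial.derivative_mul, hp, pderiv_mul, map_add, map_mul, map_mul]
    congr 2
    fin_cases i
    · show Polynomial.derivative (dd (X 0)) = dd (pderiv 0 (X 0))
      rw [dd2_X0, pderiv_X_self]; simp
    · show Polynomial.derivative (dd (X 1)) = dd (pderiv 0 (X 1))
      rw [dd2_X1, pderiv_X_of_ne (by decide)]; simp

theorem dd_coeff {f : P2 R} {n : ℕ} (h : f.IsHomogeneous n) : (dd f).coeff n = eval ![1, 0] f := by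
  obtain ⟨v, rfl⟩ := gf_all h
  have h1 := gf_coeff n v (Fin.last n)
  rw [Fin.val_last] at h1
  rw [h1]
  unfold gf
  rw [map_sum, Finset.sum_eq_single (Fin.last n)]
  · simp
  · intro b _ hb
    have h2 : n - (b : ℕ) ≠ 0 := by
      have h3 := b.2
      have h4 : (b : ℕ) ≠ n := fun h5 => hb (Fin.ext (by simpa using h5))
      omega
    simp [h2]
  · intro h
    exact absurd (Finset.mem_univ _) h

/-- a polynomial over `R` which becomes integral comes from `S` -/
theorem gf_lift {S : Type*} [CommRing S] (φ : S →+* R) {f : P2 R} {n : ℕ} (h : f.IsHomogeneous n)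
    (hc : ∀ i, ∃ s, φ s = (dd f).coeff i) : ∃ f' : P2 S, f'.IsHomogeneous n ∧ map φ f' = f := by
  obtain ⟨v, rfl⟩ := gf_all h
  choose s hs using hc
  refine ⟨gf n fun i => s i, gf_hom _ _, ?_⟩
  rw [map_gf]
  congr 1
  funext i
  rw [hs, gf_coeff]

end

end Pool.Agent.G4
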