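import Pool.Agent.G4.DD2

/-!
# G4 / DD3

Zeros and divisors of binary forms.  `hom_zero`: if the coefficient of `X 0 ^ n` is `0` then `(1, 0)` is a zero (`dd_coeff`), otherwise `dd f` has degree `n > 0` and so a root `x`: `(x, 1)`.  `hom_dvd`: for `x = (x0, x1)`: choose an
invertible matrix `g` with `g (1, 0) = x` or reduce to the divisibility of `dd f` by `X - C x`; alternatively: modulo `bl ![x 1, -x 0]` we have `x1 s = x0 t`; if `x1 ≠ 0`: `s ≡ (x0/x1) t`, so `f ≡ f(x0/x1, 1) t^n = 0`.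
`hom_cof`: `g = f w`; take the homogeneous component of degree `m` (`homogeneousComponent`, `IsHomogeneous` of `f`): `g = f w_(m - n)`.  `hom_big`: degrees (`totalDegree`, `IsHomogeneous.totalDegree`): if `g ≠ 0` then
`n ≤ totalDegree g = m`.  `quad_split`: `hom_zero`, `hom_dvd`, `hom_cof`, `bl_hom1` (if `f = 0`: `v = 0`).  `bl_prime`: change of coordinates: `X 0` is prime and `bsb g` with `g` invertible is an automorphism; or `k[s,t]/(bl v)` is `k[T]`:
the kernel of `aeval ![X * C (v 1), X * C (-v 0)] : P2 k → k[X]` on ... (e.g. `irreducible` by degree and `UniqueFactorizationMonoid`: `Irreducible.prime`; `bl v` is irreducible since its total degree is 1: a factor has total degree 0, so is a unit).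
-/

namespace Pool.Agent.G4

open MvPolynomial Matrix
open Pool.Agent.PQ (P3 lin sb SF NS Bit)

/-- a form of positive degree over an algebraically closed field has a zero -/
theorem hom_zero {k : Type*} [Field k] [IsAlgClosed k] {f : P2 k} {n : ℕ} (hn : 0 < n) (h : f.IsHomogeneous n) :
    ∃ x : Fin 2 → k, x ≠ 0 ∧ eval x f = 0 := by
  by_cases h0 : eval ![1, 0] f = 0
  · refine ⟨![1, 0], fun hc => ?_, h0⟩
    have := congrFun hc 0
    simp at this
  · have h1 := dd_coeff h
    have h2 : (dd f).degree ≠ 0 := by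
      intro hd
      have h3 := Polynomial.eq_C_of_degree_eq_zero hd
      rw [h3, Polynomial.coeff_C, if_neg hn.ne'] at h1
      exact h0 h1.symm
    obtain ⟨x, hx⟩ := IsAlgClosed.exists_root _ h2
    refine ⟨![x, 1], fun hc => ?_, ?_⟩
    · have := congrFun hc 1
      simp at this
    · rw [← dd_eval]
      exact hx

/-- linear forms divide at zeros -/
theorem hom_dvd {k : Type*} [Field k] [IsAlgClosed k] {f : P2 k} {n : ℕ} (h : f.IsHomogeneous n)
    (x : Fin 2 → k) (hx : x ≠ 0) (h0 : eval x f = 0) : bl ![x 1, -x 0] ∣ f := by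
  obtain ⟨v, rfl⟩ := gf_all h
  set d : P2 k := bl ![x 1, -x 0] with hd
  set φ := Ideal.Quotient.mk (Ideal.span {d}) with hφ
  have hφd : φ d = 0 := Ideal.Quotient.eq_zero_iff_mem.2 (Ideal.subset_span rfl)
  have hrel : φ (C (x 1)) * φ (X 0) = φ (C (x 0)) * φ (X 1) := by
    rw [← sub_eq_zero, ← map_mul, ← map_mul, ← map_sub, ← hφd]
    congr 1
    simp [hd, bl]
    ring
  have hsum : ∑ i : Fin (n + 1), v i * (x 0 ^ (i : ℕ) * x 1 ^ (n - i)) = 0 := by
    rw [← h0]
    simp [gf]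
  have hj : ∀ j : Fin 2, φ (C (x j)) * φ (X 0) = φ (C (x 0)) * φ (X j) ∧
      φ (C (x j)) * φ (X 1) = φ (C (x 1)) * φ (X j) := by
    intro j
    fin_cases j
    · exact ⟨rfl, hrel.symm⟩
    · exact ⟨hrel, rfl⟩
  have key : ∀ j : Fin 2, φ (C (x j)) ^ n * φ (gf n v) = 0 := by
    intro j
    have h3 : φ (C (x j)) ^ n * φ (gf n v) =
        φ (X j) ^ n * φ (C (∑ i : Fin (n + 1), v i * (x 0 ^ (i : ℕ) * x 1 ^ (n - i)))) := by
      simp only [gf, map_sum, map_mul, map_pow, Finset.mul_sum]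
      refine Finset.sum_congr rfl fun i _ => ?_
      have hi : (i : ℕ) + (n - i) = n := by have := i.2; omega
      have e1 : φ (C (x j)) ^ n = φ (C (x j)) ^ (i : ℕ) * φ (C (x j)) ^ (n - i) := by
        rw [← pow_add, hi]
      have e2 : φ (X j) ^ n = φ (X j) ^ (i : ℕ) * φ (X j) ^ (n - i) := by
        rw [← pow_add, hi]
      calc φ (C (x j)) ^ n * (φ (C (v i)) * (φ (X 0) ^ (i : ℕ) * φ (X 1) ^ (n - i)))
          = φ (C (v i)) * ((φ (C (x j)) * φ (X 0)) ^ (i : ℕ) * (φ (C (x j)) * φ (X 1)) ^ (n - i)) := by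
            rw [e1, mul_pow, mul_pow]; ring
        _ = φ (C (v i)) * ((φ (C (x 0)) * φ (X j)) ^ (i : ℕ) * (φ (C (x 1)) * φ (X j)) ^ (n - i)) := by
            rw [(hj j).1, (hj j).2]
        _ = φ (X j) ^ n * (φ (C (v i)) * (φ (C (x 0)) ^ (i : ℕ) * φ (C (x 1)) ^ (n - i))) := by
            rw [e2, mul_pow, mul_pow]; ring
    rw [h3, hsum, C_0, map_zero, mul_zero]
  obtain ⟨j, hxj⟩ : ∃ j, x j ≠ 0 := by
    by_contra hc
    push Not at hc
    exact hx (funext hc)
  have h4 : φ (gf n v) = 0 := by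
    have h5 : φ (C (x j)⁻¹) ^ n * (φ (C (x j)) ^ n * φ (gf n v)) = 0 := by rw [key j, mul_zero]
    rwa [← mul_assoc, ← mul_pow, ← map_mul, ← C_mul, inv_mul_cancel₀ hxj, C_1, map_one, one_pow,
      one_mul] at h5
  exact Ideal.mem_span_singleton.1 (Ideal.Quotient.eq_zero_iff_mem.1 h4)

/-- the cofactor of a form is a form -/
theorem hom_cof {k : Type*} [Field k] {f g : P2 k} {n m : ℕ} (hf : f.IsHomogeneous n) (hf0 : f ≠ 0)
    (hg : g.IsHomogeneous m) (hm : n ≤ m) (hd : f ∣ g) : ∃ w : P2 k, w.IsHomogeneous (m - n) ∧ g = f * w := by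
  obtain ⟨w, rfl⟩ := hd
  letI := MvPolynomial.gradedAlgebra (σ := Fin 2) (R := k)
  refine ⟨(DirectSum.decompose (homogeneousSubmodule (Fin 2) k) w (m - n) : P2 k),
    (mem_homogeneousSubmodule _ _).1 (SetLike.coe_mem _), ?_⟩
  have h1 := DirectSum.coe_decompose_mul_of_left_mem_of_le (homogeneousSubmodule (Fin 2) k) (b := w)
    ((mem_homogeneousSubmodule n f).2 hf) hm
  have h2 : (DirectSum.decompose (homogeneousSubmodule (Fin 2) k) (f * w) m : P2 k) = f * w := by
    rw [DirectSum.decompose_of_mem_same _ ((mem_homogeneousSubmodule m _).2 hg)]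
  rw [h2] at h1
  exact h1

/-- a form divisible by a form of larger degree is zero -/
theorem hom_big {k : Type*} [Field k] {f g : P2 k} {n m : ℕ} (hf : f.IsHomogeneous n) (hf0 : f ≠ 0)
    (hg : g.IsHomogeneous m) (hm : m < n) (hd : f ∣ g) : g = 0 := by
  by_contra h0
  obtain ⟨w, rfl⟩ := hd
  have hw : w ≠ 0 := right_ne_zero_of_mul h0
  have h1 := hg.totalDegree h0
  have h2 := hf.totalDegree hf0
  rw [totalDegree_mul_of_isDomain hf0 hw] at h1
  omega

/-- quadratic forms over an algebraically closed field split -/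
theorem quad_split {k : Type*} [Field k] [IsAlgClosed k] {f : P2 k} (h : f.IsHomogeneous 2) :
    ∃ v w : Fin 2 → k, f = bl v * bl w := by
  obtain ⟨x, hx, h0⟩ := hom_zero (by norm_num) h
  have hd := hom_dvd h x hx h0
  by_cases hb : bl ![x 1, -x 0] = 0
  · refine ⟨0, 0, ?_⟩
    rw [hb, zero_dvd_iff] at hd
    rw [hd]
    simp [bl]
  obtain ⟨w, hw, hfw⟩ := hom_cof (bl_hom _) hb h (by norm_num) hd
  obtain ⟨u, rfl⟩ := bl_hom1 hw
  exact ⟨_, u, hfw⟩

/-- linear forms are prime -/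
theorem bl_prime {k : Type*} [Field k] {v : Fin 2 → k} (hv : v ≠ 0) : Prime (bl v) := by
  have h0 : bl v ≠ 0 := fun h => hv (bl_eq_zero h)
  refine Irreducible.prime (irreducible_of_totalDegree_eq_one ((bl_hom v).totalDegree h0) ?_)
  intro x hx
  rw [isUnit_iff_ne_zero]
  rintro rfl
  apply h0
  ext i
  rw [coeff_zero]
  exact zero_dvd_iff.1 (hx i)

end Pool.Agent.G4
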