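import Pool.Agent.G4.Defs
import Pool.Agent.PQ.LNF
import Pool.Agent.PQ.TRF

/-!
# G4 / FXH

A field automorphism `σ` which maps the lines `e_r ᵥ* h⁻¹` and `b i ᵥ* h⁻¹` to multiples of themselves fixes `b` and maps `h⁻¹` to a multiple of itself.  Row `r` of `h⁻¹` is `e_r ᵥ* h⁻¹`, so `σ (h⁻¹ r j) = ζ r * h⁻¹ r j`.
For `i`: `σ (∑ r, b i r * h⁻¹ r j) = ∑ r, σ (b i r) ζ r h⁻¹ r j = ζ' i * ∑ r, b i r * h⁻¹ r j` for all `j`; the rows of `h⁻¹` are linearly independent (`h⁻¹` invertible): `σ (b i r) ζ r = ζ' i b i r`.  `i = 0`: `b 0 r = 1`: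
`ζ r = ζ' 0` for all `r`.  So `σ (b i r) ζ' 0 = ζ' i b i r`, `r = 0`: `b i 0 = 1`: `ζ' 0 = ζ' i`, hence `σ (b i r) = b i r` (`ζ' 0 ≠ 0`).  `oo h i = h⁻¹ i 2 / h⁻¹ 0 2` is fixed.
-/

namespace Pool.Agent.G4

open MvPolynomial Matrix
open Pool.Agent.PQ (P3 lin sb SF NS Bit RB yy ka ND)

theorem fxh {C : Type*} [Field C] (σ : C →+* C) (h : Matrix (Fin 3) (Fin 3) C) (hh : h.det ≠ 0)
    (b : Fin 4 → Fin 3 → C) (hb : ND b)
    (h1 : ∀ r : Fin 3, ∃ ζ : C, ζ ≠ 0 ∧ (fun j => σ (((Pi.single r 1 : Fin 3 → C) ᵥ* h⁻¹) j)) =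
      ζ • ((Pi.single r 1 : Fin 3 → C) ᵥ* h⁻¹))
    (h2 : ∀ i : Fin 4, ∃ ζ : C, ζ ≠ 0 ∧ (fun j => σ ((b i ᵥ* h⁻¹) j)) = ζ • (b i ᵥ* h⁻¹)) :
    (∀ i r, σ (b i r) = b i r) ∧ ∀ i, σ (oo h i) = oo h i := by
  choose z hz0 hz using h1
  choose z' hz'0 hz' using h2
  have hzr : ∀ r j, σ (h⁻¹ r j) = z r * h⁻¹ r j := by
    intro r j
    have e := congrFun (hz r) j
    simp only [Pi.smul_apply, smul_eq_mul] at e
    have e1 : (Pi.single r (1 : C) ᵥ* h⁻¹) j = h⁻¹ r j := by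
      rw [Matrix.single_one_vecMul]
      rfl
    rw [e1] at e
    exact e
  have key : ∀ i r, σ (b i r) * z r = z' i * b i r := by
    intro i
    have hw : (fun r => σ (b i r) * z r - z' i * b i r) ᵥ* h⁻¹ = 0 := by
      funext j
      have e := congrFun (hz' i) j
      simp only [Pi.smul_apply, smul_eq_mul, Matrix.vecMul, dotProduct, map_sum, map_mul, hzr] at e
      simp only [Matrix.vecMul, dotProduct, Pi.zero_apply, sub_mul, Finset.sum_sub_distrib]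
      rw [sub_eq_zero]
      rw [Finset.mul_sum] at e
      calc ∑ x, σ (b i x) * z x * h⁻¹ x j = ∑ x, σ (b i x) * (z x * h⁻¹ x j) :=
            Finset.sum_congr rfl fun x _ => by ring
        _ = ∑ x, z' i * (b i x * h⁻¹ x j) := e
        _ = ∑ x, z' i * b i x * h⁻¹ x j := Finset.sum_congr rfl fun x _ => by ring
    have hw2 : (fun r => σ (b i r) * z r - z' i * b i r) = 0 := by
      have e2 := congrArg (fun v => v ᵥ* h) hw
      simp only [Matrix.vecMul_vecMul, Matrix.zero_vecMul] at e2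
      rw [Matrix.nonsing_inv_mul h (isUnit_iff_ne_zero.2 hh), Matrix.vecMul_one] at e2
      exact e2
    intro r
    exact sub_eq_zero.1 (congrFun hw2 r)
  have hzz : ∀ r, z r = z' 0 := by
    intro r
    have e := key 0 r
    rw [hb.zero, map_one, one_mul, mul_one] at e
    exact e
  have hzz' : ∀ i, z' i = z' 0 := by
    intro i
    have e := key i 0
    rw [hb.col, map_one, one_mul, mul_one] at e
    rw [← e, hzz]
  constructor
  · intro i r
    have e := key i r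
    rw [hzz, hzz' i, mul_comm] at e
    exact mul_left_cancel₀ (hz'0 0) e
  · intro i
    unfold oo
    rw [map_div₀, hzr, hzr, hzz i, hzz 0, mul_div_mul_left _ _ (hz'0 0)]

end Pool.Agent.G4
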