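import Pool.Agent.G4.Defs

/-!
# G4 / HER

Heron's formula: `(v0 + v1 + v2) (-v0 + v1 + v2) (v0 - v1 + v2) (v0 + v1 - v2) = -Hq (v0²) (v1²) (v2²)` (`ring`).  The four factors are in `V` and their product is a unit, so all are units.  `exu v i` is the quotient of two of
them.  `1 - exu v i = 2 v_i / (v0 + v1 + v2)`.  `her_fix`: `σ (v i)² = v i²`, so `σ (v i) = ± v i`; if `σ (v i) = - v i` then `σ (v i) - v i = -2 v i` is a unit, but inertia.
`exu_ne`: over a field.
`exu_sgn`: `exu` for `σ v = ± v` (signs), at most 8 values.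
-/

namespace Pool.Agent.G4

private theorem one_of_mul {G : Type*} [LinearOrderedCommGroupWithZero G] {a b : G} (ha : a ≤ 1)
    (hb : b ≤ 1) (h : a * b = 1) : a = 1 ∧ b = 1 := by
  have h1 : a = 1 := by
    refine le_antisymm ha ?_
    calc (1 : G) = a * b := h.symm
      _ ≤ a * 1 := mul_le_mul_right hb a
      _ = a := mul_one a
  refine ⟨h1, ?_⟩
  rw [h1, one_mul] at h
  exact h

private theorem heron {R : Type*} [CommRing R] (v : Fin 3 → R) :
    (v 0 + v 1 + v 2) * ((v 0 + v 1 + v 2 - 2 * v 0) * ((v 0 + v 1 + v 2 - 2 * v 1) *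
      (v 0 + v 1 + v 2 - 2 * v 2))) = -Hq (v 0 ^ 2) (v 1 ^ 2) (v 2 ^ 2) := by
  unfold Hq; ring

private theorem one_sub_exu {k : Type*} [Field k] (v : Fin 3 → k) (i : Fin 3)
    (h : v 0 + v 1 + v 2 ≠ 0) : 1 - exu v i = 2 * v i / (v 0 + v 1 + v 2) := by
  unfold exu
  rw [eq_div_iff h, sub_mul, div_mul_cancel₀ _ h]
  ring

theorem her {M : Type*} [Field M] (V : ValuationSubring M) (h2 : V.valuation (2 : M) = 1) (v : Fin 3 → M)
    (hv : ∀ i, V.valuation (v i ^ 2) = 1) (hH : V.valuation (Hq (v 0 ^ 2) (v 1 ^ 2) (v 2 ^ 2)) = 1) (i : Fin 3) :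
    V.valuation (exu v i) = 1 ∧ V.valuation (1 - exu v i) = 1 := by
  have hv1 : ∀ j, V.valuation (v j) = 1 := by
    intro j
    have e := hv j
    rw [map_pow] at e
    exact (pow_eq_one_iff.1 e).resolve_right (by norm_num)
  have hs : V.valuation (v 0 + v 1 + v 2) ≤ 1 := by
    refine (V.valuation.map_add _ _).trans (max_le ((V.valuation.map_add _ _).trans
      (max_le ?_ ?_)) ?_)
    · exact (hv1 0).le
    · exact (hv1 1).le
    · exact (hv1 2).le
  have hf : ∀ j, V.valuation (v 0 + v 1 + v 2 - 2 * v j) ≤ 1 := by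
    intro j
    refine (V.valuation.map_sub _ _).trans (max_le hs ?_)
    rw [map_mul, h2, hv1, one_mul]
  have hp : V.valuation (v 0 + v 1 + v 2) * (V.valuation (v 0 + v 1 + v 2 - 2 * v 0) *
      (V.valuation (v 0 + v 1 + v 2 - 2 * v 1) * V.valuation (v 0 + v 1 + v 2 - 2 * v 2))) = 1 := by
    rw [← map_mul, ← map_mul, ← map_mul, heron, Valuation.map_neg]
    exact hH
  obtain ⟨a0, b0⟩ := one_of_mul hs (mul_le_one' (hf 0) (mul_le_one' (hf 1) (hf 2))) hp
  obtain ⟨a1, b1⟩ := one_of_mul (hf 0) (mul_le_one' (hf 1) (hf 2)) b0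
  obtain ⟨a2, a3⟩ := one_of_mul (hf 1) (hf 2) b1
  have hfi : V.valuation (v 0 + v 1 + v 2 - 2 * v i) = 1 := by
    fin_cases i
    · exact a1
    · exact a2
    · exact a3
  have hne : v 0 + v 1 + v 2 ≠ 0 := by
    intro h0
    rw [h0, map_zero] at a0
    exact zero_ne_one a0
  constructor
  · unfold exu
    rw [map_div₀, hfi, a0, div_one]
  · rw [one_sub_exu v i hne, map_div₀, map_mul, h2, hv1, a0, one_mul, div_one]

theorem her_ne {k : Type*} [Field k] (h2 : (2 : k) ≠ 0) (v : Fin 3 → k) (hv : ∀ i, v i ≠ 0)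
    (hH : Hq (v 0 ^ 2) (v 1 ^ 2) (v 2 ^ 2) ≠ 0) (i : Fin 3) :
    v 0 + v 1 + v 2 ≠ 0 ∧ exu v i ≠ 0 ∧ exu v i ≠ 1 := by
  have hp := heron v
  have hne : (v 0 + v 1 + v 2) * ((v 0 + v 1 + v 2 - 2 * v 0) * ((v 0 + v 1 + v 2 - 2 * v 1) *
      (v 0 + v 1 + v 2 - 2 * v 2))) ≠ 0 := by
    rw [hp]; exact neg_ne_zero.2 hH
  have h0 : v 0 + v 1 + v 2 ≠ 0 := left_ne_zero_of_mul hne
  have h1 := right_ne_zero_of_mul hne
  have hfi : v 0 + v 1 + v 2 - 2 * v i ≠ 0 := by
    fin_cases i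
    · exact left_ne_zero_of_mul h1
    · exact left_ne_zero_of_mul (right_ne_zero_of_mul h1)
    · exact right_ne_zero_of_mul (right_ne_zero_of_mul h1)
  refine ⟨h0, div_ne_zero hfi h0, ?_⟩
  intro h3
  have h4 := one_sub_exu v i h0
  rw [h3, sub_self] at h4
  exact div_ne_zero (mul_ne_zero h2 (hv i)) h0 h4.symm

theorem her_fix {K C : Type*} [Field K] [Field C] [Algebra K C] (V : ValuationSubring C)
    (h2 : V.valuation (2 : C) = 1) (σ : C ≃ₐ[K] C) (hσ : ESH.Inert V σ) (x : C) (hx : V.valuation (x ^ 2) = 1)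
    (hf : σ (x ^ 2) = x ^ 2) : σ x = x := by
  rw [map_pow] at hf
  rcases sq_eq_sq_iff_eq_or_eq_neg.1 hf with h | h
  · exact h
  · exfalso
    rw [map_pow] at hx
    have hx1 : V.valuation x = 1 := (pow_eq_one_iff.1 hx).resolve_right (by norm_num)
    have hxV : x ∈ V := (V.valuation_le_one_iff x).1 hx1.le
    have h3 := hσ x hxV
    rw [h, ValuationSubring.mem_nonunits_iff] at h3
    have e : -x - x = -(2 * x) := by ring
    rw [e, Valuation.map_neg, map_mul, h2, hx1, one_mul] at h3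
    exact lt_irrefl _ h3

theorem her_sgn {K C : Type*} [Field K] [Field C] [Algebra K C] (v : Fin 3 → C) (i : Fin 3) :
    ∃ X : Finset C, X.card ≤ 8 ∧ ∀ σ : C ≃ₐ[K] C, (∀ j, σ (v j ^ 2) = v j ^ 2) → σ (exu v i) ∈ X := by
  classical
  refine ⟨(Finset.univ : Finset (Fin 3 → Bool)).image
    (fun e => exu (fun j => if e j then v j else -v j) i), ?_, ?_⟩
  · refine Finset.card_image_le.trans ?_
    rw [Finset.card_univ]
    simp
  · intro σ hσ
    rw [Finset.mem_image]
    refine ⟨fun j => decide (σ (v j) = v j), Finset.mem_univ _, ?_⟩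
    have hj : ∀ j, (if decide (σ (v j) = v j) = true then v j else -v j) = σ (v j) := by
      intro j
      have e := hσ j
      rw [map_pow] at e
      by_cases h : σ (v j) = v j
      · simp [h]
      · simp only [h, decide_false, Bool.false_eq_true, if_false]
        rcases sq_eq_sq_iff_eq_or_eq_neg.1 e with h' | h'
        · exact absurd h' h
        · exact h'.symm
    simp only [hj]
    unfold exu
    simp only [map_div₀, map_sub, map_add, map_mul, map_ofNat]

end Pool.Agent.G4
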