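import Pool.Agent.G4.COP
import Pool.Agent.G4.BSB
import Pool.Agent.PQ.BIN

/-!
# G4 / OBI

No bitangent of `G = qy A p r` passes through `(0, 0, 1)`.  Suppose `v 2 = 0`, so `(v 0, v 1) ≠ 0`.  Let `x = (v 1, -v 0)`, so `v ⬝ᵥ (τ x 0, τ x 1, u) = 0`, and `G(τ x 0, τ x 1, u) = Q(τ x 0, τ x 1, u)²`
for all `τ, u` (`Bit.eval`), `Q(τ x, u) = α u² + β u τ + γ τ²` (`PQ.bin_quad` with `e = (0,0,1)`, `f = (x 0, x 1, 0)`).  `G(τ x, u) = u⁴ - 2 (3 p0 + a0) τ² u² - 8 r0 τ³ u + (a0² - 2 a0 p0 - 3 p0² - 4 b0) τ⁴`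
with `p0 = p(x)` etc.  Compare the coefficients of the binary quartics in `(u, τ)` (infinite field; e.g. put `τ = 1` and compare polynomials in `u`, `Polynomial.funext`):
`α² = 1`, `2 α β = 0`, `β² + 2 α γ = -2 (3 p0 + a0)`, `2 β γ = -8 r0`, `γ² = a0² - 2 a0 p0 - 3 p0² - 4 b0`.  So `β = 0`, `r0 = 0`, `γ² = (3 p0 + a0)²`, hence
`4 (3 p0² + 2 a0 p0 + b0) = 0`: `cud A p (x) = 0` and `r(x) = 0`, contradiction to `cop`.
-/

namespace Pool.Agent.G4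

open MvPolynomial Matrix
open Pool.Agent.PQ (P3 lin sb SF NS Bit)

/-- comparison of the coefficients of a quartic polynomial function -/
private theorem obi_coef {k : Type*} [Field k] [Infinite k] {c4 c3 c2 c1 c0 : k}
    (h : ∀ u : k, c4 * u ^ 4 + c3 * u ^ 3 + c2 * u ^ 2 + c1 * u + c0 = 0) :
    c4 = 0 ∧ c3 = 0 ∧ c2 = 0 ∧ c1 = 0 ∧ c0 = 0 := by
  have hD : (Polynomial.C c4 * Polynomial.X ^ 4 + Polynomial.C c3 * Polynomial.X ^ 3 +
      Polynomial.C c2 * Polynomial.X ^ 2 + Polynomial.C c1 * Polynomial.X + Polynomial.C c0 :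
      Polynomial k) = 0 := by
    apply Polynomial.funext
    intro u
    simpa using h u
  refine ⟨?_, ?_, ?_, ?_, ?_⟩
  · simpa [Polynomial.coeff_X, Polynomial.coeff_C] using congrArg (fun f => Polynomial.coeff f 4) hD
  · simpa [Polynomial.coeff_X, Polynomial.coeff_C] using congrArg (fun f => Polynomial.coeff f 3) hD
  · simpa [Polynomial.coeff_X, Polynomial.coeff_C] using congrArg (fun f => Polynomial.coeff f 2) hD
  · simpa [Polynomial.coeff_X, Polynomial.coeff_C] using congrArg (fun f => Polynomial.coeff f 1) hD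
  · simpa [Polynomial.coeff_X, Polynomial.coeff_C] using congrArg (fun f => Polynomial.coeff f 0) hD

theorem obi {k : Type*} [Field k] [IsAlgClosed k] (h2 : (2 : k) ≠ 0) (A : Fin 3 → P2 k) (hA : TH A)
    (hNS : NS (tri A)) (p r : P2 k) (hs : Sec A p r) (v : Fin 3 → k) (hv : v ≠ 0) (Q : P3 k)
    (hb : Bit (qy A p r) v Q) : v 2 ≠ 0 := by
  intro hv2
  obtain ⟨hQ, S, -, hS⟩ := hb
  have h4 : (4 : k) ≠ 0 := by
    have : (4 : k) = 2 * 2 := by norm_num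
    rw [this]
    exact mul_ne_zero h2 h2
  have h8 : (8 : k) ≠ 0 := by
    have : (8 : k) = 2 * 4 := by norm_num
    rw [this]
    exact mul_ne_zero h2 h4
  have hx : (![v 1, -v 0] : Fin 2 → k) ≠ 0 := by
    intro hc
    have hv1 : v 1 = 0 := by simpa using congrFun hc 0
    have hv0 : v 0 = 0 := by simpa using congrFun hc 1
    apply hv
    ext i
    fin_cases i
    · exact hv0
    · exact hv1
    · exact hv2
  obtain ⟨α, hα⟩ : ∃ α, α = eval (![0, 0, 1] : Fin 3 → k) Q := ⟨_, rfl⟩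
  obtain ⟨γ, hγ⟩ : ∃ γ, γ = eval (![v 1, -v 0, 0] : Fin 3 → k) Q := ⟨_, rfl⟩
  obtain ⟨β, hβ⟩ : ∃ β, β = eval ((![0, 0, 1] : Fin 3 → k) + ![v 1, -v 0, 0]) Q - α - γ := ⟨_, rfl⟩
  obtain ⟨p0, hp0⟩ : ∃ p0, p0 = eval ![v 1, -v 0] p := ⟨_, rfl⟩
  obtain ⟨r0, hr0⟩ : ∃ r0, r0 = eval ![v 1, -v 0] r := ⟨_, rfl⟩
  obtain ⟨a0, ha0⟩ : ∃ a0, a0 = eval ![v 1, -v 0] (A 0) := ⟨_, rfl⟩
  obtain ⟨b0, hb0⟩ : ∃ b0, b0 = eval ![v 1, -v 0] (A 1) := ⟨_, rfl⟩
  have key : ∀ u : k, (α ^ 2 - 1) * u ^ 4 + (2 * α * β) * u ^ 3 +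
      (β ^ 2 + 2 * α * γ + 2 * (3 * p0 + a0)) * u ^ 2 + (2 * β * γ + 8 * r0) * u +
      (γ ^ 2 - (a0 ^ 2 - 2 * a0 * p0 - 3 * p0 ^ 2 - 4 * b0)) = 0 := by
    intro u
    have h1 : v ⬝ᵥ ![v 1, -v 0, u] = 0 := by
      simp [dotProduct, Fin.sum_univ_three, hv2]
      ring
    have h3 := PQ.Bit.eval hS ![v 1, -v 0, u] h1
    have h5 : (![v 1, -v 0, u] : Fin 3 → k) = u • ![0, 0, 1] + (1 : k) • ![v 1, -v 0, 0] := by
      ext i
      fin_cases i <;> simp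
    have h6 := PQ.bin_quad Q hQ ![0, 0, 1] ![v 1, -v 0, 0] u 1
    rw [← h5, ← hα, ← hγ, ← hβ] at h6
    rw [eval_qy, h6] at h3
    have h7 : (![(![v 1, -v 0, u] : Fin 3 → k) 0, (![v 1, -v 0, u] : Fin 3 → k) 1] : Fin 2 → k) =
        ![v 1, -v 0] := rfl
    have h9 : (![v 1, -v 0, u] : Fin 3 → k) 2 = u := rfl
    rw [h7, h9, ← hp0, ← hr0, ← ha0, ← hb0] at h3
    linear_combination -h3
  obtain ⟨e4, e3, e2, e1, e0⟩ := obi_coef key
  have hα1 : α ^ 2 = 1 := by linear_combination e4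
  have hα0 : α ≠ 0 := by
    intro hc
    rw [hc] at hα1
    norm_num at hα1
  have hβ0 : β = 0 := by
    rcases mul_eq_zero.1 e3 with h | h
    · exact absurd h (mul_ne_zero h2 hα0)
    · exact h
  rw [hβ0] at e2 e1
  have hr : r0 = 0 := by
    apply (mul_eq_zero.1 (_ : (8 : k) * r0 = 0)).resolve_left h8
    linear_combination e1
  have hαγ : α * γ = -(3 * p0 + a0) := by
    have : (2 : k) * (α * γ + (3 * p0 + a0)) = 0 := by linear_combination e2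
    have h := (mul_eq_zero.1 this).resolve_left h2
    linear_combination h
  have hγ2 : γ ^ 2 = (3 * p0 + a0) ^ 2 := by
    have : (α * γ) ^ 2 = (3 * p0 + a0) ^ 2 := by
      rw [hαγ]
      ring
    linear_combination this - γ ^ 2 * hα1
  have hcud : eval ![v 1, -v 0] (cud A p) = 0 := by
    have h1 : eval ![v 1, -v 0] (cud A p) = 3 * p0 ^ 2 + 2 * a0 * p0 + b0 := by
      rw [cud, hp0, ha0, hb0]
      simp only [map_add, map_mul, map_pow, map_ofNat]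
    rw [h1]
    apply (mul_eq_zero.1 (_ : (4 : k) * (3 * p0 ^ 2 + 2 * a0 * p0 + b0) = 0)).resolve_left h4
    linear_combination e0 - hγ2
  exact cop A hNS p r hs _ hx (by rw [← hr0]; exact hr) hcud

end Pool.Agent.G4
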