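import Pool.Agent.G4.Defs
import Pool.Agent.PQ.REL
import Pool.Agent.PQ.MPB
import Pool.Agent.PQ.BTX

/-!
# G4 / TLB

`b 0 = (1, 1, 1)` in `PQ.rel` (`i = 0`): `y 0 j + y 1 j + y 2 j = - κ`, `κ = ka b 0`, `y = yy b`.  So `y_2 = - κ S - y_0 - y_1` as forms, `S = X 0 + X 1 + X 2`.  With `A = X0 y0`, `B = X1 y1`, `C = X2 y2`, `A' = X0 y1`, `B' = X1 y0`,
`C' = S lin (tl b 1 2)`, `tl b 1 2 = κ e_2 + y_0 + y_1`: `A' + B' - C' = -(A + B - C)`, `A' B' = A B`, and `Hq x y z = (x + y - z)² - 4 x y`.  The third one: exchange the indices 1 and 2.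
`tlb`: `Hq x y (l m) = (x - y)² + m (l (l m - 2 x - 2 y))`: `Bit` for `m = tl b i j` with the form `X0 y_i - X_i y0`.
`map_tv`: `PQ.map_yy`, and the same for `ka` (`PQ.map_mu`, `PQ.map_la`).
-/

namespace Pool.Agent.G4

open MvPolynomial Matrix
open Pool.Agent.PQ (P3 lin sb SF NS Bit RB yy ka ND)

private theorem tlb_sum {R : Type*} [CommRing R] (b : Fin 4 → Fin 3 → R) (hb : ∀ r, b 0 r = 1) (j : Fin 3) :
    yy b 0 j + yy b 1 j + yy b 2 j = -ka b 0 := by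
  have h := Pool.Agent.PQ.rel b 0 j
  have h1 : ∀ r, Pool.Agent.PQ.aa b 0 r = 1 := fun r => by rw [Pool.Agent.PQ.aa, hb, hb, one_mul]
  rw [Fin.sum_univ_three, h1, h1, h1, hb] at h
  linear_combination h

private theorem tlb_dot {R : Type*} [CommRing R] (b : Fin 4 → Fin 3 → R) (hb : ∀ r, b 0 r = 1) (o : Fin 3 → R) :
    yy b 2 ⬝ᵥ o = -ka b 0 * (o 0 + o 1 + o 2) - yy b 0 ⬝ᵥ o - yy b 1 ⬝ᵥ o := by
  simp only [dotProduct, Fin.sum_univ_three]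
  have h0 := tlb_sum b hb 0
  have h1 := tlb_sum b hb 1
  have h2 := tlb_sum b hb 2
  linear_combination (o 0) * h0 + (o 1) * h1 + (o 2) * h2

private theorem tlb_tl {R : Type*} [CommRing R] (b : Fin 4 → Fin 3 → R) (i j : Fin 3) (o : Fin 3 → R) :
    tl b i j ⬝ᵥ o = ka b 0 * o j + yy b 0 ⬝ᵥ o + yy b i ⬝ᵥ o := by
  rw [tl, add_dotProduct, add_dotProduct, single_dotProduct]

theorem hq_tv {R : Type*} [CommRing R] (b : Fin 4 → Fin 3 → R) (hb : ∀ r, b 0 r = 1) (o : Fin 3 → R) (j : Fin 3) :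
    Hq (tv b o j 0) (tv b o j 1) (tv b o j 2) = eval o (RB b) := by
  have h1 := tlb_dot b hb o
  have hR : eval o (RB b) = Hq (o 0 * (yy b 0 ⬝ᵥ o)) (o 1 * (yy b 1 ⬝ᵥ o)) (o 2 * (yy b 2 ⬝ᵥ o)) := by
    simp only [RB, Pool.Agent.PQ.RQ, Pool.Agent.PQ.Ay, Hq, map_sub, map_add, map_mul, map_pow,
      Pool.Agent.PQ.eval_lin, eval_X, map_ofNat]
  rw [hR]
  fin_cases j
  · rfl
  · change Hq (o 0 * (yy b 1 ⬝ᵥ o)) (o 1 * (yy b 0 ⬝ᵥ o)) ((o 0 + o 1 + o 2) * (tl b 1 2 ⬝ᵥ o)) = _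
    rw [tlb_tl, h1]
    unfold Hq
    ring
  · change Hq (o 0 * (yy b 2 ⬝ᵥ o)) (o 2 * (yy b 0 ⬝ᵥ o)) ((o 0 + o 1 + o 2) * (tl b 2 1 ⬝ᵥ o)) = _
    rw [tlb_tl, h1]
    unfold Hq
    ring

private theorem tlb_lin {R : Type*} [CommRing R] (b : Fin 4 → Fin 3 → R) (hb : ∀ r, b 0 r = 1) :
    lin (yy b 2) = -C (ka b 0) * (X 0 + X 1 + X 2) - lin (yy b 0) - lin (yy b 1) := by
  have h : ∀ j, yy b 2 j = -ka b 0 - yy b 0 j - yy b 1 j := fun j => by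
    linear_combination tlb_sum b hb j
  simp only [lin, Fin.sum_univ_three, h, map_sub, map_neg]
  ring

private theorem tlb_ltl {R : Type*} [CommRing R] (b : Fin 4 → Fin 3 → R) (i j : Fin 3) :
    lin (tl b i j) = C (ka b 0) * X j + lin (yy b 0) + lin (yy b i) := by
  rw [tl, Pool.Agent.PQ.lin_add, Pool.Agent.PQ.lin_add]
  congr 2
  simp only [lin, Fin.sum_univ_three]
  fin_cases j <;> simp

theorem tlb {R : Type*} [CommRing R] (b : Fin 4 → Fin 3 → R) (hb : ∀ r, b 0 r = 1) (i j : Fin 3)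
    (h : (i = 1 ∧ j = 2) ∨ (i = 2 ∧ j = 1)) : ∃ Q : P3 R, Bit (RB b) (tl b i j) Q := by
  have hX : ∀ r, (X r : P3 R).IsHomogeneous 1 := fun r => isHomogeneous_X R r
  have hL : ∀ v : Fin 3 → R, (lin v).IsHomogeneous 1 := Pool.Agent.PQ.lin_hom
  have hS : (X 0 + X 1 + X 2 : P3 R).IsHomogeneous 1 := ((hX 0).add (hX 1)).add (hX 2)
  have h2 : ∀ f : P3 R, ∀ n, f.IsHomogeneous n → (2 * f).IsHomogeneous n := fun f n hf => by
    rw [two_mul]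
    exact hf.add hf
  refine ⟨X 0 * lin (yy b i) - X i * lin (yy b 0), ⟨((hX 0).mul (hL _)).sub ((hX i).mul (hL _)),
    (X 0 + X 1 + X 2) * ((X 0 + X 1 + X 2) * lin (tl b i j) - 2 * (X 0 * lin (yy b i)) -
      2 * (X i * lin (yy b 0))), ?_, ?_⟩⟩
  · exact hS.mul (((hS.mul (hL _)).sub (h2 _ _ ((hX 0).mul (hL _)))).sub (h2 _ _ ((hX i).mul (hL _))))
  · have h3 := tlb_lin b hb
    rw [tlb_ltl, RB, Pool.Agent.PQ.RQ]
    simp only [Pool.Agent.PQ.Ay]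
    rcases h with ⟨rfl, rfl⟩ | ⟨rfl, rfl⟩
    · rw [h3]
      ring
    · rw [h3]
      ring

theorem map_ka {R S : Type*} [CommRing R] [CommRing S] (φ : R →+* S) (b : Fin 4 → Fin 3 → R) (i : Fin 4) :
    φ (ka b i) = ka (fun i r => φ (b i r)) i := by
  simp only [ka, map_mul, map_prod, Pool.Agent.PQ.map_la, Pool.Agent.PQ.map_mu]

theorem map_tv {R S : Type*} [CommRing R] [CommRing S] (φ : R →+* S) (b : Fin 4 → Fin 3 → R) (o : Fin 3 → R)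
    (j i : Fin 3) : φ (tv b o j i) = tv (fun i r => φ (b i r)) (fun i => φ (o i)) j i := by
  have hd : ∀ r, φ (yy b r ⬝ᵥ o) = yy (fun i r => φ (b i r)) r ⬝ᵥ fun i => φ (o i) := by
    intro r
    simp only [dotProduct, map_sum, map_mul, Pool.Agent.PQ.map_yy]
  have ht : ∀ i j, φ (tl b i j ⬝ᵥ o) = tl (fun i r => φ (b i r)) i j ⬝ᵥ fun i => φ (o i) := by
    intro i j
    rw [tlb_tl, tlb_tl, map_add, map_add, map_mul, hd, hd, map_ka]
  fin_cases j <;> fin_cases i <;> simp [tv, hd, ht]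

end Pool.Agent.G4
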