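import Pool.Agent.G4.DGL
import Pool.Agent.G4.FXH
import Pool.Agent.G4.HER
import Pool.Agent.G4.TLB
import Pool.Agent.PQ.BTX
import Pool.Agent.PQ.TRF
import Pool.Agent.PQ.REL
import Pool.Agent.G4.OBI
import Pool.Agent.G4.BAM

/-!
# G4 / DGB

`h⁻¹` and the lines `w ᵥ* h⁻¹`, `w = e_0, e_1, e_2, b 0, ..., b 3`: bitangents of `G = qy A p r` (`dgr_bit` in `PQ/DGR.lean`), with third coordinate `≠ 0` (`obi`, `SF.ns`); normalise: `L j = -(third)⁻¹ • (w_j ᵥ* h⁻¹)`.  If `σ` fixes all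
`L j i`, then `σ (w ᵥ* h⁻¹)` is a multiple of `w ᵥ* h⁻¹`; `fxh`: `σ` fixes `b` and `oo h`.  `dgl` with `X = {b i r}`, `m = 1 ≤ 8`; and for `exu (v j) i` with `v j i ^ 2 = tv b (oo h) j i`, which `σ` fixes (`map_tv`):
`her_sgn`, `m = 8`.
-/

namespace Pool.Agent.G4

open MvPolynomial Matrix NumberField IsDedekindDomain
open Pool.Agent.PQ (P3 lin sb SF NS Bit RB yy ka ND)

/-- bitangents of the model give bitangents of `F` -/
private theorem dgb_bit {C : Type*} [Field C] [IsAlgClosed C] (F : P3 C)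
    (h : Matrix (Fin 3) (Fin 3) C) (hh : h.det ≠ 0) (c : C) (G : P3 C)
    (hE : sb h F = MvPolynomial.C c * G) (v : Fin 3 → C) (Q : P3 C) (hb : Bit G v Q) :
    ∃ Q', Bit F (v ᵥ* h⁻¹) Q' := by
  obtain ⟨e, he⟩ := IsAlgClosed.exists_pow_nat_eq c (n := 2) (by norm_num)
  have h1 := Pool.Agent.PQ.scl_bit hb 1 e one_ne_zero
  rw [he, ← hE, one_smul] at h1
  have h2 := Pool.Agent.PQ.trf_bit h⁻¹ h1
  rw [Pool.Agent.PQ.sb_inv h hh] at h2
  exact ⟨_, h2⟩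

theorem dgb {K C : Type*} [Field K] [NumberField K] [Field C] [Algebra K C] [Algebra.IsAlgebraic K C]
    [IsAlgClosed C] (A : Fin 3 → P2 K) (hA : TH A) (hS : SF (tri A)) (p r : P2 C)
    (hs : Sec (fun i => map (algebraMap K C) (A i)) p r)
    (h : Matrix (Fin 3) (Fin 3) C) (hh : h.det ≠ 0) (κ : C) (hκ : κ ≠ 0) (b : Fin 4 → Fin 3 → C) (hb : ND b)
    (hE : sb h (qy (fun i => map (algebraMap K C) (A i)) p r) = MvPolynomial.C κ * RB b) :
    (∀ i r, (minpoly K (b i r)).natDegree ≤ 7226 * 42 ^ 7 * 8) ∧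
      ∀ v : Fin 3 → Fin 3 → C, (∀ j i, v j i ^ 2 = tv b (oo h) j i) →
        ∀ j i, (minpoly K (exu (v j) i)).natDegree ≤ 7226 * 42 ^ 7 * 8 := by
  classical
  have hchar : CharZero C := charZero_of_injective_algebraMap (algebraMap K C).injective
  have h2 : (2 : C) ≠ 0 := two_ne_zero
  have hhi : h⁻¹ * h = 1 := Matrix.nonsing_inv_mul _ (isUnit_iff_ne_zero.2 hh)
  set A' : Fin 3 → P2 C := fun i => map (algebraMap K C) (A i) with hA'
  have hTA : TH A' := TH.map _ hA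
  have hNS : NS (tri A') := by
    have h1 : SF (map (algebraMap K C) (tri A)) := hS.map _
    rw [map_tri] at h1
    exact h1.ns
  have hback : ∀ v : Fin 3 → C, (v ᵥ* h⁻¹) ᵥ* h = v := by
    intro v
    rw [Matrix.vecMul_vecMul, hhi, Matrix.vecMul_one]
  have hne : ∀ v : Fin 3 → C, v ≠ 0 → v ᵥ* h⁻¹ ≠ 0 := by
    intro v hv h0
    apply hv
    rw [← hback v, h0, Matrix.zero_vecMul]
  -- normalised lines
  have hN : ∀ v : Fin 3 → C, v ≠ 0 → (∃ Q, Bit (RB b) v Q) →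
      ∃ l : Fin 3 → C, l 2 = -1 ∧ (∃ Q, Bit (qy A' p r) l Q) ∧
        ∃ t : C, t ≠ 0 ∧ v ᵥ* h⁻¹ = t • l := by
    rintro v hv ⟨Q, hQ⟩
    obtain ⟨Q', hQ'⟩ := dgb_bit _ h hh κ _ hE v Q hQ
    have h3 : (v ᵥ* h⁻¹) 2 ≠ 0 := obi h2 A' hTA hNS p r hs _ (hne v hv) Q' hQ'
    have h4 := Pool.Agent.PQ.scl_bit hQ' (-((v ᵥ* h⁻¹) 2)⁻¹) 1 (neg_ne_zero.2 (inv_ne_zero h3))
    rw [one_pow, C_1, one_mul] at h4
    refine ⟨-((v ᵥ* h⁻¹) 2)⁻¹ • (v ᵥ* h⁻¹), ?_, ⟨_, h4⟩, -((v ᵥ* h⁻¹) 2), neg_ne_zero.2 h3, ?_⟩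
    · rw [Pi.smul_apply, smul_eq_mul, neg_mul, inv_mul_cancel₀ h3]
    · rw [smul_smul, neg_mul_neg, mul_inv_cancel₀ h3, one_smul]
  have hX0 : ∀ s : Fin 3, (Pi.single s 1 : Fin 3 → C) ≠ 0 := by
    intro s h0
    have := congrFun h0 s
    rw [Pi.single_eq_same, Pi.zero_apply] at this
    exact one_ne_zero this
  have hB0 : ∀ i : Fin 4, b i ≠ 0 := by
    intro i h0
    exact hb.ne i 0 (congrFun h0 0)
  have hXl := fun s : Fin 3 => hN (Pi.single s 1) (hX0 s) ⟨_, Pool.Agent.PQ.bit_x (yy b) s⟩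
  have hBl := fun i : Fin 4 => hN (b i) (hB0 i)
    ⟨_, Pool.Agent.PQ.bit_s (b i) (hb.ne i) (yy b) _ (Pool.Agent.PQ.rel_field b i (hb.ne i))⟩
  choose lx hx1 hx2 tx hx3 hx4 using hXl
  choose lb hb1 hb2 tb hb3 hb4 using hBl
  choose qx hqx using hx2
  choose qb hqb using hb2
  -- the seven lines
  set L : Fin 7 → Fin 3 → C := ![lx 0, lx 1, lx 2, lb 0, lb 1, lb 2, lb 3] with hL
  set Q : Fin 7 → P3 C := ![qx 0, qx 1, qx 2, qb 0, qb 1, qb 2, qb 3] with hQd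
  have hL1 : ∀ j, L j 2 = -1 := by
    intro j
    fin_cases j
    · exact hx1 0
    · exact hx1 1
    · exact hx1 2
    · exact hb1 0
    · exact hb1 1
    · exact hb1 2
    · exact hb1 3
  have hL2 : ∀ j, Bit (qy A' p r) (L j) (Q j) := by
    intro j
    fin_cases j
    · exact hqx 0
    · exact hqx 1
    · exact hqx 2
    · exact hqb 0
    · exact hqb 1
    · exact hqb 2
    · exact hqb 3
  have hfix : ∀ σ : C ≃ₐ[K] C, (∀ j i, σ (L j i) = L j i) →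
      (∀ i s, σ (b i s) = b i s) ∧ ∀ i, σ (oo h i) = oo h i := by
    intro σ hσ
    have hlx : ∀ s i, σ (lx s i) = lx s i := by
      intro s i
      fin_cases s
      · exact hσ 0 i
      · exact hσ 1 i
      · exact hσ 2 i
    have hlb : ∀ s i, σ (lb s i) = lb s i := by
      intro s i
      fin_cases s
      · exact hσ 3 i
      · exact hσ 4 i
      · exact hσ 5 i
      · exact hσ 6 i
    have gen : ∀ (v l : Fin 3 → C) (t : C), t ≠ 0 → v ᵥ* h⁻¹ = t • l → (∀ i, σ (l i) = l i) →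
        ∃ ζ : C, ζ ≠ 0 ∧ (fun j => (σ : C →+* C) ((v ᵥ* h⁻¹) j)) = ζ • (v ᵥ* h⁻¹) := by
      intro v l t ht hv hl
      have hst : σ t ≠ 0 := (map_ne_zero_iff σ σ.injective).2 ht
      refine ⟨σ t / t, div_ne_zero hst ht, ?_⟩
      funext j
      rw [hv, Pi.smul_apply, Pi.smul_apply, smul_eq_mul, Pi.smul_apply, smul_eq_mul]
      show σ (t * l j) = σ t / t * (t * l j)
      rw [map_mul, hl]
      field_simp
    exact fxh (σ : C →+* C) h hh b hb
      (fun s => gen _ _ _ (hx3 s) (hx4 s) (hlx s))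
      (fun i => gen _ _ _ (hb3 i) (hb4 i) (hlb i))
  constructor
  · intro i s
    refine dgl A hA hS p r hs L hL1 Q hL2 (b i s) {b i s} 8 (by simp) ?_
    intro σ _ _ h3
    rw [Finset.mem_singleton]
    exact (hfix σ h3).1 i s
  · intro v hv j i
    obtain ⟨X, hX1, hX2⟩ := her_sgn (K := K) (v j) i
    refine dgl A hA hS p r hs L hL1 Q hL2 (exu (v j) i) X 8 hX1 ?_
    intro σ _ _ h3
    apply hX2
    intro j'
    obtain ⟨h4, h5⟩ := hfix σ h3
    rw [hv j j']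
    have h6 := map_tv (σ : C →+* C) b (oo h) j j'
    have e1 : (fun i r => (σ : C →+* C) (b i r)) = b := by
      funext i r
      exact h4 i r
    have e2 : (fun i => (σ : C →+* C) (oo h i)) = oo h := by
      funext i
      exact h5 i
    rw [e1, e2] at h6
    exact h6

end Pool.Agent.G4
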