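import Pool.Agent.G4.CNS
import Pool.Agent.ESH.CNT
import Pool.Agent.G4.BTS
import Pool.Agent.G4.BAM

/-!
# G4 / DGL

Degrees.  `ESH.cnt` with `ρ = x` and `T σ := (map σ p, map σ r, fun j i => σ (L j i))`.  Values: `(map σ p, map σ r)` is a section (the coefficients of `A` are in `K`), so in the set `S0` of `cns` (at most 7226 elements), and for each `j`
`fun i => σ (L j i)` is a bitangent of `qy A (map σ p) (map σ r)` (`Bit.map`, `map_qy`) with third coordinate `-1`, so in the set `bts` of that section (at most 42 elements).  So `T σ ∈ S`,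
`S = {(p', r', L') | (p', r') ∈ S0, Sec A p' r', L' j ∈ bts p' r'}` finite, `S.ncard ≤ 7226 * 42 ^ 7`.  Fibres: if `T s = T s0` then `σ = s0⁻¹ s` satisfies the hypotheses of `hX`, so `s x = s0 (σ x) ∈ s0 '' X`: at most `m` values.
-/

namespace Pool.Agent.G4

open MvPolynomial Matrix NumberField IsDedekindDomain
open Pool.Agent.PQ (P3 lin sb SF NS Bit RB yy ka ND)

private theorem dgl_map {K C : Type*} [Field K] [Field C] [Algebra K C] (σ : C ≃ₐ[K] C)
    (A : Fin 3 → P2 K) : (fun i => MvPolynomial.map (σ : C →+* C) (map (algebraMap K C) (A i))) =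
      fun i => map (algebraMap K C) (A i) := by
  funext i
  have e : (σ : C →+* C).comp (algebraMap K C) = algebraMap K C := by
    ext z
    exact σ.commutes z
  rw [MvPolynomial.map_map, e]

private theorem dgl_comp {K C : Type*} [Field K] [Field C] [Algebra K C] (s t : C ≃ₐ[K] C)
    (f : P2 C) (h : map (s : C →+* C) f = map (t : C →+* C) f) :
    map ((s.trans t.symm : C ≃ₐ[K] C) : C →+* C) f = f := by
  have e : ((s.trans t.symm : C ≃ₐ[K] C) : C →+* C) =
      ((t.symm : C ≃ₐ[K] C) : C →+* C).comp (s : C →+* C) := by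
    ext z
    rfl
  have e2 : ((t.symm : C ≃ₐ[K] C) : C →+* C).comp (t : C →+* C) = RingHom.id C := by
    ext z
    exact t.symm_apply_apply z
  rw [e, ← MvPolynomial.map_map, h, MvPolynomial.map_map, e2, MvPolynomial.map_id]

theorem dgl {K C : Type*} [Field K] [NumberField K] [Field C] [Algebra K C] [Algebra.IsAlgebraic K C]
    [IsAlgClosed C] (A : Fin 3 → P2 K) (hA : TH A) (hS : SF (tri A)) (p r : P2 C)
    (hs : Sec (fun i => map (algebraMap K C) (A i)) p r) (L : Fin 7 → Fin 3 → C) (hL : ∀ j, L j 2 = -1)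
    (Q : Fin 7 → P3 C) (hb : ∀ j, Bit (qy (fun i => map (algebraMap K C) (A i)) p r) (L j) (Q j)) (x : C)
    (X : Finset C) (m : ℕ) (hXm : X.card ≤ m) (hX : ∀ σ : C ≃ₐ[K] C, map (σ : C →+* C) p = p →
      map (σ : C →+* C) r = r → (∀ j i, σ (L j i) = L j i) → σ x ∈ X) :
    (minpoly K x).natDegree ≤ 7226 * 42 ^ 7 * m := by
  classical
  have hchar : CharZero C := charZero_of_injective_algebraMap (algebraMap K C).injective
  set A' : Fin 3 → P2 C := fun i => map (algebraMap K C) (A i) with hA'
  have hTA : TH A' := TH.map _ hA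
  have hNS : NS (tri A') := by
    have h1 : SF (map (algebraMap K C) (tri A)) := hS.map _
    rw [map_tri] at h1
    exact h1.ns
  obtain ⟨S0, hS0, hS0'⟩ := cns A' hTA hNS
  have hB : ∀ y : P2 C × P2 C, ∃ S : Finset (Fin 3 → C), S.card ≤ 42 ∧
      (Sec A' y.1 y.2 → ∀ (v : Fin 3 → C) (Q : P3 C), v 2 = -1 → Bit (qy A' y.1 y.2) v Q → v ∈ S) := by
    intro y
    by_cases hy : Sec A' y.1 y.2
    · obtain ⟨S, h1, h2⟩ := bts A' hTA hNS y.1 y.2 hy
      exact ⟨S, h1, fun _ => h2⟩
    · exact ⟨∅, by simp, fun h => absurd h hy⟩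
  choose B hB1 hB2 using hB
  set S : Finset (P2 C × P2 C × (Fin 7 → Fin 3 → C)) := S0.biUnion (fun y =>
    (Fintype.piFinset fun _ : Fin 7 => B y).image (fun L' => (y.1, y.2, L'))) with hSd
  have hSc : S.card ≤ 7226 * 42 ^ 7 := by
    refine (Finset.card_biUnion_le_card_mul _ _ (42 ^ 7) fun y _ => ?_).trans
      (Nat.mul_le_mul_right _ hS0)
    refine Finset.card_image_le.trans ?_
    rw [Fintype.card_piFinset_const]
    exact Nat.pow_le_pow_left (hB1 y) 7
  set T : (C ≃ₐ[K] C) → P2 C × P2 C × (Fin 7 → Fin 3 → C) := fun σ =>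
    (map (σ : C →+* C) p, map (σ : C →+* C) r, fun j i => σ (L j i)) with hTd
  have hTS : ∀ σ, T σ ∈ (S : Set (P2 C × P2 C × (Fin 7 → Fin 3 → C))) := by
    intro σ
    have h1 : Sec A' (map (σ : C →+* C) p) (map (σ : C →+* C) r) := by
      have h2 := hs.map (σ : C →+* C)
      rw [dgl_map σ A] at h2
      exact h2
    rw [Finset.mem_coe, hSd, Finset.mem_biUnion]
    refine ⟨(map (σ : C →+* C) p, map (σ : C →+* C) r), hS0' _ _ h1, ?_⟩
    rw [Finset.mem_image]
    refine ⟨fun j i => σ (L j i), ?_, rfl⟩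
    rw [Fintype.mem_piFinset]
    intro j
    have h3 := (hb j).map (σ : C →+* C)
    rw [map_qy, dgl_map σ A] at h3
    refine hB2 _ h1 (fun i => σ (L j i)) _ ?_ h3
    show σ (L j 2) = -1
    rw [hL, map_neg, map_one]
  have hfin := ESH.cnt (K := K) x T (S : Set (P2 C × P2 C × (Fin 7 → Fin 3 → C))) S.finite_toSet hTS m
    (by
      intro v
      by_cases hv : ∃ s0 : C ≃ₐ[K] C, T s0 = v
      · obtain ⟨s0, hs0⟩ := hv
        have hsub : {z : C | ∃ s : C ≃ₐ[K] C, T s = v ∧ s x = z} ⊆
            ((X.image s0 : Finset C) : Set C) := by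
          rintro z ⟨s, hs1, rfl⟩
          rw [← hs0] at hs1
          have e1 : map (s : C →+* C) p = map (s0 : C →+* C) p := congrArg Prod.fst hs1
          have e2 : map (s : C →+* C) r = map (s0 : C →+* C) r :=
            congrArg (fun y => y.2.1) hs1
          have e3 : (fun j i => s (L j i)) = fun j i => s0 (L j i) :=
            congrArg (fun y => y.2.2) hs1
          have h4 := hX (s.trans s0.symm) (dgl_comp s s0 p e1) (dgl_comp s s0 r e2) (by
            intro j i
            have e4 : s (L j i) = s0 (L j i) := congrFun (congrFun e3 j) i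
            show s0.symm (s (L j i)) = L j i
            rw [e4, s0.symm_apply_apply])
          rw [Finset.mem_coe, Finset.mem_image]
          refine ⟨_, h4, ?_⟩
          show s0 (s0.symm (s x)) = s x
          rw [s0.apply_symm_apply]
        refine ⟨(X.image s0).finite_toSet.subset hsub, ?_⟩
        refine (Set.ncard_le_ncard hsub (X.image s0).finite_toSet).trans ?_
        rw [Set.ncard_coe_finset]
        exact Finset.card_image_le.trans hXm
      · have hem : {z : C | ∃ s : C ≃ₐ[K] C, T s = v ∧ s x = z} = ∅ := by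
          ext z
          simp only [Set.mem_ofPred_eq, Set.mem_empty_iff_false, iff_false]
          rintro ⟨s, hs1, -⟩
          exact hv ⟨s, hs1⟩
        rw [hem]
        exact ⟨Set.finite_empty, by simp⟩)
  rw [Set.ncard_coe_finset] at hfin
  exact hfin.trans (Nat.mul_le_mul_right _ hSc)

end Pool.Agent.G4
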