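import Pool.Agent.PQ.Defs
import Pool.Agent.ESH.Defs2

/-!
# G4: definitions

Curves of genus 4 on a quadric cone: `z³ + a z² + b z + c = 0` in the weighted projective plane `P(1,1,2)`, `a, b, c` binary forms of
degrees 2, 4, 6.  `A 0 = a`, `A 1 = b`, `A 2 = c`.  Coordinates: `X 0 = s`, `X 1 = t`, `X 2 = z` (or `X 2 = u` for the plane quartics `qy`).
-/

namespace Pool.Agent.G4

open MvPolynomial NumberField IsDedekindDomain
open Pool.Agent.PQ (P3 lin sb SF NS Bit RB yy ka)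

/-- binary polynomials -/
abbrev P2 (R : Type*) [CommSemiring R] := MvPolynomial (Fin 2) R

section

variable {R : Type*} [CommRing R]

/-- binary polynomials as ternary polynomials -/
noncomputable def em : P2 R →ₐ[R] P3 R := rename Fin.castSucc

/-- `z³ + a z² + b z + c` -/
noncomputable def tri (A : Fin 3 → P2 R) : P3 R :=
  X 2 ^ 3 + em (A 0) * X 2 ^ 2 + em (A 1) * X 2 + em (A 2)

/-- `a, b, c` are forms of degrees 2, 4, 6 -/
def TH (A : Fin 3 → P2 R) : Prop := ∀ i : Fin 3, (A i).IsHomogeneous (2 * (i : ℕ) + 2)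

/-- `p³ + a p² + b p + c` -/
noncomputable def cub (A : Fin 3 → P2 R) (p : P2 R) : P2 R := p ^ 3 + A 0 * p ^ 2 + A 1 * p + A 2

/-- `3 p² + 2 a p + b` -/
noncomputable def cud (A : Fin 3 → P2 R) (p : P2 R) : P2 R := 3 * p ^ 2 + 2 * A 0 * p + A 1

/-- section `z = p, w = r` of the surface `w² = z³ + a z² + b z + c` -/
structure Sec (A : Fin 3 → P2 R) (p r : P2 R) : Prop where
  hp : p.IsHomogeneous 2
  hr : r.IsHomogeneous 3
  eq : r ^ 2 = cub A p

/-- the sections `(p, r)` and `(p', r')` are disjoint: `r' + r` is divisible by `p' - p` -/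
def Opz (p r p' r' : P2 R) : Prop :=
  p' ≠ p ∧ ∃ l : P2 R, l.IsHomogeneous 1 ∧ r' + r = l * (p' - p)

/-- the plane quartic attached to the section `(p, r)` -/
noncomputable def qy (A : Fin 3 → P2 R) (p r : P2 R) : P3 R :=
  X 2 ^ 4 - 2 * em (3 * p + A 0) * X 2 ^ 2 - 8 * em r * X 2 +
    em (A 0 ^ 2 - 2 * A 0 * p - 3 * p ^ 2 - 4 * A 1)

/-- substitution `X 2 ↦ l(s, t)` -/
noncomputable def sl (l : P2 R) : P3 R →ₐ[R] P2 R := aeval ![X 0, X 1, l]

/-- the binary linear form with coefficient vector `v` -/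
noncomputable def bl (v : Fin 2 → R) : P2 R := C (v 0) * X 0 + C (v 1) * X 1

/-- linear substitution of the variables `s, t` -/
noncomputable def bsb (g : Matrix (Fin 2) (Fin 2) R) : P2 R →ₐ[R] P2 R := aeval fun i => bl (g i)

/-- block matrix -/
def blk (g : Matrix (Fin 2) (Fin 2) R) (μ : R) : Matrix (Fin 3) (Fin 3) R :=
  !![g 0 0, g 0 1, 0; g 1 0, g 1 1, 0; 0, 0, μ]

/-- weighted substitution `(s, t) ↦ g (s, t)`, `z ↦ l z + q(s, t)` -/
noncomputable def wsb (g : Matrix (Fin 2) (Fin 2) R) (l : R) (q : P2 R) : P3 R →ₐ[R] P3 R :=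
  aeval ![em (bl (g 0)), em (bl (g 1)), C l * X 2 + em q]

/-- coefficients of the transformed curve -/
structure Tr (g : Matrix (Fin 2) (Fin 2) R) (l : R) (q : P2 R) (A A' : Fin 3 → P2 R) : Prop where
  a : C l * A' 0 = 3 * q + bsb g (A 0)
  b : C (l ^ 2) * A' 1 = 3 * q ^ 2 + 2 * bsb g (A 0) * q + bsb g (A 1)
  c : C (l ^ 3) * A' 2 = q ^ 3 + bsb g (A 0) * q ^ 2 + bsb g (A 1) * q + bsb g (A 2)

/-- dehomogenisation of binary forms, `X 0 ↦ X`, `X 1 ↦ 1` -/
noncomputable def dd : P2 R →ₐ[R] Polynomial R := aeval ![Polynomial.X, 1]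

/-- the binary form of degree `n` with coefficient vector `v` -/
noncomputable def gf (n : ℕ) (v : Fin (n + 1) → R) : P2 R :=
  ∑ i : Fin (n + 1), C (v i) * (X 0 ^ (i : ℕ) * X 1 ^ (n - i))

/-- `x² + y² + z² - 2 (x y + y z + z x)` -/
def Hq (x y z : R) : R := x ^ 2 + y ^ 2 + z ^ 2 - 2 * (x * y + y * z + z * x)

/-- the linear form `κ X_j + y_0 + y_i`, `{i, j} = {1, 2}` (a bitangent of `RB b`) -/
def tl (b : Fin 4 → Fin 3 → R) (i j : Fin 3) : Fin 3 → R := Pi.single j (ka b 0) + yy b 0 + yy b i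

/-- three decompositions of the quartic `RB b` as `Hq`, evaluated at the point `o` -/
def tv (b : Fin 4 → Fin 3 → R) (o : Fin 3 → R) : Fin 3 → Fin 3 → R :=
  ![![o 0 * (yy b 0 ⬝ᵥ o), o 1 * (yy b 1 ⬝ᵥ o), o 2 * (yy b 2 ⬝ᵥ o)],
    ![o 0 * (yy b 1 ⬝ᵥ o), o 1 * (yy b 0 ⬝ᵥ o), (o 0 + o 1 + o 2) * (tl b 1 2 ⬝ᵥ o)],
    ![o 0 * (yy b 2 ⬝ᵥ o), o 2 * (yy b 0 ⬝ᵥ o), (o 0 + o 1 + o 2) * (tl b 2 1 ⬝ᵥ o)]]

/-- the matrix with columns `e_1, o, e_2` -/
def hpo (o : Fin 3 → R) : Matrix (Fin 3) (Fin 3) R := !![0, o 0, 0; 1, o 1, 0; 0, o 2, 1]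

end

section

variable {k : Type*} [Field k]

/-- `(v_0 + v_1 + v_2 - 2 v_i) / (v_0 + v_1 + v_2)` -/
def exu (v : Fin 3 → k) (i : Fin 3) : k := (v 0 + v 1 + v 2 - 2 * v i) / (v 0 + v 1 + v 2)

/-- the point `h⁻¹ (0, 0, 1)`, normalised -/
noncomputable def oo (h : Matrix (Fin 3) (Fin 3) k) (i : Fin 3) : k := h⁻¹ i 2 / h⁻¹ 0 2

end

section

variable {K : Type*} [Field K] [NumberField K]

/-- the curve `z³ + a z² + b z + c = 0` in `P(1,1,2)` has good reduction at `v` as a curve in `P(1,1,2)`: after a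
substitution `(s, t) ↦ g (s, t)`, `z ↦ l z + q(s, t)` its equation is `l³` times an equation of the same kind over the
local ring of `K` at `v` which defines a smooth curve (also modulo the maximal ideal) -/
def GoodW (A : Fin 3 → P2 K) (v : HeightOneSpectrum (𝓞 K)) : Prop :=
  ∃ (g : Matrix (Fin 2) (Fin 2) K) (l : K) (q : P2 K) (A' : Fin 3 → P2 (v.valuation K).valuationSubring),
    g.det ≠ 0 ∧ l ≠ 0 ∧ q.IsHomogeneous 2 ∧ TH A' ∧ SF (tri A') ∧
      C (l ^ 3) * map (algebraMap (v.valuation K).valuationSubring K) (tri A') = wsb g l q (tri A)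

/-- good reduction outside `T` and outside the places over `2` -/
def GoodWO (T : Finset (HeightOneSpectrum (𝓞 K))) (A : Fin 3 → P2 K) : Prop :=
  ∀ v : HeightOneSpectrum (𝓞 K), v ∉ T → (2 : 𝓞 K) ∉ v.asIdeal → GoodW A v

end

end Pool.Agent.G4
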