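import Pool.Agent.G4.Defs

/-!
# G4 / INCB

Second step: scaling.  Choose `s, s1, s0 ∈ M` with `s² = θ`, `s1² = ρ1`, `s0³ = ρ0`, and let `ω` be the element of maximal valuation among
`s, ρ2, s1, s0`.  If `V.valuation ω ≤ 1`: `θ, ρ2, ρ1, ρ0 ∈ V`, done.  Otherwise `ω ≠ 0`, `1 < |ω|` and `|ϖ ω| < 1` in each of the four cases (`|ϖ s|² = |ϖ² θ| < 1`, ...;
write `|·| = V.valuation`; `pow_lt_one_iff`).  Substitute `X ↦ ω X` in the identity and divide by `ω⁶`: with `θ' = θ/ω²`, `ρ2' = ρ2/ω`, `ρ1' = ρ1/ω²`,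
`ρ0' = ρ0/ω³`, all in `V`, at least one of them a unit, and `A_i'' = A_i(x1 + ϖ ω X) ∈ V[X]`:
`(ρ3 X³ + ρ2' X² + ρ1' X + ρ0')² = (X² + θ')³ + ω⁻² A2'' (X² + θ')² + ω⁻⁴ A4'' (X² + θ') + ω⁻⁶ A6''`, an identity in `V[X]` (`ρ3 ∈ V` since `|ρ3² - 1| < 1`).
Modulo the maximal ideal (`ω⁻¹ ↦ 0`, `a = ρ3 mod m`, `a² = 1`): `(a X³ + ρ2' X² + ρ1' X + ρ0')² = (X² + θ')³` in `k[X]`, 2 invertible.  Coefficients:
`X⁵`: `2 a ρ2' = 0`; `X³`: `2 a ρ0' + 2 ρ1' ρ2' = 0`, so `ρ0' = 0`; `X⁰`: `ρ0'² = θ'³`, so `θ' = 0`; `X⁴`: `ρ2'² + 2 a ρ1' = 3 θ'`, so `ρ1' = 0`.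
All four are `0`, contradiction.
-/

namespace Pool.Agent.G4

open Polynomial

/-- the coefficients of the reduced identity -/
private lemma incb_coef {k : Type*} [Field k] (h2 : (2 : k) ≠ 0) (a r2 r1 r0 t : k) (ha : a ^ 2 = 1)
    (h : (C a * X ^ 3 + C r2 * X ^ 2 + C r1 * X + C r0) ^ 2 = (X ^ 2 + C t) ^ 3) :
    t = 0 ∧ r2 = 0 ∧ r1 = 0 ∧ r0 = 0 := by
  have ha0 : a ≠ 0 := by
    intro h0; rw [h0] at ha; simp at ha
  have key : C (a ^ 2 - 1) * X ^ 6 + C (2 * a * r2) * X ^ 5 + C (r2 ^ 2 + 2 * a * r1 - 3 * t) * X ^ 4 +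
      C (2 * a * r0 + 2 * r2 * r1) * X ^ 3 + C (r1 ^ 2 + 2 * r2 * r0 - 3 * t ^ 2) * X ^ 2 +
      C (2 * r1 * r0) * X ^ 1 + C (r0 ^ 2 - t ^ 3) * X ^ 0 = (0 : k[X]) := by
    have h' := sub_eq_zero.2 h
    rw [← h']
    simp only [C_add, C_sub, C_mul, C_pow, C_1, map_ofNat]
    ring
  have c5 := congrArg (fun f => coeff f 5) key
  have c4 := congrArg (fun f => coeff f 4) key
  have c3 := congrArg (fun f => coeff f 3) key
  have c0 := congrArg (fun f => coeff f 0) key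
  simp only [coeff_add, coeff_C_mul_X_pow, coeff_zero] at c5 c4 c3 c0
  norm_num at c5 c4 c3 c0
  have e2 : r2 = 0 := by
    rcases c5 with h0 | h0
    · exfalso
      rcases h0 with h1 | h1
      · exact h2 h1
      · exact ha0 h1
    · exact h0
  rw [e2] at c3 c4
  have e0 : r0 = 0 := by
    have : 2 * a * r0 = 0 := by linear_combination c3
    rcases mul_eq_zero.1 this with h0 | h0
    · exact absurd h0 (mul_ne_zero h2 ha0)
    · exact h0
  rw [e0] at c0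
  have et : t = 0 := by
    have : t ^ 3 = 0 := by linear_combination -c0
    exact pow_eq_zero_iff (n := 3) (by norm_num) |>.1 this
  rw [et] at c4
  have e1 : r1 = 0 := by
    have : 2 * a * r1 = 0 := by linear_combination c4
    rcases mul_eq_zero.1 this with h0 | h0
    · exact absurd h0 (mul_ne_zero h2 ha0)
    · exact h0
  exact ⟨et, e2, e1, e0⟩

/-- the scaled identity modulo the maximal ideal -/
private lemma incb_core {M : Type*} [Field M] (V : ValuationSubring M) (h2 : V.valuation (2 : M) = 1)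
    (A2 A4 A6 : V[X]) (x1 ϖ : V) (θ ρ0 ρ1 ρ2 ρ3 : M) (h8 : V.valuation (ρ3 ^ 2 - 1) < 1)
    (hE : (C ρ3 * X ^ 3 + C ρ2 * X ^ 2 + C ρ1 * X + C ρ0) ^ 2 = (X ^ 2 + C θ) ^ 3 +
        ((A2.comp (C x1 + C ϖ * X)).map (algebraMap V M)) * (X ^ 2 + C θ) ^ 2 +
        ((A4.comp (C x1 + C ϖ * X)).map (algebraMap V M)) * (X ^ 2 + C θ) +
        ((A6.comp (C x1 + C ϖ * X)).map (algebraMap V M)))
    (ω : M) (hω : 1 < V.valuation ω) (hω1 : V.valuation ((ϖ : M) * ω) ≤ 1)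
    (e0 : V.valuation (θ / ω ^ 2) ≤ 1) (e1 : V.valuation (ρ2 / ω) ≤ 1)
    (e2 : V.valuation (ρ1 / ω ^ 2) ≤ 1) (e3 : V.valuation (ρ0 / ω ^ 3) ≤ 1) :
    V.valuation (θ / ω ^ 2) < 1 ∧ V.valuation (ρ2 / ω) < 1 ∧ V.valuation (ρ1 / ω ^ 2) < 1 ∧
      V.valuation (ρ0 / ω ^ 3) < 1 := by
  have hω0 : ω ≠ 0 := by
    intro h; rw [h, map_zero] at hω; exact absurd hω (not_lt.2 zero_le_one)
  have h3 : V.valuation ρ3 ≤ 1 := by
    rw [← pow_le_one_iff (n := 2) (by norm_num), ← map_pow]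
    have : ρ3 ^ 2 = (ρ3 ^ 2 - 1) + 1 := by ring
    rw [this]
    exact V.valuation.map_add_le h8.le (by rw [map_one])
  have hι : V.valuation ω⁻¹ < 1 := by
    rw [map_inv₀]
    exact inv_lt_one_of_one_lt₀ hω
  let r3 : V := ⟨ρ3, (V.valuation_le_one_iff _).1 h3⟩
  let t : V := ⟨θ / ω ^ 2, (V.valuation_le_one_iff _).1 e0⟩
  let r2 : V := ⟨ρ2 / ω, (V.valuation_le_one_iff _).1 e1⟩
  let r1 : V := ⟨ρ1 / ω ^ 2, (V.valuation_le_one_iff _).1 e2⟩
  let r0 : V := ⟨ρ0 / ω ^ 3, (V.valuation_le_one_iff _).1 e3⟩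
  let ι : V := ⟨ω⁻¹, (V.valuation_le_one_iff _).1 hι.le⟩
  let η : V := ⟨ϖ * ω, (V.valuation_le_one_iff _).1 hω1⟩
  have hid : (C r3 * X ^ 3 + C r2 * X ^ 2 + C r1 * X + C r0) ^ 2 = (X ^ 2 + C t) ^ 3 +
      C (ι ^ 2) * (A2.comp (C x1 + C η * X)) * (X ^ 2 + C t) ^ 2 +
      C (ι ^ 4) * (A4.comp (C x1 + C η * X)) * (X ^ 2 + C t) +
      C (ι ^ 6) * (A6.comp (C x1 + C η * X)) := by
    apply Polynomial.map_injective (algebraMap V M) (FaithfulSMul.algebraMap_injective V M)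
    have hr3 : algebraMap V M r3 = ρ3 := rfl
    have ht : algebraMap V M t = θ / ω ^ 2 := rfl
    have hr2 : algebraMap V M r2 = ρ2 / ω := rfl
    have hr1 : algebraMap V M r1 = ρ1 / ω ^ 2 := rfl
    have hr0 : algebraMap V M r0 = ρ0 / ω ^ 3 := rfl
    have hi : algebraMap V M ι = ω⁻¹ := rfl
    have hη : algebraMap V M η = algebraMap V M ϖ * ω := rfl
    have hc := congrArg (fun f => f.comp (C ω * X)) hE
    have hcomp : ∀ A : V[X], ((A.comp (C x1 + C ϖ * X)).map (algebraMap V M)).comp (C ω * X) =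
        (A.comp (C x1 + C η * X)).map (algebraMap V M) := by
      intro A
      rw [Polynomial.map_comp, Polynomial.map_comp, Polynomial.comp_assoc]
      congr 1
      simp only [Polynomial.map_add, Polynomial.map_mul, map_C, map_X, add_comp, mul_comp, C_comp,
        X_comp, hη, C_mul]
      ring
    simp only [pow_comp, add_comp, mul_comp, C_comp, X_comp, hcomp] at hc
    simp only [Polynomial.map_add, Polynomial.map_mul, Polynomial.map_pow, map_C, map_X, map_pow, hr3, ht,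
      hr2, hr1, hr0, hi] 
    have hm : C (ω⁻¹) * C ω = (1 : M[X]) := by rw [← C_mul, inv_mul_cancel₀ hω0, C_1]
    have d1 : C (ρ2 / ω) = C ρ2 * C ω⁻¹ := by rw [← C_mul, div_eq_mul_inv]
    have d2 : C (ρ1 / ω ^ 2) = C ρ1 * C ω⁻¹ ^ 2 := by
      rw [← C_pow, ← C_mul, div_eq_mul_inv, inv_pow]
    have d3 : C (ρ0 / ω ^ 3) = C ρ0 * C ω⁻¹ ^ 3 := by
      rw [← C_pow, ← C_mul, div_eq_mul_inv, inv_pow]
    have d4 : C (θ / ω ^ 2) = C θ * C ω⁻¹ ^ 2 := by
      rw [← C_pow, ← C_mul, div_eq_mul_inv, inv_pow]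
    rw [d1, d2, d3, d4]
    have hX : (X : M[X]) = C ω⁻¹ * (C ω * X) := by rw [← mul_assoc, hm, one_mul]
    set Y : M[X] := C ω * X with hY
    set B2 := map (algebraMap V M) (A2.comp (C x1 + C η * X))
    set B4 := map (algebraMap V M) (A4.comp (C x1 + C η * X))
    set B6 := map (algebraMap V M) (A6.comp (C x1 + C η * X))
    rw [hX]
    linear_combination (C ω⁻¹ ^ 6) * hc
  have hid2 := congrArg (Polynomial.map (IsLocalRing.residue V)) hid
  have hι0 : IsLocalRing.residue V ι = 0 := by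
    rw [IsLocalRing.residue_eq_zero_iff, V.valuation_lt_one_iff]
    exact hι
  simp only [Polynomial.map_add, Polynomial.map_mul, Polynomial.map_pow, map_C, map_X, map_pow,
    hι0] at hid2
  simp only [ne_eq, OfNat.ofNat_ne_zero, not_false_eq_true, zero_pow, C_0, zero_mul, add_zero] at hid2
  have h2' : (2 : IsLocalRing.ResidueField V) ≠ 0 := by
    intro h
    have h' : IsLocalRing.residue V (2 : V) = 0 := by rw [map_ofNat]; exact h
    rw [IsLocalRing.residue_eq_zero_iff, V.valuation_lt_one_iff] at h'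
    have : V.valuation ((2 : V) : M) = 1 := by
      have e : ((2 : V) : M) = 2 := rfl
      rw [e]; exact h2
    rw [this] at h'
    exact lt_irrefl _ h'
  have ha : (IsLocalRing.residue V r3) ^ 2 = 1 := by
    rw [← map_pow, ← sub_eq_zero, ← map_one (IsLocalRing.residue V), ← map_sub,
      IsLocalRing.residue_eq_zero_iff, V.valuation_lt_one_iff]
    exact h8
  obtain ⟨a0, a1, a2, a3⟩ := incb_coef h2' _ _ _ _ _ ha hid2
  rw [IsLocalRing.residue_eq_zero_iff, V.valuation_lt_one_iff] at a0 a1 a2 a3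
  exact ⟨a0, a1, a2, a3⟩

theorem incb {M : Type*} [Field M] [IsAlgClosed M] (V : ValuationSubring M) (h2 : V.valuation (2 : M) = 1)
    (A2 A4 A6 : V[X]) (x1 ϖ : V) (θ ρ0 ρ1 ρ2 ρ3 : M) (h4 : V.valuation ((ϖ : M) ^ 2 * θ) < 1)
    (h5 : V.valuation ((ϖ : M) * ρ2) < 1) (h6 : V.valuation ((ϖ : M) ^ 2 * ρ1) < 1)
    (h7 : V.valuation ((ϖ : M) ^ 3 * ρ0) < 1) (h8 : V.valuation (ρ3 ^ 2 - 1) < 1)
    (hE : (C ρ3 * X ^ 3 + C ρ2 * X ^ 2 + C ρ1 * X + C ρ0) ^ 2 = (X ^ 2 + C θ) ^ 3 +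
        ((A2.comp (C x1 + C ϖ * X)).map (algebraMap V M)) * (X ^ 2 + C θ) ^ 2 +
        ((A4.comp (C x1 + C ϖ * X)).map (algebraMap V M)) * (X ^ 2 + C θ) +
        ((A6.comp (C x1 + C ϖ * X)).map (algebraMap V M))) :
    θ ∈ V ∧ ρ0 ∈ V ∧ ρ1 ∈ V ∧ ρ2 ∈ V ∧ ρ3 ∈ V := by
  have h3 : V.valuation ρ3 ≤ 1 := by
    rw [← pow_le_one_iff (n := 2) (by norm_num), ← map_pow]
    have : ρ3 ^ 2 = (ρ3 ^ 2 - 1) + 1 := by ring
    rw [this]
    exact V.valuation.map_add_le h8.le (by rw [map_one])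
  obtain ⟨s, hs⟩ := IsAlgClosed.exists_pow_nat_eq θ (n := 2) (by norm_num)
  obtain ⟨s1, hs1⟩ := IsAlgClosed.exists_pow_nat_eq ρ1 (n := 2) (by norm_num)
  obtain ⟨s0, hs0⟩ := IsAlgClosed.exists_pow_nat_eq ρ0 (n := 3) (by norm_num)
  let f : Fin 4 → M := ![s, ρ2, s1, s0]
  obtain ⟨i, hi⟩ := Finite.exists_max fun i => V.valuation (f i)
  have b0 : V.valuation s ≤ V.valuation (f i) := hi 0
  have b1 : V.valuation ρ2 ≤ V.valuation (f i) := hi 1
  have b2 : V.valuation s1 ≤ V.valuation (f i) := hi 2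
  have b3 : V.valuation s0 ≤ V.valuation (f i) := hi 3
  rcases le_or_gt (V.valuation (f i)) 1 with hle | hgt
  · refine ⟨?_, ?_, ?_, ?_, (V.valuation_le_one_iff _).1 h3⟩
    · rw [← hs]; exact pow_mem ((V.valuation_le_one_iff _).1 (b0.trans hle)) 2
    · rw [← hs0]; exact pow_mem ((V.valuation_le_one_iff _).1 (b3.trans hle)) 3
    · rw [← hs1]; exact pow_mem ((V.valuation_le_one_iff _).1 (b2.trans hle)) 2
    · exact (V.valuation_le_one_iff _).1 (b1.trans hle)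
  · exfalso
    have hf0 : V.valuation (f i) ≠ 0 := (zero_lt_one.trans hgt).ne'
    have hfi0 : f i ≠ 0 := (V.valuation.ne_zero_iff).1 hf0
    have hdiv : ∀ (x : M) (n : ℕ), V.valuation x ≤ V.valuation (f i) ^ n →
        V.valuation (x / f i ^ n) ≤ 1 := by
      intro x n h
      rw [map_div₀, map_pow]
      exact div_le_one_of_le₀ h zero_le
    have e0 : V.valuation (θ / f i ^ 2) ≤ 1 := hdiv _ _ (by
      rw [← hs, map_pow]; exact pow_le_pow_left' b0 2)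
    have e1 : V.valuation (ρ2 / f i) ≤ 1 := by
      have := hdiv ρ2 1 (by rw [pow_one]; exact b1)
      rwa [pow_one] at this
    have e2 : V.valuation (ρ1 / f i ^ 2) ≤ 1 := hdiv _ _ (by
      rw [← hs1, map_pow]; exact pow_le_pow_left' b2 2)
    have e3 : V.valuation (ρ0 / f i ^ 3) ≤ 1 := hdiv _ _ (by
      rw [← hs0, map_pow]; exact pow_le_pow_left' b3 3)
    have hϖ : V.valuation ((ϖ : M) * f i) < 1 := by
      fin_cases i
      · rw [← pow_lt_one_iff (n := 2) (by norm_num), ← map_pow]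
        have : ((ϖ : M) * s) ^ 2 = (ϖ : M) ^ 2 * θ := by rw [← hs]; ring
        change V.valuation (((ϖ : M) * s) ^ 2) < 1
        rw [this]; exact h4
      · exact h5
      · rw [← pow_lt_one_iff (n := 2) (by norm_num), ← map_pow]
        have : ((ϖ : M) * s1) ^ 2 = (ϖ : M) ^ 2 * ρ1 := by rw [← hs1]; ring
        change V.valuation (((ϖ : M) * s1) ^ 2) < 1
        rw [this]; exact h6
      · rw [← pow_lt_one_iff (n := 3) (by norm_num), ← map_pow]
        have : ((ϖ : M) * s0) ^ 3 = (ϖ : M) ^ 3 * ρ0 := by rw [← hs0]; ring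
        change V.valuation (((ϖ : M) * s0) ^ 3) < 1
        rw [this]; exact h7
    obtain ⟨a0, a1, a2, a3⟩ := incb_core V h2 A2 A4 A6 x1 ϖ θ ρ0 ρ1 ρ2 ρ3 h8 hE (f i) hgt hϖ.le
      e0 e1 e2 e3
    fin_cases i
    · have h1 : θ / (f 0) ^ 2 = 1 := by
        change θ / s ^ 2 = 1
        rw [hs]
        exact div_self (by rw [← hs]; exact pow_ne_zero 2 hfi0)
      change V.valuation (θ / (f 0) ^ 2) < 1 at a0
      rw [h1, map_one] at a0
      exact lt_irrefl _ a0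
    · have h1 : ρ2 / f 1 = 1 := div_self hfi0
      change V.valuation (ρ2 / f 1) < 1 at a1
      rw [h1, map_one] at a1
      exact lt_irrefl _ a1
    · have h1 : ρ1 / (f 2) ^ 2 = 1 := by
        change ρ1 / s1 ^ 2 = 1
        rw [hs1]
        exact div_self (by rw [← hs1]; exact pow_ne_zero 2 hfi0)
      change V.valuation (ρ1 / (f 2) ^ 2) < 1 at a2
      rw [h1, map_one] at a2
      exact lt_irrefl _ a2
    · have h1 : ρ0 / (f 3) ^ 3 = 1 := by
        change ρ0 / s0 ^ 3 = 1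
        rw [hs0]
        exact div_self (by rw [← hs0]; exact pow_ne_zero 3 hfi0)
      change V.valuation (ρ0 / (f 3) ^ 3) < 1 at a3
      rw [h1, map_one] at a3
      exact lt_irrefl _ a3

end Pool.Agent.G4
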