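import Pool.Agent.G4.Defs

/-!
# G4 / INCC

Third step.  Everything is in `V`.  Taylor: `A_i(x1 + ϖ X) = A_i(x1) + ϖ X A_i'(x1) + ϖ² X² (...)` (`Polynomial.comp`, e.g. `Polynomial.taylor` or
`Polynomial.evalSubFactor`-free: prove by induction on `A` that `A.comp (C x1 + C ϖ * X) = C (A.eval x1) + C ϖ * X * C (A'.eval x1) + C (ϖ ^ 2) * X ^ 2 * H`).
Let `f0(z) = z³ + A2(x1) z² + A4(x1) z + A6(x1)`, `g(z) = A2'(x1) z² + A4'(x1) z + A6'(x1)`.  Then
`(ρ3 X³ + ρ2 X² + ρ1 X + ρ0)² - f0(X² + θ) = ϖ (X g(X² + θ) + ϖ X² (...))` =: `ϖ H`.  Odd coefficients (the left polynomial in `X² + θ` is even):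
`X⁵`: `2 ρ3 ρ2 = ϖ H5`, `X³`: `2 ρ3 ρ0 + 2 ρ2 ρ1 = ϖ H3`, `X¹`: `2 ρ1 ρ0 = ϖ H1`.  `ρ3` is a unit (`ρ3² ≡ 1`), 2 is a unit: `ρ2 = ϖ H5 / (2 ρ3)`,
`2 ρ3 ρ0 = ϖ (H3 - ρ1 H5 / ρ3)`, and so `ρ3² ϖ H1 = 2 ρ1 ρ0 ρ3² = ϖ ρ1 (ρ3 H3 - ρ1 H5)`; cancel `ϖ ≠ 0`: `ρ3² H1 = ρ3 ρ1 H3 - ρ1² H5`.
Modulo `m` (bars omitted; `ρ3² = 1`, `ρ2 = ρ0 = 0`, `H = X g(X² + θ)`; `H5 = g2`, `H3 = 2 g2 θ + g1`, `H1 = g(θ)`), with `e' = ρ1 ρ3`, `e'² = ρ1²`:
`g(θ) - e' (2 g2 θ + g1) + e'² g2 = 0`, i.e. `g(θ - e') = 0`.  And `f0(X² + θ) = (ρ3 X³ + ρ1 X)² = X² (X² + e')²`, so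
`f0(w + θ) = w (w + e')²` (substitute, `X² ↦ w`: compare the coefficients of `X⁰, X², X⁴`).  With `e := θ - e'`: `f0(z) = (z - θ) (z - e)²`, so
`f0(e) = 0`, `f0'(e) = 0`, `g(e) = 0`.  (Alternatively compare the even coefficients: `X⁴`: `2 ρ3 ρ1 = 3 θ + A2`, `X²`: `ρ1² = 3 θ² + 2 A2 θ + A4`,
`X⁰`: `0 = θ³ + A2 θ² + A4 θ + A6` modulo `m`, and check the three conclusions with `linear_combination`.)
-/

namespace Pool.Agent.G4

open Polynomial

private theorem tay {R : Type*} [CommRing R] (A : R[X]) (x w : R) :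
    ∃ H : R[X], A.comp (C x + C w * X) = C (A.eval x) + C (w * (derivative A).eval x) * X +
      C (w ^ 2) * (X ^ 2 * H) := by
  induction A using Polynomial.induction_on' with
  | add p q hp hq =>
    obtain ⟨H, hH⟩ := hp
    obtain ⟨H', hH'⟩ := hq
    refine ⟨H + H', ?_⟩
    rw [add_comp, hH, hH']
    simp only [eval_add, map_add, map_mul, map_pow]
    ring
  | monomial n a =>
    have key : ∀ n : ℕ, ∃ H : R[X], (C x + C w * X : R[X]) ^ n = C (x ^ n) + C (w * (n * x ^ (n - 1))) * X +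
        C (w ^ 2) * (X ^ 2 * H) := by
      intro n
      induction n with
      | zero => exact ⟨0, by simp⟩
      | succ n ih =>
        obtain ⟨H, hH⟩ := ih
        refine ⟨H * (C x + C w * X) + C (n * x ^ (n - 1)), ?_⟩
        rw [pow_succ, hH]
        rcases n with _ | n
        · simp
          ring
        · simp only [map_mul, map_pow, Nat.add_sub_cancel, Nat.cast_add, Nat.cast_one, map_add, map_one,
            map_natCast]
          ring
    obtain ⟨H, hH⟩ := key n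
    refine ⟨C a * H, ?_⟩
    rw [monomial_comp, hH, derivative_monomial, eval_monomial, eval_monomial]
    simp only [map_mul, map_pow, map_natCast]
    ring

theorem incc {M : Type*} [Field M] (V : ValuationSubring M) (h2 : V.valuation (2 : M) = 1)
    (A2 A4 A6 : V[X]) (x1 ϖ θ ρ0 ρ1 ρ2 ρ3 : V) (hϖ : ϖ ≠ 0) (hϖ1 : V.valuation (ϖ : M) < 1)
    (h8 : V.valuation ((ρ3 : M) ^ 2 - 1) < 1)
    (hE : (C ρ3 * X ^ 3 + C ρ2 * X ^ 2 + C ρ1 * X + C ρ0) ^ 2 = (X ^ 2 + C θ) ^ 3 +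
        (A2.comp (C x1 + C ϖ * X)) * (X ^ 2 + C θ) ^ 2 +
        (A4.comp (C x1 + C ϖ * X)) * (X ^ 2 + C θ) + A6.comp (C x1 + C ϖ * X)) :
    ∃ x e : IsLocalRing.ResidueField V,
      e ^ 3 + (A2.map (IsLocalRing.residue V)).eval x * e ^ 2 + (A4.map (IsLocalRing.residue V)).eval x * e +
        (A6.map (IsLocalRing.residue V)).eval x = 0 ∧
      3 * e ^ 2 + 2 * (A2.map (IsLocalRing.residue V)).eval x * e +
        (A4.map (IsLocalRing.residue V)).eval x = 0 ∧
      (derivative (A2.map (IsLocalRing.residue V))).eval x * e ^ 2 +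
        (derivative (A4.map (IsLocalRing.residue V))).eval x * e +
        (derivative (A6.map (IsLocalRing.residue V))).eval x = 0 := by
  classical
  obtain ⟨H2, hH2⟩ := tay A2 x1 ϖ
  obtain ⟨H4, hH4⟩ := tay A4 x1 ϖ
  obtain ⟨H6, hH6⟩ := tay A6 x1 ϖ
  rw [hH2, hH4, hH6] at hE
  set a2 := A2.eval x1 with ha2
  set a4 := A4.eval x1 with ha4
  set a6 := A6.eval x1 with ha6
  set g2 := (derivative A2).eval x1 with hg2
  set g1 := (derivative A4).eval x1 with hg1
  set g0 := (derivative A6).eval x1 with hg0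
  set K : V[X] := H2 * (X ^ 2 + C θ) ^ 2 + H4 * (X ^ 2 + C θ) + H6 with hK
  have hE' : C (ρ0 ^ 2 - (θ ^ 3 + a2 * θ ^ 2 + a4 * θ + a6)) +
      C (2 * ρ1 * ρ0 - ϖ * (g2 * θ ^ 2 + g1 * θ + g0)) * X +
      C (ρ1 ^ 2 + 2 * ρ2 * ρ0 - (3 * θ ^ 2 + 2 * a2 * θ + a4)) * X ^ 2 +
      C (2 * ρ3 * ρ0 + 2 * ρ2 * ρ1 - ϖ * (2 * g2 * θ + g1)) * X ^ 3 +
      C (ρ2 ^ 2 + 2 * ρ3 * ρ1 - (3 * θ + a2)) * X ^ 4 +
      C (2 * ρ3 * ρ2 - ϖ * g2) * X ^ 5 + C (ρ3 ^ 2 - 1) * X ^ 6 = C (ϖ ^ 2) * (X ^ 2 * K) := by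
    simp only [map_add, map_sub, map_mul, map_pow, map_one, map_ofNat] at hE ⊢
    rw [hK]
    linear_combination hE
  have e0 := congrArg (fun p => coeff p 0) hE'
  have e1 := congrArg (fun p => coeff p 1) hE'
  have e2 := congrArg (fun p => coeff p 2) hE'
  have e3 := congrArg (fun p => coeff p 3) hE'
  have e4 := congrArg (fun p => coeff p 4) hE'
  have e5 := congrArg (fun p => coeff p 5) hE'
  simp only [coeff_add, coeff_C_mul, coeff_X_pow, coeff_X, coeff_C, coeff_X_pow_mul'] at e0 e1 e2 e3 e4 e5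
  norm_num at e0 e1 e2 e3 e4 e5
  -- residue field
  have vlt : ∀ z : V, V.valuation (z : M) < 1 → IsLocalRing.residue V z = 0 := by
    intro z hz
    rw [IsLocalRing.residue_eq_zero_iff]
    exact (V.valuation_lt_one_iff z).2 hz
  have r2 : IsLocalRing.residue V 2 ≠ 0 := by
    intro h
    rw [IsLocalRing.residue_eq_zero_iff] at h
    have := (V.valuation_lt_one_iff 2).1 h
    have h3 : ((2 : V) : M) = 2 := rfl
    rw [h3, h2] at this
    exact lt_irrefl _ this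
  have rϖ : IsLocalRing.residue V ϖ = 0 := vlt _ hϖ1
  have r3 : IsLocalRing.residue V ρ3 ^ 2 = 1 := by
    have := vlt (ρ3 ^ 2 - 1) (by simpa using h8)
    rw [map_sub, map_pow, map_one, sub_eq_zero] at this
    exact this
  have r30 : IsLocalRing.residue V ρ3 ≠ 0 := by
    intro h
    rw [h] at r3
    simp at r3
  have key : ρ3 ^ 2 * (g2 * θ ^ 2 + g1 * θ + g0) =
      ρ3 * ρ1 * (2 * g2 * θ + g1 + ϖ * K.coeff 1) - ρ1 ^ 2 * (g2 + ϖ * K.coeff 3) := by
    apply mul_left_cancel₀ hϖ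
    linear_combination -ρ3 ^ 2 * e1 + ρ3 * ρ1 * e3 - ρ1 ^ 2 * e5
  have f0 := congrArg (IsLocalRing.residue V) e0
  have f2 := congrArg (IsLocalRing.residue V) e2
  have f3 := congrArg (IsLocalRing.residue V) e3
  have f4 := congrArg (IsLocalRing.residue V) e4
  have f5 := congrArg (IsLocalRing.residue V) e5
  have fk := congrArg (IsLocalRing.residue V) key
  simp only [map_add, map_sub, map_mul, map_pow, map_ofNat, rϖ, map_zero] at f0 f2 f3 f4 f5 fk r2
  generalize IsLocalRing.residue V (K.coeff 0) = k0 at *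
  generalize IsLocalRing.residue V (K.coeff 1) = k1 at *
  generalize IsLocalRing.residue V (K.coeff 2) = k2 at *
  generalize IsLocalRing.residue V (K.coeff 3) = k3 at *
  have z2 : IsLocalRing.residue V ρ2 = 0 := by
    have : (2 * IsLocalRing.residue V ρ3) * IsLocalRing.residue V ρ2 = 0 := by linear_combination f5
    rcases mul_eq_zero.1 this with h | h
    · exact absurd h (mul_ne_zero r2 r30)
    · exact h
  have z0 : IsLocalRing.residue V ρ0 = 0 := by
    have : (2 * IsLocalRing.residue V ρ3) * IsLocalRing.residue V ρ0 = 0 := by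
      rw [z2] at f3
      linear_combination f3
    rcases mul_eq_zero.1 this with h | h
    · exact absurd h (mul_ne_zero r2 r30)
    · exact h
  rw [z0] at f0
  rw [z2, z0] at f2
  rw [z2] at f4
  have ev : ∀ A : V[X], (A.map (IsLocalRing.residue V)).eval (IsLocalRing.residue V x1) =
      IsLocalRing.residue V (A.eval x1) := fun A => by
    rw [eval_map, eval₂_at_apply]
  refine ⟨IsLocalRing.residue V x1,
    IsLocalRing.residue V θ - IsLocalRing.residue V ρ1 * IsLocalRing.residue V ρ3, ?_, ?_, ?_⟩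
  · rw [ev, ev, ev, ← ha2, ← ha4, ← ha6]
    generalize IsLocalRing.residue V a2 = b2 at *
    generalize IsLocalRing.residue V a4 = b4 at *
    generalize IsLocalRing.residue V a6 = b6 at *
    generalize IsLocalRing.residue V θ = t at *
    generalize IsLocalRing.residue V ρ1 = r1 at *
    generalize IsLocalRing.residue V ρ3 = s3 at *
    have h4 : b2 = 2 * (r1 * s3) - 3 * t := by linear_combination -f4
    have h2 : b4 = (r1 * s3) ^ 2 - 3 * t ^ 2 - 2 * b2 * t := by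
      linear_combination -f2 - r1 ^ 2 * r3
    have h0 : b6 = - (t ^ 3 + b2 * t ^ 2 + b4 * t) := by linear_combination -f0
    rw [h0, h2, h4]
    ring
  · rw [ev, ev, ← ha2, ← ha4]
    generalize IsLocalRing.residue V a2 = b2 at *
    generalize IsLocalRing.residue V a4 = b4 at *
    generalize IsLocalRing.residue V a6 = b6 at *
    generalize IsLocalRing.residue V θ = t at *
    generalize IsLocalRing.residue V ρ1 = r1 at *
    generalize IsLocalRing.residue V ρ3 = s3 at *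
    have h4 : b2 = 2 * (r1 * s3) - 3 * t := by linear_combination -f4
    have h2 : b4 = (r1 * s3) ^ 2 - 3 * t ^ 2 - 2 * b2 * t := by
      linear_combination -f2 - r1 ^ 2 * r3
    rw [h2, h4]
    ring
  · rw [derivative_map, derivative_map, derivative_map, ev, ev, ev, ← hg2, ← hg1, ← hg0]
    linear_combination fk - (IsLocalRing.residue V g2 * IsLocalRing.residue V θ ^ 2 +
      IsLocalRing.residue V g1 * IsLocalRing.residue V θ + IsLocalRing.residue V g0) * r3 +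
      (IsLocalRing.residue V g2 * IsLocalRing.residue V ρ1 ^ 2) * r3

end Pool.Agent.G4
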