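import Pool.Agent.G4.BSB

/-!
# G4 / PR2

Primitive binary polynomials over a valuation ring; copies of `PQ.prp`, `PQ.sqv` (file `PQ/PRM.lean`, the proofs work for any finite set of
variables).  `pr2`: `η` = a coefficient of maximal valuation.  `sq2`: if `P ≠ 0`, `P = C η * map P'`, `P'` primitive, `P'² ≠ 0` mod the maximal ideal
(domain), `C η² * map P'² = map W` forces `η² ∈ V`, so `η ∈ V`.  `pr2_pair`: the same for a pair of polynomials (maximum over the coefficients
of both), used for differences of sections.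
-/

namespace Pool.Agent.G4

open MvPolynomial Matrix
open Pool.Agent.PQ (P3 lin sb SF NS Bit)

private theorem inv_mul_mem {M : Type*} [Field M] (V : ValuationSubring M) {a b : M} (ha : a ≠ 0)
    (h : V.valuation b ≤ V.valuation a) : a⁻¹ * b ∈ V := by
  rw [← V.valuation_le_one_iff, map_mul, map_inv₀]
  have h2 : V.valuation a ≠ 0 := (Valuation.ne_zero_iff _).2 ha
  calc (V.valuation a)⁻¹ * V.valuation b ≤ (V.valuation a)⁻¹ * V.valuation a := by gcongr
    _ = 1 := inv_mul_cancel₀ h2

theorem pr2 {M : Type*} [Field M] (V : ValuationSubring M) (P : P2 M) (hP : P ≠ 0) :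
    ∃ (η : M) (P' : P2 V), η ≠ 0 ∧ P = C η * map (algebraMap V M) P' ∧
      map (IsLocalRing.residue V) P' ≠ 0 := by
  obtain ⟨d, hd, hmax⟩ := Finset.exists_max_image P.support (fun m => V.valuation (P.coeff m))
    (MvPolynomial.support_nonempty.2 hP)
  have ha : P.coeff d ≠ 0 := MvPolynomial.mem_support_iff.1 hd
  have hV : ∀ m, (P.coeff d)⁻¹ * P.coeff m ∈ V := by
    intro m
    by_cases hm : m ∈ P.support
    · exact inv_mul_mem V ha (hmax m hm)
    · rw [MvPolynomial.notMem_support_iff.1 hm, mul_zero]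
      exact V.zero_mem
  set P' : P2 V := ∑ m ∈ P.support, monomial m ⟨(P.coeff d)⁻¹ * P.coeff m, hV m⟩ with hP'
  have hmap : map (algebraMap V M) P' = C (P.coeff d)⁻¹ * P := by
    have h0 : C (P.coeff d)⁻¹ * P = ∑ m ∈ P.support,
        C (P.coeff d)⁻¹ * monomial m (P.coeff m) := by
      rw [← Finset.mul_sum, MvPolynomial.support_sum_monomial_coeff P]
    rw [hP', map_sum, h0]
    refine Finset.sum_congr rfl fun m _ => ?_
    rw [map_monomial, C_mul_monomial]
    rfl
  refine ⟨P.coeff d, P', ha, ?_, ?_⟩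
  · rw [hmap, ← mul_assoc, ← C_mul, mul_inv_cancel₀ ha, C_1, one_mul]
  · intro h0
    have h1 : algebraMap V M (P'.coeff d) = 1 := by
      rw [← coeff_map, hmap, coeff_C_mul, inv_mul_cancel₀ ha]
    have h2 : P'.coeff d = 1 := by
      apply FaithfulSMul.algebraMap_injective V M
      rw [h1, map_one]
    have h3 := congrArg (coeff d) h0
    rw [coeff_map, h2, map_one, coeff_zero] at h3
    exact one_ne_zero h3

theorem sq2 {M : Type*} [Field M] (V : ValuationSubring M) (P : P2 M) (W : P2 V)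
    (h : P ^ 2 = map (algebraMap V M) W) : ∃ P' : P2 V, P = map (algebraMap V M) P' := by
  by_cases hP : P = 0
  · exact ⟨0, by rw [hP, map_zero]⟩
  · obtain ⟨η, P', hη, hPP, hres⟩ := pr2 V P hP
    have h1 : map (IsLocalRing.residue V) (P' ^ 2) ≠ 0 := by
      rw [map_pow]
      exact pow_ne_zero 2 hres
    obtain ⟨m, hm⟩ := MvPolynomial.ne_zero_iff.1 h1
    rw [coeff_map] at hm
    have hu : IsUnit (coeff m (P' ^ 2)) := IsLocalRing.residue_ne_zero_iff_isUnit _ |>.1 hm
    have h2 : η ^ 2 * algebraMap V M (coeff m (P' ^ 2)) = algebraMap V M (coeff m W) := by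
      rw [← coeff_map, ← coeff_map, ← h, hPP, mul_pow, ← C_pow, coeff_C_mul, map_pow]
    obtain ⟨u, hu⟩ := hu
    have h3 : η ^ 2 = algebraMap V M (coeff m W * (↑u⁻¹ : V)) := by
      rw [map_mul, ← h2, ← hu, mul_assoc, ← map_mul, Units.mul_inv, map_one, mul_one]
    have h4 : η ^ 2 ∈ V := by
      rw [h3]
      exact (coeff m W * (↑u⁻¹ : V)).2
    have h5 : η ∈ V := by
      rw [← V.valuation_le_one_iff] at h4 ⊢
      rw [map_pow] at h4
      exact (pow_le_one_iff_of_nonneg zero_le two_ne_zero).1 h4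
    refine ⟨C ⟨η, h5⟩ * P', ?_⟩
    rw [map_mul, map_C]
    exact hPP

private theorem pair_aux {M : Type*} [Field M] (V : ValuationSubring M) (P Q : P2 V) (hP : P ≠ 0)
    (d : Fin 2 →₀ ℕ) (hd : coeff d P ≠ 0)
    (h1 : ∀ m, V.valuation ((coeff m P : V) : M) ≤ V.valuation ((coeff d P : V) : M))
    (h2 : ∀ m, V.valuation ((coeff m Q : V) : M) ≤ V.valuation ((coeff d P : V) : M)) :
    ∃ (η : V) (P' Q' : P2 V), η ≠ 0 ∧ P = C η * P' ∧ Q = C η * Q' ∧
      map (IsLocalRing.residue V) P' ≠ 0 := by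
  have hdM : ((coeff d P : V) : M) ≠ 0 := fun h => hd (Subtype.ext h)
  have key : ∀ R : P2 V, (∀ m, V.valuation ((coeff m R : V) : M) ≤ V.valuation ((coeff d P : V) : M)) →
      ∃ R' : P2 V, R = C (coeff d P) * R' := by
    intro R hR
    refine ⟨∑ m ∈ R.support, monomial m ⟨((coeff d P : V) : M)⁻¹ * ((coeff m R : V) : M),
      inv_mul_mem V hdM (hR m)⟩, ?_⟩
    rw [Finset.mul_sum]
    conv_lhs => rw [← MvPolynomial.support_sum_monomial_coeff R]
    refine Finset.sum_congr rfl fun m _ => ?_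
    rw [C_mul_monomial]
    congr 1
    apply Subtype.ext
    change ((coeff m R : V) : M) = ((coeff d P : V) : M) * (((coeff d P : V) : M)⁻¹ * ((coeff m R : V) : M))
    rw [mul_inv_cancel_left₀ hdM]
  obtain ⟨P', hP'⟩ := key P h1
  obtain ⟨Q', hQ'⟩ := key Q h2
  refine ⟨coeff d P, P', Q', hd, hP', hQ', ?_⟩
  intro h0
  have h3 : coeff d P' = 1 := by
    have h4 := congrArg (coeff d) hP'
    rw [coeff_C_mul] at h4
    exact mul_left_cancel₀ hd (by rw [← h4, mul_one])
  have h5 := congrArg (coeff d) h0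
  rw [coeff_map, h3, map_one, coeff_zero] at h5
  exact one_ne_zero h5

theorem pr2_pair {M : Type*} [Field M] (V : ValuationSubring M) (P Q : P2 V) (h : P ≠ 0 ∨ Q ≠ 0) :
    ∃ (η : V) (P' Q' : P2 V), η ≠ 0 ∧ P = C η * P' ∧ Q = C η * Q' ∧
      (map (IsLocalRing.residue V) P' ≠ 0 ∨ map (IsLocalRing.residue V) Q' ≠ 0) := by
  have mx : ∀ R : P2 V, ∃ d, ∀ m,
      V.valuation ((coeff m R : V) : M) ≤ V.valuation ((coeff d R : V) : M) := by
    intro R
    by_cases hR : R = 0
    · refine ⟨0, fun m => ?_⟩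
      rw [hR, coeff_zero, coeff_zero]
    · obtain ⟨d, hd, hmax⟩ := Finset.exists_max_image R.support
        (fun m => V.valuation ((coeff m R : V) : M)) (MvPolynomial.support_nonempty.2 hR)
      refine ⟨d, fun m => ?_⟩
      by_cases hm : m ∈ R.support
      · exact hmax m hm
      · rw [MvPolynomial.notMem_support_iff.1 hm]
        change V.valuation (0 : M) ≤ _
        rw [map_zero]
        exact zero_le
  have nz : ∀ (R : P2 V) (d : Fin 2 →₀ ℕ), R ≠ 0 →
      (∀ m, V.valuation ((coeff m R : V) : M) ≤ V.valuation ((coeff d R : V) : M)) → coeff d R ≠ 0 := by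
    intro R d hR hd h0
    apply hR
    ext m
    have h1 := hd m
    rw [h0] at h1
    change V.valuation ((coeff m R : V) : M) ≤ V.valuation (0 : M) at h1
    rw [map_zero, le_zero_iff, map_eq_zero] at h1
    exact congrArg Subtype.val (Subtype.ext h1 : coeff m R = 0)
  obtain ⟨d, hd⟩ := mx P
  obtain ⟨e, he⟩ := mx Q
  rcases le_total (V.valuation ((coeff e Q : V) : M)) (V.valuation ((coeff d P : V) : M)) with hle | hle
  · by_cases hP : P = 0
    · exfalso
      have hQ : Q ≠ 0 := h.resolve_left (fun hn => hn hP)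
      have h1 := nz Q e hQ he
      rw [hP, coeff_zero] at hle
      change V.valuation ((coeff e Q : V) : M) ≤ V.valuation (0 : M) at hle
      rw [map_zero, le_zero_iff, map_eq_zero] at hle
      exact h1 (Subtype.ext hle)
    · obtain ⟨η, P', Q', h1, h2, h3, h4⟩ := pair_aux V P Q hP d (nz P d hP hd) hd
        (fun m => (he m).trans hle)
      exact ⟨η, P', Q', h1, h2, h3, Or.inl h4⟩
  · by_cases hQ : Q = 0
    · exfalso
      have hP : P ≠ 0 := h.resolve_right (fun hn => hn hQ)
      have h1 := nz P d hP hd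
      rw [hQ, coeff_zero] at hle
      change V.valuation ((coeff d P : V) : M) ≤ V.valuation (0 : M) at hle
      rw [map_zero, le_zero_iff, map_eq_zero] at hle
      exact h1 (Subtype.ext hle)
    · obtain ⟨η, P', Q', h1, h2, h3, h4⟩ := pair_aux V Q P hQ e (nz Q e hQ he) he
        (fun m => (hd m).trans hle)
      exact ⟨η, Q', P', h1, h3, h2, Or.inr h4⟩

end Pool.Agent.G4
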