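import Pool.Agent.G4.DD2

/-!
# G4 / SGP

The point `P = ![x, 1, e]` is singular on `tri A`: `F(P) = 0`, `F_2(P) = 0`, `F_0(P) = 0` are the hypotheses (`dd_eval`, `dd_der`, `eval_tri`, `pderiv_tri0`, `pderiv_tri2`), and `F_1(P) = 0` by the weighted Euler relation
`x F_0 + 1 F_1 + 2 e F_2 = 6 F`: for a binary form of degree `n`, `X 0 * pderiv 0 f + X 1 * pderiv 1 f = n f` (Mathlib: `IsHomogeneous.sum_X_mul_pderiv`, or check on `gf n v`).
-/

namespace Pool.Agent.G4

open MvPolynomial Matrix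
open Pool.Agent.PQ (P3 lin sb SF NS Bit)

private theorem euler2 {k : Type*} [Field k] {f : P2 k} {n : ℕ} (h : f.IsHomogeneous n) (x : k) :
    x * eval ![x, 1] (pderiv 0 f) + eval ![x, 1] (pderiv 1 f) = n * eval ![x, 1] f := by
  have := congrArg (eval ![x, 1]) h.sum_X_mul_pderiv
  simpa [Fin.sum_univ_two, nsmul_eq_mul] using this

/-- weighted Euler relation: the derivative with respect to `t` -/
theorem sing_pt {k : Type*} [Field k] (A : Fin 3 → P2 k) (hA : TH A) (hNS : NS (tri A)) (x e : k)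
    (h0 : e ^ 3 + (dd (A 0)).eval x * e ^ 2 + (dd (A 1)).eval x * e + (dd (A 2)).eval x = 0)
    (h1 : 3 * e ^ 2 + 2 * (dd (A 0)).eval x * e + (dd (A 1)).eval x = 0)
    (h2 : (dd (A 0)).derivative.eval x * e ^ 2 + (dd (A 1)).derivative.eval x * e +
      (dd (A 2)).derivative.eval x = 0) : False := by
  simp only [dd_der, dd_eval] at h0 h1 h2
  have e0 := euler2 (hA 0) x
  have e1 := euler2 (hA 1) x
  have e2 := euler2 (hA 2) x
  norm_num at e0 e1 e2
  have hP : (![x, 1, e] : Fin 3 → k) ≠ 0 := fun h => by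
    have := congrFun h 1
    simp at this
  have hF : eval ![x, 1, e] (tri A) = 0 := by
    rw [eval_tri]
    simpa using h0
  obtain ⟨i, hi⟩ := hNS _ hP hF
  apply hi
  fin_cases i
  · show eval ![x, 1, e] (pderiv 0 (tri A)) = 0
    rw [pderiv_tri0]
    simp only [map_add, map_mul, map_pow, eval_em, eval_X]
    simpa using h2
  · show eval ![x, 1, e] (pderiv 1 (tri A)) = 0
    rw [pderiv_tri1]
    simp only [map_add, map_mul, map_pow, eval_em, eval_X]
    simp only [Matrix.cons_val_zero, Matrix.cons_val_one, Matrix.cons_val]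
    linear_combination 6 * h0 - 2 * e * h1 - x * h2 + e ^ 2 * e0 + e * e1 + e2
  · show eval ![x, 1, e] (pderiv 2 (tri A)) = 0
    rw [pderiv_tri2]
    simp only [map_add, map_mul, map_pow, eval_em, eval_X, map_ofNat]
    simpa using h1

end Pool.Agent.G4
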