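import Pool.Agent.G4.DD3

/-!
# G4 / SQ3

`R² = P³`, `P ≠ 0` of degree 2, `R` of degree 3.  `quad_split`: `P = l l'`, `l, l'` non-zero linear forms, prime (`bl_prime`).  `R² = l³ l'³`.
If `l` and `l'` are not associated: `l` divides `R` (prime), `R = l R'`, cancel: `R'² = l l'³`, `l ∣ R'`, `R' = l R''`: `l R''² = l'³`, `l ∣ l'`, so they are
associated, contradiction.  So `l' = κ l` with `κ ≠ 0` constant (a unit of `k[s, t]` is a constant, or use degrees: `hom_cof` with degree 0),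
`P = κ l² = c²` with `c = δ l`, `δ² = κ`.  `R² = c⁶`, so `R = c³` or `R = -c³ = (-c)³`.
-/

namespace Pool.Agent.G4

open MvPolynomial Matrix
open Pool.Agent.PQ (P3 lin sb SF NS Bit)

private lemma bl_smul3 {k : Type*} [Field k] (δ : k) (v : Fin 2 → k) :
    bl (δ • v) = C δ * bl v := by
  simp only [bl, Pi.smul_apply, smul_eq_mul, C_mul]
  ring

theorem sq3 {k : Type*} [Field k] [IsAlgClosed k] (P R : P2 k) (hP : P.IsHomogeneous 2) (hP0 : P ≠ 0)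
    (hR : R.IsHomogeneous 3) (hE : R ^ 2 = P ^ 3) :
    ∃ c : Fin 2 → k, c ≠ 0 ∧ P = bl c ^ 2 ∧ R = bl c ^ 3 := by
  obtain ⟨v, w, hvw⟩ := quad_split hP
  have hbl0 : bl (0 : Fin 2 → k) = 0 := by simp [bl]
  have hv : v ≠ 0 := by
    intro h; apply hP0; rw [hvw, h, hbl0, zero_mul]
  have hw : w ≠ 0 := by
    intro h; apply hP0; rw [hvw, h, hbl0, mul_zero]
  have pv := bl_prime hv
  have pw := bl_prime hw
  have h1 : R ^ 2 = bl v ^ 3 * bl w ^ 3 := by rw [hE, hvw, mul_pow]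
  obtain ⟨R1, hR1⟩ : bl v ∣ R := pv.dvd_of_dvd_pow (n := 2) (by
    rw [h1]; exact Dvd.intro (bl v ^ 2 * bl w ^ 3) (by ring))
  have h2 : R1 ^ 2 = bl v * bl w ^ 3 := by
    refine mul_left_cancel₀ (pow_ne_zero 2 pv.ne_zero) ?_
    calc bl v ^ 2 * R1 ^ 2 = R ^ 2 := by rw [hR1]; ring
      _ = bl v ^ 3 * bl w ^ 3 := h1
      _ = _ := by ring
  obtain ⟨R2, hR2⟩ : bl v ∣ R1 := pv.dvd_of_dvd_pow (n := 2) (by
    rw [h2]; exact Dvd.intro _ rfl)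
  have h3 : bl v * R2 ^ 2 = bl w ^ 3 := by
    refine mul_left_cancel₀ pv.ne_zero ?_
    calc bl v * (bl v * R2 ^ 2) = R1 ^ 2 := by rw [hR2]; ring
      _ = bl v * bl w ^ 3 := h2
  have h4 : bl v ∣ bl w := pv.dvd_of_dvd_pow (n := 3) (by
    rw [← h3]; exact Dvd.intro _ rfl)
  obtain ⟨u, hu, hu'⟩ := hom_cof (bl_hom v) pv.ne_zero (bl_hom w) le_rfl h4
  rw [Nat.sub_self] at hu
  obtain ⟨κ, hκ⟩ : ∃ κ, u = C κ := by
    have := totalDegree_eq_zero_iff_eq_C.1 ((totalDegree_zero_iff_isHomogeneous _).2 hu)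
    exact ⟨_, this⟩
  have hκ0 : κ ≠ 0 := by
    intro h
    apply pw.ne_zero
    rw [hu', hκ, h, C_0, mul_zero]
  obtain ⟨δ, hδ⟩ := IsAlgClosed.exists_pow_nat_eq κ (n := 2) (by norm_num)
  have hδ0 : δ ≠ 0 := by
    intro h; apply hκ0; rw [← hδ, h]; simp
  have hP2 : P = bl (δ • v) ^ 2 := by
    rw [hvw, hu', hκ, bl_smul3, ← hδ, C_pow]; ring
  have h5 : R ^ 2 = (bl (δ • v) ^ 3) ^ 2 := by
    rw [hE, hP2]; ring
  rcases sq_eq_sq_iff_eq_or_eq_neg.1 h5 with h6 | h6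
  · exact ⟨δ • v, smul_ne_zero hδ0 hv, hP2, h6⟩
  · have h7 : bl (-(δ • v)) = - bl (δ • v) := by
      rw [← neg_one_smul k (δ • v), bl_smul3]
      simp
    refine ⟨-(δ • v), neg_ne_zero.2 (smul_ne_zero hδ0 hv), ?_, ?_⟩
    · rw [h7, hP2]; ring
    · rw [h7, h6]; ring

end Pool.Agent.G4
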