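import Pool.Agent.G4.INCA
import Pool.Agent.G4.INCB
import Pool.Agent.G4.INCC
import Pool.Agent.G4.SQ3
import Pool.Agent.G4.PR2
import Pool.Agent.G4.SGP
import Pool.Agent.ST.Gauss

/-!
# G4 / INT

Sections are integral over valuation rings of good reduction.  The residue field `k` of `V` is algebraically closed (Mathlib or see how `PQ/NCV.lean`, `PQ/DIV.lean` do it:
search for `IsAlgClosed (IsLocalRing.ResidueField V)`).
If `p = map P` then `r² = map (cub A P)`, so `r = map R` (`sq2`); `Sec A P R` since `map (algebraMap V M)` is injective (also homogeneity: `IsHomogeneous.of_map`).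
Otherwise `p ≠ 0`, `pr2`: `p = C η * map P`, `P` primitive, `η ∉ V` (else `p` is integral).  Let `π² = η⁻¹`, `π ∈ V`, valuation `< 1`, `π ≠ 0`.
`P = π² p` is a form of degree 2, `R0 := C (π³) * r`, `R0² = map (P³ + π² A0 P² + π⁴ A1 P + π⁶ A2)`, so `R0 = map R` (`sq2`), `R` of degree 3 and
`R² = P³ + C (π²) A0 P² + C (π⁴) A1 P + C (π⁶) A2` in `V[s, t]`.  Modulo `m`: `R² = P³`, `P ≠ 0`, `sq3`: `P ≡ (bl c)²`, `R ≡ (bl c)³`, `c ≠ 0` over `k`.
Choose `g ∈ GL₂(V)` (`det g` a unit) with `c ᵥ* ḡ = ![1, 0]`, so that `bsb ḡ (bl c) = X 0` (a matrix over `k` with first column `(x, y)`, `c ⬝ᵥ (x,y) = 1`, second column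
`(-c 1, c 0)`, determinant `x c 0 + y c 1 = 1`; lift the entries).  Put `P' = dd (bsb g P)`, `R' = dd (bsb g R)`, `A_i' = dd (bsb g (A i))`
(`dd_map`, `map_bsb`: `P' ≡ X²`, `R' ≡ X³`; degrees by `dd_deg`).
`inca`, `incb`, `incc` give `x, e ∈ k` which make `![x, 1, e]` a singular point of `tri (bsb ḡ Ā)`: `F = 0`, `F_2 = 0`, `F_0 = 0` (`dd_eval`, `dd_der`,
`pderiv_tri0`, `pderiv_tri2`) and `F_1 = 0` by Euler's relation for the binary forms `A_i`: `s ∂_s A_i + t ∂_t A_i = (2i+2) A_i`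
(`IsHomogeneous.sum_X_mul_pderiv` or similar), weighted: `x F_0 + 1 F_1 + 2 e F_2 = 6 F`.  Contradiction to `ns_tri_bsb`.  This is `sing_pt`.
-/

namespace Pool.Agent.G4

open MvPolynomial Matrix
open Pool.Agent.PQ (P3 lin sb SF NS Bit)

/-- a matrix of determinant one which moves `c` to the first basis vector -/
private lemma int_mat {k : Type*} [Field k] (c : Fin 2 → k) (hc : c ≠ 0) :
    ∃ g : Matrix (Fin 2) (Fin 2) k, g.det = 1 ∧ c ᵥ* g = ![1, 0] := by
  obtain ⟨x, y, hxy⟩ : ∃ x y : k, c 0 * x + c 1 * y = 1 := by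
    by_cases h0 : c 0 = 0
    · have h1 : c 1 ≠ 0 := by
        intro h1
        apply hc
        funext i
        fin_cases i
        · exact h0
        · exact h1
      exact ⟨0, (c 1)⁻¹, by rw [mul_inv_cancel₀ h1]; ring⟩
    · exact ⟨(c 0)⁻¹, 0, by rw [mul_inv_cancel₀ h0]; ring⟩
  refine ⟨!![x, -c 1; y, c 0], ?_, ?_⟩
  · rw [Matrix.det_fin_two_of]
    linear_combination hxy
  · funext j
    fin_cases j
    · simp [Matrix.vecMul, dotProduct, Fin.sum_univ_two]
      linear_combination hxy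
    · simp [Matrix.vecMul, dotProduct, Fin.sum_univ_two]
      ring

/-- the case of integral `p` -/
private lemma int_easy {M : Type*} [Field M] (V : ValuationSubring M)
    (A : Fin 3 → P2 V) (p r : P2 M) (hs : Sec (fun i => map (algebraMap V M) (A i)) p r) (P : P2 V)
    (hP : p = map (algebraMap V M) P) :
    ∃ P R : P2 V, Sec A P R ∧ map (algebraMap V M) P = p ∧ map (algebraMap V M) R = r := by
  have hinj : Function.Injective (algebraMap V M) := FaithfulSMul.algebraMap_injective V M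
  have h1 : r ^ 2 = map (algebraMap V M) (cub A P) := by
    rw [map_cub, hs.eq, hP]
  obtain ⟨R, hR⟩ := sq2 V r _ h1
  refine ⟨P, R, ⟨?_, ?_, ?_⟩, hP.symm, hR.symm⟩
  · exact IsHomogeneous.of_map hinj (by rw [← hP]; exact hs.hp)
  · exact IsHomogeneous.of_map hinj (by rw [← hR]; exact hs.hr)
  · apply map_injective (algebraMap V M) hinj
    rw [← h1, map_pow, ← hR]

/-- the main case, after reduction to one variable -/
private lemma int_false {M : Type*} [Field M] [IsAlgClosed M] (V : ValuationSubring M)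
    (h2 : V.valuation (2 : M) = 1)
    (A : Fin 3 → P2 V) (hA : TH A) (hNS : NS (tri fun i => map (IsLocalRing.residue V) (A i)))
    (P R : P2 V) (hP : P.IsHomogeneous 2) (hR : R.IsHomogeneous 3)
    (hP0 : map (IsLocalRing.residue V) P ≠ 0) (π : V) (hπ : V.valuation (π : M) < 1) (hπ0 : π ≠ 0)
    (hE : R ^ 2 = P ^ 3 + C (π ^ 2) * A 0 * P ^ 2 + C (π ^ 4) * A 1 * P + C (π ^ 6) * A 2) : False := by
  have hinj : Function.Injective (algebraMap V M) := FaithfulSMul.algebraMap_injective V M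
  have : IsAlgClosed (IsLocalRing.ResidueField V) := Pool.Agent.ST.isAlgClosed_residueField V
  have hπr : IsLocalRing.residue V π = 0 := by
    rw [IsLocalRing.residue_eq_zero_iff, V.valuation_lt_one_iff]
    exact hπ
  have hE' := congrArg (map (IsLocalRing.residue V)) hE
  simp only [map_add, map_mul, map_pow, map_C, hπr] at hE'
  have hE2 : map (IsLocalRing.residue V) R ^ 2 = map (IsLocalRing.residue V) P ^ 3 := by
    rw [hE']
    simp
  obtain ⟨c, hc, hcP, hcR⟩ := sq3 _ _ (hP.map _) hP0 (hR.map _) hE2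
  obtain ⟨gb, hgd, hgc⟩ := int_mat c hc
  have hlift : ∃ g : Matrix (Fin 2) (Fin 2) V, g.map (IsLocalRing.residue V) = gb := by
    choose f hf using fun i j => IsLocalRing.residue_surjective (R := V) (gb i j)
    exact ⟨Matrix.of fun i j => f i j, by ext i j; simp [hf]⟩
  obtain ⟨g, hg⟩ := hlift
  have hblX : bl ![(1 : IsLocalRing.ResidueField V), 0] = X 0 := by simp [bl]
  have hddX : dd (X 0 : P2 (IsLocalRing.ResidueField V)) = Polynomial.X := by simp [dd]
  have hP1 : (dd (bsb g P)).map (IsLocalRing.residue V) = Polynomial.X ^ 2 := by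
    rw [← dd_map, map_bsb, hg, hcP, map_pow, bsb_bl, hgc, hblX, map_pow, hddX]
  have hR1 : (dd (bsb g R)).map (IsLocalRing.residue V) = Polynomial.X ^ 3 := by
    rw [← dd_map, map_bsb, hg, hcR, map_pow, bsb_bl, hgc, hblX, map_pow, hddX]
  have hddC : ∀ a : V, dd (C a : P2 V) = Polynomial.C a := by
    intro a
    simp [dd, Polynomial.algebraMap_eq]
  have hE3 := congrArg (fun f => dd (bsb g f)) hE
  simp only [map_add, map_mul, map_pow] at hE3
  have hCp : ∀ n, dd (bsb g (C (π ^ n))) = Polynomial.C (π ^ n) := by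
    intro n; rw [bsb_C, hddC]
  have hE4 : dd (bsb g R) ^ 2 = dd (bsb g P) ^ 3 +
      Polynomial.C (π ^ 2) * dd (bsb g (A 0)) * dd (bsb g P) ^ 2 +
      Polynomial.C (π ^ 4) * dd (bsb g (A 1)) * dd (bsb g P) +
      Polynomial.C (π ^ 6) * dd (bsb g (A 2)) := by
    rw [← hCp 2, ← hCp 4, ← hCp 6]
    simp only [map_pow]
    exact hE3
  obtain ⟨x1, ϖ, θ, ρ0, ρ1, ρ2, ρ3, hϖ0, hϖ1, k4, k5, k6, k7, k8, kE⟩ := inca V h2 _ _ _ _ _
    (dd_deg (bsb_hom g hP)) (dd_deg (bsb_hom g hR)) hP1 hR1 π hπ hπ0 hE4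
  obtain ⟨m0, m1, m2, m3, m4⟩ := incb V h2 _ _ _ x1 ϖ θ ρ0 ρ1 ρ2 ρ3 k4 k5 k6 k7 k8 kE
  have hE5 : (Polynomial.C (⟨ρ3, m4⟩ : V) * Polynomial.X ^ 3 + Polynomial.C (⟨ρ2, m3⟩ : V) * Polynomial.X ^ 2 +
      Polynomial.C (⟨ρ1, m2⟩ : V) * Polynomial.X + Polynomial.C (⟨ρ0, m1⟩ : V)) ^ 2 =
      (Polynomial.X ^ 2 + Polynomial.C (⟨θ, m0⟩ : V)) ^ 3 +
        ((dd (bsb g (A 0))).comp (Polynomial.C x1 + Polynomial.C ϖ * Polynomial.X)) *
          (Polynomial.X ^ 2 + Polynomial.C (⟨θ, m0⟩ : V)) ^ 2 +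
        ((dd (bsb g (A 1))).comp (Polynomial.C x1 + Polynomial.C ϖ * Polynomial.X)) *
          (Polynomial.X ^ 2 + Polynomial.C (⟨θ, m0⟩ : V)) +
        (dd (bsb g (A 2))).comp (Polynomial.C x1 + Polynomial.C ϖ * Polynomial.X) := by
    apply Polynomial.map_injective (algebraMap V M) hinj
    simp only [Polynomial.map_add, Polynomial.map_mul, Polynomial.map_pow, Polynomial.map_C,
      Polynomial.map_X]
    exact kE
  obtain ⟨x, e, q0, q1, q2⟩ := incc V h2 _ _ _ x1 ϖ ⟨θ, m0⟩ ⟨ρ0, m1⟩ ⟨ρ1, m2⟩ ⟨ρ2, m3⟩ ⟨ρ3, m4⟩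
    hϖ0 hϖ1 k8 hE5
  have hAm : ∀ i, (dd (bsb g (A i))).map (IsLocalRing.residue V) =
      dd (bsb gb (map (IsLocalRing.residue V) (A i))) := by
    intro i
    rw [← dd_map, map_bsb, hg]
  rw [hAm, hAm, hAm] at q0 q2
  rw [hAm, hAm] at q1
  exact sing_pt (fun i => bsb gb (map (IsLocalRing.residue V) (A i)))
    (TH.bsb (TH.map (IsLocalRing.residue V) hA) gb) (ns_tri_bsb hNS (by rw [hgd]; exact one_ne_zero)) x e
    q0 q1 q2

theorem int {M : Type*} [Field M] [IsAlgClosed M] (V : ValuationSubring M) (h2 : V.valuation (2 : M) = 1)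
    (A : Fin 3 → P2 V) (hA : TH A) (hNS : NS (tri fun i => map (IsLocalRing.residue V) (A i)))
    (p r : P2 M) (hs : Sec (fun i => map (algebraMap V M) (A i)) p r) :
    ∃ P R : P2 V, Sec A P R ∧ map (algebraMap V M) P = p ∧ map (algebraMap V M) R = r := by
  have hinj : Function.Injective (algebraMap V M) := FaithfulSMul.algebraMap_injective V M
  by_cases hp0 : p = 0
  · exact int_easy V A p r hs 0 (by rw [hp0, map_zero])
  obtain ⟨η, P, hη, hpP, hP0⟩ := pr2 V p hp0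
  by_cases hηV : η ∈ V
  · exact int_easy V A p r hs (C ⟨η, hηV⟩ * P) (by rw [hpP, map_mul, map_C]; rfl)
  exfalso
  obtain ⟨π, hπ⟩ := IsAlgClosed.exists_pow_nat_eq η⁻¹ (n := 2) (by norm_num)
  have hη1 : 1 < V.valuation η := by
    rw [← not_le, V.valuation_le_one_iff]; exact hηV
  have hπv : V.valuation π < 1 := by
    rw [← pow_lt_one_iff (n := 2) (by norm_num), ← map_pow, hπ, map_inv₀]
    exact inv_lt_one_of_one_lt₀ hη1
  have hπ0 : π ≠ 0 := by
    intro h; rw [h] at hπ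
    exact inv_ne_zero hη (by rw [← hπ]; simp)
  let πV : V := ⟨π, (V.valuation_le_one_iff _).1 hπv.le⟩
  have hπV0 : πV ≠ 0 := by
    intro h; exact hπ0 (congrArg (fun z : V => (z : M)) h)
  have hφπ : algebraMap V M πV = π := rfl
  have hPm : map (algebraMap V M) P = C (π ^ 2) * p := by
    rw [hpP, ← mul_assoc, ← C_mul, hπ, inv_mul_cancel₀ hη, C_1, one_mul]
  have hR0 : (C (π ^ 3) * r) ^ 2 = map (algebraMap V M) (P ^ 3 + C (πV ^ 2) * A 0 * P ^ 2 +
      C (πV ^ 4) * A 1 * P + C (πV ^ 6) * A 2) := by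
    simp only [map_add, map_mul, map_pow, map_C, hφπ]
    have := hs.eq
    unfold cub at this
    rw [hPm]
    simp only [C_pow]
    rw [mul_pow, this]
    ring
  obtain ⟨R, hR⟩ := sq2 V _ _ hR0
  have hPh : P.IsHomogeneous 2 := IsHomogeneous.of_map hinj (by
    rw [hPm]
    have := (isHomogeneous_C (Fin 2) (π ^ 2)).mul hs.hp
    rwa [zero_add] at this)
  have hRh : R.IsHomogeneous 3 := IsHomogeneous.of_map hinj (by
    rw [← hR]
    have := (isHomogeneous_C (Fin 2) (π ^ 3)).mul hs.hr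
    rwa [zero_add] at this)
  refine int_false V h2 A hA hNS P R hPh hRh hP0 πV hπv hπV0 ?_
  apply map_injective (algebraMap V M) hinj
  rw [← hR0, map_pow, ← hR]

end Pool.Agent.G4
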