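import Pool.Agent.G4.IDS
import Pool.Agent.G4.INT
import Pool.Agent.PQ.NSX
import Pool.Agent.PQ.SPZ

/-!
# G4 / EXS

Every smooth curve over an algebraically closed field of characteristic zero has a section.  Compare `PQ/EXI.lean`.  `M` := an algebraically closed field over `C` with a
transcendence basis indexed by `Ix` (algebraic closure of the fraction field of `MvPolynomial Ix C`), `t` the basis, `c` the coefficients of `gA t` (`jA_all`, `gA_TH`),
algebraically independent (`ids`).  Let `c0 : Jx → C` be the coefficients of `A` (`jA_all`), `φ := eval c0 : MvPolynomial Jx C → C`.  `PQ.spz` (`R = k = C`): valuation ring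
`V` of `M` with `aeval c q ∈ V` for all `q`, a non-unit if `q(c0) = 0`.  So `C ⊆ V`, `C → κ` (residue field), `c i ∈ V` with residue the image of `c0 i`.  Let `B := jA (c i as elements of V)`:
`map (algebraMap V M) B = gA t`, `map (residue V) B = map (algebraMap C κ) A`.  `NS` over `κ`: `PQ.nsx` with `map_tri`.  2 is a unit of `V` (`C ⊆ V`, char 0).
`int`: the section `(gp t, gr t)` comes from `V`; reduce: a section over `κ` of `map A`.  The subalgebra of `κ` generated over `C` by its coefficients has a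
`C`-algebra homomorphism to `C` (`PQ.hmn`); apply it: a section over `C`.
-/

namespace Pool.Agent.G4

open MvPolynomial Matrix
open Pool.Agent.PQ (P3 lin sb SF NS Bit)

private theorem exs_desc {C κ : Type*} [Field C] [IsAlgClosed C] [Field κ] [Algebra C κ]
    (A : Fin 3 → P2 C) (p r : P2 κ) (h : Sec (fun i => map (algebraMap C κ) (A i)) p r) :
    ∃ p r : P2 C, Sec A p r := by
  classical
  obtain ⟨φ⟩ := Pool.Agent.PQ.hmn (k := C) (p.coeffs ∪ r.coeffs)
  have hsub : ∀ y ∈ p.coeffs ∪ r.coeffs,
      y ∈ Algebra.adjoin C ((p.coeffs ∪ r.coeffs : Finset κ) : Set κ) :=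
    fun y hy => Algebra.subset_adjoin hy
  generalize Algebra.adjoin C ((p.coeffs ∪ r.coeffs : Finset κ) : Set κ) = B at φ hsub
  let ι : B →+* κ := B.val.toRingHom
  have hι : Function.Injective ι := Subtype.val_injective
  obtain ⟨p', hp'⟩ : p ∈ Set.range (MvPolynomial.map ι) := by
    rw [mem_range_map_iff_coeffs_subset]
    intro y hy
    exact ⟨⟨y, hsub y (Finset.mem_union_left _ hy)⟩, rfl⟩
  obtain ⟨r', hr'⟩ : r ∈ Set.range (MvPolynomial.map ι) := by
    rw [mem_range_map_iff_coeffs_subset]
    intro y hy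
    exact ⟨⟨y, hsub y (Finset.mem_union_right _ hy)⟩, rfl⟩
  have hS : Sec (fun i => map (algebraMap C B) (A i)) p' r' := by
    refine ⟨IsHomogeneous.of_map hι (hp'.symm ▸ h.hp), IsHomogeneous.of_map hι (hr'.symm ▸ h.hr), ?_⟩
    apply MvPolynomial.map_injective ι hι
    rw [map_pow, map_cub, hp', hr', h.eq]
    congr 1
    funext i
    rw [MvPolynomial.map_map]
    rfl
  have h1 := hS.map φ.toRingHom
  have hid : (φ.toRingHom.comp (algebraMap C B)) = RingHom.id C := by
    ext y
    exact φ.commutes y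
  have h2 : (fun i => map φ.toRingHom (map (algebraMap C B) (A i))) = A := by
    funext i
    rw [MvPolynomial.map_map, hid, MvPolynomial.map_id]
  rw [h2] at h1
  exact ⟨_, _, h1⟩

private theorem jA0 {R : Type*} [CommRing R] (c : Jx → R) : jA c 0 = gf 2 fun i => c (Sum.inl i) := rfl

private theorem jA1 {R : Type*} [CommRing R] (c : Jx → R) :
    jA c 1 = gf 4 fun i => c (Sum.inr (Sum.inl i)) := rfl

private theorem jA2 {R : Type*} [CommRing R] (c : Jx → R) :
    jA c 2 = gf 6 fun i => c (Sum.inr (Sum.inr i)) := rfl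

private theorem map_jA {R S : Type*} [CommRing R] [CommRing S] (φ : R →+* S) (c : Jx → R) :
    (fun i => map φ (jA c i)) = jA fun i => φ (c i) := by
  funext i
  match i with
  | 0 => rw [jA0, jA0, map_gf]
  | 1 => rw [jA1, jA1, map_gf]
  | 2 => rw [jA2, jA2, map_gf]

private theorem jA_TH {R : Type*} [CommRing R] (c : Jx → R) : TH (jA c) := by
  intro i
  match i with
  | 0 => rw [jA0]; exact gf_hom 2 _
  | 1 => rw [jA1]; exact gf_hom 4 _
  | 2 => rw [jA2]; exact gf_hom 6 _

private theorem exs_aux {C M : Type*} [Field C] [CharZero C] [IsAlgClosed C] [Field M] [IsAlgClosed M]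
    [Algebra C M] (t : Ix → M) (ht : IsTranscendenceBasis C t) (A : Fin 3 → P2 C) (hA : TH A)
    (hNS : NS (tri A)) : ∃ p r : P2 C, Sec A p r := by
  obtain ⟨c, hc⟩ := jA_all (gA t) (gA_TH t)
  obtain ⟨c0, hc0⟩ := jA_all A hA
  obtain ⟨V, h1, h2⟩ := Pool.Agent.PQ.spz c (ids t ht c hc) (eval c0)
  have hCV : ∀ a : C, algebraMap C M a ∈ V := by
    intro a
    have := h1 (MvPolynomial.C a)
    rwa [aeval_C] at this
  let cV : C →+* V := (algebraMap C M).codRestrict V hCV
  let ψ : C →+* IsLocalRing.ResidueField V := (IsLocalRing.residue V).comp cV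
  have hcV : ∀ i, c i ∈ V := by
    intro i
    have := h1 (X i)
    rwa [aeval_X] at this
  let c' : Jx → V := fun i => ⟨c i, hcV i⟩
  have hred : ∀ i, IsLocalRing.residue V (c' i) = ψ (c0 i) := by
    intro i
    have h3 := h2 (X i - MvPolynomial.C (c0 i)) (by
      rw [map_sub, eval_X, eval_C, sub_self])
    have h4 : aeval c (X i - MvPolynomial.C (c0 i)) = ((c' i - cV (c0 i) : V) : M) := by
      rw [map_sub, aeval_X, aeval_C]
      rfl
    rw [h4, ValuationSubring.mem_nonunits_iff_exists_mem_maximalIdeal] at h3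
    obtain ⟨_, h5⟩ := h3
    have h6 := (IsLocalRing.residue_eq_zero_iff (c' i - cV (c0 i))).2 h5
    rw [map_sub, sub_eq_zero] at h6
    exact h6
  have hB1 : (fun i => map (algebraMap V M) (jA c' i)) = gA t := by
    rw [map_jA, hc]
    rfl
  have hB2 : (fun i => map (IsLocalRing.residue V) (jA c' i)) = fun i => map ψ (A i) := by
    rw [hc0, map_jA, map_jA]
    congr 1
    funext i
    exact hred i
  have hv2 : V.valuation (2 : M) = 1 := by
    have h3 : IsUnit (2 : V) := by
      have h4 : IsUnit (cV 2) := (isUnit_iff_ne_zero.2 (two_ne_zero : (2 : C) ≠ 0)).map cV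
      rwa [map_ofNat] at h4
    have h5 := (V.valuation_eq_one_iff 2).1 h3
    exact h5
  let _ : Algebra C (IsLocalRing.ResidueField V) := ψ.toAlgebra
  have hNS' : NS (tri fun i => map (IsLocalRing.residue V) (jA c' i)) := by
    rw [hB2, ← map_tri]
    exact Pool.Agent.PQ.nsx (M := IsLocalRing.ResidueField V) (tri A) hNS
  obtain ⟨P, R, hS, -, -⟩ := int V hv2 (jA c') (jA_TH c') hNS' (gp t) (gr t) (by
    rw [hB1]
    exact gA_sec t)
  have h7 := hS.map (IsLocalRing.residue V)
  rw [hB2] at h7
  exact exs_desc A _ _ h7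

theorem exs {C : Type*} [Field C] [CharZero C] [IsAlgClosed C] (A : Fin 3 → P2 C) (hA : TH A)
    (hNS : NS (tri A)) : ∃ p r : P2 C, Sec A p r := by
  let P := MvPolynomial Ix C
  let M := AlgebraicClosure (FractionRing P)
  have h0 : IsTranscendenceBasis C (X : Ix → P) := IsTranscendenceBasis.mvPolynomial _ C
  have hal : Algebra.IsAlgebraic P (FractionRing P) :=
    IsLocalization.isAlgebraic (FractionRing P) (nonZeroDivisors P)
  have h1 : IsTranscendenceBasis C (algebraMap P (FractionRing P) ∘ X) := h0.algebraMap_comp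
  have h2 := h1.algebraMap_comp (A := M)
  exact exs_aux (M := M) _ h2 A hA hNS

end Pool.Agent.G4
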