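import Pool.Agent.G4.FIN
import Pool.Agent.HFB.HBE
import Pool.Agent.ESH.LFT

/-!
# G4 / FHG

The stable Faltings height of a canonical curve of genus 4 on a quadric cone.  `fin` for the images of `x, z` in `Φ`, `HFB.hbe`.
-/

namespace Pool.Agent.G4

open MvPolynomial NumberField IsDedekindDomain Pool.Agent.Helper11 Pool.Agent.ESH Pool.Agent.HFB
open scoped KaehlerDifferential
open Pool.Agent.PQ (SF)

private theorem fhg_gen {K F C Φ : Type*} [Field K] [Field F] [Algebra K F] [Field C]
    [Algebra K C] [Field Φ] [Algebra C Φ] [Algebra F Φ] (hc : Cmps K F C Φ) (x z : F)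
    (hgen : IntermediateField.adjoin K {x, z} = ⊤) :
    IntermediateField.adjoin C {algebraMap F Φ x, algebraMap F Φ z} = ⊤ := by
  rw [eq_top_iff]
  intro f _
  set E := IntermediateField.adjoin C {algebraMap F Φ x, algebraMap F Φ z} with hE
  have h1 : ∀ y : F, algebraMap F Φ y ∈ E := by
    intro y
    have hy : y ∈ IntermediateField.adjoin K {x, z} := by
      rw [hgen]
      exact IntermediateField.mem_top
    induction hy using IntermediateField.adjoin_induction with
    | mem w hw =>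
      refine IntermediateField.subset_adjoin C _ ?_
      rcases hw with rfl | hw
      · exact Or.inl rfl
      · rw [Set.mem_singleton_iff.1 hw]
        exact Or.inr rfl
    | algebraMap c =>
      rw [hc.comm]
      exact E.algebraMap_mem _
    | add a b _ _ ha hb =>
      rw [map_add]
      exact E.add_mem ha hb
    | inv a _ ha =>
      rw [map_inv₀]
      exact E.inv_mem ha
    | mul a b _ _ ha hb =>
      rw [map_mul]
      exact E.mul_mem ha hb
  have h2 : ∀ w ∈ Submodule.span C (Set.range (algebraMap F Φ)), w ∈ E := by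
    intro w hw
    have h3 : Submodule.span C (Set.range (algebraMap F Φ)) ≤ E.toSubalgebra.toSubmodule := by
      refine Submodule.span_le.2 ?_
      rintro _ ⟨y, rfl⟩
      exact h1 y
    exact h3 hw
  obtain ⟨a, ha, b, hb, hb0, hab⟩ := hc.gen f
  have h4 : f = a / b := by
    rw [eq_div_iff hb0, hab]
  rw [h4]
  exact E.div_mem (h2 a ha) (h2 b hb)

theorem fhg {K F C Φ : Type*} [Field K] [NumberField K] [Field F] [Algebra K F] [FunField K F] [Field C]
    [Algebra K C] [Algebra.IsAlgebraic K C] [IsAlgClosed C] [Field Φ] [Algebra C Φ] [Algebra F Φ]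
    (hc : Cmps K F C Φ) (T : Finset (HeightOneSpectrum (𝓞 K))) (A : Fin 3 → P2 K) (hA : TH A)
    (hS : SF (tri A)) (hT : GoodWO T A) (x z : F)
    (h0 : eval₂ (algebraMap K F) ![x, 1, z] (tri A) = 0)
    (hgen : IntermediateField.adjoin K {x, z} = ⊤)
    (a : FinitePlace K → AbsoluteValue C ℝ)
    (ha : ∀ v, IsNonarchimedean (a v) ∧ ∀ y : K, a v (algebraMap K C y) = v y)
    {Ψ : (K →+* ℂ) → Type*} [∀ σ, Field (Ψ σ)] [∀ σ, Algebra ℂ (Ψ σ)] (j : ∀ σ, F →+* Ψ σ)
    (hj : ∀ σ, CmpE σ (j σ)) (x₀ : F) (f₀ : Fin 4 → F)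
    (hr : ∀ i, ∀ R : Place C Φ, 0 ≤ R.ordDiff (algebraMap F Φ (f₀ i) • KaehlerDifferential.D C Φ (algebraMap F Φ x₀)))
    (hli : LinearIndependent C (fun i => algebraMap F Φ (f₀ i) • KaehlerDifferential.D C Φ (algebraMap F Φ x₀)))
    (hsp : ∀ η : Ω[Φ⁄C], (∀ R : Place C Φ, 0 ≤ R.ordDiff η) → η ∈ Submodule.span C
      (Set.range (fun i => algebraMap F Φ (f₀ i) • KaehlerDifferential.D C Φ (algebraMap F Φ x₀)))) :
    hFal (C := C) (Φ := Φ) a j x₀ f₀ ≤ tw 165 (szK K T) := by
  have : FunField C Φ := ffc hc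
  have h1 : eval₂ ((algebraMap C Φ).comp (algebraMap K C)) ![algebraMap F Φ x, 1, algebraMap F Φ z]
      (tri A) = 0 := by
    have h2 : (algebraMap C Φ).comp (algebraMap K C) = (algebraMap F Φ).comp (algebraMap K F) :=
      RingHom.ext fun y => (hc.comm y).symm
    have h3 : (![algebraMap F Φ x, 1, algebraMap F Φ z] : Fin 3 → Φ) =
        fun i => algebraMap F Φ ((![x, 1, z] : Fin 3 → F) i) := by
      ext i
      fin_cases i
      · rfl
      · exact (map_one _).symm
      · rfl
    rw [h2, h3]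
    have h4 := congrArg (algebraMap F Φ) h0
    rw [map_zero, hom_eval₂] at h4
    exact h4
  obtain ⟨β, hβ, hβd⟩ := fin T A hA hS hT _ _ h1 (fhg_gen hc x z hgen)
  have hs16 : 16 ≤ szK K T := by
    rw [szK]
    omega
  refine (hbe hc a ha j hj x₀ f₀ hr hli hsp β hβ).trans ?_
  have h5 : Module.finrank (IntermediateField.adjoin C {β}) Φ + 4 + 16 ≤ tw 142 (szK K T) := by
    have h6 : (4 : ℕ) ≤ tw 140 (szK K T) := le_trans (by omega) (le_tw 140 _)
    have h7 := tw_add hs16 hβd h6
    have h8 : (16 : ℕ) ≤ tw 141 (szK K T) := le_trans (by omega) (le_tw 141 _)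
    exact tw_add hs16 h7 h8
  have h9 : tw 20 (Module.finrank (IntermediateField.adjoin C {β}) Φ + 4 + 16) ≤ tw 165 (szK K T) := by
    have h10 : tw 20 (tw 142 (szK K T)) = tw 162 (szK K T) := tw_comp 20 142 _
    exact (tw_mono le_rfl h5).trans (h10.le.trans (tw_mono (by norm_num) le_rfl))
  exact_mod_cast h9

end Pool.Agent.G4
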