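import Pool.Agent.G4.UNR
import Pool.Agent.G4.NSY
import Pool.Agent.G4.OBI
import Pool.Agent.PQ.MPB

/-!
# G4 / NZC

`unr` for `G = qy A p r` (`nsy`, `obi`, `qy_single`), `W = h⁻¹ e_2`; `oo h = (W 0)⁻¹ • W`; `tv_smul`, `RB b` is homogeneous of degree 4 (`PQ.RQ_hom`, `PQ.eval_smul_hom`).
-/

namespace Pool.Agent.G4

open MvPolynomial Matrix
open Pool.Agent.PQ (P3 lin sb SF NS Bit RB yy ka ND)

theorem nzc {k : Type*} [Field k] [IsAlgClosed k] (h2 : (2 : k) ≠ 0) (A : Fin 3 → P2 k) (hA : TH A)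
    (hNS : NS (tri A)) (p r : P2 k) (hs : Sec A p r) (h : Matrix (Fin 3) (Fin 3) k) (hh : h.det ≠ 0) (κ : k)
    (hκ : κ ≠ 0) (b : Fin 4 → Fin 3 → k) (hb : ND b) (hE : sb h (qy A p r) = C κ * RB b) :
    h⁻¹ 0 2 ≠ 0 ∧ (∀ i, oo h i ≠ 0) ∧ (∀ j i, tv b (oo h) j i ≠ 0) ∧ eval (oo h) (RB b) ≠ 0 := by
  obtain ⟨h3, h4, h5⟩ := unr h2 (qy A p r) (nsy h2 A hA hNS p r hs)
    (fun v Q hv hb => obi h2 A hA hNS p r hs v hv Q hb) (by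
      rw [qy_single A hA hs.hp hs.hr]
      exact one_ne_zero) h hh κ hκ b hb hE _ rfl
  have ho : oo h = (h⁻¹ 0 2)⁻¹ • fun i => h⁻¹ i 2 := by
    ext i
    rw [oo, Pi.smul_apply, smul_eq_mul, div_eq_inv_mul]
  have hi : (h⁻¹ 0 2)⁻¹ ≠ 0 := inv_ne_zero (h3 0)
  refine ⟨h3 0, fun i => div_ne_zero (h3 i) (h3 0), fun j i => ?_, ?_⟩
  · rw [ho, tv_smul]
    exact mul_ne_zero (pow_ne_zero _ hi) (h4 j i)
  · have hR : (RB b).IsHomogeneous 4 := Pool.Agent.PQ.RQ_hom _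
    rw [ho, Pool.Agent.PQ.eval_smul_hom hR]
    exact mul_ne_zero (pow_ne_zero _ hi) h5

end Pool.Agent.G4
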