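import Pool.Agent.G4.UNR
import Pool.Agent.PQ.UNA
import Pool.Agent.PQ.UNB
import Pool.Agent.PQ.RED
import Pool.Agent.PQ.MPB
import Pool.Agent.ST.Gauss

/-!
# G4 / UNW

The units at `V`.  `PQ.una`, `PQ.unb`: `b i r`, `1 - b i r`, `mu b i`, `la b i` units, `h = η h0`, `h0 ∈ GL₃(V)`.  So `b` comes from `V` and `ND (residue b)`.  `sb h0 G = C c' * RB b` over `V`, with `c' = c η⁻⁴`:
see the proof of `PQ.red` (file `PQ/RED.lean`), which shows that `c'` is a unit of `V` (`RB b` modulo `m` is not zero, `PQ.rnz`, nor is `sb h0 G`); here the reductions `h̄0`, `b̄` are the reductions of `h0`, `b`.  `h0⁻¹` has entries in `V`.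
`w := h0⁻¹ e_2 = η h⁻¹ e_2 ∈ V³`.  `unr` over the residue field for `Ḡ, h̄0, c̄', b̄` and `w̄ = h̄0⁻¹ e_2`: the residues of `w i`, `tv b w j i`, `RB b (w)` are not zero (`map_tv`, `PQ.map_RB`), so they are units.
`oo h = w / w 0` (`tv_smul`, `eval_smul_hom`).
-/

namespace Pool.Agent.G4

open MvPolynomial Matrix
open Pool.Agent.PQ (P3 lin sb SF NS Bit RB yy ka ND)

private theorem red_scale {M : Type*} [Field M] [IsAlgClosed M] (g : Matrix (Fin 3) (Fin 3) M) (η : M)
    {F : P3 M} (hF : F.IsHomogeneous 4) (h : Matrix (Fin 3) (Fin 3) M) (hh : ∀ i j, h i j = η * g i j) :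
    sb h F = C (η ^ 4) * sb g F := by
  have hinf : Infinite M := IsAlgClosed.instInfinite
  apply MvPolynomial.funext
  intro p
  rw [PQ.eval_sb, map_mul, eval_C, PQ.eval_sb]
  have h1 : h *ᵥ p = η • (g *ᵥ p) := by
    ext i
    simp only [mulVec, dotProduct, Pi.smul_apply, smul_eq_mul, Finset.mul_sum, hh]
    exact Finset.sum_congr rfl fun j _ => by ring
  rw [h1, PQ.eval_smul_hom hF]

private theorem red_ns {k : Type*} [Field k] {F : P3 k} (h : NS F) : F ≠ 0 := by
  rintro rfl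
  obtain ⟨i, hi⟩ := h (Pi.single 0 1) (by
    intro h0
    have := congrFun h0 0
    simp at this) (map_zero _)
  apply hi
  rw [map_zero, map_zero]

private theorem red_unit {M : Type*} [Field M] (V : ValuationSubring M) {x : V}
    (hx : V.valuation (x : M) = 1) : IsLocalRing.residue V x ≠ 0 := by
  rw [IsLocalRing.residue_ne_zero_iff_isUnit]
  exact (V.valuation_eq_one_iff x).mpr hx

theorem unw {M : Type*} [Field M] [IsAlgClosed M] (V : ValuationSubring M) (h2 : V.valuation (2 : M) = 1)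
    (G : P3 V) (hG : G.IsHomogeneous 4) (hNS : NS (map (IsLocalRing.residue V) G))
    (hO : ∀ (v : Fin 3 → IsLocalRing.ResidueField V) (Q : P3 (IsLocalRing.ResidueField V)), v ≠ 0 →
      Bit (map (IsLocalRing.residue V) G) v Q → v 2 ≠ 0) (hG1 : eval (Pi.single 2 1) G = 1)
    (h : Matrix (Fin 3) (Fin 3) M) (hh : h.det ≠ 0) (c : M) (hc : c ≠ 0) (b : Fin 4 → Fin 3 → M)
    (hb : ND b) (hE : sb h (map (algebraMap V M) G) = C c * RB b) :
    (∀ i r, V.valuation (b i r) = 1) ∧ (∀ i r, i ≠ 0 → r ≠ 0 → V.valuation (1 - b i r) = 1) ∧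
      (∀ i, V.valuation (oo h i) = 1) ∧ (∀ j i, V.valuation (tv b (oo h) j i) = 1) ∧
      V.valuation (eval (oo h) (RB b)) = 1 := by
  obtain ⟨u1, u2, u3, η, h0, hη, hdet, hh0⟩ := PQ.una V h2 G hG hNS h hh c hc b hb hE
  have u4 := PQ.unb V h2 G hG hNS h hh c hc b hb hE
  have hmem : ∀ i r, b i r ∈ V := fun i r => (V.valuation_le_one_iff _).mp (u1 i r).le
  obtain ⟨b', hb'⟩ : ∃ b' : Fin 4 → Fin 3 → V, ∀ i r, ((b' i r : V) : M) = b i r :=
    ⟨fun i r => ⟨b i r, hmem i r⟩, fun i r => rfl⟩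
  obtain ⟨φ, hφ⟩ : ∃ φ : V →+* M, φ = algebraMap V M := ⟨_, rfl⟩
  obtain ⟨ρ, hρ⟩ : ∃ ρ : V →+* IsLocalRing.ResidueField V, ρ = IsLocalRing.residue V := ⟨_, rfl⟩
  have hφc : ∀ x : V, φ x = (x : M) := fun x => by rw [hφ]; rfl
  have hφi : Function.Injective φ := fun x y hxy => by
    rw [hφc, hφc] at hxy
    exact Subtype.ext hxy
  have hφb : (fun i r => φ (b' i r)) = b := by
    funext i r
    rw [hφc, hb']
  rw [← hφ] at hE
  rw [← hρ] at hNS hO
  have hunit : ∀ x : V, V.valuation (x : M) = 1 → ρ x ≠ 0 := fun x hx => hρ ▸ red_unit V hx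
  -- the reduced parameters
  have hND : ND fun i r => ρ (b' i r) := by
    refine ⟨?_, ?_, ?_, ?_, ?_, ?_⟩
    · intro r
      have : b' 0 r = 1 := Subtype.ext (by rw [hb', hb.zero]; rfl)
      rw [this, map_one]
    · intro i
      have : b' i 0 = 1 := Subtype.ext (by rw [hb', hb.col]; rfl)
      rw [this, map_one]
    · intro i r
      exact hunit _ (by rw [hb']; exact u1 i r)
    · intro i r hi hr h1
      have h3 : ρ (1 - b' i r) = 0 := by rw [map_sub, map_one, h1, sub_self]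
      refine hunit (1 - b' i r) ?_ h3
      have : (((1 - b' i r : V)) : M) = 1 - b i r := by
        rw [← hb' i r]
        rfl
      rw [this]
      exact u2 i r hi hr
    · intro i
      rw [← PQ.map_mu]
      refine hunit _ ?_
      rw [← hφc, PQ.map_mu, hφb]
      exact u3 i
    · intro i
      rw [← PQ.map_la]
      refine hunit _ ?_
      rw [← hφc, PQ.map_la, hφb]
      exact u4 i
  have h2' : (2 : IsLocalRing.ResidueField V) ≠ 0 := by
    have := hunit 2 (by
      have e : (((2 : V)) : M) = 2 := rfl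
      rw [e]
      exact h2)
    rwa [map_ofNat] at this
  have hRne : map ρ (RB b') ≠ 0 := by
    rw [PQ.map_RB]
    exact PQ.rnz h2' _ (PQ.det_yy _ hND)
  -- the equation over V
  have hGM : (map φ G).IsHomogeneous 4 := PQ.map_hom φ hG
  have hE1 : map φ (sb h0 G) = C (c * (η ^ 4)⁻¹) * map φ (RB b') := by
    rw [PQ.map_sb, PQ.map_RB, hφb]
    have h5 := red_scale (h0.map φ) η hGM h (fun i j => by rw [hh0, Matrix.map_apply, hφc])
    rw [h5] at hE
    have h6 : (C (η ^ 4)⁻¹ : P3 M) * C (η ^ 4) = 1 := by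
      rw [← C_mul, inv_mul_cancel₀ (pow_ne_zero 4 hη), C_1]
    calc sb (h0.map φ) (map φ G) = (C (η ^ 4)⁻¹ * C (η ^ 4)) * sb (h0.map φ) (map φ G) := by
          rw [h6, one_mul]
      _ = C (η ^ 4)⁻¹ * (C c * RB b) := by rw [mul_assoc, hE]
      _ = C (c * (η ^ 4)⁻¹) * RB b := by rw [C_mul]; ring
  obtain ⟨m, hm⟩ : ∃ m, ρ (coeff m (RB b')) ≠ 0 := by
    by_contra hcon
    push Not at hcon
    apply hRne
    ext m
    rw [coeff_map, hcon, coeff_zero]
  have hmu : IsUnit (coeff m (RB b')) := by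
    rw [hρ, IsLocalRing.residue_ne_zero_iff_isUnit] at hm
    exact hm
  obtain ⟨w, hw⟩ := hmu
  obtain ⟨c'', hc''⟩ : ∃ c'' : V, φ c'' = c * (η ^ 4)⁻¹ := by
    refine ⟨coeff m (sb h0 G) * ((w⁻¹ : Vˣ) : V), ?_⟩
    have h7 := congrArg (coeff m) hE1
    rw [coeff_map, coeff_C_mul, coeff_map, ← hw] at h7
    have h8 : φ (w : V) * φ ((w⁻¹ : Vˣ) : V) = 1 := by
      rw [← map_mul, Units.mul_inv, map_one]
    rw [map_mul, h7, mul_assoc, h8, mul_one]
  have hE2 : sb h0 G = C c'' * RB b' := by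
    apply MvPolynomial.map_injective φ hφi
    have h12 : map φ (C c'' * RB b') = C (φ c'') * map φ (RB b') := by
      rw [map_mul, map_C]
    rw [hE1, h12, hc'']
  have hE3 : sb (h0.map ρ) (map ρ G) = C (ρ c'') * RB fun i r => ρ (b' i r) := by
    rw [← PQ.map_sb, hE2, map_mul, map_C, PQ.map_RB]
  have hdet' : (h0.map ρ).det ≠ 0 := by
    have h9 : (h0.map ρ).det = ρ h0.det := by
      rw [RingHom.map_det]
      rfl
    rw [h9]
    exact hunit _ hdet
  have hc1 : ρ c'' ≠ 0 := by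
    intro h10
    rw [h10, C_0, zero_mul] at hE3
    have h11 := PQ.sb_inv _ hdet' (map ρ G)
    rw [hE3, map_zero] at h11
    exact red_ns hNS h11.symm
  -- the point
  have hu0 : IsUnit h0.det := (V.valuation_eq_one_iff _).2 hdet
  obtain ⟨w, hw⟩ : ∃ w : Fin 3 → V, w = fun i => h0⁻¹ i 2 := ⟨_, rfl⟩
  have hinv : ∀ {S : Type _} [Field S] (ψ : V →+* S), (h0.map ψ)⁻¹ = (h0⁻¹).map ψ := by
    intro S _ ψ
    refine Matrix.inv_eq_right_inv ?_
    rw [← Matrix.map_mul, Matrix.mul_nonsing_inv _ hu0]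
    exact Matrix.map_one _ (map_zero _) (map_one _)
  have hWr : (fun i => ρ (w i)) = fun i => (h0.map ρ)⁻¹ i 2 := by
    funext i
    rw [hinv ρ, hw]
    rfl
  have hG0 : eval (Pi.single 2 1) (map ρ G) ≠ 0 := by
    have h12 : (fun i => ρ ((Pi.single 2 1 : Fin 3 → V) i)) = Pi.single 2 1 := by
      funext i
      fin_cases i <;> simp
    rw [← h12]
    have h13 : eval (fun i => ρ ((Pi.single 2 1 : Fin 3 → V) i)) (map ρ G) =
        ρ (eval (Pi.single 2 1) G) := by
      rw [MvPolynomial.eval_map]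
      exact (MvPolynomial.eval₂_comp_left ρ (RingHom.id V) (Pi.single 2 1) G).symm
    rw [h13, hG1, map_one]
    exact one_ne_zero
  have hκ : IsAlgClosed (IsLocalRing.ResidueField V) := ST.isAlgClosed_residueField V
  obtain ⟨r1, r2, r3⟩ := unr h2' (map ρ G) hNS hO hG0 (h0.map ρ) hdet' (ρ c'') hc1 _ hND hE3 _ hWr
  have vu : ∀ x : V, ρ x ≠ 0 → V.valuation (x : M) = 1 := by
    intro x hx
    rw [hρ, IsLocalRing.residue_ne_zero_iff_isUnit] at hx
    exact (V.valuation_eq_one_iff x).1 hx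
  have w1 : ∀ i, V.valuation ((w i : V) : M) = 1 := fun i => vu _ (r1 i)
  have w2 : ∀ j i, V.valuation ((tv b' w j i : V) : M) = 1 := fun j i => vu _ (by
    rw [map_tv]
    exact r2 j i)
  have w3 : V.valuation ((eval w (RB b') : V) : M) = 1 := vu _ (by
    have h14 : ρ (eval w (RB b')) = eval (fun i => ρ (w i)) (map ρ (RB b')) := by
      rw [MvPolynomial.eval_map]
      exact MvPolynomial.eval₂_comp_left ρ (RingHom.id V) w (RB b')
    rw [h14, PQ.map_RB]
    exact r3)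
  have hw0 : φ (w 0) ≠ 0 := by
    intro h0'
    have h15 := w1 0
    rw [← hφc, h0', map_zero] at h15
    exact zero_ne_one h15
  have hh1 : h = η • h0.map φ := by
    ext i j
    rw [hh0 i j, Matrix.smul_apply, Matrix.map_apply, hφc, smul_eq_mul]
  have hhi : h⁻¹ = η⁻¹ • (h0⁻¹).map φ := by
    refine Matrix.inv_eq_right_inv ?_
    rw [hh1, ← hinv φ, Matrix.smul_mul, Matrix.mul_smul, smul_smul, mul_inv_cancel₀ hη, one_smul,
      Matrix.mul_nonsing_inv]
    rw [isUnit_iff_ne_zero]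
    have h16 : (h0.map φ).det = φ h0.det := by
      rw [RingHom.map_det]
      rfl
    rw [h16, hφc]
    intro h17
    rw [h17, map_zero] at hdet
    exact zero_ne_one hdet
  have hoo : oo h = (φ (w 0))⁻¹ • fun i => φ (w i) := by
    funext i
    change h⁻¹ i 2 / h⁻¹ 0 2 = (φ (w 0))⁻¹ * φ (w i)
    rw [hhi, Matrix.smul_apply, Matrix.smul_apply, Matrix.map_apply, Matrix.map_apply, hw, smul_eq_mul,
      smul_eq_mul, mul_div_mul_left _ _ (inv_ne_zero hη), div_eq_inv_mul]
  have v0 : V.valuation (φ (w 0))⁻¹ = 1 := by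
    rw [map_inv₀, hφc, w1 0, inv_one]
  refine ⟨u1, u2, fun i => ?_, fun j i => ?_, ?_⟩
  · rw [hoo]
    change V.valuation ((φ (w 0))⁻¹ * φ (w i)) = 1
    rw [map_mul, v0, hφc, w1 i, one_mul]
  · rw [hoo, tv_smul, ← hφb, ← map_tv, map_mul, map_pow, v0, one_pow, hφc, w2 j i, one_mul]
  · have h18 : eval (fun i => φ (w i)) (RB b) = φ (eval w (RB b')) := by
      rw [← hφb, ← PQ.map_RB, MvPolynomial.eval_map]
      exact (MvPolynomial.eval₂_comp_left φ (RingHom.id V) w (RB b')).symm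
    have h19 : (RB b).IsHomogeneous 4 := PQ.RQ_hom _
    rw [hoo, PQ.eval_smul_hom h19, h18, map_mul, map_pow, v0, one_pow, hφc, w3, one_mul]

end Pool.Agent.G4
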