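import Pool.Agent.G4.DGB
import Pool.Agent.G4.NZC
import Pool.Agent.G4.UNX
import Pool.Agent.ESH.HTL

/-!
# G4 / HTY

Heights.  `ESH.htl` with `m = 2`, `D = 7226 * 42 ^ 7 * 8`, `dgb`, `unx`.  For `b i r` (`i, r ≠ 0`): `≠ 0`, `≠ 1` (`ND`).  For `exu (v j) i`: `her`, `her_ne`, `her_fix` (each `v j l` is fixed by inertia: `σ (v j l ^ 2) = σ (tv ..) = tv ..` by `map_tv`;
valuations of `v j l ^ 2` from `unx`, `Hq` from `hq_tv`); the non-vanishing needed for `her_ne` over `C`: `nzc`.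
-/

namespace Pool.Agent.G4

open MvPolynomial Matrix NumberField IsDedekindDomain
open Pool.Agent.PQ (P3 lin sb SF NS Bit RB yy ka ND)

theorem hty {K C : Type*} [Field K] [NumberField K] [Field C] [Algebra K C] [Algebra.IsAlgebraic K C]
    [IsAlgClosed C] (T : Finset (HeightOneSpectrum (𝓞 K))) (A : Fin 3 → P2 K) (hA : TH A) (hS : SF (tri A))
    (hT : GoodWO T A) (p r : P2 C) (hs : Sec (fun i => map (algebraMap K C) (A i)) p r)
    (h : Matrix (Fin 3) (Fin 3) C) (hh : h.det ≠ 0) (κ : C) (hκ : κ ≠ 0) (b : Fin 4 → Fin 3 → C) (hb : ND b)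
    (hE : sb h (qy (fun i => map (algebraMap K C) (A i)) p r) = MvPolynomial.C κ * RB b)
    (v : Fin 3 → Fin 3 → C) (hv : ∀ j i, v j i ^ 2 = tv b (oo h) j i) (x : C)
    (hx : (∃ i r, i ≠ 0 ∧ r ≠ 0 ∧ x = b i r) ∨ ∃ j i, x = exu (v j) i) :
    ∃ P : Polynomial ℤ, P ≠ 0 ∧ P.natDegree ≤ ESH.tw 5 (ESH.szK K T + 2 + 7226 * 42 ^ 7 * 8) ∧
      Polynomial.aeval x P = 0 ∧
      ∀ j, |P.coeff j| ≤ (ESH.tw 90 (ESH.szK K T + 2 + 7226 * 42 ^ 7 * 8) : ℤ) := by
  have : CharZero C := charZero_of_injective_algebraMap (algebraMap K C).injective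
  have h2C : (2 : C) ≠ 0 := two_ne_zero
  obtain ⟨d1, d2⟩ := dgb A hA hS p r hs h hh κ hκ b hb hE
  have hNS : NS (tri fun i => map (algebraMap K C) (A i)) := by
    rw [← map_tri]
    exact (SF.map (algebraMap K C) hS).ns
  obtain ⟨z1, z2, z3, z4⟩ := nzc h2C _ (TH.map (algebraMap K C) hA) hNS p r hs h hh κ hκ b hb hE
  have hvne : ∀ j i, v j i ≠ 0 := by
    intro j i h0
    apply z3 j i
    rw [← hv, h0]
    ring
  have hHq : ∀ j, Hq (v j 0 ^ 2) (v j 1 ^ 2) (v j 2 ^ 2) = eval (oo h) (RB b) := by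
    intro j
    rw [hv, hv, hv, hq_tv b hb.zero (oo h) j]
  have hU := unx T A hA hT p r hs h hh κ hκ b hb hE
  have hV2 : ∀ V : ValuationSubring C, ESH.GoodV T 2 V → V.valuation (2 : C) = 1 := by
    intro V hV
    have := hV.res_char 2 Nat.prime_two le_rfl
    simpa using this
  rcases hx with ⟨i, r', hi, hr, rfl⟩ | ⟨j, i, rfl⟩
  · refine ESH.htl T 2 _ _ (hb.ne i r') (hb.one i r' hi hr) (d1 i r') (fun V hV => ?_) (fun V hV σ hσ => ?_)
    · obtain ⟨u1, u2, _, _, _⟩ := hU V hV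
      exact ⟨u1 i r', u2 i r' hi hr⟩
    · obtain ⟨_, _, _, _, u5⟩ := hU V hV
      exact (u5 σ hσ).1 i r'
  · obtain ⟨_, n1, n2⟩ := her_ne h2C (v j) (hvne j) (by rw [hHq]; exact z4) i
    refine ESH.htl T 2 _ _ n1 n2 (d2 v hv j i) (fun V hV => ?_) (fun V hV σ hσ => ?_)
    · obtain ⟨_, _, u3, u4, _⟩ := hU V hV
      exact her V (hV2 V hV) (v j) (fun l => by rw [hv]; exact u3 j l) (by rw [hHq]; exact u4) i
    · obtain ⟨_, _, u3, _, u5⟩ := hU V hV
      obtain ⟨f1, f2⟩ := u5 σ hσ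
      have hfx : ∀ l, σ (v j l) = v j l := by
        intro l
        refine her_fix V (hV2 V hV) σ hσ (v j l) (by rw [hv]; exact u3 j l) ?_
        rw [hv]
        have e1 := map_tv (σ : C →+* C) b (oo h) j l
        have e2 : (fun i r => (σ : C →+* C) (b i r)) = b := by
          funext i r
          exact f1 i r
        have e3 : (fun i => (σ : C →+* C) (oo h i)) = oo h := by
          funext i
          exact f2 i
        rw [e2, e3] at e1
        exact e1
      simp only [exu, map_div₀, map_sub, map_add, map_mul, hfx, map_ofNat]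

end Pool.Agent.G4
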