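import Pool.Agent.G4.BSB

/-!
# G4 / MHP

`det (hpo o) = -o 0`.  `o = oo h`, `o = w⁻¹ • h⁻¹ e_2`, `w = h⁻¹ 0 2 ≠ 0`.  `M := h * hpo o`: column 1 is `h o = w⁻¹ e_2`, so `M 0 1 = M 1 1 = 0`, `M 2 1 = w⁻¹`.  `m := !![M 0 0, M 0 2; M 1 0, M 1 2]`: `det M = - M 2 1 * det m`, so `det m ≠ 0`.
`sb M F = sb (hpo o) (sb h F)` (`PQ.sb_sb`), so `sb (hpo o) R = C κ⁻¹ sb M F`.  Evaluate: `M (x, y, w) = (m (x, w), M 2 0 x + M 2 1 y + M 2 2 w)`.  `mhp_dbl`: given a double root `u0` of `F' = sb (blk m 1) F` at `(c, 1, ·)`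
let `y0` solve `M 2 0 c + M 2 1 y0 + M 2 2 = u0`; then `M (c, y0, 1) = blk m 1 (c, 1, u0)`; the derivative with respect to `y` is `M 2 1` times the derivative of `F` with respect to the variable 2 at this point
(`PQ.pderiv_sb`; column 1 of `M` is `(0, 0, M 2 1)`), and `pderiv 2 (sb (blk m 1) F) = sb (blk m 1) (pderiv 2 F)`.
-/

namespace Pool.Agent.G4

open MvPolynomial Matrix
open Pool.Agent.PQ (P3 lin sb SF NS Bit)

theorem det_hpo {R : Type*} [CommRing R] (o : Fin 3 → R) : (hpo o).det = -o 0 := by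
  rw [Matrix.det_fin_three]
  simp [hpo]

private theorem mhp_aux {R : Type*} [CommRing R] (g : Matrix (Fin 3) (Fin 3) R) (P : P3 R) (p : Fin 3 → R)
    (j : Fin 3) : eval p (pderiv j (sb g P)) = ∑ i, g i j * eval (g *ᵥ p) (pderiv i P) := by
  rw [Pool.Agent.PQ.pderiv_sb, map_sum]
  refine Finset.sum_congr rfl fun i _ => ?_
  rw [map_mul, eval_C, Pool.Agent.PQ.eval_sb]

theorem mhp {k : Type*} [Field k] (h : Matrix (Fin 3) (Fin 3) k) (hh : h.det ≠ 0) (h0 : h⁻¹ 0 2 ≠ 0)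
    (F R : P3 k) (κ : k) (hκ : κ ≠ 0) (hE : sb h F = C κ * R) :
    ∃ m : Matrix (Fin 2) (Fin 2) k, m.det ≠ 0 ∧ ∀ c u0 : k, eval ![c, 1, u0] (sb (blk m 1) F) = 0 →
      eval ![c, 1, u0] (pderiv 2 (sb (blk m 1) F)) = 0 →
      ∃ y0 : k, eval ![c, y0, 1] (sb (hpo (oo h)) R) = 0 ∧
        eval ![c, y0, 1] (pderiv 1 (sb (hpo (oo h)) R)) = 0 := by
  set M : Matrix (Fin 3) (Fin 3) k := h * hpo (oo h) with hM
  have hinv : h * h⁻¹ = 1 := Matrix.mul_nonsing_inv _ (isUnit_iff_ne_zero.2 hh)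
  have hcol : ∀ i, M i 1 = (1 : Matrix (Fin 3) (Fin 3) k) i 2 / h⁻¹ 0 2 := by
    intro i
    have e1 : M i 1 = ∑ j, h i j * oo h j := by
      rw [hM, Matrix.mul_apply]
      refine Finset.sum_congr rfl fun j _ => ?_
      congr 1
      fin_cases j <;> rfl
    rw [e1, ← hinv, Matrix.mul_apply, Finset.sum_div]
    refine Finset.sum_congr rfl fun j _ => ?_
    rw [oo, mul_div_assoc]
  have c0 : M 0 1 = 0 := by rw [hcol]; simp
  have c1 : M 1 1 = 0 := by rw [hcol]; simp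
  have c2 : M 2 1 ≠ 0 := by
    rw [hcol]
    simpa using h0
  have hdM : M.det ≠ 0 := by
    rw [hM, Matrix.det_mul, det_hpo]
    have : oo h 0 = 1 := by
      rw [oo, div_self h0]
    rw [this]
    exact mul_ne_zero hh (by simp)
  have hsb : C κ * sb (hpo (oo h)) R = sb M F := by
    rw [hM, ← Pool.Agent.PQ.sb_sb, hE, map_mul, Pool.Agent.PQ.sb_C]
  refine ⟨!![M 0 0, M 0 2; M 1 0, M 1 2], ?_, ?_⟩
  · intro hd
    apply hdM
    rw [Matrix.det_fin_two_of] at hd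
    rw [Matrix.det_fin_three, c0, c1]
    linear_combination (-M 2 1) * hd
  · intro c u0 hz hz'
    set m : Matrix (Fin 2) (Fin 2) k := !![M 0 0, M 0 2; M 1 0, M 1 2] with hm
    have hpt : M *ᵥ ![c, (u0 - M 2 0 * c - M 2 2) / M 2 1, 1] = blk m 1 *ᵥ ![c, 1, u0] := by
      ext i
      fin_cases i
      · simp [Matrix.mulVec, dotProduct, Fin.sum_univ_three, blk, hm, c0]
      · simp [Matrix.mulVec, dotProduct, Fin.sum_univ_three, blk, hm, c1]
      · change (M *ᵥ ![c, (u0 - M 2 0 * c - M 2 2) / M 2 1, 1]) 2 = (blk m 1 *ᵥ ![c, 1, u0]) 2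
        have e1 : (M *ᵥ ![c, (u0 - M 2 0 * c - M 2 2) / M 2 1, 1]) 2 =
            M 2 0 * c + M 2 1 * ((u0 - M 2 0 * c - M 2 2) / M 2 1) + M 2 2 * 1 := by
          simp [Matrix.mulVec, dotProduct, Fin.sum_univ_three]
        have e2 : (blk m 1 *ᵥ ![c, 1, u0]) 2 = u0 := by
          simp [Matrix.mulVec, dotProduct, Fin.sum_univ_three, blk]
        rw [e1, e2, mul_div_cancel₀ _ c2]
        ring
    refine ⟨(u0 - M 2 0 * c - M 2 2) / M 2 1, ?_, ?_⟩
    · have e1 := congrArg (eval ![c, (u0 - M 2 0 * c - M 2 2) / M 2 1, 1]) hsb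
      rw [map_mul, eval_C, Pool.Agent.PQ.eval_sb M, hpt, ← Pool.Agent.PQ.eval_sb, hz] at e1
      exact (mul_eq_zero.1 e1).resolve_left hκ
    · have e1 : eval ![c, (u0 - M 2 0 * c - M 2 2) / M 2 1, 1] (pderiv 1 (C κ * sb (hpo (oo h)) R)) =
          eval ![c, (u0 - M 2 0 * c - M 2 2) / M 2 1, 1] (pderiv 1 (sb M F)) := by
        rw [hsb]
      rw [← smul_eq_C_mul, Derivation.map_smul, smul_eval, mhp_aux M, hpt] at e1
      rw [mhp_aux] at hz'
      rw [Fin.sum_univ_three] at e1 hz'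
      have b0 : blk m 1 0 2 = 0 := rfl
      have b1 : blk m 1 1 2 = 0 := rfl
      have b2 : blk m 1 2 2 = 1 := rfl
      rw [b0, b1, b2, zero_mul, zero_mul, one_mul, zero_add, zero_add] at hz'
      rw [c0, c1, hz', zero_mul, zero_mul, mul_zero, zero_add, zero_add] at e1
      exact (mul_eq_zero.1 e1).resolve_left hκ

end Pool.Agent.G4
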