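import Pool.Agent.G4.MOT
import Pool.Agent.G4.BSC

/-!
# G4 / MOB

Change of the coordinates `s, t`.  `mob`: `n := m⁻¹`, `(x', w') := n (x, 1)`, `w' ≠ 0` (`x` is transcendental, `(n 1 0, n 1 1) ≠ 0`), `m (x', w') = (x, 1)`.  `x̃ := x'/w'`, `z̃ := z / w'²`.  `bsb m (A i)` at `(x̃, 1)`
is `w'^(-(2i+2)) A i (x, 1)` (forms), so `tri (bsb m ∘ A) (x̃, 1, z̃) = w'^(-6) tri A (x, 1, z) = 0`.  `C(x̃, z̃)` contains `w'`: from `m (x̃, 1) = w'⁻¹ (x, 1)`: second coordinate `w'⁻¹ = m 1 0 x̃ + m 1 1`; hence `x` and `z`.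
-/

namespace Pool.Agent.G4

open MvPolynomial Matrix
open Pool.Agent.PQ (P3 lin sb SF NS Bit)

theorem mob {C Φ : Type*} [Field C] [Field Φ] [Algebra C Φ] [Helper11.FunField C Φ] [IsAlgClosed C]
    (A : Fin 3 → P2 C) (hA : TH A) (x z : Φ) (h0 : eval₂ (algebraMap C Φ) ![x, 1, z] (tri A) = 0)
    (hgen : IntermediateField.adjoin C {x, z} = ⊤) (m : Matrix (Fin 2) (Fin 2) C) (hm : m.det ≠ 0) :
    ∃ x' z' : Φ, eval₂ (algebraMap C Φ) ![x', 1, z'] (tri fun i => bsb m (A i)) = 0 ∧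
      IntermediateField.adjoin C {x', z'} = ⊤ := by
  have hx : Transcendental C x := mob_tr A x z h0 hgen
  set φ := algebraMap C Φ with hφ
  set D := m.det with hD
  have hDφ : φ D ≠ 0 := by
    rw [hφ]
    exact (map_ne_zero _).2 hm
  have hdet : φ D = φ (m 0 0) * φ (m 1 1) - φ (m 0 1) * φ (m 1 0) := by
    rw [hD, Matrix.det_fin_two, map_sub, map_mul, map_mul]
  -- `w = D w'`, `u = D x'`
  set w : Φ := φ (m 0 0) - φ (m 1 0) * x with hw
  set u : Φ := φ (m 1 1) * x - φ (m 0 1) with hu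
  have hw0 : w ≠ 0 := by
    intro h
    by_cases h1 : m 1 0 = 0
    · rw [hw, h1, map_zero, zero_mul, sub_zero] at h
      rw [h1, map_zero, mul_zero, sub_zero] at hdet
      exact hDφ (by rw [hdet, h, zero_mul])
    · apply hx
      have h2 : x = φ (m 0 0 / m 1 0) := by
        rw [map_div₀]
        have h3 : φ (m 1 0) ≠ 0 := by
          rw [hφ]
          exact (map_ne_zero _).2 h1
        rw [eq_div_iff h3]
        rw [hw] at h
        linear_combination -h
      rw [h2]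
      exact isAlgebraic_algebraMap _
  have e0 : φ (m 0 0) * u + φ (m 0 1) * w = φ D * x := by
    rw [hu, hw, hdet]
    ring
  have e1 : φ (m 1 0) * u + φ (m 1 1) * w = φ D := by
    rw [hu, hw, hdet]
    ring
  set c : Φ := φ D / w with hc
  have hc0 : c ≠ 0 := div_ne_zero hDφ hw0
  set x' : Φ := u / w with hx'
  have f0 : φ (m 0 0) * x' + φ (m 0 1) = c * x := by
    rw [hx', hc]
    field_simp
    linear_combination e0
  have f1 : φ (m 1 0) * x' + φ (m 1 1) = c := by
    rw [hx', hc]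
    field_simp
    linear_combination e1
  have hmul : (m.map φ) *ᵥ ![x', 1] = c • ![x, 1] := by
    funext i
    fin_cases i
    · simp [Matrix.mulVec, dotProduct, Fin.sum_univ_two, f0]
    · simp [Matrix.mulVec, dotProduct, Fin.sum_univ_two, f1]
  have hev : ∀ i : Fin 3, eval ![x', 1] (bsb (m.map φ) (map φ (A i)))
      = c ^ (2 * (i : ℕ) + 2) * eval ![x, 1] (map φ (A i)) := by
    intro i
    rw [eval_bsb, hmul, smul_hom2 ((hA i).map φ)]
  have hmt : ∀ B : Fin 3 → P2 C, map φ (tri B) = tri fun i => map φ (B i) := fun B => by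
    rw [map_tri]
  refine ⟨x', c ^ 2 * z, ?_, ?_⟩
  · rw [eval₂_eq_eval_map, hmt, eval_tri] at h0 ⊢
    simp only [map_bsb, Matrix.cons_val_zero, Matrix.cons_val_one, Matrix.cons_val_two,
      Matrix.tail_cons, Matrix.head_cons] at h0 ⊢
    have a0 : eval ![x', 1] (bsb (m.map φ) (map φ (A 0))) = c ^ 2 * eval ![x, 1] (map φ (A 0)) :=
      hev 0
    have a1 : eval ![x', 1] (bsb (m.map φ) (map φ (A 1))) = c ^ 4 * eval ![x, 1] (map φ (A 1)) :=
      hev 1
    have a2 : eval ![x', 1] (bsb (m.map φ) (map φ (A 2))) = c ^ 6 * eval ![x, 1] (map φ (A 2)) :=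
      hev 2
    rw [a0, a1, a2]
    linear_combination c ^ 6 * h0
  · rw [eq_top_iff, ← hgen, IntermediateField.adjoin_le_iff]
    set L := IntermediateField.adjoin C {x', c ^ 2 * z} with hL
    have hx'L : x' ∈ L := IntermediateField.subset_adjoin C _ (by simp)
    have hzL : c ^ 2 * z ∈ L := IntermediateField.subset_adjoin C _ (by simp)
    have hφL : ∀ a : C, φ a ∈ L := fun a => L.algebraMap_mem a
    have hcL : c ∈ L := by
      rw [← f1]
      exact add_mem (mul_mem (hφL _) hx'L) (hφL _)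
    have hxL : x ∈ L := by
      have h1 : x = (φ (m 0 0) * x' + φ (m 0 1)) * c⁻¹ := by
        rw [f0]
        field_simp
      rw [h1]
      exact mul_mem (add_mem (mul_mem (hφL _) hx'L) (hφL _)) (inv_mem hcL)
    have hzL' : z ∈ L := by
      have h1 : z = (c ^ 2 * z) * (c ^ 2)⁻¹ := by
        field_simp
      rw [h1]
      exact mul_mem hzL (inv_mem (pow_mem hcL 2))
    rintro a (rfl | rfl)
    · exact hxL
    · exact hzL'

end Pool.Agent.G4
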