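import Pool.Agent.G4.Defs
import Pool.Agent.PQ.ELM

/-!
# G4 / NFO

`nfo`: apply `PQ.elm` to `D = ((1 - X0) (1 - X1))² Y² - ((1 - X2) (1 - X3))²` in `ℤ[X0, .., X3][Y]`, `natDegree 2`, total degrees `≤ 4`, `l1 ≤ 16` (`PQ.l1_mul`, `PQ.l1_add`, ...), `n = 2`, `e = 4`, `B = 16`, leading coefficient at `e` not zero.
-/

namespace Pool.Agent.G4

open MvPolynomial Matrix
open Pool.Agent.PQ (P3 lin sb SF NS Bit RB yy ka ND)

private theorem nfo_td (i : Fin 4) : (1 - X i : MvPolynomial (Fin 4) ℤ).totalDegree ≤ 1 := by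
  refine (totalDegree_sub _ _).trans ?_
  rw [totalDegree_X]
  simp

private theorem nfo_l1 (i : Fin 4) : PQ.l1 (1 - X i : MvPolynomial (Fin 4) ℤ) ≤ 2 := by
  rw [sub_eq_add_neg]
  refine (PQ.l1_add _ _).trans ?_
  rw [PQ.l1_neg, PQ.l1_X]
  have h1 : PQ.l1 (1 : MvPolynomial (Fin 4) ℤ) = 1 := by
    have := PQ.l1_C (σ := Fin 4) 1
    simpa using this
  rw [h1]

private theorem nfo_td2 (i j : Fin 4) :
    (((1 - X i) * (1 - X j)) ^ 2 : MvPolynomial (Fin 4) ℤ).totalDegree ≤ 4 := by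
  refine (totalDegree_pow _ _).trans ?_
  have h := totalDegree_mul (1 - X i : MvPolynomial (Fin 4) ℤ) (1 - X j)
  have h1 := nfo_td i
  have h2 := nfo_td j
  omega

private theorem nfo_l12 (i j : Fin 4) :
    PQ.l1 (((1 - X i) * (1 - X j)) ^ 2 : MvPolynomial (Fin 4) ℤ) ≤ 16 := by
  rw [sq]
  refine (PQ.l1_mul _ _).trans ?_
  have h := PQ.l1_mul (1 - X i : MvPolynomial (Fin 4) ℤ) (1 - X j)
  have h1 := nfo_l1 i
  have h2 := nfo_l1 j
  have h3 : PQ.l1 ((1 - X i) * (1 - X j) : MvPolynomial (Fin 4) ℤ) ≤ 4 :=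
    h.trans (by nlinarith)
  nlinarith

theorem nfo {C : Type*} [Field C] [CharZero C] [IsAlgClosed C] (s c : ℕ) (hs : 16 ≤ s) (hc : 2 ≤ c)
    (e : Fin 4 → C) (P : Fin 4 → Polynomial ℤ) (hP : ∀ i, P i ≠ 0) (hPd : ∀ i, (P i).natDegree ≤ ESH.tw c s)
    (hPA : ∀ i j, |(P i).coeff j| ≤ (ESH.tw c s : ℤ)) (hr : ∀ i, Polynomial.aeval (e i) (P i) = 0)
    (h0 : e 0 ≠ 1) (h1 : e 1 ≠ 1) (o : C)
    (ho : o ^ 2 * ((1 - e 0) * (1 - e 1)) ^ 2 = ((1 - e 2) * (1 - e 3)) ^ 2) :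
    ∃ N : Polynomial ℤ, N ≠ 0 ∧ N.natDegree ≤ ESH.tw (c + 10) s ∧
      (∀ j, |N.coeff j| ≤ (ESH.tw (c + 10) s : ℤ)) ∧ Polynomial.aeval o N = 0 := by
  have h16 : 16 ≤ ESH.tw c s := hs.trans (ESH.le_tw c s)
  set u : MvPolynomial (Fin 4) ℤ := ((1 - X 0) * (1 - X 1)) ^ 2 with hu
  set w : MvPolynomial (Fin 4) ℤ := ((1 - X 2) * (1 - X 3)) ^ 2 with hw
  have hco : ∀ j, (Polynomial.C u * Polynomial.X ^ 2 - Polynomial.C w :
      Polynomial (MvPolynomial (Fin 4) ℤ)).coeff j =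
        (if j = 2 then u else 0) - (if j = 0 then w else 0) := by
    intro j
    rw [Polynomial.coeff_sub, Polynomial.coeff_C_mul, Polynomial.coeff_X_pow, Polynomial.coeff_C]
    split_ifs <;> simp
  have hmap : (Polynomial.C u * Polynomial.X ^ 2 - Polynomial.C w :
      Polynomial (MvPolynomial (Fin 4) ℤ)).map
        (aeval e : MvPolynomial (Fin 4) ℤ →ₐ[ℤ] C).toRingHom =
      Polynomial.C (((1 - e 0) * (1 - e 1)) ^ 2) * Polynomial.X ^ 2 -
        Polynomial.C (((1 - e 2) * (1 - e 3)) ^ 2) := by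
    rw [Polynomial.map_sub, Polynomial.map_mul, Polynomial.map_pow, Polynomial.map_X,
      Polynomial.map_C, Polynomial.map_C]
    congr 3
    · simp [hu]
    · simp [hw]
  obtain ⟨N, hN0, hNd, hNc, hNr⟩ := PQ.elm e P s c (ESH.tw c s) (ESH.tw c s) 2 4 16 hs le_rfl le_rfl
    (by omega) (by omega) h16 (by rw [Fintype.card_fin]; omega) hP hPd hPA hr
    (Polynomial.C u * Polynomial.X ^ 2 - Polynomial.C w) (by compute_degree)
    (by
      intro j
      rw [hco]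
      split_ifs with h2 h3 h3
      · omega
      · rw [sub_zero]; exact nfo_td2 0 1
      · rw [zero_sub, totalDegree_neg]; exact nfo_td2 2 3
      · simp)
    (by
      intro j
      rw [hco]
      split_ifs with h2 h3 h3
      · omega
      · rw [sub_zero]; exact nfo_l12 0 1
      · rw [zero_sub, PQ.l1_neg]; exact nfo_l12 2 3
      · simp [PQ.l1])
    (by
      rw [hmap]
      intro h2
      have h3 := congrArg (fun q => Polynomial.coeff q 2) h2
      simp only [Polynomial.coeff_sub, Polynomial.coeff_C_mul, Polynomial.coeff_X_pow,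
        Polynomial.coeff_C, Polynomial.coeff_zero] at h3
      have h4 : ((1 - e 0) * (1 - e 1)) ^ 2 = 0 := by simpa using h3
      have h5 := eq_zero_of_pow_eq_zero h4
      rcases mul_eq_zero.1 h5 with h6 | h6
      · exact h0 (sub_eq_zero.1 h6).symm
      · exact h1 (sub_eq_zero.1 h6).symm)
  refine ⟨N, hN0, hNd, hNc, hNr o ?_⟩
  rw [hmap]
  simp only [Polynomial.eval_sub, Polynomial.eval_mul, Polynomial.eval_C, Polynomial.eval_pow,
    Polynomial.eval_X]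
  rw [← ho]
  ring

end Pool.Agent.G4
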