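import Pool.Agent.G4.HER

/-!
# G4 / TVR

`tvr`: `1 - exu v i = 2 v_i / S`, `S = v0 + v1 + v2 ≠ 0`.  With `e j i = exu (v j) i`: `(1 - e 0 0) / (1 - e 0 j) = v 0 0 / v 0 j`, `(1 - e j 0) / (1 - e j 1) = v j 0 / v j 1`; squares: `v 0 0 ² / v 0 j ² = o 0 (y0·o) / (o j (yj·o))`,
`v j 0 ² / v j 1 ² = o 0 (yj·o) / (o j (y0·o))` (`tv`, `j = 1, 2`), product `(o 0 / o j)²`, `o 0 = 1`.
-/

namespace Pool.Agent.G4

open MvPolynomial Matrix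
open Pool.Agent.PQ (P3 lin sb SF NS Bit RB yy ka ND)

theorem tvr {k : Type*} [Field k] (h2 : (2 : k) ≠ 0) (b : Fin 4 → Fin 3 → k) (o : Fin 3 → k) (ho : o 0 = 1)
    (v : Fin 3 → Fin 3 → k) (hv : ∀ j i, v j i ^ 2 = tv b o j i) (h0 : ∀ j i, v j i ≠ 0)
    (hs : ∀ j, v j 0 + v j 1 + v j 2 ≠ 0) (j : Fin 3) (hj : j ≠ 0) :
    (o j) ^ 2 * ((1 - exu (v 0) 0) * (1 - exu (v j) 0)) ^ 2 =
      ((1 - exu (v 0) j) * (1 - exu (v j) 1)) ^ 2 := by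
  have e : ∀ (w : Fin 3 → k) (i : Fin 3), w 0 + w 1 + w 2 ≠ 0 →
      1 - exu w i = 2 * w i / (w 0 + w 1 + w 2) := by
    intro w i hw
    unfold exu
    rw [eq_div_iff hw, sub_mul, div_mul_cancel₀ _ hw]
    ring
  have key : (o j) ^ 2 * (v 0 0 ^ 2 * v j 0 ^ 2) = v 0 j ^ 2 * v j 1 ^ 2 := by
    rw [hv, hv, hv, hv]
    fin_cases j
    · exact absurd rfl hj
    · simp [tv, ho]
      ring
    · simp [tv, ho]
      ring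
  rw [e _ _ (hs 0), e _ _ (hs j), e _ _ (hs 0), e _ _ (hs j)]
  calc (o j) ^ 2 * (2 * v 0 0 / (v 0 0 + v 0 1 + v 0 2) * (2 * v j 0 / (v j 0 + v j 1 + v j 2))) ^ 2
      = (2 / (v 0 0 + v 0 1 + v 0 2) * (2 / (v j 0 + v j 1 + v j 2))) ^ 2 *
          ((o j) ^ 2 * (v 0 0 ^ 2 * v j 0 ^ 2)) := by ring
    _ = _ := by rw [key]; ring

end Pool.Agent.G4
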