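import Pool.Agent.G4.UDS
import Pool.Agent.PQ.MPB

/-!
# G4 / UDM

`PQ.ds_map`, `PQ.map_sb`, `PQ.map_RB`, `PQ.map_bg`; `b = bg (fun i r => b i.succ r.succ)` by `hb.zero`, `hb.col` (`fin_bg` in `PQ/FIN.lean`), `o = ![1, o 1, o 2]`.
-/

namespace Pool.Agent.G4

open MvPolynomial Matrix
open Pool.Agent.PQ (P3 lin sb SF NS Bit RB yy ka ND ds bg l1)

private theorem UDM_bg {k : Type*} [Field k] (b : Fin 4 → Fin 3 → k) (hb : ND b) :
    b = bg fun i r => b i.succ r.succ := by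
  funext i r
  refine Fin.cases ?_ (fun i => ?_) i
  · exact hb.zero r
  · refine Fin.cases ?_ (fun r => ?_) r
    · exact hb.col _
    · rfl

private theorem UDM_hpo {R S : Type*} [CommRing R] [CommRing S] (φ : R →+* S) (o : Fin 3 → R) :
    (hpo o).map φ = hpo (fun j => φ (o j)) := by
  ext i j
  fin_cases i <;> fin_cases j <;> simp [hpo]

private theorem UDM_gen {R S : Type*} [CommRing R] [CommRing S] (φ : R →+* S) (o : Fin 3 → R)
    (t : Fin 3 → Fin 2 → R) :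
    (ds (sb (hpo o) (RB (bg t)))).map φ = ds (sb (hpo (fun j => φ (o j))) (RB (bg fun i r => φ (t i r)))) := by
  rw [← PQ.ds_map, PQ.map_sb, PQ.map_RB, PQ.map_bg, UDM_hpo]

theorem uds_map {k : Type*} [Field k] (b : Fin 4 → Fin 3 → k) (hb : ND b) (o : Fin 3 → k) (ho : o 0 = 1) :
    uds.map (aeval (Sum.elim (fun x : Fin 3 × Fin 2 => b x.1.succ x.2.succ) fun j : Fin 2 => o j.succ) :
      MvPolynomial Vx ℤ →ₐ[ℤ] k).toRingHom = ds (sb (hpo o) (RB b)) := by
  set φ := (aeval (Sum.elim (fun x : Fin 3 × Fin 2 => b x.1.succ x.2.succ) fun j : Fin 2 => o j.succ) :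
      MvPolynomial Vx ℤ →ₐ[ℤ] k).toRingHom with hφ
  have e1 : (fun j => φ ((![1, MvPolynomial.X (Sum.inr 0), MvPolynomial.X (Sum.inr 1)] :
      Fin 3 → MvPolynomial Vx ℤ) j)) = o := by
    funext j
    fin_cases j
    · simp [ho]
    · simp [φ]
    · simp [φ]
  have e2 : (fun (i : Fin 3) (r : Fin 2) => φ (MvPolynomial.X (Sum.inl (i, r)) : MvPolynomial Vx ℤ)) =
      fun i r => b i.succ r.succ := by
    funext i r
    simp [φ]
  have e3 := UDM_bg b hb
  have e4 := UDM_gen φ (![1, MvPolynomial.X (Sum.inr 0), MvPolynomial.X (Sum.inr 1)] :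
      Fin 3 → MvPolynomial Vx ℤ) (fun i r => (MvPolynomial.X (Sum.inl (i, r)) : MvPolynomial Vx ℤ))
  rw [e1, e2, ← e3] at e4
  exact e4

end Pool.Agent.G4
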