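import Pool.Agent.G4.DD2
import Pool.Agent.PQ.SPZ

/-!
# G4 / GCP

Coprimality for the generic curve with a generic section.  Index type `Ix = Fin 3 ⊕ Fin 4 ⊕ Fin 3 ⊕ Fin 5` for the coefficients of `p, r, a, b`.
`gp t, gr t, ga t, gb t` are the forms, `gA t` the curve through the section.  Specialise `p = 0, r = s³, a = 0, b = t⁴` by `PQ.spz` (`R = k = C`, `φ = aeval t0`):
a valuation ring `V` of `M` containing `C[t]`, with `t i - t0 i` non-units.  Suppose `x ∈ M²`, `x ≠ 0`, is a common zero of `r` and `cud`; scale `x` (forms!) to be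
primitive in `V` (`max` of the valuations of `x 0, x 1` equal to 1).  Modulo `m`: `r ≡ s³`, `cud ≡ t⁴` (with coefficients in `V` congruent to those; `3 p² + 2 a p + b`), so `x̄ 0 ^ 3 = 0` and
`x̄ 1 ^ 4 = 0`, contradiction.
(`t0`: `gf 3 v = X 0 ^ 3` for `v = Pi.single 3 1`; `gf 4 v = X 1 ^ 4` for `v = Pi.single 0 1`.)
-/

namespace Pool.Agent.G4

open MvPolynomial Matrix
open Pool.Agent.PQ (P3 lin sb SF NS Bit)

/-- indices of the parameters -/
abbrev Ix : Type := Fin 3 ⊕ Fin 4 ⊕ Fin 3 ⊕ Fin 5

section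

variable {R : Type*} [CommRing R]

noncomputable def gp (t : Ix → R) : P2 R := gf 2 fun i => t (Sum.inl i)

noncomputable def gr (t : Ix → R) : P2 R := gf 3 fun i => t (Sum.inr (Sum.inl i))

noncomputable def ga (t : Ix → R) : P2 R := gf 2 fun i => t (Sum.inr (Sum.inr (Sum.inl i)))

noncomputable def gb (t : Ix → R) : P2 R := gf 4 fun i => t (Sum.inr (Sum.inr (Sum.inr i)))

/-- the curve with the section `(gp t, gr t)` -/
noncomputable def gA (t : Ix → R) : Fin 3 → P2 R :=
  ![ga t, gb t, gr t ^ 2 - gp t ^ 3 - ga t * gp t ^ 2 - gb t * gp t]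

theorem gA_TH (t : Ix → R) : TH (gA t) := by
  have hp : (gp t).IsHomogeneous 2 := gf_hom 2 _
  have hr : (gr t).IsHomogeneous 3 := gf_hom 3 _
  have ha : (ga t).IsHomogeneous 2 := gf_hom 2 _
  have hb : (gb t).IsHomogeneous 4 := gf_hom 4 _
  intro i
  fin_cases i
  · exact ha
  · exact hb
  · have h1 : (gr t ^ 2).IsHomogeneous 6 := hr.pow 2
    have h2 : (gp t ^ 3).IsHomogeneous 6 := hp.pow 3
    have h3 : (ga t * gp t ^ 2).IsHomogeneous 6 := ha.mul (hp.pow 2)
    have h4 : (gb t * gp t).IsHomogeneous 6 := hb.mul hp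
    exact ((h1.sub h2).sub h3).sub h4

theorem gA_sec (t : Ix → R) : Sec (gA t) (gp t) (gr t) := by
  refine ⟨gf_hom 2 _, gf_hom 3 _, ?_⟩
  simp only [cub, gA, cons_val_zero, cons_val_one, cons_val]
  ring

end

private theorem gcp_ev {R S : Type*} [CommRing R] [CommRing S] (φ : R →+* S) (y : Fin 2 → R)
    (f : P2 R) : φ (eval y f) = eval (fun i => φ (y i)) (map φ f) := by
  rw [eval_map, ← coe_eval₂Hom]
  have h : (φ.comp (eval y)) = eval₂Hom φ fun i => φ (y i) := by
    apply MvPolynomial.ringHom_ext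
    · intro r; simp
    · intro i; simp
  exact congrArg (fun g : P2 R →+* S => g f) h

private theorem gcp_sc {R : Type*} [CommRing R] {f : P2 R} {n : ℕ} (hf : f.IsHomogeneous n)
    (c : R) (x : Fin 2 → R) : eval (fun i => c * x i) f = c ^ n * eval x f := by
  rw [eval_eq, eval_eq, Finset.mul_sum]
  refine Finset.sum_congr rfl fun m hm => ?_
  have h1 : ∑ i ∈ m.support, m i = n := by
    have := hf (mem_support_iff.1 hm)
    rw [Finsupp.weight_apply, Finsupp.sum] at this
    simpa using this
  have h2 : ∏ i ∈ m.support, (c * x i) ^ m i = c ^ n * ∏ i ∈ m.support, x i ^ m i := by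
    rw [← h1, ← Finset.prod_pow_eq_pow_sum, ← Finset.prod_mul_distrib]
    refine Finset.prod_congr rfl fun i _ => ?_
    rw [mul_pow]
  rw [h2]
  ring

/-- the special values of the parameters -/
private def gcpT (R : Type*) [CommRing R] : Ix → R :=
  Sum.elim (fun _ => 0) (Sum.elim (Pi.single 3 1) (Sum.elim (fun _ => 0) (Pi.single 0 1)))

private theorem gcpT_map {R S : Type*} [CommRing R] [CommRing S] (φ : R →+* S) (i : Ix) :
    φ (gcpT R i) = gcpT S i := by
  rcases i with i | i | i | i
  · simp [gcpT]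
  · by_cases h : i = 3
    · subst h; simp [gcpT]
    · simp [gcpT, Pi.single_eq_of_ne h]
  · simp [gcpT]
  · by_cases h : i = 0
    · subst h; simp [gcpT]
    · simp [gcpT, Pi.single_eq_of_ne h]

private theorem mgr {R S : Type*} [CommRing R] [CommRing S] (φ : R →+* S) (t : Ix → R) :
    map φ (gr t) = gr fun i => φ (t i) := map_gf φ 3 _

/-- the derivative of the cubic at the section -/
private noncomputable def gcu {R : Type*} [CommRing R] (t : Ix → R) : P2 R :=
  3 * gp t ^ 2 + 2 * ga t * gp t + gb t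

private theorem mgcu {R S : Type*} [CommRing R] [CommRing S] (φ : R →+* S) (t : Ix → R) :
    map φ (gcu t) = gcu fun i => φ (t i) := by
  have h1 : map φ (gp t) = gp fun i => φ (t i) := map_gf φ 2 _
  have h2 : map φ (ga t) = ga fun i => φ (t i) := map_gf φ 2 _
  have h3 : map φ (gb t) = gb fun i => φ (t i) := map_gf φ 4 _
  rw [gcu, map_add, map_add, map_mul, map_mul, map_mul, map_pow, h1, h2, h3, map_ofNat, map_ofNat]
  rfl

private theorem gcu_hom {R : Type*} [CommRing R] (t : Ix → R) : (gcu t).IsHomogeneous 4 := by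
  have hp : (gp t).IsHomogeneous 2 := gf_hom 2 _
  have ha : (ga t).IsHomogeneous 2 := gf_hom 2 _
  have hb : (gb t).IsHomogeneous 4 := gf_hom 4 _
  have k1 : (3 * gp t ^ 2).IsHomogeneous 4 := by
    have := (isHomogeneous_C (Fin 2) (3 : R)).mul (hp.pow 2)
    rw [show (C (3 : R) : P2 R) = 3 from rfl] at this
    simpa using this
  have k2 : (2 * ga t * gp t).IsHomogeneous 4 := by
    have := ((isHomogeneous_C (Fin 2) (2 : R)).mul ha).mul hp
    rw [show (C (2 : R) : P2 R) = 2 from rfl] at this
    simpa using this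
  exact (k1.add k2).add hb

private theorem gcu_eq {R : Type*} [CommRing R] (t : Ix → R) : cud (gA t) (gp t) = gcu t := by
  simp only [cud, gA, gcu, cons_val_zero, cons_val_one]

private theorem gcpT_gr {R : Type*} [CommRing R] : gr (gcpT R) = X 0 ^ 3 := by
  rw [gr, gf, Finset.sum_eq_single (3 : Fin 4)]
  · simp [gcpT]
  · intro b _ hb
    simp [gcpT, Pi.single_eq_of_ne hb]
  · simp

private theorem gcpT_gcu {R : Type*} [CommRing R] : gcu (gcpT R) = X 1 ^ 4 := by
  have s1 : gp (gcpT R) = 0 := by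
    simp [gp, gf, gcpT]
  have s2 : ga (gcpT R) = 0 := by
    simp [ga, gf, gcpT]
  have s4 : gb (gcpT R) = X 1 ^ 4 := by
    rw [gb, gf, Finset.sum_eq_single (0 : Fin 5)]
    · simp [gcpT]
    · intro b _ hb
      simp [gcpT, Pi.single_eq_of_ne hb]
    · simp
  rw [gcu, s1, s2, s4]
  ring

theorem gcp {C M : Type*} [Field C] [Field M] [Algebra C M] (t : Ix → M) (ht : AlgebraicIndependent C t)
    (x : Fin 2 → M) (hx : x ≠ 0) (hr : eval x (gr t) = 0) : eval x (cud (gA t) (gp t)) ≠ 0 := by
  intro hc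
  obtain ⟨V, h1, h2⟩ := Pool.Agent.PQ.spz t ht (eval (gcpT C))
  -- normalise the point
  obtain ⟨i0, hi0, hle⟩ : ∃ i0, x i0 ≠ 0 ∧ ∀ i, x i / x i0 ∈ V := by
    have hmem : ∀ a b : M, b ≠ 0 → (a / b ∈ V ∨ b / a ∈ V) := by
      intro a b hb
      rcases V.mem_or_inv_mem (a / b) with h | h
      · exact Or.inl h
      · right
        rwa [inv_div] at h
    by_cases e0 : x 0 = 0
    · have e1 : x 1 ≠ 0 := by
        intro e1
        apply hx
        funext i
        fin_cases i
        · exact e0
        · exact e1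
      refine ⟨1, e1, fun i => ?_⟩
      fin_cases i
      · change x 0 / x 1 ∈ V
        rw [e0, zero_div]; exact zero_mem _
      · change x 1 / x 1 ∈ V
        rw [div_self e1]; exact one_mem _
    · by_cases e1 : x 1 = 0
      · refine ⟨0, e0, fun i => ?_⟩
        fin_cases i
        · change x 0 / x 0 ∈ V
          rw [div_self e0]; exact one_mem _
        · change x 1 / x 0 ∈ V
          rw [e1, zero_div]; exact zero_mem _
      · rcases hmem (x 1) (x 0) e0 with h | h
        · refine ⟨0, e0, fun i => ?_⟩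
          fin_cases i
          · change x 0 / x 0 ∈ V
            rw [div_self e0]; exact one_mem _
          · exact h
        · refine ⟨1, e1, fun i => ?_⟩
          fin_cases i
          · exact h
          · change x 1 / x 1 ∈ V
            rw [div_self e1]; exact one_mem _
  let y : Fin 2 → V := fun i => ⟨x i / x i0, hle i⟩
  have htV : ∀ i, t i ∈ V := by
    intro i
    have := h1 (X i)
    rwa [aeval_X] at this
  let t' : Ix → V := fun i => ⟨t i, htV i⟩
  let ι : V →+* M := algebraMap V M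
  have hι : Function.Injective ι := Subtype.val_injective
  have hy : (fun i => ι (y i)) = fun i => (x i0)⁻¹ * x i := by
    funext i
    change x i / x i0 = _
    rw [div_eq_inv_mul]
  -- over `V`
  have hrV : eval y (gr t') = 0 := by
    apply hι
    rw [gcp_ev, hy, mgr, map_zero]
    have e1 : eval (fun i => (x i0)⁻¹ * x i) (gr t) = (x i0)⁻¹ ^ 3 * eval x (gr t) :=
      gcp_sc (gf_hom 3 _) _ _
    exact e1.trans (by rw [hr, mul_zero])
  have hcV : eval y (gcu t') = 0 := by
    apply hι
    rw [gcp_ev, hy, map_zero, mgcu]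
    have e1 : eval (fun i => (x i0)⁻¹ * x i) (gcu t) = (x i0)⁻¹ ^ 4 * eval x (gcu t) :=
      gcp_sc (gcu_hom t) _ _
    exact e1.trans (by rw [← gcu_eq, hc, mul_zero])
  -- reduce
  let κ := IsLocalRing.ResidueField V
  let ρ : V →+* κ := IsLocalRing.residue V
  have hCV : ∀ c : C, algebraMap C M c ∈ V := by
    intro c
    have := h1 (MvPolynomial.C c)
    rwa [aeval_C] at this
  let cV : C →+* V := (algebraMap C M).codRestrict V hCV
  have hred : ∀ i, ρ (t' i) = gcpT κ i := by
    intro i
    have h3 := h2 (X i - MvPolynomial.C (gcpT C i)) (by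
      rw [map_sub, eval_X, eval_C, sub_self])
    have h4 : aeval t (X i - MvPolynomial.C (gcpT C i)) = ((t' i - cV (gcpT C i) : V) : M) := by
      rw [map_sub, aeval_X, aeval_C]
      rfl
    rw [h4, ValuationSubring.mem_nonunits_iff_exists_mem_maximalIdeal] at h3
    obtain ⟨_, h5⟩ := h3
    have h6 := (IsLocalRing.residue_eq_zero_iff (t' i - cV (gcpT C i))).2 h5
    rw [map_sub, sub_eq_zero] at h6
    have h7 : ρ (cV (gcpT C i)) = gcpT κ i := by
      rw [gcpT_map cV, gcpT_map ρ]
    exact h6.trans h7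
  have hredf : (fun i => ρ (t' i)) = gcpT κ := funext hred
  have r1 := congrArg ρ hrV
  rw [gcp_ev, mgr, hredf, gcpT_gr, map_zero, map_pow, eval_X] at r1
  have r2 := congrArg ρ hcV
  rw [gcp_ev, mgcu, hredf, gcpT_gcu, map_zero, map_pow, eval_X] at r2
  have r3 : ρ (y 0) = 0 := by simpa using r1
  have r4 : ρ (y 1) = 0 := by simpa using r2
  have r5 : ρ (y i0) = 1 := by
    have : y i0 = 1 := Subtype.ext (div_self hi0)
    rw [this, map_one]
  fin_cases i0
  · exact zero_ne_one (r3.symm.trans r5)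
  · exact zero_ne_one (r4.symm.trans r5)

end Pool.Agent.G4
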