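import Pool.Agent.G4.GCP
import Pool.Agent.G4.ALS

/-!
# G4 / IDS

The coefficients of the generic curve are algebraically independent.  Compare `PQ/IND.lean` (same argument).  Let `E ⊆ M` be the algebraic closure in `M` of
`C(coefficients of gA t)` (an algebraically closed field, `M` is algebraic over `C(t)`).  `gA t` comes from `E`; `als` over `k = E` with `gcp`: the coefficients of
`gp t, gr t` are in `E`; those of `ga t, gb t` too.  So all `t i` are algebraic over `C(cA t)`; the family `cA t` has 15 elements and so is a transcendence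
basis (cardinality: `Fintype.card Ix = 15 = Fintype.card Jx`).
-/

namespace Pool.Agent.G4

open MvPolynomial Matrix
open scoped IntermediateField.algebraAdjoinAdjoin
open Pool.Agent.PQ (P3 lin sb SF NS Bit)

/-- indices of the coefficients of a curve -/
abbrev Jx : Type := Fin 3 ⊕ Fin 5 ⊕ Fin 7

/-- the curve with given coefficients -/
noncomputable def jA {R : Type*} [CommRing R] (c : Jx → R) : Fin 3 → P2 R :=
  ![gf 2 fun i => c (Sum.inl i), gf 4 fun i => c (Sum.inr (Sum.inl i)), gf 6 fun i => c (Sum.inr (Sum.inr i))]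

theorem jA_all {R : Type*} [CommRing R] (A : Fin 3 → P2 R) (hA : TH A) : ∃ c : Jx → R, A = jA c := by
  obtain ⟨u, hu⟩ := gf_all (n := 2) (hA 0)
  obtain ⟨v, hv⟩ := gf_all (n := 4) (hA 1)
  obtain ⟨w, hw⟩ := gf_all (n := 6) (hA 2)
  refine ⟨Sum.elim u (Sum.elim v w), ?_⟩
  funext i
  fin_cases i
  · exact hu
  · exact hv
  · exact hw

private theorem jA0 {R : Type*} [CommRing R] (c : Jx → R) :
    jA c 0 = gf 2 fun i => c (Sum.inl i) := rfl

private theorem jA1 {R : Type*} [CommRing R] (c : Jx → R) :
    jA c 1 = gf 4 fun i => c (Sum.inr (Sum.inl i)) := rfl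

private theorem jA2 {R : Type*} [CommRing R] (c : Jx → R) :
    jA c 2 = gf 6 fun i => c (Sum.inr (Sum.inr i)) := rfl

private theorem jA_TH {R : Type*} [CommRing R] (c : Jx → R) : TH (jA c) := by
  have h0 := gf_hom 2 fun i => c (Sum.inl i)
  have h1 := gf_hom 4 fun i => c (Sum.inr (Sum.inl i))
  have h2 := gf_hom 6 fun i => c (Sum.inr (Sum.inr i))
  rw [← jA0] at h0
  rw [← jA1] at h1
  rw [← jA2] at h2
  intro i
  match i with
  | 0 => exact h0
  | 1 => exact h1
  | 2 => exact h2

private theorem map_jA {R S : Type*} [CommRing R] [CommRing S] (φ : R →+* S) (c : Jx → R) :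
    (fun i => map φ (jA c i)) = jA fun j => φ (c j) := by
  have h0 := map_gf φ 2 fun i => c (Sum.inl i)
  have h1 := map_gf φ 4 fun i => c (Sum.inr (Sum.inl i))
  have h2 := map_gf φ 6 fun i => c (Sum.inr (Sum.inr i))
  rw [← jA0] at h0
  rw [← jA1] at h1
  rw [← jA2] at h2
  funext i
  match i with
  | 0 => rw [h0, jA0]
  | 1 => rw [h1, jA1]
  | 2 => rw [h2, jA2]

private theorem coef_mem {R S : Type*} [CommRing R] [CommRing S] (φ : R →+* S) (n : ℕ)
    (v : Fin (n + 1) → S) (f : P2 R) (h : gf n v = map φ f) (i : Fin (n + 1)) :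
    ∃ c : R, φ c = v i := by
  refine ⟨(dd f).coeff i, ?_⟩
  rw [← gf_coeff n v i, h, dd_map, Polynomial.coeff_map]

theorem ids {C M : Type*} [Field C] [CharZero C] [Field M] [IsAlgClosed M] [Algebra C M]
    (t : Ix → M) (ht : IsTranscendenceBasis C t) (c : Jx → M) (hc : gA t = jA c) :
    AlgebraicIndependent C c := by
  let L := IntermediateField.adjoin C (Set.range c)
  let k := algebraicClosure L M
  have hkc : IsAlgClosed k := IsAlgClosure.isAlgClosed L
  have : CharZero M := charZero_of_injective_algebraMap (algebraMap C M).injective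
  have : CharZero k := charZero_of_injective_algebraMap (algebraMap C k).injective
  have hLk : ∀ y : M, y ∈ L → y ∈ k := fun y hy => (algebraMap L k ⟨y, hy⟩).2
  have hck : ∀ j, c j ∈ k := fun j => hLk _ (IntermediateField.subset_adjoin C _ ⟨j, rfl⟩)
  let c' : Jx → k := fun j => ⟨c j, hck j⟩
  have hmap : (fun i => map (algebraMap k M) (jA c' i)) = gA t := by
    rw [map_jA, hc]
    rfl
  obtain ⟨p0, r0, hp, hr⟩ := als (jA c') (jA_TH c') (gp t) (gr t) (by rw [hmap]; exact gA_sec t)
    (by rw [hmap]; exact fun x hx hr => gcp t ht.1 x hx hr)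
  have hmem : ∀ i, t i ∈ k := by
    have key : ∀ (n : ℕ) (v : Fin (n + 1) → M) (f : P2 k), gf n v = map (algebraMap k M) f →
        ∀ i, v i ∈ k := by
      intro n v f h i
      obtain ⟨a, ha⟩ := coef_mem (algebraMap k M) n v f h i
      rw [← ha]
      exact a.2
    rintro (i | i | i | i)
    · exact key 2 (fun i => t (Sum.inl i)) p0 hp i
    · exact key 3 (fun i => t (Sum.inr (Sum.inl i))) r0 hr i
    · exact key 2 (fun i => t (Sum.inr (Sum.inr (Sum.inl i)))) (jA c' 0)
        (congrFun hmap 0).symm i
    · exact key 4 (fun i => t (Sum.inr (Sum.inr (Sum.inr i)))) (jA c' 1)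
        (congrFun hmap 1).symm i
  let L' := IntermediateField.adjoin C (Set.range t)
  have hL' : L' ≤ k.restrictScalars C := by
    rw [IntermediateField.adjoin_le_iff]
    rintro _ ⟨i, rfl⟩
    exact hmem i
  have halgL' : Algebra.IsAlgebraic L' M := ht.isAlgebraic_field
  have halgk : Algebra.IsAlgebraic k M := by
    let f : L' →+* k := (algebraMap L' M).codRestrict k (fun y => hL' y.2)
    refine Algebra.IsAlgebraic.ringHom_of_comp_eq (R := L') (A := M) f (RingHom.id M)
      f.injective Function.surjective_id ?_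
    ext y
    rfl
  have halgL : Algebra.IsAlgebraic L M := Algebra.IsAlgebraic.trans L k M
  have halg : Algebra.IsAlgebraic (Algebra.adjoin C (Set.range c)) M :=
    (IsFractionRing.comap_isAlgebraic_iff (A := Algebra.adjoin C (Set.range c))
      (K := IntermediateField.adjoin C (Set.range c))).2 halgL
  have hle : Cardinal.lift.{_, 0} (Cardinal.mk Jx) ≤
      Cardinal.lift.{0, _} (Algebra.trdeg C M) := by
    rw [← ht.lift_cardinalMk_eq_trdeg]
    refine Cardinal.lift_le.2 (le_of_eq ?_)
    rw [Cardinal.mk_fintype, Cardinal.mk_fintype]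
    rfl
  exact (Algebra.IsAlgebraic.isTranscendenceBasis_of_lift_le_trdeg_of_finite C c hle).1

end Pool.Agent.G4
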