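import Pool.Agent.G4.Defs

/-!
# G4 / INCA

First step of the integrality of sections (one variable).  `P = P2 X² + P1 X + P0`, `P2 ≡ 1`, `P1, P0 ∈ m` (`hP'`); `R = R3 X³ + ...`, `R3 ≡ 1`, the other
coefficients in `m`.  `P2` is a unit of `V`; let `ϖ ∈ M` with `ϖ² = π² / P2` (`M` algebraically closed), `V.valuation ϖ = V.valuation π`, so `ϖ ∈ V` (as an element of `V`),
a non-unit, `≠ 0`.  `x1 = -P1 / (2 P2) ∈ m` (2 is a unit), `P = P2 (X - x1)² + P*`, `P* = P0 - P1² / (4 P2) ∈ m`.  `θ := P* / π²`.  Then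
`P(x1 + ϖ Y) / π² = (ϖ² P2 / π²) Y² + P*/π² = Y² + θ`.  Taylor expansion `R(x1 + T) = R3 T³ + S2 T² + S1 T + S0`, `S2 = R2 + 3 R3 x1`,
`S1 = R1 + 2 R2 x1 + 3 R3 x1²`, `S0 = R(x1)`, all in `m` (`x1 ∈ m`).  `ρ3 = R3 ϖ³/π³`, `ρ2 = S2 ϖ²/π³`, `ρ1 = S1 ϖ/π³`, `ρ0 = S0/π³`.
`ρ3² - 1 = R3²/P2³ - 1 ∈ m`.  `ϖ ρ2 = S2 (ϖ/π)³`, `ϖ² ρ1 = S1 (ϖ/π)³`, `ϖ³ ρ0 = S0 (ϖ/π)³`, `ϖ² θ = P* (ϖ/π)²`: valuation `< 1`.
The identity: substitute `x1 + ϖ Y` in `hE` and divide by `π⁶`.
-/

namespace Pool.Agent.G4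

open Polynomial

theorem inca {M : Type*} [Field M] [IsAlgClosed M] (V : ValuationSubring M) (h2 : V.valuation (2 : M) = 1)
    (P R A2 A4 A6 : V[X]) (hP : P.natDegree ≤ 2) (hR : R.natDegree ≤ 3)
    (hP' : P.map (IsLocalRing.residue V) = X ^ 2) (hR' : R.map (IsLocalRing.residue V) = X ^ 3)
    (π : V) (hπ : V.valuation (π : M) < 1) (hπ0 : π ≠ 0)
    (hE : R ^ 2 = P ^ 3 + C (π ^ 2) * A2 * P ^ 2 + C (π ^ 4) * A4 * P + C (π ^ 6) * A6) :
    ∃ (x1 ϖ : V) (θ ρ0 ρ1 ρ2 ρ3 : M), ϖ ≠ 0 ∧ V.valuation (ϖ : M) < 1 ∧ V.valuation ((ϖ : M) ^ 2 * θ) < 1 ∧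
      V.valuation ((ϖ : M) * ρ2) < 1 ∧ V.valuation ((ϖ : M) ^ 2 * ρ1) < 1 ∧ V.valuation ((ϖ : M) ^ 3 * ρ0) < 1 ∧
      V.valuation (ρ3 ^ 2 - 1) < 1 ∧
      (C ρ3 * X ^ 3 + C ρ2 * X ^ 2 + C ρ1 * X + C ρ0) ^ 2 = (X ^ 2 + C θ) ^ 3 +
        ((A2.comp (C x1 + C ϖ * X)).map (algebraMap V M)) * (X ^ 2 + C θ) ^ 2 +
        ((A4.comp (C x1 + C ϖ * X)).map (algebraMap V M)) * (X ^ 2 + C θ) +
        ((A6.comp (C x1 + C ϖ * X)).map (algebraMap V M)) := by
  classical
  have vlt : ∀ z : V, IsLocalRing.residue V z = 0 ↔ V.valuation (z : M) < 1 := by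
    intro z
    rw [IsLocalRing.residue_eq_zero_iff]
    exact V.valuation_lt_one_iff z
  have vle : ∀ z : V, V.valuation (z : M) ≤ 1 := fun z => V.valuation_le_one z
  -- coefficients
  set p0 := P.coeff 0 with hp0
  set p1 := P.coeff 1 with hp1
  set p2 := P.coeff 2 with hp2
  set r0 := R.coeff 0 with hr0
  set r1 := R.coeff 1 with hr1
  set r2 := R.coeff 2 with hr2
  set r3 := R.coeff 3 with hr3
  have hPe : P = C p2 * X ^ 2 + C p1 * X + C p0 := by
    rw [P.as_sum_range' 3 (by omega)]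
    simp [Finset.sum_range_succ, ← C_mul_X_pow_eq_monomial]
    ring
  have hRe : R = C r3 * X ^ 3 + C r2 * X ^ 2 + C r1 * X + C r0 := by
    rw [R.as_sum_range' 4 (by omega)]
    simp [Finset.sum_range_succ, ← C_mul_X_pow_eq_monomial]
    ring
  have cP : ∀ n, IsLocalRing.residue V (P.coeff n) = (X ^ 2 : (IsLocalRing.ResidueField V)[X]).coeff n := by
    intro n
    rw [← hP', coeff_map]
  have cR : ∀ n, IsLocalRing.residue V (R.coeff n) = (X ^ 3 : (IsLocalRing.ResidueField V)[X]).coeff n := by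
    intro n
    rw [← hR', coeff_map]
  have mp0 : IsLocalRing.residue V p0 = 0 := by rw [hp0, cP]; simp
  have mp1 : IsLocalRing.residue V p1 = 0 := by rw [hp1, cP]; simp [coeff_X_pow]
  have mp2 : IsLocalRing.residue V p2 = 1 := by rw [hp2, cP]; simp
  have mr0 : IsLocalRing.residue V r0 = 0 := by rw [hr0, cR]; simp
  have mr1 : IsLocalRing.residue V r1 = 0 := by rw [hr1, cR]; simp [coeff_X_pow]
  have mr2 : IsLocalRing.residue V r2 = 0 := by rw [hr2, cR]; simp [coeff_X_pow]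
  have mr3 : IsLocalRing.residue V r3 = 1 := by rw [hr3, cR]; simp
  -- units
  have up2 : IsUnit p2 := by
    rw [← IsLocalRing.residue_ne_zero_iff_isUnit, mp2]
    exact one_ne_zero
  have co2 : ((2 : V) : M) = 2 := rfl
  have co3 : ((3 : V) : M) = 3 := rfl
  have u2 : IsUnit (2 : V) := by
    rw [V.valuation_eq_one_iff, co2]
    exact h2
  obtain ⟨u, hu⟩ := up2.exists_right_inv
  obtain ⟨c, hc⟩ := u2.exists_right_inv
  have mu : IsLocalRing.residue V u = 1 := by
    have := congrArg (IsLocalRing.residue V) hu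
    rw [map_mul, mp2, one_mul, map_one] at this
    exact this
  have vu : V.valuation (u : M) = 1 := by
    rw [← V.valuation_eq_one_iff]
    exact IsUnit.of_mul_eq_one p2 (by rw [mul_comm]; exact hu)
  obtain ⟨q', hq'⟩ := IsAlgClosed.exists_pow_nat_eq (u : M) (n := 2) (by norm_num)
  have hqV : q' ∈ V := by
    rw [← V.valuation_le_one_iff]
    have h1 : V.valuation q' ^ 2 = 1 := by rw [← map_pow, hq', vu]
    by_contra hcon
    rw [not_le] at hcon
    have := one_lt_pow₀ hcon (n := 2) (by norm_num)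
    rw [h1] at this
    exact lt_irrefl _ this
  set q : V := ⟨q', hqV⟩ with hq
  have hqu : q ^ 2 = u := by
    apply Subtype.ext
    exact hq'
  have q0 : q ≠ 0 := by
    intro h
    rw [h] at hqu
    rw [← hqu] at mu
    simp at mu
  set x1 : V := -(p1 * c * u) with hx1
  have hx : 2 * p2 * x1 + p1 = 0 := by
    rw [hx1]
    linear_combination (-p1 * p2 * u) * hc - p1 * hu
  have mx : IsLocalRing.residue V x1 = 0 := by
    rw [hx1, map_neg, map_mul, map_mul, mp1]
    simp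
  set P0 : V := p2 * x1 ^ 2 + p1 * x1 + p0 with hP0
  have mP0 : IsLocalRing.residue V P0 = 0 := by
    rw [hP0, map_add, map_add, map_mul, map_mul, map_pow, mx, mp0]
    simp
  set S2 : V := r2 + 3 * r3 * x1 with hS2
  set S1 : V := r1 + 2 * r2 * x1 + 3 * r3 * x1 ^ 2 with hS1
  set S0 : V := r3 * x1 ^ 3 + r2 * x1 ^ 2 + r1 * x1 + r0 with hS0
  have mS2 : IsLocalRing.residue V S2 = 0 := by
    rw [hS2, map_add, map_mul, mx, mr2]
    simp
  have mS1 : IsLocalRing.residue V S1 = 0 := by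
    rw [hS1, map_add, map_add, map_mul, map_mul, map_mul, map_pow, mx, mr1]
    simp
  have mS0 : IsLocalRing.residue V S0 = 0 := by
    rw [hS0, map_add, map_add, map_add, map_mul, map_mul, map_mul, map_pow, map_pow, mx, mr0]
    simp
  have hπM : (π : M) ≠ 0 := by
    intro h
    exact hπ0 (Subtype.ext h)
  refine ⟨x1, q * π, (P0 : M) / π ^ 2, (S0 : M) / π ^ 3, (S1 : M) * q / π ^ 2, (S2 : M) * q ^ 2 / π,
    (r3 : M) * q ^ 3, mul_ne_zero q0 hπ0, ?_, ?_, ?_, ?_, ?_, ?_, ?_⟩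
  · rw [← vlt, map_mul, (vlt π).2 hπ, mul_zero]
  · have : ((q * π : V) : M) ^ 2 * ((P0 : M) / π ^ 2) = ((q ^ 2 * P0 : V) : M) := by
      push_cast
      field_simp
    rw [this, ← vlt, map_mul, mP0, mul_zero]
  · have : ((q * π : V) : M) * ((S2 : M) * q ^ 2 / π) = ((q ^ 3 * S2 : V) : M) := by
      push_cast
      field_simp
    rw [this, ← vlt, map_mul, mS2, mul_zero]
  · have : ((q * π : V) : M) ^ 2 * ((S1 : M) * q / π ^ 2) = ((q ^ 3 * S1 : V) : M) := by
      push_cast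
      field_simp
    rw [this, ← vlt, map_mul, mS1, mul_zero]
  · have : ((q * π : V) : M) ^ 3 * ((S0 : M) / π ^ 3) = ((q ^ 3 * S0 : V) : M) := by
      push_cast
      field_simp
    rw [this, ← vlt, map_mul, mS0, mul_zero]
  · have : ((r3 : M) * q ^ 3) ^ 2 - 1 = ((r3 ^ 2 * u ^ 3 - 1 : V) : M) := by
      push_cast
      rw [← hqu]
      push_cast
      ring
    rw [this, ← vlt, map_sub, map_mul, map_pow, map_pow, mr3, mu]
    simp
  · have hPm : (P.comp (C x1 + C (q * π) * X)).map (algebraMap V M) =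
        C ((π : M) ^ 2) * (X ^ 2 + C ((P0 : M) / π ^ 2)) := by
      have t1 : (C ((π : M) ^ 2) : M[X]) * C ((P0 : M) / π ^ 2) = C (P0 : M) := by
        rw [← C_mul]
        congr 1
        field_simp
      have t2 : (C ((p2 : V) : M) : M[X]) * C ((q : V) : M) ^ 2 = 1 := by
        rw [← C_pow, ← C_mul, ← C_1]
        congr 1
        have := congrArg (fun z : V => (z : M)) hu
        rw [← hqu] at this
        push_cast at this
        exact this
      have t3 : (2 : M[X]) * C ((p2 : V) : M) * C ((x1 : V) : M) + C ((p1 : V) : M) = 0 := by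
        have := congrArg (fun z : V => (C (z : M) : M[X])) hx
        push_cast at this
        simp only [co2, map_add, map_mul, map_ofNat, map_zero] at this
        exact this
      have t4 : (C ((P0 : V) : M) : M[X]) = C ((p2 : V) : M) * C ((x1 : V) : M) ^ 2 +
          C ((p1 : V) : M) * C ((x1 : V) : M) + C ((p0 : V) : M) := by
        rw [hP0]
        push_cast
        simp
      rw [mul_add, t1, t4, hPe]
      simp only [add_comp, mul_comp, C_comp, pow_comp, X_comp, Polynomial.map_add, Polynomial.map_mul,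
        Polynomial.map_pow, map_C, map_X, map_mul, map_pow]
      have al : ∀ z : V, algebraMap V M z = (z : M) := fun z => rfl
      simp only [al]
      linear_combination (C (π : M) ^ 2 * X ^ 2) * t2 + (C (q : M) * C (π : M) * X) * t3
    have hRm : (R.comp (C x1 + C (q * π) * X)).map (algebraMap V M) =
        C ((π : M) ^ 3) * (C ((r3 : M) * q ^ 3) * X ^ 3 + C ((S2 : M) * q ^ 2 / π) * X ^ 2 +
          C ((S1 : M) * q / π ^ 2) * X + C ((S0 : M) / π ^ 3)) := by
      have t1 : (C ((π : M) ^ 3) : M[X]) * C ((S0 : M) / π ^ 3) = C (S0 : M) := by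
        rw [← C_mul]
        congr 1
        field_simp
      have t2 : (C ((π : M) ^ 3) : M[X]) * C ((S1 : M) * q / π ^ 2) = C ((π : M) * S1 * q) := by
        rw [← C_mul]
        congr 1
        field_simp
      have t3 : (C ((π : M) ^ 3) : M[X]) * C ((S2 : M) * q ^ 2 / π) = C ((π : M) ^ 2 * S2 * q ^ 2) := by
        rw [← C_mul]
        congr 1
        field_simp
      rw [mul_add, mul_add, mul_add, t1, ← mul_assoc, ← mul_assoc, ← mul_assoc, t2, t3, hRe, hS0, hS1, hS2]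
      have al : ∀ z : V, algebraMap V M z = (z : M) := fun z => rfl
      simp only [add_comp, mul_comp, C_comp, pow_comp, X_comp, Polynomial.map_add, Polynomial.map_mul,
        Polynomial.map_pow, map_C, map_X, map_mul, map_pow, al]
      push_cast
      simp only [co2, co3, map_add, map_mul, map_pow, map_ofNat]
      ring
    have hc6 : (C ((π : M) ^ 6) : M[X]) ≠ 0 := by
      rw [Ne, C_eq_zero]
      exact pow_ne_zero _ hπM
    apply mul_left_cancel₀ hc6
    have hE2 := congrArg (fun F : V[X] => (F.comp (C x1 + C (q * π) * X)).map (algebraMap V M)) hE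
    have al : ∀ z : V, algebraMap V M z = (z : M) := fun z => rfl
    simp only [add_comp, mul_comp, C_comp, pow_comp, Polynomial.map_add, Polynomial.map_mul,
      Polynomial.map_pow, hPm, hRm, map_C, map_pow, al] at hE2
    simp only [map_pow]
    linear_combination hE2

end Pool.Agent.G4
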