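import Pool.Agent.G4.COP
import Pool.Agent.G4.BFC
import Pool.Agent.G4.PR2
import Pool.Agent.ST.Gauss

/-!
# G4 / SLU

Sections over `V` with the same reduction are equal.  Suppose not.  `δ = P' - P`, `ε = R' - R`, not both zero, both `≡ 0`.  `pr2_pair`: `δ = η δ'`, `ε = η ε'`, `(δ', ε')`
primitive, so `η ∈ m` (otherwise the reductions of `δ, ε` are not both zero); `δ'` of degree 2, `ε'` of degree 3.  `R'² - R² = cub A P' - cub A P`:
`ε (2 R + ε) = δ (cud A P + δ (3 P + A 0) + δ²)`.  Cancel `η`: `ε' (2 R + η ε') = δ' (cud A P + η δ' (...) )`.  Modulo `m`: `(2 ε') R = δ' cud A P` over the residue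
field (algebraically closed, 2 invertible), `cop` for the reduction of `(P, R)` (`Sec.map`), `bfc`: `δ' = 0` and `2 ε' = 0`, contradiction.
-/

namespace Pool.Agent.G4

open MvPolynomial Matrix
open Pool.Agent.PQ (P3 lin sb SF NS Bit)

private theorem slu_hom {V : Type*} [CommRing V] [IsDomain V] {n : ℕ} {f g : P2 V} {η : V} (hη : η ≠ 0)
    (hf : f.IsHomogeneous n) (h : f = C η * g) : g.IsHomogeneous n := by
  intro d hd
  apply hf
  rw [h, coeff_C_mul]
  exact mul_ne_zero hη hd

theorem slu {M : Type*} [Field M] [IsAlgClosed M] (V : ValuationSubring M) (h2 : V.valuation (2 : M) = 1)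
    (A : Fin 3 → P2 V) (hA : TH A) (hNS : NS (tri fun i => map (IsLocalRing.residue V) (A i)))
    (P R P' R' : P2 V) (hs : Sec A P R) (hs' : Sec A P' R')
    (hP : map (IsLocalRing.residue V) P = map (IsLocalRing.residue V) P')
    (hR : map (IsLocalRing.residue V) R = map (IsLocalRing.residue V) R') : P = P' ∧ R = R' := by
  have hκ : IsAlgClosed (IsLocalRing.ResidueField V) := ST.isAlgClosed_residueField V
  have h2' : (2 : IsLocalRing.ResidueField V) ≠ 0 := by
    have h3 : IsUnit (2 : V) := by
      exact (ValuationSubring.valuation_eq_one_iff V (2 : V)).2 h2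
    have h4 := h3.map (IsLocalRing.residue V)
    rw [map_ofNat] at h4
    exact h4.ne_zero
  by_contra hcon
  have hne : P' - P ≠ 0 ∨ R' - R ≠ 0 := by
    by_contra h
    push Not at h
    exact hcon ⟨(sub_eq_zero.1 h.1).symm, (sub_eq_zero.1 h.2).symm⟩
  obtain ⟨η, δ, ε, hη, hδ, hε, hp⟩ := pr2_pair V (P' - P) (R' - R) hne
  have hη0 : IsLocalRing.residue V η = 0 := by
    by_contra h
    have hC : (C (IsLocalRing.residue V η) : P2 (IsLocalRing.ResidueField V)) ≠ 0 := by
      rwa [Ne, C_eq_zero]
    have e1 := congrArg (map (IsLocalRing.residue V)) hδ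
    have e2 := congrArg (map (IsLocalRing.residue V)) hε
    rw [map_sub, map_mul, map_C, hP, sub_self] at e1
    rw [map_sub, map_mul, map_C, hR, sub_self] at e2
    rcases hp with hp | hp
    · exact mul_ne_zero hC hp e1.symm
    · exact mul_ne_zero hC hp e2.symm
  have hδh : δ.IsHomogeneous 2 := slu_hom hη (hs'.hp.sub hs.hp) hδ
  have hεh : ε.IsHomogeneous 3 := slu_hom hη (hs'.hr.sub hs.hr) hε
  have hCη : (C η : P2 V) ≠ 0 := by rwa [Ne, C_eq_zero]
  have hPe : P' = P + C η * δ := by rw [← hδ]; ring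
  have hRe : R' = R + C η * ε := by rw [← hε]; ring
  have hmain : ε * (2 * R + C η * ε) = δ * (cud A P + C η * δ * (3 * P + A 0) + (C η * δ) ^ 2) := by
    have e1 := hs'.eq
    have e2 := hs.eq
    rw [hPe, hRe] at e1
    unfold cub at e1 e2
    apply mul_left_cancel₀ hCη
    unfold cud
    linear_combination e1 - e2
  have hm := congrArg (map (IsLocalRing.residue V)) hmain
  simp only [map_mul, map_add, map_pow, map_C, hη0, C_0, zero_mul, add_zero, map_ofNat, map_cud,
    ne_eq, OfNat.ofNat_ne_zero, not_false_eq_true, zero_pow] at hm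
  have hsm := hs.map (IsLocalRing.residue V)
  have hb := bfc (map (IsLocalRing.residue V) R) (cud (fun i => map (IsLocalRing.residue V) (A i))
    (map (IsLocalRing.residue V) P)) (2 * map (IsLocalRing.residue V) ε) (map (IsLocalRing.residue V) δ)
    hsm.hr (cud_hom (hA.map _) hsm.hp) (fun x hx hr => cop _ hNS _ _ hsm x hx hr) ?_ (hδh.map _) ?_
  · rcases hp with hp | hp
    · exact hp hb.1
    · have h2C : (2 : P2 (IsLocalRing.ResidueField V)) ≠ 0 := by
        rw [← map_ofNat (C : IsLocalRing.ResidueField V →+* P2 (IsLocalRing.ResidueField V)) 2, Ne, C_eq_zero]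
        exact h2'
      exact mul_ne_zero h2C hp hb.2
  · have : (2 : P2 (IsLocalRing.ResidueField V)) = C 2 := (map_ofNat C 2).symm
    rw [this]
    exact (hεh.map _).C_mul _
  · linear_combination hm

end Pool.Agent.G4
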