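import Pool.Agent.G4.BSC

/-!
# G4 / TRX

`trx`: with `π = bsb g p`, `α = bsb g (A 0)`, `β = bsb g (A 1)`: `p' = μ⁻² (π - q)`, so `3 p' + A' 0 = μ⁻² (3 π + α)`,
`A'0² - 2 A'0 p' - 3 p'² - 4 A'1 = μ⁻⁴ (α² - 2 α π - 3 π² - 4 β)` (`ring`), `cub A' p' = μ⁻⁶ bsb g (cub A p)`.  On the other side `sb (blk g μ) (em f) = em (bsb g f)` (`em_bsb`),
`sb (blk g μ) (X 2) = C μ * X 2`.
-/

namespace Pool.Agent.G4

open MvPolynomial Matrix
open Pool.Agent.PQ (P3 lin sb SF NS Bit)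

private theorem trx_hom {R : Type*} [CommRing R] (c : R) {f : P2 R} {n : ℕ} (h : f.IsHomogeneous n) :
    (C c * f).IsHomogeneous n := by
  have h1 := (isHomogeneous_C (Fin 2) c).mul h
  rwa [zero_add] at h1

theorem trx {k : Type*} [Field k] (g : Matrix (Fin 2) (Fin 2) k) (μ : k) (hμ : μ ≠ 0) (q : P2 k)
    (hq : q.IsHomogeneous 2) (A A' : Fin 3 → P2 k) (ht : Tr g (μ ^ 2) q A A') (p r : P2 k) (hs : Sec A p r) :
    Sec A' (C (μ⁻¹ ^ 2) * (bsb g p - q)) (C (μ⁻¹ ^ 3) * bsb g r) ∧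
      qy A' (C (μ⁻¹ ^ 2) * (bsb g p - q)) (C (μ⁻¹ ^ 3) * bsb g r) =
        C (μ⁻¹ ^ 4) * sb (blk g μ) (qy A p r) := by
  have hc : (C μ : P2 k) * C μ⁻¹ = 1 := by
    rw [← C_mul, mul_inv_cancel₀ hμ, C_1]
  have ha := ht.a
  have hb := ht.b
  have hcc := ht.c
  have he := congrArg (bsb g) hs.eq
  simp only [cub, map_pow, map_add, map_mul] at ha hb hcc he
  have ha' : A' 0 = C μ⁻¹ ^ 2 * (3 * q + bsb g (A 0)) := by
    rw [← ha, ← mul_assoc, ← mul_pow, mul_comm (C μ⁻¹), hc, one_pow, one_mul]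
  have hb' : A' 1 = C μ⁻¹ ^ 4 * (3 * q ^ 2 + 2 * bsb g (A 0) * q + bsb g (A 1)) := by
    rw [← hb, ← mul_assoc, ← pow_mul, ← mul_pow, mul_comm (C μ⁻¹), hc, one_pow, one_mul]
  have hc' : A' 2 = C μ⁻¹ ^ 6 * (q ^ 3 + bsb g (A 0) * q ^ 2 + bsb g (A 1) * q + bsb g (A 2)) := by
    rw [← hcc, ← mul_assoc, ← pow_mul, ← mul_pow, mul_comm (C μ⁻¹), hc, one_pow, one_mul]
  refine ⟨⟨trx_hom _ ((bsb_hom g hs.hp).sub hq), trx_hom _ (bsb_hom g hs.hr), ?_⟩, ?_⟩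
  · rw [cub, ha', hb', hc']
    simp only [map_pow]
    linear_combination (C μ⁻¹ ^ 6) * he
  · have h3 : sb (blk g μ) (X 2) = C μ * X 2 := by
      rw [Pool.Agent.PQ.sb_X]
      simp [lin, blk, Fin.sum_univ_three]
    have h4 := fun f : P2 k => em_bsb g μ f
    have hc3 : (C μ : P3 k) * C μ⁻¹ = 1 := by
      rw [← C_mul, mul_inv_cancel₀ hμ, C_1]
    rw [qy, ha', hb']
    simp only [qy, map_sub, map_mul, map_add, map_pow, map_ofNat, ← h4, h3, em_C]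
    generalize (C μ⁻¹ : P3 k) = t at *
    generalize (C μ : P3 k) = m at *
    linear_combination (-(X 2 ^ 4 * (1 + m * t + (m * t) ^ 2 + (m * t) ^ 3) -
      2 * (3 * em (bsb g p) + em (bsb g (A 0))) * t ^ 2 * X 2 ^ 2 * (1 + m * t) -
      8 * em (bsb g r) * t ^ 3 * X 2)) * hc3

end Pool.Agent.G4
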