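import Pool.Agent.G4.MDX
import Pool.Agent.G4.TRX
import Pool.Agent.G4.INT
import Pool.Agent.G4.SLU
import Pool.Agent.G4.NSY
import Pool.Agent.G4.OBI

/-!
# G4 / LOC

The local package at a good valuation ring `V`.  `mdx`: `g, l, q, A', B`.  Let `μ ∈ C`, `μ² = l`.  Map `Tr` to `C` (`Tr` is preserved by ring homomorphisms: `map_bsb`).  `trx` over `C` with `g, μ, q` mapped: the section
`(p', r')` of `A'` and `qy A' p' r' = C (μ⁻¹ ^ 4) * sb m (qy A p r)`, `m = blk g μ`.  `int`: `p' = map P`, `r' = map R`, `Sec B P R`.  `G := qy B P R` (`map_qy`, `qy_hom`).  Modulo `m`: `nsy`, `obi` over the residue field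
(algebraically closed, `2 ≠ 0`).
Inertia: `σ ∈ Inert V` maps `V` to `V` (see `PQ/INE.lean`); `σ P, σ R` (coefficientwise, as polynomials over `V`) form a section of `B` (the coefficients of `map B` are in `K`) with the same
reduction, so `σ P = P`, `σ R = R` (`slu`), hence `σ` fixes the coefficients of `map G`.
-/

namespace Pool.Agent.G4

open MvPolynomial Matrix NumberField IsDedekindDomain
open Pool.Agent.PQ (P3 lin sb SF NS Bit)

theorem loc {K C : Type*} [Field K] [NumberField K] [Field C] [Algebra K C] [Algebra.IsAlgebraic K C]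
    [IsAlgClosed C] (T : Finset (HeightOneSpectrum (𝓞 K))) (A : Fin 3 → P2 K) (hA : TH A) (hT : GoodWO T A)
    (p r : P2 C) (hs : Sec (fun i => map (algebraMap K C) (A i)) p r)
    (V : ValuationSubring C) (hV : ESH.GoodV T 2 V) :
    ∃ (m : Matrix (Fin 3) (Fin 3) C) (c μ : C) (G : P3 V), m.det ≠ 0 ∧ c ≠ 0 ∧ μ ≠ 0 ∧ G.IsHomogeneous 4 ∧
      NS (map (IsLocalRing.residue V) G) ∧
      map (algebraMap V C) G =
        MvPolynomial.C c * sb m (qy (fun i => map (algebraMap K C) (A i)) p r) ∧
      m *ᵥ Pi.single 2 1 = μ • Pi.single 2 1 ∧ eval (Pi.single 2 1) G = 1 ∧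
      (∀ (v : Fin 3 → IsLocalRing.ResidueField V) (Q : P3 (IsLocalRing.ResidueField V)), v ≠ 0 →
        Bit (map (IsLocalRing.residue V) G) v Q → v 2 ≠ 0) ∧
      ∀ σ : C ≃ₐ[K] C, ESH.Inert V σ →
        map (σ : C →+* C) (map (algebraMap V C) G) = map (algebraMap V C) G := by
  classical
  obtain ⟨g, l, q, A', B, hg, hl, hq, hTr, hB, hBA, hNS⟩ := mdx T A hT V hV
  have h2 : V.valuation (2 : C) = 1 := by
    have := hV.res_char 2 Nat.prime_two le_rfl
    rwa [Nat.cast_ofNat] at this
  have hκ : IsAlgClosed (IsLocalRing.ResidueField V) := ST.isAlgClosed_residueField V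
  have h2' : (2 : IsLocalRing.ResidueField V) ≠ 0 := by
    have h3 : IsUnit (2 : V) := by
      exact (ValuationSubring.valuation_eq_one_iff V (2 : V)).2 h2
    have h4 := h3.map (IsLocalRing.residue V)
    rw [map_ofNat] at h4
    exact h4.ne_zero
  obtain ⟨μ, hμ⟩ := IsAlgClosed.exists_pow_nat_eq (algebraMap K C l) (n := 2) (by norm_num)
  have hμ0 : μ ≠ 0 := by
    rintro rfl
    rw [zero_pow two_ne_zero] at hμ
    exact hl ((map_eq_zero _).1 hμ.symm)
  have hgC : (g.map (algebraMap K C)).det ≠ 0 := by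
    have h3 : (g.map (algebraMap K C)).det = algebraMap K C g.det := by
      rw [RingHom.map_det]; rfl
    rw [h3]
    exact (map_ne_zero _).2 hg
  have hTrC : Tr (g.map (algebraMap K C)) (μ ^ 2) (map (algebraMap K C) q)
      (fun i => map (algebraMap K C) (A i)) (fun i => map (algebraMap K C) (A' i)) := by
    rw [hμ]
    constructor
    · have h3 := congrArg (map (algebraMap K C)) hTr.a
      simpa only [map_add, map_mul, map_pow, map_ofNat, map_C, map_bsb] using h3
    · have h3 := congrArg (map (algebraMap K C)) hTr.b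
      simpa only [map_add, map_mul, map_pow, map_ofNat, map_C, map_bsb] using h3
    · have h3 := congrArg (map (algebraMap K C)) hTr.c
      simpa only [map_add, map_mul, map_pow, map_ofNat, map_C, map_bsb] using h3
  obtain ⟨hS', hqy⟩ := trx (g.map (algebraMap K C)) μ hμ0 _ (hq.map _) _ _ hTrC p r hs
  have hfun : (fun i => map (algebraMap K C) (A' i)) = fun i => map (algebraMap V C) (B i) :=
    funext fun i => (hBA i).symm
  rw [hfun] at hS' hqy
  obtain ⟨P, R, hPR, hP, hR⟩ := int V h2 B hB hNS _ _ hS'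
  rw [← hP, ← hR, ← map_qy] at hqy
  refine ⟨blk (g.map (algebraMap K C)) μ, μ⁻¹ ^ 4, μ, qy B P R, ?_, pow_ne_zero _ (inv_ne_zero hμ0),
    hμ0, qy_hom hB hPR.hp hPR.hr, ?_, hqy, ?_, qy_single B hB hPR.hp hPR.hr, ?_, ?_⟩
  · rw [det_blk]
    exact mul_ne_zero hgC hμ0
  · rw [map_qy]
    exact nsy h2' _ (hB.map _) hNS _ _ (hPR.map _)
  · ext i
    fin_cases i <;> simp [blk, Matrix.mulVec, dotProduct, Fin.sum_univ_three, Pi.single_apply]
  · intro v Q hv hb
    rw [map_qy] at hb
    exact obi h2' _ (hB.map _) hNS _ _ (hPR.map _) v hv Q hb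
  · intro σ hσ
    have hmem : ∀ z ∈ V, σ z ∈ V := by
      intro z hz
      have h1 := V.add_mem _ _ (V.nonunits_subset (hσ z hz)) hz
      rwa [sub_add_cancel] at h1
    let τ : V →+* V := ((σ : C →+* C).comp (algebraMap V C)).codRestrict V.toSubring
      fun x => hmem _ x.2
    have hτ : (algebraMap V C).comp τ = (σ : C →+* C).comp (algebraMap V C) := RingHom.ext fun x => rfl
    have hres : (IsLocalRing.residue V).comp τ = IsLocalRing.residue V := by
      ext x
      have h1 := hσ (x : C) x.2
      obtain ⟨h2, h3⟩ := (ValuationSubring.mem_nonunits_iff_exists_mem_maximalIdeal).1 h1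
      have h4 : τ x - x ∈ IsLocalRing.maximalIdeal V := h3
      rw [RingHom.comp_apply, ← sub_eq_zero, ← map_sub]
      exact (IsLocalRing.residue_eq_zero_iff _).2 h4
    have hinj : Function.Injective (algebraMap V C) := FaithfulSMul.algebraMap_injective V C
    have hBτ : ∀ i, map τ (B i) = B i := by
      intro i
      apply MvPolynomial.map_injective _ hinj
      have hσK : (σ : C →+* C).comp (algebraMap K C) = algebraMap K C :=
        RingHom.ext fun x => σ.commutes x
      rw [MvPolynomial.map_map, hτ, ← MvPolynomial.map_map, hBA, MvPolynomial.map_map, hσK]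
    have hs' : Sec B (map τ P) (map τ R) := by
      have h3 := hPR.map τ
      rwa [show (fun i => map τ (B i)) = B from funext hBτ] at h3
    obtain ⟨hPP, hRR⟩ := slu V h2 B hB hNS P R (map τ P) (map τ R) hPR hs'
      (by rw [MvPolynomial.map_map, hres]) (by rw [MvPolynomial.map_map, hres])
    have hG : map τ (qy B P R) = qy B P R := by
      rw [map_qy, ← hPP, ← hRR]
      congr 1
      exact funext hBτ
    calc map (σ : C →+* C) (map (algebraMap V C) (qy B P R))
        = map ((σ : C →+* C).comp (algebraMap V C)) (qy B P R) := by rw [MvPolynomial.map_map]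
      _ = map ((algebraMap V C).comp τ) (qy B P R) := by rw [hτ]
      _ = map (algebraMap V C) (qy B P R) := by rw [← MvPolynomial.map_map, hG]

end Pool.Agent.G4
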