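import Pool.Agent.G4.WTR
import Pool.Agent.PQ.LNF
import Pool.Agent.ESH.CVU
import Pool.Agent.ST.Gauss

/-!
# G4 / MDX

Good models over the valuation rings of `C`; compare `PQ/MDV.lean` (copy).  `ESH.cvu_under`: `V` lies over a place `v` of `K`, `v ∉ T`, `2 ∉ v`.  `GoodW A v` gives `g, l, q, A0` over `(v.valuation K).valuationSubring`;
this ring maps to `V` by `φ`; `B i := map φ (A0 i)`, `A' i := map (algebraMap _ K) (A0 i)`.  `wsb_tr` (`map_tri`).  `SF.map`, `SF.ns`.
-/

namespace Pool.Agent.G4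

open MvPolynomial Matrix NumberField IsDedekindDomain
open Pool.Agent.PQ (P3 lin sb SF NS Bit)

theorem mdx {K C : Type*} [Field K] [NumberField K] [Field C] [Algebra K C] [Algebra.IsAlgebraic K C]
    [IsAlgClosed C] (T : Finset (HeightOneSpectrum (𝓞 K))) (A : Fin 3 → P2 K) (hT : GoodWO T A)
    (V : ValuationSubring C) (hV : ESH.GoodV T 2 V) :
    ∃ (g : Matrix (Fin 2) (Fin 2) K) (l : K) (q : P2 K) (A' : Fin 3 → P2 K) (B : Fin 3 → P2 V),
      g.det ≠ 0 ∧ l ≠ 0 ∧ q.IsHomogeneous 2 ∧ Tr g l q A A' ∧ TH B ∧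
      (∀ i, map (algebraMap V C) (B i) = map (algebraMap K C) (A' i)) ∧
      NS (tri fun i => map (IsLocalRing.residue V) (B i)) := by
  obtain ⟨v, hv⟩ := ESH.cvu_under (K := K) V hV.ne_top
  have hvT : v ∉ T := fun h => hV.not_over v h hv
  have hv2 : (2 : 𝓞 K) ∉ v.asIdeal := by
    intro h
    rw [ESH.cvu_prime V v hv 2] at h
    have h1 : V.valuation (algebraMap K C ((2 : 𝓞 K) : K)) < 1 :=
      (ValuationSubring.mem_nonunits_iff V).mp h
    have h2 := hV.res_char 2 Nat.prime_two le_rfl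
    have h3 : algebraMap K C ((2 : 𝓞 K) : K) = ((2 : ℕ) : C) := by
      have h4 : ((2 : 𝓞 K) : K) = ((2 : ℕ) : K) := by
        rw [Nat.cast_ofNat]
        exact map_ofNat (algebraMap (𝓞 K) K) 2
      rw [h4, map_natCast]
    rw [h3, h2] at h1
    exact lt_irrefl _ h1
  obtain ⟨g, l, q, A0, hg, hl, hq, hA, hS, hE⟩ := hT v hvT hv2
  let φ : (v.valuation K).valuationSubring →+* V :=
    ((algebraMap K C).comp (v.valuation K).valuationSubring.subtype).codRestrict V.toSubring
      fun x => (hv x).mpr x.2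
  have hφ : (algebraMap V C).comp φ =
      (algebraMap K C).comp (algebraMap (v.valuation K).valuationSubring K) := RingHom.ext fun x => rfl
  refine ⟨g, l, q, fun i => map (algebraMap (v.valuation K).valuationSubring K) (A0 i),
    fun i => map φ (A0 i), hg, hl, hq, ?_, ?_, ?_, ?_⟩
  · refine wsb_tr g l q A _ ?_ hl
    rw [← hE, map_tri]
  · intro i
    exact (hA i).map φ
  · intro i
    rw [MvPolynomial.map_map, hφ, ← MvPolynomial.map_map]
  · have h1 := ((hS.map φ).map (IsLocalRing.residue V)).ns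
    rw [map_tri, map_tri] at h1
    exact h1

end Pool.Agent.G4
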