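import Pool.Agent.G4.BAS
import Pool.Agent.ESH.DefsG
import Pool.Agent.Helper11.FunFieldBasic

/-!
# G4 / MOT

`mob_tr`: if `x` were algebraic over `C`, it would be in `C` (`Helper11.mem_range_of_isAlgebraic`), and `z`, a root of the monic cubic `tri A (x, 1, Z)` over `C`, too; so `Φ = C` (`hgen`), contradiction to
`Helper11.FunField` (see `gnr_not` in `PQ/GNR.lean`).  `mob_deg`: `Φ = C(x)(z)`, `z` is a root of a monic cubic over `C(x)`: `finrank ≤ 3` (see the end of `PQ/GNR.lean`).
-/

namespace Pool.Agent.G4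

open MvPolynomial Matrix
open Pool.Agent.PQ (P3 lin sb SF NS Bit)

private theorem mot_ev {C Φ : Type*} [Field C] [Field Φ] [Algebra C Φ] (A : Fin 3 → P2 C)
    (x y z : Φ) : eval₂ (algebraMap C Φ) ![x, y, z] (tri A) =
      z ^ 3 + eval₂ (algebraMap C Φ) ![x, y] (A 0) * z ^ 2 +
        eval₂ (algebraMap C Φ) ![x, y] (A 1) * z + eval₂ (algebraMap C Φ) ![x, y] (A 2) := by
  have e : (![x, y, z] : Fin 3 → Φ) ∘ Fin.castSucc = ![x, y] := by
    funext i
    fin_cases i <;> rfl
  have h : ∀ f : P2 C, eval₂ (algebraMap C Φ) ![x, y, z] (em f) =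
      eval₂ (algebraMap C Φ) ![x, y] f := by
    intro f
    unfold em
    rw [eval₂_rename, e]
  simp only [tri, eval₂_add, eval₂_mul, eval₂_pow, eval₂_X, h]
  simp

private theorem mot_not {C Φ : Type*} [Field C] [Field Φ] [Algebra C Φ] [Helper11.FunField C Φ]
    (S : Set Φ) (hS : IntermediateField.adjoin C S = ⊤) (h : ∀ z ∈ S, ∃ c : C, algebraMap C Φ c = z) :
    False := by
  obtain ⟨t, ht⟩ := Helper11.FunField.exists_transcendental (k := C) (L := Φ)
  have hle : IntermediateField.adjoin C S ≤ ⊥ := by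
    refine IntermediateField.adjoin_le_iff.2 fun z hz => ?_
    obtain ⟨c, rfl⟩ := h z hz
    exact IntermediateField.algebraMap_mem ⊥ c
  have ht2 : t ∈ (⊥ : IntermediateField C Φ) := hle (by rw [hS]; exact IntermediateField.mem_top)
  obtain ⟨c, hc⟩ := IntermediateField.mem_bot.1 ht2
  apply ht
  rw [← hc]
  exact isAlgebraic_algebraMap c

/-- a root of a monic cubic over a field -/
private theorem mot_cub {E Φ : Type*} [Field E] [Field Φ] [Algebra E Φ] (a b c : E) (z : Φ)
    (h : z ^ 3 + algebraMap E Φ a * z ^ 2 + algebraMap E Φ b * z + algebraMap E Φ c = 0) :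
    IsIntegral E z ∧ (minpoly E z).natDegree ≤ 3 := by
  set P : Polynomial E := Polynomial.X ^ 3 + (Polynomial.C a * Polynomial.X ^ 2 +
    Polynomial.C b * Polynomial.X + Polynomial.C c) with hP
  have hd : (Polynomial.C a * Polynomial.X ^ 2 +
    Polynomial.C b * Polynomial.X + Polynomial.C c).degree < 3 :=
    lt_of_le_of_lt Polynomial.degree_quadratic_le (by norm_num)
  have hm : P.Monic := Polynomial.monic_X_pow_add hd
  have hn : P.natDegree ≤ 3 := by
    rw [hP]
    compute_degree
  have h0 : Polynomial.aeval z P = 0 := by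
    rw [← h, hP]
    simp only [map_add, map_mul, map_pow, Polynomial.aeval_X, Polynomial.aeval_C]
    ring
  refine ⟨⟨P, hm, by rwa [← Polynomial.aeval_def]⟩, ?_⟩
  exact (Polynomial.natDegree_le_natDegree
    (minpoly.degree_le_of_ne_zero E z hm.ne_zero h0)).trans hn

theorem mob_tr {C Φ : Type*} [Field C] [Field Φ] [Algebra C Φ] [Helper11.FunField C Φ] [IsAlgClosed C]
    (A : Fin 3 → P2 C) (x z : Φ) (h0 : eval₂ (algebraMap C Φ) ![x, 1, z] (tri A) = 0)
    (hgen : IntermediateField.adjoin C {x, z} = ⊤) : Transcendental C x := by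
  intro halg
  obtain ⟨a, ha⟩ := Helper11.mem_range_of_isAlgebraic halg
  rw [mot_ev] at h0
  have e : ∀ f : P2 C, eval₂ (algebraMap C Φ) ![x, 1] f = algebraMap C Φ (eval ![a, 1] f) := by
    intro f
    have e1 : (![x, 1] : Fin 2 → Φ) = algebraMap C Φ ∘ ![a, 1] := by
      funext i
      fin_cases i
      · exact ha.symm
      · simp
    rw [e1, ← eval₂_comp]
  rw [e, e, e] at h0
  obtain ⟨h1, -⟩ := mot_cub _ _ _ z h0
  obtain ⟨b, hb⟩ := Helper11.mem_range_of_isAlgebraic h1.isAlgebraic
  refine mot_not _ hgen ?_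
  rintro w (rfl | hw)
  · exact ⟨a, ha⟩
  · rw [Set.mem_singleton_iff.1 hw]
    exact ⟨b, hb⟩

theorem mob_deg {C Φ : Type*} [Field C] [Field Φ] [Algebra C Φ] [Helper11.FunField C Φ] [IsAlgClosed C]
    (A : Fin 3 → P2 C) (x z : Φ) (h0 : eval₂ (algebraMap C Φ) ![x, 1, z] (tri A) = 0)
    (hgen : IntermediateField.adjoin C {x, z} = ⊤) :
    Module.finrank (IntermediateField.adjoin C {x}) Φ ≤ 3 := by
  set E := IntermediateField.adjoin C {x} with hE
  set g : E := ⟨x, IntermediateField.subset_adjoin C _ rfl⟩ with hg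
  rw [mot_ev] at h0
  have e : ∀ f : P2 C, eval₂ (algebraMap C Φ) ![x, 1] f =
      algebraMap E Φ (eval₂ (algebraMap C E) ![g, 1] f) := by
    intro f
    have e1 : (![x, 1] : Fin 2 → Φ) = algebraMap E Φ ∘ ![g, 1] := by
      funext i
      fin_cases i
      · rfl
      · simp
    rw [e1, IsScalarTower.algebraMap_eq C E Φ]
    exact (eval₂_comp_left (algebraMap E Φ) (algebraMap C E) ![g, 1] f).symm
  rw [e, e, e] at h0
  obtain ⟨hint, h1⟩ := mot_cub _ _ _ z h0
  have htop : IntermediateField.adjoin E {z} = ⊤ := by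
    have e1 := IntermediateField.adjoin_simple_adjoin_simple C x z
    rw [hgen] at e1
    rw [eq_top_iff]
    intro w _
    have e2 : w ∈ (IntermediateField.adjoin (IntermediateField.adjoin C {x}) {z}).restrictScalars C := by
      rw [e1]
      exact IntermediateField.mem_top
    exact e2
  have e1 := IntermediateField.adjoin.finrank hint
  rw [htop, IntermediateField.finrank_top'] at e1
  rw [e1]
  exact h1

end Pool.Agent.G4
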