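import Pool.Agent.G4.COP
import Pool.Agent.G4.DD3

/-!
# G4 / PTA

Two sections `(p, r)`, `(q, s)` with `q ≠ p`.  `quad_split`: `q - p = l1 l2`, non-zero linear forms, prime (`bl_prime`).  `(s - r)(s + r) = s² - r² = cub A q - cub A p = (q - p) h`, `h = q² + q p + p² + a (q + p) + b`.
If `l1 l2 ∣ s + r`: `Opz p r q s` (the quotient is a linear form: `hom_cof`).  If `l1 l2 ∣ s - r`: `Opz p r q (-s)`: `-s + r = -(s - r)`.  Otherwise: each `l_i` divides `s - r` or `s + r`.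
Claim: after exchanging `l1, l2`: `l1 ∣ s - r`, `l2 ∣ s + r`.  If the `l_i` are not associated and both divide `s + r` then `l1 l2 ∣ s + r` (coprime primes), excluded; same for `s - r`.  If
`l2 = κ l1`: `l1² ∣ (s - r)(s + r)`; if `l1` divides both, fine; otherwise `l1²` divides one of them, excluded.
So `s + r = l' m`, `s - r = l n`, `q - p = l l'` with `l, l'` linear, `m, n` of degree 2 (`hom_cof`), `l ∤ m` (otherwise `l l' ∣ s + r`), `l' ∤ n`, and `h = m n` (cancel `q - p ≠ 0`).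
-/

namespace Pool.Agent.G4

open MvPolynomial Matrix
open Pool.Agent.PQ (P3 lin sb SF NS Bit)

theorem pta {k : Type*} [Field k] [IsAlgClosed k] (A : Fin 3 → P2 k) (hA : TH A)
    (p r q s : P2 k) (hs : Sec A p r) (hs' : Sec A q s) (hne : q ≠ p) (h1 : ¬ Opz p r q s)
    (h2 : ¬ Opz p r q (-s)) : ∃ (l l' : Fin 2 → k) (m n : P2 k), m.IsHomogeneous 2 ∧ n.IsHomogeneous 2 ∧
      q - p = bl l * bl l' ∧ s + r = bl l' * m ∧ s - r = bl l * n ∧ ¬ bl l ∣ m ∧ ¬ bl l' ∣ n := by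
  have hf : (q - p).IsHomogeneous 2 := hs'.hp.sub hs.hp
  have hf0 : q - p ≠ 0 := sub_ne_zero.mpr hne
  have hS : (s + r).IsHomogeneous 3 := hs'.hr.add hs.hr
  have hD : (s - r).IsHomogeneous 3 := hs'.hr.sub hs.hr
  obtain ⟨v, w, hvw⟩ := quad_split hf
  have hv0 : v ≠ 0 := by
    rintro rfl
    apply hf0
    rw [hvw]
    simp [bl]
  have hw0 : w ≠ 0 := by
    rintro rfl
    apply hf0
    rw [hvw]
    simp [bl]
  have key : (s - r) * (s + r) = (q - p) * (q ^ 2 + q * p + p ^ 2 + A 0 * (q + p) + A 1) := by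
    have e1 := hs.eq
    have e2 := hs'.eq
    unfold cub at e1 e2
    linear_combination e2 - e1
  have n1 : ¬ (q - p ∣ s + r) := by
    intro hd
    obtain ⟨u, hu, hu'⟩ := hom_cof hf hf0 hS (by norm_num) hd
    exact h1 ⟨hne, u, by simpa using hu, by rw [hu']; ring⟩
  have n2 : ¬ (q - p ∣ s - r) := by
    intro hd
    obtain ⟨u, hu, hu'⟩ := hom_cof hf hf0 hD (by norm_num) hd
    exact h2 ⟨hne, -u, by simpa using hu.neg, by linear_combination -hu'⟩
  have main : ∀ l l' : Fin 2 → k, l ≠ 0 → l' ≠ 0 → q - p = bl l * bl l' → bl l ∣ s - r →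
      bl l' ∣ s + r → ∃ (l l' : Fin 2 → k) (m n : P2 k), m.IsHomogeneous 2 ∧ n.IsHomogeneous 2 ∧
      q - p = bl l * bl l' ∧ s + r = bl l' * m ∧ s - r = bl l * n ∧ ¬ bl l ∣ m ∧ ¬ bl l' ∣ n := by
    intro l l' hl hl' hq hd1 hd2
    have hb : bl l ≠ 0 := (bl_prime hl).ne_zero
    have hb' : bl l' ≠ 0 := (bl_prime hl').ne_zero
    obtain ⟨n, hn, hn'⟩ := hom_cof (bl_hom l) hb hD (by norm_num) hd1
    obtain ⟨m, hm, hm'⟩ := hom_cof (bl_hom l') hb' hS (by norm_num) hd2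
    refine ⟨l, l', m, n, by simpa using hm, by simpa using hn, hq, hm', hn', ?_, ?_⟩
    · rintro ⟨c, hc⟩
      exact n1 ⟨c, by rw [hm', hq, hc]; ring⟩
    · rintro ⟨c, hc⟩
      exact n2 ⟨c, by rw [hn', hq, hc]; ring⟩
  have pv := bl_prime hv0
  have pw := bl_prime hw0
  have hd : bl v ∣ (s - r) * (s + r) := ⟨bl w * (q ^ 2 + q * p + p ^ 2 + A 0 * (q + p) + A 1), by
    rw [key, hvw]; ring⟩
  rcases pv.dvd_or_dvd hd with h | h
  · obtain ⟨c, hc⟩ := h
    have h3 : bl w ∣ c * (s + r) := ⟨q ^ 2 + q * p + p ^ 2 + A 0 * (q + p) + A 1, by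
      apply mul_left_cancel₀ pv.ne_zero
      rw [← mul_assoc, ← hc, key, hvw]; ring⟩
    rcases pw.dvd_or_dvd h3 with h4 | h4
    · obtain ⟨c', hc'⟩ := h4
      exact absurd ⟨c', by rw [hc, hc', hvw]; ring⟩ n2
    · exact main v w hv0 hw0 hvw ⟨c, hc⟩ h4
  · obtain ⟨c, hc⟩ := h
    have h3 : bl w ∣ (s - r) * c := ⟨q ^ 2 + q * p + p ^ 2 + A 0 * (q + p) + A 1, by
      apply mul_left_cancel₀ pv.ne_zero
      calc bl v * ((s - r) * c) = (s - r) * (bl v * c) := by ring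
        _ = _ := by rw [← hc, key, hvw]; ring⟩
    rcases pw.dvd_or_dvd h3 with h4 | h4
    · exact main w v hw0 hv0 (by rw [hvw]; ring) h4 ⟨c, hc⟩
    · obtain ⟨c', hc'⟩ := h4
      exact absurd ⟨c', by rw [hc, hc', hvw]; ring⟩ n1

end Pool.Agent.G4
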