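import Pool.Agent.G4.BSC

/-!
# G4 / PTB

`B = 2 q + p + a - u²`, `D = l u - m`, `D' = l' u + n`.  `ptb_eq`: multiply by `q - p ≠ 0`: `4 q(u, z) = (2 z + p + a - u²)² - G`, `w² - F(z) = -(z - p) q(u, z)`, `w = u (z - p) - r`; at `z = q`:
`(q - p) q(u, q) = s² - (u (q - p) - r)² = (s + r - u (q - p)) (s - r + u (q - p)) = l' (m - l u) l (n + l' u)`, so `q(u, q) = -D D'`, `G = B² - 4 q(u, q) = B² + 4 D D'`.
(As polynomials: cancel `em (q - p) ≠ 0`; `ring` after substituting `m, n` times the linear forms.)
-/

namespace Pool.Agent.G4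

open MvPolynomial Matrix
open Pool.Agent.PQ (P3 lin sb SF NS Bit)

theorem ptb_eq {k : Type*} [Field k] (A : Fin 3 → P2 k) (p r q s : P2 k) (hs : Sec A p r)
    (hs' : Sec A q s) (hne : q ≠ p) (l l' : Fin 2 → k) (m n : P2 k) (h1 : q - p = bl l * bl l')
    (h2 : s + r = bl l' * m) (h3 : s - r = bl l * n) :
    qy A p r = (em (2 * q + p + A 0) - X 2 ^ 2) ^ 2 +
      4 * (em (bl l) * X 2 - em m) * (em (bl l') * X 2 + em n) := by
  have e1 := congrArg em h1
  have e2 := congrArg em h2
  have e3 := congrArg em h3
  have e4 := congrArg em hs.eq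
  have e5 := congrArg em hs'.eq
  have hne' : em q - em p ≠ 0 := by
    rw [← map_sub]
    intro h0
    exact sub_ne_zero.2 hne (em_inj (by rw [h0, map_zero]))
  simp only [cub, map_sub, map_mul, map_add, map_pow] at e1 e2 e3 e4 e5
  apply mul_left_cancel₀ hne'
  simp only [qy, map_sub, map_mul, map_add, map_pow, map_ofNat]
  generalize em q = q at *
  generalize em p = p at *
  generalize em s = s at *
  generalize em r = r at *
  generalize em (bl l) = a at *
  generalize em (bl l') = b at *
  generalize em m = m at *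
  generalize em n = n at *
  generalize em (A 0) = A0 at *
  generalize em (A 1) = A1 at *
  generalize em (A 2) = A2 at *
  generalize (X 2 : P3 k) = u at *
  have key : (q - p) * ((a * u - m) * (b * u + n)) = (u * (q - p) - (s + r)) * (u * (q - p) + (s - r)) := by
    linear_combination ((a * u - m) * (b * u + n) - u * (u * a * b + a * n) -
      u * (u * (q - p) - (s + r))) * e1 + (u * a * b + a * n) * e2 - (u * (q - p) - (s + r)) * e3
  linear_combination (-4) * key + 4 * e5 - 4 * e4

end Pool.Agent.G4
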