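import Pool.Agent.G4.DD3
import Pool.Agent.PQ.QFP

/-!
# G4 / PTC

The pencil `C_t = D' - t B - t² D` of quadratic forms: `dq (C_t)` is a polynomial of degree 6 in `t` with leading coefficient `-dq D` (`dq` is a cubic form on quadratic forms: `dq (-D) = -dq D`) and constant term
`dq D' ≠ 0`, so it has a root `t ≠ 0` (`k` algebraically closed).  `dq` is a polynomial expression in the coefficients of the form (`PQ.cf`): let `P ∈ k[T]` be
the expression for `C (cf D') - T cf B - T² cf D`, then `P.eval t = dq (C_t)`, `P.coeff 6 = -dq D`, `P.coeff 0 = dq D'`.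
`PQ.qfp`: `C_t = lin v1 * lin v2`.
-/

namespace Pool.Agent.G4

open MvPolynomial Matrix
open Pool.Agent.PQ (P3 lin sb SF NS Bit dq cf)

private theorem PTC_cf {k : Type*} [Field k] (B D D' : P3 k) (t : k) (i j : Fin 3) :
    cf (D' - C t * B - C (t ^ 2) * D) i j = cf D' i j - t * cf B i j - t ^ 2 * cf D i j := by
  simp only [cf, coeff_sub, coeff_C_mul]

/-- the coefficient of the pencil as a polynomial in `t` -/
private noncomputable def PTC_q {k : Type*} [Field k] (B D D' : P3 k) (i j : Fin 3) : Polynomial k :=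
  Polynomial.C (cf D' i j) - Polynomial.X * Polynomial.C (cf B i j) -
    Polynomial.X ^ 2 * Polynomial.C (cf D i j)

private theorem PTC_deg {k : Type*} [Field k] (a b c : k) :
    (Polynomial.C a - Polynomial.X * Polynomial.C b - Polynomial.X ^ 2 * Polynomial.C c).natDegree ≤ 2 := by
  compute_degree

private theorem PTC_top {k : Type*} [Field k] (a b c : k) :
    (Polynomial.C a - Polynomial.X * Polynomial.C b - Polynomial.X ^ 2 * Polynomial.C c).coeff 2 = -c := by
  simp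

private theorem PTC_mul3 {k : Type*} [Field k] {p q r : Polynomial k} (hp : p.natDegree ≤ 2)
    (hq : q.natDegree ≤ 2) (hr : r.natDegree ≤ 2) :
    (p * q * r).coeff 6 = p.coeff 2 * q.coeff 2 * r.coeff 2 := by
  have h1 : (p * q).natDegree ≤ 4 := (Polynomial.natDegree_mul_le_of_le hp hq)
  rw [show (6 : ℕ) = 4 + 2 from rfl, Polynomial.coeff_mul_add_eq_of_natDegree_le h1 hr,
    show (4 : ℕ) = 2 + 2 from rfl, Polynomial.coeff_mul_add_eq_of_natDegree_le hp hq]

theorem ptc {k : Type*} [Field k] [IsAlgClosed k] (h2 : (2 : k) ≠ 0) (B D D' : P3 k) (hB : B.IsHomogeneous 2)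
    (hD : D.IsHomogeneous 2) (hD' : D'.IsHomogeneous 2) (h1 : dq D ≠ 0) (h3 : dq D' ≠ 0) :
    ∃ t : k, t ≠ 0 ∧ ∃ v w : Fin 3 → k, D' - C t * B - C (t ^ 2) * D = lin v * lin w := by
  have hdeg : ∀ i j, (PTC_q B D D' i j).natDegree ≤ 2 := fun i j => PTC_deg _ _ _
  have htop : ∀ i j, (PTC_q B D D' i j).coeff 2 = -cf D i j := fun i j => PTC_top _ _ _
  obtain ⟨P, hP⟩ : ∃ P : Polynomial k, P = Polynomial.C 4 * (PTC_q B D D' 0 0 * PTC_q B D D' 1 1 * PTC_q B D D' 2 2) +
      PTC_q B D D' 0 1 * PTC_q B D D' 0 2 * PTC_q B D D' 1 2 -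
      PTC_q B D D' 0 0 * PTC_q B D D' 1 2 * PTC_q B D D' 1 2 -
      PTC_q B D D' 1 1 * PTC_q B D D' 0 2 * PTC_q B D D' 0 2 -
      PTC_q B D D' 2 2 * PTC_q B D D' 0 1 * PTC_q B D D' 0 1 := ⟨_, rfl⟩
  have hev : ∀ t : k, P.eval t = dq (D' - C t * B - C (t ^ 2) * D) := by
    intro t
    rw [hP, dq]
    simp only [PTC_cf, PTC_q, Polynomial.eval_add, Polynomial.eval_sub, Polynomial.eval_mul,
      Polynomial.eval_C, Polynomial.eval_X, Polynomial.eval_pow]
    ring
  have h6 : P.coeff 6 = -dq D := by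
    rw [hP, dq]
    simp only [Polynomial.coeff_add, Polynomial.coeff_sub, Polynomial.coeff_C_mul]
    rw [PTC_mul3 (hdeg 0 0) (hdeg 1 1) (hdeg 2 2), PTC_mul3 (hdeg 0 1) (hdeg 0 2) (hdeg 1 2),
      PTC_mul3 (hdeg 0 0) (hdeg 1 2) (hdeg 1 2), PTC_mul3 (hdeg 1 1) (hdeg 0 2) (hdeg 0 2),
      PTC_mul3 (hdeg 2 2) (hdeg 0 1) (hdeg 0 1)]
    simp only [htop]
    ring
  have hd : P.degree ≠ 0 := by
    intro h
    have h' : P.natDegree < 6 := by
      rw [Polynomial.natDegree_eq_of_degree_eq_some h]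
      norm_num
    rw [Polynomial.coeff_eq_zero_of_natDegree_lt h'] at h6
    exact h1 (by simpa using h6.symm)
  obtain ⟨t, ht⟩ := IsAlgClosed.exists_root P hd
  have ht' : dq (D' - C t * B - C (t ^ 2) * D) = 0 := by rw [← hev]; exact ht
  refine ⟨t, ?_, ?_⟩
  · rintro rfl
    apply h3
    simpa using ht'
  · have e1 : (C t * B).IsHomogeneous 2 := by
      have := (isHomogeneous_C (Fin 3) t).mul hB
      rwa [zero_add] at this
    have e2 : (C (t ^ 2) * D).IsHomogeneous 2 := by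
      have := (isHomogeneous_C (Fin 3) (t ^ 2)).mul hD
      rwa [zero_add] at this
    have e3 : (D' - C t * B - C (t ^ 2) * D).IsHomogeneous 2 := (hD'.sub e1).sub e2
    exact Pool.Agent.PQ.qfp h2 _ e3 ht'

end Pool.Agent.G4
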