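import Pool.Agent.G4.DD3
import Pool.Agent.PQ.QFP

/-!
# G4 / PTD

`ptb_dq`: the determinant `PQ.dq` of the quadratic form `l u - m` is up to a constant the value of `m` at the zero of `l`: `cf` of `em (bl l) * X 2 - em m`; look at the definition of `PQ.dq`,
`PQ.cf` (`PQ/QFP.lean`): for `m = m0 s² + m1 s t + m2 t²`, `dq = ± (m0 l1² - m1 l0 l1 + m2 l0²)` times a constant `≠ 0`, and `bl l ∣ m` iff `m(l1, -l0) = 0`
(`hom_dvd`; here one direction: if this value is 0 then `bl l ∣ m`; `l ≠ 0`).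
-/

namespace Pool.Agent.G4

open MvPolynomial Matrix
open Pool.Agent.PQ (P3 lin sb SF NS Bit dq)

private theorem PTD_coeff {R : Type*} [CommRing R] (c : Fin 3 → Fin 3 → R) (i j : Fin 3) :
    PQ.cf (∑ a, ∑ b, C (c a b) * (X a * X b)) i j = if i = j then c i i else c i j + c j i := by
  have h : ∀ a b : Fin 3, coeff (Finsupp.single i 1 + Finsupp.single j 1) (C (c a b) * (X a * X b) : P3 R) =
      if (a = i ∧ b = j) ∨ (a = j ∧ b = i) then c a b else 0 := by
    intro a b
    have h1 : (X a * X b : P3 R) = monomial (Finsupp.single a 1 + Finsupp.single b 1) 1 := by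
      rw [X, X, monomial_mul, one_mul]
    have h0 := Finsupp.single_add_single_eq_single_add_single (k := a) (l := b) (m := i) (n := j)
      (one_ne_zero : (1 : ℕ) ≠ 0) (one_ne_zero : (1 : ℕ) ≠ 0)
    rw [h1, coeff_C_mul, coeff_monomial]
    by_cases h2 : (a = i ∧ b = j) ∨ (a = j ∧ b = i)
    · rw [if_pos h2, if_pos, mul_one]
      rw [h0]
      rcases h2 with h2 | h2
      · exact Or.inl h2
      · exact Or.inr (Or.inl ⟨rfl, h2⟩)
    · rw [if_neg h2, if_neg, mul_zero]
      rw [h0]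
      rintro (h3 | h3 | h3)
      · exact h2 (Or.inl h3)
      · exact h2 (Or.inr h3.2)
      · exact absurd h3.1 (by norm_num)
  rw [PQ.cf, coeff_sum]
  simp only [coeff_sum, h]
  fin_cases i <;> fin_cases j <;> simp [Fin.sum_univ_three] <;> ring

theorem ptb_dq {k : Type*} [Field k] [IsAlgClosed k] (h2 : (2 : k) ≠ 0) (l : Fin 2 → k) (hl : l ≠ 0) (m : P2 k)
    (hm : m.IsHomogeneous 2) (hd : ¬ bl l ∣ m) (c : k) (hc : c ≠ 0) : dq (em (bl l) * X 2 + C c * em m) ≠ 0 := by
  obtain ⟨v, hv⟩ := gf_all hm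
  have hem : em m = C (v 0) * X 1 ^ 2 + C (v 1) * (X 0 * X 1) + C (v 2) * X 0 ^ 2 := by
    rw [hv]
    simp [gf, Fin.sum_univ_three, map_add, map_mul, map_pow, em_X0, em_X1, em_C]
  have hbl : em (bl l) = C (l 0) * X 0 + C (l 1) * X 1 := by
    simp only [bl, map_add, map_mul, em_X0, em_X1, em_C]
  obtain ⟨cc, hcc⟩ : ∃ cc : Fin 3 → Fin 3 → k,
      cc = ![![c * v 2, c * v 1, l 0], ![0, c * v 0, l 1], ![0, 0, 0]] := ⟨_, rfl⟩
  have hQ : em (bl l) * X 2 + C c * em m = ∑ a, ∑ b, C (cc a b) * (X a * X b) := by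
    rw [hem, hbl, hcc]
    simp [Fin.sum_univ_three]
    ring
  have hev : ∀ x : Fin 2 → k, eval x m = v 0 * x 1 ^ 2 + v 1 * (x 0 * x 1) + v 2 * x 0 ^ 2 := by
    intro x
    rw [hv]
    simp [gf, Fin.sum_univ_three]
  intro h0
  apply hd
  rw [hQ, dq] at h0
  simp only [PTD_coeff] at h0
  rw [hcc] at h0
  simp at h0
  have h3 : c * (v 0 * l 0 ^ 2 - v 1 * (l 1 * l 0) + v 2 * l 1 ^ 2) = 0 := by
    linear_combination -h0
  have h4 := (mul_eq_zero.1 h3).resolve_left hc
  have h5 := hom_dvd hm ![-l 1, l 0] (by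
    intro h
    apply hl
    ext i
    fin_cases i
    · have := congrFun h 1
      simpa using this
    · have := congrFun h 0
      simpa using this) (by
    rw [hev]
    simp
    linear_combination h4)
  have h6 : (![(![-l 1, l 0] : Fin 2 → k) 1, -(![-l 1, l 0] : Fin 2 → k) 0] : Fin 2 → k) = l := by
    ext i
    fin_cases i <;> simp
  rwa [h6] at h5

end Pool.Agent.G4
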