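import Pool.Agent.G4.COP
import Pool.Agent.G4.DD3

/-!
# G4 / SBI

Sections disjoint from `(p, r)` and bitangents.  `sbf`: with `w = l (z - p) - r` (a polynomial in `z`), `w² - F(z) = -(z - p) q(l, z)`, `q(l, z) = z² + z (p + a - l²) + p² + a p + b + p l² + 2 r l`.  At
`z = p'`: `w = r'`, so `(p' - p) q(l, p') = 0`, `q(l, p') = 0` and `4 q = (2 z + p + a - l²)² - G(l)`.
`sbb`: reverse: `4 q(l, p') = q'² - G(l) = 0`, so `r'² = F(p')`.  `p' ≠ p`: otherwise `q(l, p) = cud A p + 2 r l = 0`; `r` has a zero `x ≠ 0` (`hom_zero`), there `cud A p (x) = 0`,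
contradiction to `cop`.
-/

namespace Pool.Agent.G4

open MvPolynomial Matrix
open Pool.Agent.PQ (P3 lin sb SF NS Bit)

theorem sbf {k : Type*} [Field k] (A : Fin 3 → P2 k) (p r p' r' : P2 k) (hs : Sec A p r)
    (hs' : Sec A p' r') (l : P2 k) (hne : p' ≠ p) (hE : r' + r = l * (p' - p)) :
    sl l (qy A p r) = (2 * p' + p + A 0 - l ^ 2) ^ 2 := by
  have h1 := hs.eq
  have h2 := hs'.eq
  unfold cub at h1 h2
  have hne' : p' - p ≠ 0 := sub_ne_zero.2 hne
  have hq : (p' - p) * (p' ^ 2 + p' * (p + A 0 - l ^ 2) + p ^ 2 + A 0 * p + A 1 + p * l ^ 2 + 2 * r * l) = 0 := by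
    have h3 : r' = l * (p' - p) - r := by rw [← hE]; ring
    rw [h3] at h2
    linear_combination -h2 + h1
  have hq' := (mul_eq_zero.1 hq).resolve_left hne'
  rw [sl_qy]
  linear_combination (-4) * hq'

theorem sbb {k : Type*} [Field k] [IsAlgClosed k] (h2 : (2 : k) ≠ 0) (A : Fin 3 → P2 k) (hA : TH A)
    (hNS : NS (tri A)) (p r : P2 k) (hs : Sec A p r) (l : P2 k) (hl : l.IsHomogeneous 1) (q : P2 k)
    (hq : q.IsHomogeneous 2) (hE : sl l (qy A p r) = q ^ 2) (p' : P2 k)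
    (hp' : 2 * p' = l ^ 2 - p - A 0 + q) : Sec A p' (l * (p' - p) - r) ∧ p' ≠ p := by
  have h2' : (2 : P2 k) ≠ 0 := by
    have h3 : (2 : P2 k) = C 2 := (map_ofNat C 2).symm
    rw [h3]
    exact C_ne_zero.2 h2
  have h4' : (4 : P2 k) ≠ 0 := by
    have h3 : (4 : P2 k) = 2 * 2 := by norm_num
    rw [h3]
    exact mul_ne_zero h2' h2'
  have h1 := hs.eq
  unfold cub at h1
  rw [sl_qy] at hE
  have hq0 : p' ^ 2 + p' * (p + A 0 - l ^ 2) + p ^ 2 + A 0 * p + A 1 + p * l ^ 2 + 2 * r * l = 0 := by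
    have h3 : 4 * (p' ^ 2 + p' * (p + A 0 - l ^ 2) + p ^ 2 + A 0 * p + A 1 + p * l ^ 2 + 2 * r * l) = 0 := by
      have h4 : q = 2 * p' + p + A 0 - l ^ 2 := by rw [hp']; ring
      rw [h4] at hE
      linear_combination -hE
    exact (mul_eq_zero.1 h3).resolve_left h4'
  have hA0 : (A 0).IsHomogeneous 2 := hA 0
  have hp'h : p'.IsHomogeneous 2 := by
    have h3 : p' = C (2⁻¹ : k) * (l ^ 2 - p - A 0 + q) := by
      rw [← hp']
      have h4 : (2 : P2 k) = C 2 := (map_ofNat C 2).symm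
      rw [h4, ← mul_assoc, ← C_mul, inv_mul_cancel₀ h2, C_1, one_mul]
    rw [h3]
    have h5 : (l ^ 2 - p - A 0 + q).IsHomogeneous 2 := by
      have h6 : (l ^ 2).IsHomogeneous 2 := by
        have := hl.pow 2
        simpa using this
      exact ((h6.sub hs.hp).sub hA0).add hq
    have := (isHomogeneous_C (Fin 2) (2⁻¹ : k)).mul h5
    simpa using this
  refine ⟨⟨hp'h, ?_, ?_⟩, ?_⟩
  · have h3 := hl.mul (hp'h.sub hs.hp)
    exact h3.sub hs.hr
  · unfold cub
    linear_combination h1 - (p' - p) * hq0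
  · rintro rfl
    obtain ⟨x, hx, hx0⟩ := hom_zero (by norm_num : 0 < 3) hs.hr
    apply cop A hNS p' r hs x hx hx0
    have h3 := congrArg (eval x) hq0
    unfold cud
    simp only [map_add, map_sub, map_mul, map_pow, map_ofNat, map_zero, hx0] at h3 ⊢
    linear_combination h3

end Pool.Agent.G4
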