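import Pool.Agent.G4.PTA
import Pool.Agent.G4.PTB
import Pool.Agent.G4.PTC
import Pool.Agent.G4.PTD
import Pool.Agent.G4.SBT
import Pool.Agent.G4.SBI
import Pool.Agent.G4.OBI
import Pool.Agent.G4.NSY
import Pool.Agent.PQ.BIN

/-!
# G4 / PTH

Any section `(q, s)` is connected to `(p, r)` by a path.  Suppose not `Opz p r q s`, not `Opz p r q (-s)`.  `pta`, `ptb_eq`: `G = qy A p r = B² + 4 D D'`, `B = em (2 q + p + a) - X 2 ^ 2`, `D = em (bl l) X 2 - em m`,
`D' = em (bl l') X 2 + em n`.  `ptb_dq`: `dq D ≠ 0`, `dq D' ≠ 0` (`c = -1`, `c = 1`; `l, l' ≠ 0` as `q ≠ p`).  `ptc`: `t ≠ 0`, `D' - t B - t² D = lin v lin w`.  Then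
`G = (B + 2 t D)² + 4 D lin v lin w` (`ring`), so `v` is a bitangent with the form `B + 2 t D` (`v ≠ 0`: otherwise `G = (B + 2 t D)²` is singular: it has a zero (`PQ.bin_zero`), and there all
derivatives vanish, contradiction to `nsy`).  `obi`: `v 2 ≠ 0`; scale `v` so that `v 2 = -1` (`Bit` for a multiple of `v`: adapt `S`).  `λ := bl ![v 0, v 1]`, `sbt`: `sl λ G = q'²`, `q' = sl λ (B + 2 t D) = 2 q + p + a - λ² + 2 t (l λ - m)`.
`sbb` with `p1 := q + t (l λ - m)` (`2 p1 = λ² - p - a + q'`): `(p1, r1)`, `r1 = λ (p1 - p) - r` is a section, `p1 ≠ p`, so `Opz p r p1 r1` (`λ`).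
`r1 - s = λ (q - p) + λ t (l λ - m) - r - s = l l' λ + λ t (l λ - m) - l' m = (l' + t λ) (l λ - m)` and `q - p1 = -t (l λ - m)`, so
`s + (-r1) = ((l' + t λ) / t) (q - p1)`: `Opz p1 (-r1) q s`, if `q ≠ p1`.  If `q = p1` then `l λ - m = 0` (`t ≠ 0`), so `bl l ∣ m`, contradiction.
-/

namespace Pool.Agent.G4

open MvPolynomial Matrix
open Pool.Agent.PQ (P3 lin sb SF NS Bit dq)

private theorem PTH_hC {k : Type*} [Field k] {σ : Type*} {f : MvPolynomial σ k} {n : ℕ}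
    (h : f.IsHomogeneous n) (c : k) : (C c * f).IsHomogeneous n := by
  have := (isHomogeneous_C σ c).mul h
  rwa [zero_add] at this

/-- the square of a quadratic form is not smooth -/
private theorem PTH_sq {k : Type*} [Field k] [IsAlgClosed k] (Q : P3 k) (hQ : Q.IsHomogeneous 2)
    (h : NS (Q ^ 2)) : False := by
  obtain ⟨x, hx, -, h0⟩ := Pool.Agent.PQ.bin_zero 0 Q 2 (by norm_num) hQ
  obtain ⟨i, hi⟩ := h x hx (by rw [map_pow, h0]; ring)
  apply hi
  rw [Derivation.leibniz_pow]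
  simp [h0]

theorem pth {k : Type*} [Field k] [CharZero k] [IsAlgClosed k] (A : Fin 3 → P2 k) (hA : TH A)
    (hNS : NS (tri A)) (p r q s : P2 k) (hs : Sec A p r) (hs' : Sec A q s) (hne : q ≠ p) :
    Opz p r q s ∨ Opz p r q (-s) ∨
      ∃ p1 r1 : P2 k, Sec A p1 r1 ∧ Opz p r p1 r1 ∧ Opz p1 (-r1) q s := by
  by_cases g1 : Opz p r q s
  · exact Or.inl g1
  by_cases g2 : Opz p r q (-s)
  · exact Or.inr (Or.inl g2)
  right
  right
  have h2 : (2 : k) ≠ 0 := two_ne_zero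
  obtain ⟨l, l', m, n, hm, hn, e1, e2, e3, d1, d2⟩ := pta A hA p r q s hs hs' hne g1 g2
  have hl : l ≠ 0 := by
    rintro rfl
    apply hne
    rw [← sub_eq_zero, e1]
    simp [bl]
  have hl' : l' ≠ 0 := by
    rintro rfl
    apply hne
    rw [← sub_eq_zero, e1]
    simp [bl]
  have hG := ptb_eq A p r q s hs hs' hne l l' m n e1 e2 e3
  obtain ⟨B, hB⟩ : ∃ B : P3 k, B = em (2 * q + p + A 0) - X 2 ^ 2 := ⟨_, rfl⟩
  obtain ⟨D, hD⟩ : ∃ D : P3 k, D = em (bl l) * X 2 - em m := ⟨_, rfl⟩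
  obtain ⟨D', hD'⟩ : ∃ D' : P3 k, D' = em (bl l') * X 2 + em n := ⟨_, rfl⟩
  have hG' : qy A p r = B ^ 2 + 4 * D * D' := by
    rw [hG, hB, hD, hD']
  have hX2 : (X 2 : P3 k).IsHomogeneous 1 := isHomogeneous_X k 2
  have hBh : B.IsHomogeneous 2 := by
    rw [hB]
    refine (em_hom ?_).sub ?_
    · refine IsHomogeneous.add (IsHomogeneous.add ?_ hs.hp) ?_
      · have := PTH_hC hs'.hp (2 : k)
        rwa [map_ofNat] at this
      · have := hA 0
        simpa using this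
    · have := hX2.pow 2
      rwa [one_mul] at this
  have hDh : D.IsHomogeneous 2 := by
    rw [hD]
    exact ((em_hom (bl_hom l)).mul hX2).sub (em_hom hm)
  have hDh' : D'.IsHomogeneous 2 := by
    rw [hD']
    exact ((em_hom (bl_hom l')).mul hX2).add (em_hom hn)
  have q1 : dq D ≠ 0 := by
    have := ptb_dq h2 l hl m hm d1 (-1) (by norm_num)
    rw [hD]
    convert this using 2
    rw [C_neg, C_1]
    ring
  have q2 : dq D' ≠ 0 := by
    have := ptb_dq h2 l' hl' n hn d2 1 (by norm_num)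
    rw [hD']
    convert this using 2
    rw [C_1]
    ring
  obtain ⟨t, ht, v, w, hvw⟩ := ptc h2 B D D' hBh hDh hDh' q1 q2
  obtain ⟨Q, hQ⟩ : ∃ Q : P3 k, Q = B + C (2 * t) * D := ⟨_, rfl⟩
  have hQh : Q.IsHomogeneous 2 := by
    rw [hQ]
    exact hBh.add (PTH_hC hDh _)
  have hGQ : qy A p r = Q ^ 2 + lin v * (4 * D * lin w) := by
    have e : D' = lin v * lin w + C t * B + C (t ^ 2) * D := by
      rw [← hvw]
      ring
    rw [hG', hQ, e, C_mul, C_pow, map_ofNat]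
    ring
  have hnsy : NS (qy A p r) := nsy h2 A hA hNS p r hs
  have hv : v ≠ 0 := by
    rintro rfl
    rw [Pool.Agent.PQ.lin_zero, zero_mul, add_zero] at hGQ
    rw [hGQ] at hnsy
    exact PTH_sq Q hQh hnsy
  have hSh : (4 * D * lin w).IsHomogeneous 3 := by
    have h4 := PTH_hC hDh (4 : k)
    rw [map_ofNat] at h4
    exact h4.mul (Pool.Agent.PQ.lin_hom w)
  have hbit : Bit (qy A p r) v Q := ⟨hQh, _, hSh, hGQ⟩
  have hv2 := obi h2 A hA hNS p r hs v hv Q hbit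
  obtain ⟨v', hv'⟩ : ∃ v' : Fin 3 → k, v' = (-(v 2)⁻¹) • v := ⟨_, rfl⟩
  have hv'2 : v' 2 = -1 := by
    rw [hv', Pi.smul_apply, smul_eq_mul]
    field_simp
  have hbit' : Bit (qy A p r) v' Q := by
    refine ⟨hQh, C (-(v 2)) * (4 * D * lin w), PTH_hC hSh _, ?_⟩
    rw [hGQ, hv', Pool.Agent.PQ.lin_smul]
    have e : C (-(v 2)⁻¹) * C (-(v 2)) = (1 : P3 k) := by
      rw [← C_mul, neg_mul_neg, inv_mul_cancel₀ hv2, C_1]
    linear_combination (-lin v * (4 * D * lin w)) * e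
  obtain ⟨lam, hlam⟩ : ∃ lam : P2 k, lam = bl ![v' 0, v' 1] := ⟨_, rfl⟩
  have hlamh : lam.IsHomogeneous 1 := by
    rw [hlam]
    exact bl_hom _
  obtain ⟨hE, hq'⟩ := sbt (qy A p r) v' hv'2 Q hbit'
  rw [← hlam] at hE hq'
  have hslQ : sl lam Q = 2 * q + p + A 0 - lam ^ 2 + C (2 * t) * (bl l * lam - m) := by
    rw [hQ, hB, hD]
    simp only [map_add, map_sub, map_mul, map_pow, sl_X2, sl_C, sl_em]
  obtain ⟨p1, hp1⟩ : ∃ p1 : P2 k, p1 = q + C t * (bl l * lam - m) := ⟨_, rfl⟩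
  obtain ⟨hsec, hne1⟩ := sbb h2 A hA hNS p r hs lam hlamh (sl lam Q) hq' hE p1 (by
    rw [hslQ, hp1, C_mul, map_ofNat]
    ring)
  refine ⟨p1, lam * (p1 - p) - r, hsec, ⟨hne1, lam, hlamh, by ring⟩, ?_, C t⁻¹ * (bl l' + C t * lam),
    PTH_hC ((bl_hom l').add (PTH_hC hlamh _)) _, ?_⟩
  · intro hqp
    have e4 : C t * (bl l * lam - m) = 0 := by
      have : p1 - q = 0 := by rw [← hqp, sub_self]
      rw [hp1] at this
      linear_combination this
    rcases mul_eq_zero.1 e4 with h5 | h5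
    · exact ht (by rwa [C_eq_zero] at h5)
    · exact d1 ⟨lam, by linear_combination -h5⟩
  · have e : C t⁻¹ * C t = (1 : P2 k) := by
      rw [← C_mul, inv_mul_cancel₀ ht, C_1]
    rw [hp1]
    linear_combination (bl l' * (bl l * lam - m) + C t * lam * (bl l * lam - m)) * e + e2 - lam * e1

end Pool.Agent.G4
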