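import Pool.Agent.G4.TLB
import Pool.Agent.PQ.TRF
import Pool.Agent.PQ.BTX
import Pool.Agent.PQ.RNZ
import Pool.Agent.PQ.BIN

/-!
# G4 / UNR

Let `G` be a smooth quartic over an algebraically closed field none of whose bitangents passes through `e_2 = (0, 0, 1)`, `G(e_2) ≠ 0`, `sb h G = C c * RB b`, `W = h⁻¹ e_2` (column 2 of `h⁻¹`).  If `v ≠ 0` is a bitangent of
`RB b` then `v ᵥ* h⁻¹` is one of `G` (as in `PQ/DGR.lean`, `dgr_bit`: `scl_bit`, `trf_bit`, `sb_inv`), so `0 ≠ (v ᵥ* h⁻¹) 2 = v ⬝ᵥ W`.  Bitangents: `Pi.single i 1`, `yy b i` (`PQ.bit_x`, `PQ.bit_y`; `yy b i ≠ 0` by `PQ.det_yy`), `b 0 = (1, 1, 1)`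
(`PQ.bit_s`, `PQ.rel_field`), `tl b 1 2`, `tl b 2 1` (`tlb`; if `tl = 0` then `RB b = Q²`, which has a singular point (`PQ.bin_zero`), but `RB b` is smooth: `PQ.ns_sb`).
`RB b (W) = c⁻¹ G(h W) = c⁻¹ G(e_2)` (`PQ.eval_sb`).
So all entries of `tv b W` are `≠ 0`, and the same for `oo h = (W 0)⁻¹ • W` (`tv` is homogeneous of degree 2 in the point, `RB b` of degree 4).
-/

namespace Pool.Agent.G4

open MvPolynomial Matrix
open Pool.Agent.PQ (P3 lin sb SF NS Bit RB yy ka ND)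

private theorem unr_bit {C : Type*} [Field C] [IsAlgClosed C] (F : P3 C)
    (h : Matrix (Fin 3) (Fin 3) C) (hh : h.det ≠ 0) (c : C) (G : P3 C)
    (hE : sb h F = MvPolynomial.C c * G) (v : Fin 3 → C) (Q : P3 C) (hb : Bit G v Q) :
    ∃ Q', Bit F (v ᵥ* h⁻¹) Q' := by
  obtain ⟨e, he⟩ := IsAlgClosed.exists_pow_nat_eq c (n := 2) (by norm_num)
  have h1 := PQ.scl_bit hb 1 e one_ne_zero
  rw [he, ← hE, one_smul] at h1
  have h2 := PQ.trf_bit h⁻¹ h1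
  rw [PQ.sb_inv h hh] at h2
  exact ⟨_, h2⟩

theorem unr {k : Type*} [Field k] [IsAlgClosed k] (h2 : (2 : k) ≠ 0) (G : P3 k) (hNS : NS G)
    (hO : ∀ (v : Fin 3 → k) (Q : P3 k), v ≠ 0 → Bit G v Q → v 2 ≠ 0) (hG : eval (Pi.single 2 1) G ≠ 0)
    (h : Matrix (Fin 3) (Fin 3) k) (hh : h.det ≠ 0) (c : k) (hc : c ≠ 0) (b : Fin 4 → Fin 3 → k) (hb : ND b)
    (hE : sb h G = C c * RB b) (W : Fin 3 → k) (hW : W = fun i => h⁻¹ i 2) :
    (∀ i, W i ≠ 0) ∧ (∀ j i, tv b W j i ≠ 0) ∧ eval W (RB b) ≠ 0 := by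
  have hhi : h⁻¹ * h = 1 := Matrix.nonsing_inv_mul _ (isUnit_iff_ne_zero.2 hh)
  have hih : h * h⁻¹ = 1 := Matrix.mul_nonsing_inv _ (isUnit_iff_ne_zero.2 hh)
  have hback : ∀ v : Fin 3 → k, (v ᵥ* h⁻¹) ᵥ* h = v := by
    intro v
    rw [Matrix.vecMul_vecMul, hhi, Matrix.vecMul_one]
  have key : ∀ (v : Fin 3 → k) (Q : P3 k), v ≠ 0 → Bit (RB b) v Q → v ⬝ᵥ W ≠ 0 := by
    intro v Q hv hQ
    obtain ⟨Q', hQ'⟩ := unr_bit G h hh c (RB b) hE v Q hQ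
    have hv' : v ᵥ* h⁻¹ ≠ 0 := by
      intro h0
      apply hv
      rw [← hback v, h0, Matrix.zero_vecMul]
    have h3 := hO _ _ hv' hQ'
    have e : v ⬝ᵥ W = (v ᵥ* h⁻¹) 2 := by
      rw [hW]; rfl
    rwa [e]
  -- the model is smooth
  have hNSb : NS (RB b) := by
    have h3 := PQ.ns_sb hh hNS
    rw [hE] at h3
    intro p hp hp0
    obtain ⟨i, hi⟩ := h3 p hp (by rw [map_mul, hp0, mul_zero])
    refine ⟨i, fun h4 => hi ?_⟩
    rw [pderiv_C_mul, map_mul, h4, mul_zero]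
  have hW0 : ∀ i, W i ≠ 0 := by
    intro i
    have h3 := key (Pi.single i 1) _ (by
      intro h0
      have := congrFun h0 i
      rw [Pi.single_eq_same, Pi.zero_apply] at this
      exact one_ne_zero this) (PQ.bit_x (yy b) i)
    rwa [single_one_dotProduct] at h3
  have hY : ∀ i, yy b i ⬝ᵥ W ≠ 0 := by
    intro i
    refine key (yy b i) _ ?_ (PQ.bit_y (yy b) i)
    intro h0
    apply PQ.det_yy b hb
    exact Matrix.det_eq_zero_of_row_eq_zero i fun j => congrFun h0 j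
  have hS : W 0 + W 1 + W 2 ≠ 0 := by
    have h3 := key (b 0) _ (fun h0 => hb.ne 0 0 (congrFun h0 0))
      (PQ.bit_s (b 0) (hb.ne 0) (yy b) _ (PQ.rel_field b 0 (hb.ne 0)))
    have e : b 0 ⬝ᵥ W = W 0 + W 1 + W 2 := by
      simp [dotProduct, Fin.sum_univ_three, hb.zero]
    rwa [e] at h3
  have hT : ∀ i j : Fin 3, (i = 1 ∧ j = 2) ∨ (i = 2 ∧ j = 1) → tl b i j ⬝ᵥ W ≠ 0 := by
    intro i j hij
    obtain ⟨Q, hQ⟩ := tlb b hb.zero i j hij
    refine key _ Q ?_ hQ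
    intro h0
    obtain ⟨hQh, S, -, hS⟩ := hQ
    rw [h0, PQ.lin_zero, zero_mul, add_zero] at hS
    obtain ⟨p, hp, -, hpQ⟩ := PQ.bin_zero 0 Q 2 (by norm_num) hQh
    obtain ⟨i, hi⟩ := hNSb p hp (by rw [hS, map_pow, hpQ]; ring)
    apply hi
    rw [hS, sq, Derivation.leibniz, smul_eq_mul, map_add, map_mul, hpQ]
    ring
  refine ⟨hW0, ?_, ?_⟩
  · intro j i
    have t12 := hT 1 2 (Or.inl ⟨rfl, rfl⟩)
    have t21 := hT 2 1 (Or.inr ⟨rfl, rfl⟩)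
    fin_cases j <;> fin_cases i
    · exact mul_ne_zero (hW0 0) (hY 0)
    · exact mul_ne_zero (hW0 1) (hY 1)
    · exact mul_ne_zero (hW0 2) (hY 2)
    · exact mul_ne_zero (hW0 0) (hY 1)
    · exact mul_ne_zero (hW0 1) (hY 0)
    · exact mul_ne_zero hS t12
    · exact mul_ne_zero (hW0 0) (hY 2)
    · exact mul_ne_zero (hW0 2) (hY 0)
    · exact mul_ne_zero hS t21
  · intro h0
    apply hG
    have e1 : h *ᵥ W = Pi.single 2 1 := by
      have e2 : W = h⁻¹ *ᵥ Pi.single 2 1 := by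
        rw [hW, Matrix.mulVec_single_one]
        rfl
      rw [e2, Matrix.mulVec_mulVec, hih, Matrix.one_mulVec]
    rw [← e1, ← PQ.eval_sb, hE, map_mul, h0, mul_zero]

theorem tv_smul {R : Type*} [CommRing R] (b : Fin 4 → Fin 3 → R) (c : R) (o : Fin 3 → R) (j i : Fin 3) :
    tv b (c • o) j i = c ^ 2 * tv b o j i := by
  fin_cases j <;> fin_cases i <;> simp [tv, dotProduct_smul] <;> ring

end Pool.Agent.G4
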