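import Pool.Agent.G4.BSC

/-!
# G4 / WTR

Transformation of curves, sections and quartics.  `wsb_tr`: compare the coefficients of `z², z, 1`: write both sides as `em f3 X 2 ^ 3 + em f2 X 2 ^ 2 + em f1 X 2 + em f0` (such a representation is unique: `trx_uniq`, e.g.
`f0 = sl 0 F`, derivative with respect to `X 2` ...; or `em f2 X 2 ^ 2 + em f1 X 2 + em f0 = 0` implies `f_i = 0`: apply `sl c` for `c = 0`, and use degrees in `X 2`, or apply `pderiv 2` repeatedly and `sl 0`; the
coefficient of `X 2 ^ 2` gives `2 f2 = 0`, avoid this by `sl 1`: `f2 + f1 + f0 = 0` with `f0 = 0` (`sl 0`) and `f1 = 0` (`pderiv 2`, `sl 0`)).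
`wsb g l q (tri A) = (l z + q)³ + a' (l z + q)² + b' (l z + q) + c'` with `a' = bsb g (A 0)` etc. (`wsb` on `em f` is `em (bsb g f)`).
-/

namespace Pool.Agent.G4

open MvPolynomial Matrix
open Pool.Agent.PQ (P3 lin sb SF NS Bit)

private theorem WTR_em {k : Type*} [Field k] (g : Matrix (Fin 2) (Fin 2) k) (l : k) (q f : P2 k) :
    wsb g l q (em f) = em (bsb g f) := by
  have h : (wsb g l q).comp em = (em : P2 k →ₐ[k] P3 k).comp (bsb g) := by
    refine algHom_ext fun i => ?_
    rw [AlgHom.comp_apply, AlgHom.comp_apply, bsb_X]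
    fin_cases i
    · change wsb g l q (em (X 0)) = em (bl (g 0))
      rw [em_X0, wsb, aeval_X]
      rfl
    · change wsb g l q (em (X 1)) = em (bl (g 1))
      rw [em_X1, wsb, aeval_X]
      rfl
  have := congrArg (fun F => F f) h
  simpa using this

private theorem WTR_X2 {k : Type*} [Field k] (g : Matrix (Fin 2) (Fin 2) k) (l : k) (q : P2 k) :
    wsb g l q (X 2) = C l * X 2 + em q := by
  rw [wsb, aeval_X]
  rfl

private theorem WTR_uniq {k : Type*} [Field k] (f2 f1 f0 : P2 k)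
    (h : em f2 * X 2 ^ 2 + em f1 * X 2 + em f0 = 0) : f2 = 0 ∧ f1 = 0 ∧ f0 = 0 := by
  have h0 : f0 = 0 := by
    have := congrArg (sl 0) h
    simpa [sl_em, sl_X2] using this
  have h1 : f1 = 0 := by
    have h' := congrArg (pderiv 2) h
    have h'' := congrArg (sl 0) h'
    simpa [sl_em, sl_X2, pderiv_em2, Derivation.leibniz_pow, Derivation.leibniz, pderiv_X_self] using h''
  have h2 : f2 = 0 := by
    have := congrArg (sl 1) h
    simpa [sl_em, sl_X2, h0, h1] using this
  exact ⟨h2, h1, h0⟩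

theorem wsb_tr {k : Type*} [Field k] (g : Matrix (Fin 2) (Fin 2) k) (l : k) (q : P2 k) (A A' : Fin 3 → P2 k)
    (h : C (l ^ 3) * tri A' = wsb g l q (tri A)) (hl : l ≠ 0) : Tr g l q A A' := by
  have hC : (C l : P2 k) ≠ 0 := by
    rw [Ne, C_eq_zero]
    exact hl
  have h1 : wsb g l q (tri A) = (C l * X 2 + em q) ^ 3 + em (bsb g (A 0)) * (C l * X 2 + em q) ^ 2 +
      em (bsb g (A 1)) * (C l * X 2 + em q) + em (bsb g (A 2)) := by
    simp only [tri, map_add, map_mul, map_pow, WTR_em, WTR_X2]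
  rw [h1] at h
  have hCl : (C l : P3 k) = em (C l) := (em_C l).symm
  have h2 := WTR_uniq (C l ^ 3 * A' 0 - 3 * C l ^ 2 * q - C l ^ 2 * bsb g (A 0))
    (C l ^ 3 * A' 1 - 3 * C l * q ^ 2 - 2 * C l * bsb g (A 0) * q - C l * bsb g (A 1))
    (C l ^ 3 * A' 2 - (q ^ 3 + bsb g (A 0) * q ^ 2 + bsb g (A 1) * q + bsb g (A 2))) (by
      rw [tri, C_pow, hCl] at h
      simp only [map_sub, map_mul, map_pow, map_add, map_ofNat]
      linear_combination h)
  obtain ⟨e2, e1, e0⟩ := h2
  refine ⟨?_, ?_, ?_⟩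
  · have : C l ^ 2 * (C l * A' 0 - (3 * q + bsb g (A 0))) = 0 := by linear_combination e2
    rcases mul_eq_zero.1 this with h3 | h3
    · exact absurd h3 (pow_ne_zero _ hC)
    · exact sub_eq_zero.1 h3
  · rw [C_pow]
    have : C l * (C l ^ 2 * A' 1 - (3 * q ^ 2 + 2 * bsb g (A 0) * q + bsb g (A 1))) = 0 := by
      linear_combination e1
    rcases mul_eq_zero.1 this with h3 | h3
    · exact absurd h3 hC
    · exact sub_eq_zero.1 h3
  · rw [C_pow]
    exact sub_eq_zero.1 e0

end Pool.Agent.G4
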